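import Pool.Agent.P.MP_a3bdf6_co.Basic

/-! Menger's theorem for digraphs (vertex version). -/

namespace Pool.Agent.P.MP_a3bdf6_co

open Classical

variable {V : Type*}

theorem Lk.end_only {E : V → V → Prop} {A B : Finset V} {T : Finset (List V)} (h : Lk E A B T)
    (hc : B.card ≤ T.card) {P : List V} (hP : P ∈ T) {a b z : V} (hw : Wk E a b P) (hz : z ∈ P)
    (hzB : z ∈ B) : z = b := by
  obtain ⟨P', hP', a', -, h1⟩ := h.cover_end hc hzB
  have := h.2 P hP P' hP' z hz h1.last_mem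
  subst this
  exact (h1.ends_unique hw).2

theorem Lk.start_only {E : V → V → Prop} {A B : Finset V} {T : Finset (List V)} (h : Lk E A B T)
    (hc : A.card ≤ T.card) {P : List V} (hP : P ∈ T) {a b z : V} (hw : Wk E a b P) (hz : z ∈ P)
    (hzA : z ∈ A) : z = a := by
  obtain ⟨P', hP', a', -, h1⟩ := h.cover_start hc hzA
  have := h.2 P hP P' hP' z hz h1.head_mem
  subst this
  exact (h1.ends_unique hw).1

theorem menger_aux (k : ℕ) (F : Finset (V × V)) : ∀ (A B : Finset V),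
    (∀ Y : Finset V, Y.card < k → ∃ a ∈ A, ∃ b ∈ B, Rch (fun x y => (x, y) ∈ F) {z | z ∉ Y} a b) →
    ∃ T, Lk (fun x y => (x, y) ∈ F) A B T ∧ T.card = k := by
  induction F using Finset.strongInduction with
  | _ F ih =>
  intro A B h
  rcases F.eq_empty_or_nonempty with rfl | ⟨⟨x, y⟩, he⟩
  · have : k ≤ (A ∩ B).card := by
      by_contra hc
      obtain ⟨a, ha, b, hb, l, h1, h2⟩ := h (A ∩ B) (by omega)
      cases h1 with
      | single => exact h2 a (by simp) (by simp [ha, hb])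
      | cons h3 _ => simp at h3
    obtain ⟨S, hS, rfl⟩ := Finset.exists_subset_card_eq this
    refine Lk.of_sets S (fun v => {v}) (fun v hv => ?_) ?_
    · have := Finset.mem_inter.1 (hS hv)
      exact ⟨v, this.1, v, this.2, Rch.refl rfl⟩
    · intro i _ j _ z hi hj
      exact hi.symm.trans hj
  set F' := F.erase (x, y) with hF'
  have hss : F' ⊂ F := Finset.erase_ssubset he
  by_cases h' : ∀ Y : Finset V, Y.card < k →
      ∃ a ∈ A, ∃ b ∈ B, Rch (fun x y => (x, y) ∈ F') {z | z ∉ Y} a b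
  · obtain ⟨T, h1, h2⟩ := ih F' hss A B h'
    exact ⟨T, h1.monoE fun _ _ hh => hss.subset hh, h2⟩
  push Not at h'
  obtain ⟨S, hSk, hS⟩ := h'
  have sepx : ∀ a ∈ A, ∀ b ∈ B, ¬ Rch (fun x y => (x, y) ∈ F) {z | z ∉ insert x S} a b := by
    intro a ha b hb hr
    refine hS a ha b hb ((hr.monoE ?_).mono ?_)
    · intro u hu v _ huv
      refine Finset.mem_erase.2 ⟨?_, huv⟩
      intro hh; simp only [Prod.mk.injEq] at hh; simp [hh.1] at hu
    · intro z hz; simp at hz ⊢; exact hz.2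
  have sepy : ∀ a ∈ A, ∀ b ∈ B, ¬ Rch (fun x y => (x, y) ∈ F) {z | z ∉ insert y S} a b := by
    intro a ha b hb hr
    refine hS a ha b hb ((hr.monoE ?_).mono ?_)
    · intro u _ v hv huv
      refine Finset.mem_erase.2 ⟨?_, huv⟩
      intro hh; simp only [Prod.mk.injEq] at hh; simp [hh.2] at hv
    · intro z hz; simp at hz ⊢; exact hz.2
  have cx : k ≤ (insert x S).card := by
    by_contra hc
    obtain ⟨a, ha, b, hb, h1⟩ := h (insert x S) (by omega)
    exact sepx a ha b hb h1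
  have cy : k ≤ (insert y S).card := by
    by_contra hc
    obtain ⟨a, ha, b, hb, h1⟩ := h (insert y S) (by omega)
    exact sepy a ha b hb h1
  have hx : x ∉ S := fun hx => by rw [Finset.insert_eq_of_mem hx] at cx; omega
  have hy : y ∉ S := fun hy => by rw [Finset.insert_eq_of_mem hy] at cy; omega
  have cx' : (insert x S).card = k := by rw [Finset.card_insert_of_notMem hx] at cx ⊢; omega
  have cy' : (insert y S).card = k := by rw [Finset.card_insert_of_notMem hy] at cy ⊢; omega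
  obtain ⟨T1, hT1, hc1⟩ := ih F' hss A (insert x S) (by
    intro Y hY
    obtain ⟨a, ha, b, hb, l, h1, h2⟩ := h Y hY
    obtain ⟨z, hz, hzS⟩ : ∃ z ∈ l, z ∈ insert x S := by
      by_contra hc
      push Not at hc
      exact sepx a ha b hb ⟨l, h1, hc⟩
    obtain ⟨l1, l2, rfl, h3, -⟩ := h1.split hz
    obtain ⟨p, q, m, k1, k2, k3, k4, k5, -, k7⟩ := h3.trim (· ∈ A) (· ∈ insert x S) ha hzS
    refine ⟨p, k4, q, k5, m, k1.mono' k2 ?_, fun w hw => h2 w ?_⟩
    · intro u hu v _ huq _ huv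
      refine Finset.mem_erase.2 ⟨?_, huv⟩
      intro hh; simp only [Prod.mk.injEq] at hh
      exact huq (k7 u hu (by simp [hh.1]))
    · have := k3 hw; simp at this ⊢; tauto)
  obtain ⟨T2, hT2, hc2⟩ := ih F' hss (insert y S) B (by
    intro Y hY
    obtain ⟨a, ha, b, hb, l, h1, h2⟩ := h Y hY
    obtain ⟨z, hz, hzS⟩ : ∃ z ∈ l, z ∈ insert y S := by
      by_contra hc
      push Not at hc
      exact sepy a ha b hb ⟨l, h1, hc⟩
    obtain ⟨l1, l2, rfl, -, h3⟩ := h1.split hz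
    obtain ⟨p, q, m, k1, k2, k3, k4, k5, k6, -⟩ := h3.trim (· ∈ insert y S) (· ∈ B) hzS hb
    refine ⟨p, k4, q, k5, m, k1.mono' k2 ?_, fun w hw => h2 w ?_⟩
    · intro u _ v hv _ hvp huv
      refine Finset.mem_erase.2 ⟨?_, huv⟩
      intro hh; simp only [Prod.mk.injEq] at hh
      exact hvp (k6 v hv (by simp [hh.2]))
    · have := k3 hw; simp at this ⊢; tauto)
  have e1 : ∀ s ∈ insert x S, ∃ P ∈ T1, ∃ a ∈ A, Wk (fun x y => (x, y) ∈ F') a s P :=
    fun s hs => hT1.cover_end (by omega) hs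
  have e2 : ∀ s ∈ insert y S, ∃ P ∈ T2, ∃ b ∈ B, Wk (fun x y => (x, y) ∈ F') s b P :=
    fun s hs => hT2.cover_start (by omega) hs
  choose! f1 hf1 hf1' using e1
  choose! f2 hf2 hf2' using e2
  have cross : ∀ s ∈ insert x S, ∀ s' ∈ insert y S, ∀ z ∈ f1 s, z ∈ f2 s' → z = s ∧ z = s' := by
    intro s hs s' hs' z hz hz'
    obtain ⟨a, ha, w1⟩ := hf1' s hs
    obtain ⟨b, hb, w2⟩ := hf2' s' hs'
    by_cases hzS : z ∈ S
    · exact ⟨hT1.end_only (by omega) (hf1 s hs) w1 hz (by simp [hzS]),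
        hT2.start_only (by omega) (hf2 s' hs') w2 hz' (by simp [hzS])⟩
    · exfalso
      refine hS a ha b hb (((w1.rch_left (hT1.1 _ (hf1 s hs)).1 hz).mono ?_).trans
        ((w2.rch_right (hT2.1 _ (hf2 s' hs')).1 hz').mono ?_))
      · rintro w ⟨hw1, hw2⟩ hwS
        exact hzS (hw2 (hT1.end_only (by omega) (hf1 s hs) w1 hw1 (by simp [hwS])) ▸ hwS)
      · rintro w ⟨hw1, hw2⟩ hwS
        exact hzS (hw2 (hT2.start_only (by omega) (hf2 s' hs') w2 hw1 (by simp [hwS])) ▸ hwS)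
  let σ : V → V := fun s => if s = x then y else s
  have hσ : ∀ s ∈ insert x S, σ s ∈ insert y S := by
    intro s hs
    by_cases hsx : s = x
    · simp [σ, hsx]
    · simp [σ, hsx] at hs ⊢; exact Or.inr hs
  have hσi : ∀ s ∈ insert x S, ∀ s' ∈ insert x S, σ s = σ s' → s = s' := by
    intro s hs s' hs' hh
    by_cases hsx : s = x <;> by_cases hsx' : s' = x
    · rw [hsx, hsx']
    · simp [σ, hsx, hsx'] at hs' hh
      exact absurd (hh ▸ hs') hy
    · simp [σ, hsx, hsx'] at hs hh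
      exact absurd (hh ▸ hs) hy
    · simpa [σ, hsx, hsx'] using hh
  have hxy : x ≠ y := by
    rintro rfl
    obtain ⟨a, ha, w1⟩ := hf1' x (by simp)
    obtain ⟨b, hb, w2⟩ := hf2' x (by simp)
    refine hS a ha b hb ((w1.rch.mono ?_).trans (w2.rch.mono ?_))
    · intro w hw hwS
      exact hx (hT1.end_only (by omega) (hf1 x (by simp)) w1 hw (by simp [hwS]) ▸ hwS)
    · intro w hw hwS
      exact hx (hT2.start_only (by omega) (hf2 x (by simp)) w2 hw (by simp [hwS]) ▸ hwS)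
  rw [← cx']
  refine Lk.of_sets (insert x S) (fun s => {z | z ∈ f1 s ∨ z ∈ f2 (σ s)}) ?_ ?_
  · intro s hs
    obtain ⟨a, ha, w1⟩ := hf1' s hs
    obtain ⟨b, hb, w2⟩ := hf2' _ (hσ s hs)
    have r1 : Rch (fun x y => (x, y) ∈ F) {z | z ∈ f1 s ∨ z ∈ f2 (σ s)} a s :=
      (w1.rch.monoE fun _ _ _ _ hh => hss.subset hh).mono fun z hz => Or.inl hz
    have r2 : Rch (fun x y => (x, y) ∈ F) {z | z ∈ f1 s ∨ z ∈ f2 (σ s)} (σ s) b :=
      (w2.rch.monoE fun _ _ _ _ hh => hss.subset hh).mono fun z hz => Or.inr hz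
    refine ⟨a, ha, b, hb, Rch.trans ?_ r2⟩
    by_cases hsx : s = x
    · refine r1.tail ?_ r2.left
      simp [σ, hsx, he]
    · simpa [σ, hsx] using r1
  · have key : ∀ s ∈ insert x S, ∀ s' ∈ insert x S, ∀ z ∈ f1 s, z ∈ f2 (σ s') → s = s' := by
      intro s hs s' hs' z hz hz'
      obtain ⟨h1, h2⟩ := cross s hs _ (hσ s' hs') z hz hz'
      by_cases hsx : s' = x
      · simp only [σ, hsx, if_true] at h2
        rw [← h1, h2] at hs
        simp [hy, hxy.symm] at hs
      · simp only [σ, hsx, if_false] at h2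
        exact h1.symm.trans h2
    rintro s hs s' hs' z (hz | hz) (hz' | hz')
    · obtain ⟨a, -, w1⟩ := hf1' s hs
      obtain ⟨a', -, w2⟩ := hf1' s' hs'
      have := hT1.2 _ (hf1 s hs) _ (hf1 s' hs') z hz hz'
      rw [this] at w1
      exact (w1.ends_unique w2).2
    · exact key s hs s' hs' z hz hz'
    · exact (key s' hs' s hs z hz' hz).symm
    · obtain ⟨a, -, w1⟩ := hf2' _ (hσ s hs)
      obtain ⟨a', -, w2⟩ := hf2' _ (hσ s' hs')
      have := hT2.2 _ (hf2 _ (hσ s hs)) _ (hf2 _ (hσ s' hs')) z hz hz'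
      rw [this] at w1
      exact hσi s hs s' hs' (w1.ends_unique w2).1

theorem menger [Fintype V] (E : V → V → Prop) (A B : Finset V) (k : ℕ)
    (h : ∀ Y : Finset V, Y.card < k → ∃ a ∈ A, ∃ b ∈ B, Rch E {z | z ∉ Y} a b) :
    ∃ T, Lk E A B T ∧ T.card = k := by
  have : E = fun x y => (x, y) ∈ Finset.univ.filter fun e : V × V => E e.1 e.2 := by
    ext x y; simp
  rw [this] at h ⊢
  exact menger_aux k _ A B h

end Pool.Agent.P.MP_a3bdf6_co
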