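import Mathlib

/-! Walks, reachability, boundaries and linkages in a finite digraph given as a relation. -/

namespace Pool.Agent.P.MP_a3bdf6_co

open Classical

set_option linter.unusedSectionVars false

variable {V : Type*}

/-- directed walk from the first to the second vertex with the given vertex list -/
inductive Wk (E : V → V → Prop) : V → V → List V → Prop
  | single (a : V) : Wk E a a [a]
  | cons {a b c : V} {l : List V} : E a b → Wk E b c l → Wk E a c (a :: l)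

namespace Wk

variable {E E' : V → V → Prop} {a b c d : V} {l l' : List V}

theorem eq_cons (h : Wk E a b l) : ∃ l', l = a :: l' := by
  cases h <;> exact ⟨_, rfl⟩

theorem head_mem (h : Wk E a b l) : a ∈ l := by
  obtain ⟨l', rfl⟩ := h.eq_cons; simp

theorem last_mem (h : Wk E a b l) : b ∈ l := by
  induction h with
  | single => simp
  | cons _ _ ih => simp [ih]

theorem ne_nil (h : Wk E a b l) : l ≠ [] := List.ne_nil_of_mem h.head_mem

theorem eq_concat (h : Wk E a b l) : ∃ l', l = l' ++ [b] := by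
  induction h with
  | single => exact ⟨[], rfl⟩
  | cons _ _ ih => obtain ⟨l', rfl⟩ := ih; exact ⟨_ :: l', rfl⟩

theorem chain (h : Wk E a b l) : l.IsChain E := by
  induction h with
  | single => simp
  | cons h1 h2 ih =>
    obtain ⟨l', rfl⟩ := h2.eq_cons
    exact List.isChain_cons_cons.2 ⟨h1, ih⟩

theorem of_chain : ∀ (l : List V) (a b : V), (a :: l).IsChain E → (a :: l).getLast? = some b →
    Wk E a b (a :: l)
  | [], a, b, _, h => by
    simp at h; subst h; exact single a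
  | x :: l, a, b, h, h' => by
    rw [List.isChain_cons_cons] at h
    exact cons h.1 (of_chain l x b h.2 (by simpa using h'))

theorem of_chain' {l : List V} {a b : V} (h : (a :: l ++ [b]).IsChain E) :
    Wk E a b (a :: l ++ [b]) :=
  of_chain (l ++ [b]) a b h (by
    rw [← List.cons_append, List.getLast?_append]; simp)

theorem exists_of_chain {l : List V} (h : l.IsChain E) (hl : l ≠ []) : ∃ a b, Wk E a b l := by
  obtain ⟨a, l, rfl⟩ := List.exists_cons_of_ne_nil hl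
  exact ⟨a, (a :: l).getLast hl, of_chain l a _ h (List.getLast?_eq_some_getLast hl)⟩

theorem ends_unique {E' : V → V → Prop} (h : Wk E a b l) (h' : Wk E' c d l) : a = c ∧ b = d := by
  obtain ⟨l1, h1⟩ := h.eq_cons
  obtain ⟨l2, h2⟩ := h'.eq_cons
  obtain ⟨l3, h3⟩ := h.eq_concat
  obtain ⟨l4, h4⟩ := h'.eq_concat
  constructor
  · rw [h1] at h2; exact (List.cons.inj h2).1
  · rw [h3] at h4; simpa using (List.append_inj' h4 rfl).2

theorem mono (h : Wk E a b l) (hE : ∀ x ∈ l, ∀ y ∈ l, E x y → E' x y) : Wk E' a b l := by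
  induction h with
  | single => exact single _
  | cons h1 h2 ih =>
    exact cons (hE _ (by simp) _ (by simp [h2.head_mem]) h1)
      (ih fun x hx y hy => hE x (by simp [hx]) y (by simp [hy]))

theorem mono' (h : Wk E a b l) (hn : l.Nodup)
    (hE : ∀ x ∈ l, ∀ y ∈ l, x ≠ b → y ≠ a → E x y → E' x y) : Wk E' a b l := by
  induction h with
  | single => exact single _
  | @cons a b c l h1 h2 ih =>
    rw [List.nodup_cons] at hn
    refine cons (hE _ (by simp) _ (by simp [h2.head_mem]) ?_ ?_ h1)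
      (ih hn.2 fun x hx y hy hx' _ => hE x (by simp [hx]) y (by simp [hy]) hx' ?_)
    · rintro rfl; exact hn.1 h2.last_mem
    · rintro rfl; exact hn.1 h2.head_mem
    · rintro rfl; exact hn.1 hy

theorem append (h : Wk E a b l) (h' : Wk E b c (b :: l')) : Wk E a c (l ++ l') := by
  induction h with
  | single => simpa using h'
  | cons h1 _ ih => exact cons h1 (ih h')

theorem append_arc (h : Wk E a b l) (e : E b c) (h' : Wk E c d l') : Wk E a d (l ++ l') :=
  h.append (cons e h')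

theorem concat (h : Wk E a b l) (e : E b c) : Wk E a c (l ++ [c]) :=
  h.append_arc e (single c)

theorem split {z : V} (h : Wk E a b l) (hz : z ∈ l) :
    ∃ l1 l2, l = l1 ++ z :: l2 ∧ Wk E a z (l1 ++ [z]) ∧ Wk E z b (z :: l2) := by
  induction h with
  | single a =>
    simp at hz; subst hz; exact ⟨[], [], rfl, single _, single _⟩
  | @cons a b c l h1 h2 ih =>
    by_cases hza : z = a
    · subst hza; exact ⟨[], l, rfl, single _, cons h1 h2⟩
    · obtain ⟨l1, l2, rfl, h3, h4⟩ := ih (by simpa [hza] using hz)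
      exact ⟨a :: l1, l2, rfl, cons h1 h3, h4⟩

theorem inv_cons {x : V} (h : Wk E a b (x :: l)) (hl : l ≠ []) :
    x = a ∧ ∃ y, E a y ∧ Wk E y b l := by
  cases h with
  | single => exact absurd rfl hl
  | cons h1 h2 => exact ⟨rfl, _, h1, h2⟩

theorem of_append_left {l1 l2 : List V} {z : V} (h : Wk E a b (l1 ++ z :: l2)) :
    Wk E a z (l1 ++ [z]) := by
  induction l1 generalizing a with
  | nil => obtain ⟨l', h'⟩ := h.eq_cons; simp at h'; rw [h'.1]; exact single _
  | cons x l1 ih =>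
    obtain ⟨rfl, y, h1, h2⟩ := Wk.inv_cons (l := l1 ++ z :: l2) h (by simp)
    exact cons h1 (ih h2)

theorem of_append_right {l1 l2 : List V} {z : V} (h : Wk E a b (l1 ++ z :: l2)) :
    Wk E z b (z :: l2) := by
  induction l1 generalizing a with
  | nil => obtain ⟨l', h'⟩ := h.eq_cons; simp at h'; rw [h'.1]; rw [h'.1] at h; exact h
  | cons x l1 ih =>
    obtain ⟨rfl, y, h1, h2⟩ := Wk.inv_cons (l := l1 ++ z :: l2) h (by simp)
    exact ih h2

/-- trimming: a walk from `α` to `β` contains a path meeting `α` only at its start and `β`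
only at its end -/
theorem trim (α β : V → Prop) (h : Wk E a b l) (ha : α a) (hb : β b) :
    ∃ p q m, Wk E p q m ∧ m.Nodup ∧ m ⊆ l ∧ α p ∧ β q ∧ (∀ z ∈ m, α z → z = p) ∧
      (∀ z ∈ m, β z → z = q) := by
  induction hn : l.length using Nat.strong_induction_on generalizing l a b with
  | _ n ih =>
  by_cases h1 : ∃ z ∈ l, α z ∧ z ≠ a
  · obtain ⟨z, hz, hz1, hz2⟩ := h1
    obtain ⟨l1, l2, rfl, h3, h4⟩ := h.split hz
    have : l1 ≠ [] := by
      rintro rfl
      obtain ⟨l', h'⟩ := h3.eq_cons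
      simp at h'; exact hz2 h'.1
    obtain ⟨p, q, m, k1, k2, k3, k4⟩ := ih _ (by
      rw [← hn]; have := List.length_pos_iff.2 this; simp; omega) h4 hz1 hb rfl
    exact ⟨p, q, m, k1, k2, fun w hw => by simp [show w = z ∨ w ∈ l2 by simpa using k3 hw], k4⟩
  by_cases h2 : ∃ z ∈ l, β z ∧ z ≠ b
  · obtain ⟨z, hz, hz1, hz2⟩ := h2
    obtain ⟨l1, l2, rfl, h3, h4⟩ := h.split hz
    have : l2 ≠ [] := by
      rintro rfl
      cases h4 with
      | single => exact hz2 rfl
      | cons _ h5 => exact h5.ne_nil rfl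
    obtain ⟨p, q, m, k1, k2, k3, k4⟩ := ih _ (by
      rw [← hn]; have := List.length_pos_iff.2 this; simp; omega) h3 ha hz1 rfl
    refine ⟨p, q, m, k1, k2, fun w hw => ?_, k4⟩
    have := k3 hw
    simp at this ⊢; tauto
  by_cases h3 : l.Nodup
  · push Not at h1 h2
    exact ⟨a, b, l, h, h3, List.Subset.refl _, ha, hb, h1, h2⟩
  · rw [List.nodup_iff_sublist] at h3
    push Not at h3
    obtain ⟨z, hz⟩ := h3
    obtain ⟨l1, l2, rfl, hz1, hz2⟩ : ∃ l1 l2, l = l1 ++ l2 ∧ z ∈ l1 ∧ [z].Sublist l2 := by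
      simpa using List.cons_sublist_iff.1 hz
    obtain ⟨l3, l4, rfl⟩ := List.append_of_mem hz1
    obtain ⟨l5, l6, rfl⟩ := List.append_of_mem (List.singleton_sublist.1 hz2)
    have k1 : Wk E a z (l3 ++ [z]) := by
      apply of_append_left (l2 := l4 ++ (l5 ++ z :: l6)); simpa using h
    have k2 : Wk E z b (z :: l6) := by
      apply of_append_right (l1 := l3 ++ z :: l4 ++ l5); simpa using h
    obtain ⟨p, q, m, k1, k2, k3, k4⟩ := ih _ (by rw [← hn]; simp; omega) (k1.append k2) ha hb rfl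
    refine ⟨p, q, m, k1, k2, fun w hw => ?_, k4⟩
    have := k3 hw
    simp at this ⊢; tauto

theorem to_path (h : Wk E a b l) : ∃ m, Wk E a b m ∧ m.Nodup ∧ m ⊆ l := by
  obtain ⟨p, q, m, k1, k2, k3, rfl, rfl, -⟩ := h.trim (· = a) (· = b) rfl rfl
  exact ⟨m, k1, k2, k3⟩

theorem rev (h : Wk E a b l) : Wk (fun x y => E y x) b a l.reverse := by
  induction h with
  | single => exact single _
  | cons h1 _ ih => simpa using ih.concat h1

end Wk

/-- reachability inside a set -/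
def Rch (E : V → V → Prop) (N : Set V) (a b : V) : Prop := ∃ l, Wk E a b l ∧ ∀ z ∈ l, z ∈ N

namespace Rch

variable {E E' : V → V → Prop} {N N' : Set V} {a b c d : V}

theorem refl (h : a ∈ N) : Rch E N a a := ⟨[a], Wk.single a, by simpa⟩

theorem left (h : Rch E N a b) : a ∈ N := let ⟨_, h1, h2⟩ := h; h2 _ h1.head_mem

theorem right (h : Rch E N a b) : b ∈ N := let ⟨_, h1, h2⟩ := h; h2 _ h1.last_mem

theorem trans (h : Rch E N a b) (h' : Rch E N b c) : Rch E N a c := by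
  obtain ⟨l, h1, h2⟩ := h
  obtain ⟨l', h3, h4⟩ := h'
  obtain ⟨l'', rfl⟩ := h3.eq_cons
  refine ⟨_, h1.append h3, fun z hz => ?_⟩
  rcases List.mem_append.1 hz with hz | hz
  · exact h2 z hz
  · exact h4 z (by simp [hz])

theorem tail (h : Rch E N a b) (e : E b c) (hc : c ∈ N) : Rch E N a c :=
  h.trans ⟨[b, c], Wk.cons e (Wk.single c), by simp [h.right, hc]⟩

theorem mono (h : Rch E N a b) (hN : N ⊆ N') : Rch E N' a b :=
  let ⟨l, h1, h2⟩ := h; ⟨l, h1, fun z hz => hN (h2 z hz)⟩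

theorem monoE (h : Rch E N a b) (hE : ∀ x ∈ N, ∀ y ∈ N, E x y → E' x y) : Rch E' N a b :=
  let ⟨l, h1, h2⟩ := h; ⟨l, h1.mono fun x hx y hy => hE x (h2 x hx) y (h2 y hy), h2⟩

theorem path (h : Rch E N a b) : ∃ l, Wk E a b l ∧ l.Nodup ∧ ∀ z ∈ l, z ∈ N := by
  obtain ⟨l, h1, h2⟩ := h
  obtain ⟨m, k1, k2, k3⟩ := h1.to_path
  exact ⟨m, k1, k2, fun z hz => h2 z (k3 hz)⟩

theorem trim (α β : V → Prop) (h : Rch E N a b) (ha : α a) (hb : β b) :
    ∃ p q m, Wk E p q m ∧ m.Nodup ∧ (∀ z ∈ m, z ∈ N) ∧ α p ∧ β q ∧ (∀ z ∈ m, α z → z = p) ∧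
      (∀ z ∈ m, β z → z = q) := by
  obtain ⟨l, h1, h2⟩ := h
  obtain ⟨p, q, m, k1, k2, k3, k4⟩ := h1.trim α β ha hb
  exact ⟨p, q, m, k1, k2, fun z hz => h2 z (k3 hz), k4⟩

end Rch

theorem Wk.rch {E : V → V → Prop} {a b : V} {l : List V} (h : Wk E a b l) :
    Rch E {z | z ∈ l} a b := ⟨l, h, fun _ hz => hz⟩

theorem Wk.rch_left {E : V → V → Prop} {a b z : V} {l : List V} (h : Wk E a b l) (hn : l.Nodup)
    (hz : z ∈ l) : Rch E {w | w ∈ l ∧ (w = b → w = z)} a z := by
  obtain ⟨l1, l2, rfl, h3, h4⟩ := h.split hz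
  refine ⟨_, h3, fun w hw => ⟨by simp at hw ⊢; tauto, ?_⟩⟩
  rintro rfl
  rcases List.mem_append.1 hw with hw | hw
  · exact absurd h4.last_mem (List.disjoint_of_nodup_append hn hw)
  · simpa using hw

theorem Wk.rch_right {E : V → V → Prop} {a b z : V} {l : List V} (h : Wk E a b l) (hn : l.Nodup)
    (hz : z ∈ l) : Rch E {w | w ∈ l ∧ (w = a → w = z)} z b := by
  obtain ⟨l1, l2, rfl, h3, h4⟩ := h.split hz
  refine ⟨_, h4, fun w hw => ⟨by simp at hw ⊢; tauto, ?_⟩⟩
  rintro rfl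
  have := h3.head_mem
  rcases List.mem_append.1 this with h5 | h5
  · exact absurd hw (List.disjoint_of_nodup_append hn h5)
  · simpa using h5

/-- two vertices of a chain are joined in one of the two directions -/
theorem chain_rch {E : V → V → Prop} {l : List V} (h : l.IsChain E) {x y : V} (hx : x ∈ l)
    (hy : y ∈ l) : Rch E {z | z ∈ l} x y ∨ Rch E {z | z ∈ l} y x := by
  obtain ⟨a, b, hw⟩ := Wk.exists_of_chain h (List.ne_nil_of_mem hx)
  obtain ⟨l1, l2, rfl, h3, h4⟩ := hw.split hx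
  by_cases h5 : y ∈ x :: l2
  · obtain ⟨l3, l4, h6, h7, -⟩ := h4.split h5
    left
    refine ⟨_, h7, fun z hz => ?_⟩
    have : z ∈ x :: l2 := by rw [h6]; simp at hz ⊢; tauto
    simp at this ⊢; tauto
  · have h6 : y ∈ l1 ++ [x] := by simp at hy h5 ⊢; tauto
    obtain ⟨l3, l4, h7, -, h8⟩ := h3.split h6
    right
    refine ⟨_, h8, fun z hz => ?_⟩
    have : z ∈ l1 ++ [x] := by rw [h7]; simp at hz ⊢; tauto
    simp at this ⊢; tauto

/-- pairwise disjoint family of lists -/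
def PD (T : Finset (List V)) : Prop := ∀ P ∈ T, ∀ P' ∈ T, ∀ z, z ∈ P → z ∈ P' → P = P'

theorem PD.mono {T T' : Finset (List V)} (h : PD T) (hT : T' ⊆ T) : PD T' :=
  fun P hP P' hP' => h P (hT hP) P' (hT hP')

theorem PD.card_le {T : Finset (List V)} (h : PD T) {S : Finset V}
    (hS : ∀ P ∈ T, ∃ z ∈ S, z ∈ P) : T.card ≤ S.card := by
  by_cases hT : T = ∅
  · simp [hT]
  haveI : Nonempty V := by
    obtain ⟨P, hP⟩ := Finset.nonempty_iff_ne_empty.2 hT
    obtain ⟨z, -⟩ := hS P hP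
    exact ⟨z⟩
  choose! f hf1 hf2 using hS
  refine Finset.card_le_card_of_injOn f (fun P hP => hf1 P hP) ?_
  intro P hP P' hP' hh
  exact h P hP P' hP' (f P) (hf2 P hP) (hh ▸ hf2 P' hP')

/-- linkage from `A` to `B` -/
def Lk (E : V → V → Prop) (A B : Finset V) (T : Finset (List V)) : Prop :=
  (∀ P ∈ T, P.Nodup ∧ ∃ a ∈ A, ∃ b ∈ B, Wk E a b P) ∧ PD T

theorem Lk.mono {E : V → V → Prop} {A B : Finset V} {T T' : Finset (List V)} (h : Lk E A B T)
    (hT : T' ⊆ T) : Lk E A B T' := ⟨fun P hP => h.1 P (hT hP), h.2.mono hT⟩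

theorem Lk.monoE {E E' : V → V → Prop} {A B : Finset V} {T : Finset (List V)} (h : Lk E A B T)
    (hE : ∀ x y, E x y → E' x y) : Lk E' A B T :=
  ⟨fun P hP => by
    obtain ⟨h1, a, ha, b, hb, h2⟩ := h.1 P hP
    exact ⟨h1, a, ha, b, hb, h2.mono fun x _ y _ => hE x y⟩, h.2⟩

theorem Lk.of_sets {ι : Type*} {E : V → V → Prop} {A B : Finset V} (I : Finset ι) (N : ι → Set V)
    (h : ∀ i ∈ I, ∃ a ∈ A, ∃ b ∈ B, Rch E (N i) a b)
    (hd : ∀ i ∈ I, ∀ j ∈ I, ∀ z, z ∈ N i → z ∈ N j → i = j) :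
    ∃ T, Lk E A B T ∧ T.card = I.card := by
  have : ∀ i ∈ I, ∃ l : List V, l.Nodup ∧ (∀ z ∈ l, z ∈ N i) ∧ ∃ a ∈ A, ∃ b ∈ B, Wk E a b l := by
    intro i hi
    obtain ⟨a, ha, b, hb, h1⟩ := h i hi
    obtain ⟨l, h2, h3, h4⟩ := h1.path
    exact ⟨l, h3, h4, a, ha, b, hb, h2⟩
  choose! f hf1 hf2 hf3 using this
  refine ⟨I.image f, ⟨?_, ?_⟩, Finset.card_image_of_injOn ?_⟩
  · intro P hP
    obtain ⟨i, hi, rfl⟩ := Finset.mem_image.1 hP
    exact ⟨hf1 i hi, hf3 i hi⟩
  · intro P hP P' hP' z hz hz'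
    obtain ⟨i, hi, rfl⟩ := Finset.mem_image.1 hP
    obtain ⟨j, hj, rfl⟩ := Finset.mem_image.1 hP'
    rw [hd i hi j hj z (hf2 i hi z hz) (hf2 j hj z hz')]
  · intro i hi j hj hij
    obtain ⟨a, -, b, -, h1⟩ := hf3 i hi
    exact hd i hi j hj a (hf2 i hi a h1.head_mem) (hf2 j hj a (hij ▸ h1.head_mem))

theorem Lk.cover_end {E : V → V → Prop} {A B : Finset V} {T : Finset (List V)} (h : Lk E A B T)
    (hc : B.card ≤ T.card) {b : V} (hb : b ∈ B) : ∃ P ∈ T, ∃ a ∈ A, Wk E a b P := by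
  by_contra hcon
  have : T.card ≤ (B.erase b).card := by
    refine h.2.card_le fun P hP => ?_
    obtain ⟨-, a, ha, c, hc, h1⟩ := h.1 P hP
    refine ⟨c, Finset.mem_erase.2 ⟨?_, hc⟩, h1.last_mem⟩
    rintro rfl
    exact hcon ⟨P, hP, a, ha, h1⟩
  rw [Finset.card_erase_of_mem hb] at this
  have := Finset.card_pos.2 ⟨b, hb⟩
  omega

theorem Lk.cover_start {E : V → V → Prop} {A B : Finset V} {T : Finset (List V)} (h : Lk E A B T)
    (hc : A.card ≤ T.card) {a : V} (ha : a ∈ A) : ∃ P ∈ T, ∃ b ∈ B, Wk E a b P := by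
  by_contra hcon
  have : T.card ≤ (A.erase a).card := by
    refine h.2.card_le fun P hP => ?_
    obtain ⟨-, c, hc, b, hb, h1⟩ := h.1 P hP
    refine ⟨c, Finset.mem_erase.2 ⟨?_, hc⟩, h1.head_mem⟩
    rintro rfl
    exact hcon ⟨P, hP, b, hb, h1⟩
  rw [Finset.card_erase_of_mem ha] at this
  have := Finset.card_pos.2 ⟨a, ha⟩
  omega

section Fin

variable [Fintype V]

/-- out-boundary of a vertex set -/
noncomputable def bd (E : V → V → Prop) (S : Finset V) : Finset V :=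
  Finset.univ.filter fun y => y ∉ S ∧ ∃ x ∈ S, E x y

@[simp] theorem mem_bd {E : V → V → Prop} {S : Finset V} {y : V} :
    y ∈ bd E S ↔ y ∉ S ∧ ∃ x ∈ S, E x y := by simp [bd]

/-- the set reachable from `u` inside `N` -/
noncomputable def reach (E : V → V → Prop) (N : Set V) (u : V) : Finset V :=
  Finset.univ.filter fun y => Rch E N u y

@[simp] theorem mem_reach {E : V → V → Prop} {N : Set V} {u y : V} :
    y ∈ reach E N u ↔ Rch E N u y := by simp [reach]

theorem bd_reach {E : V → V → Prop} {N : Set V} {u y : V} (h : y ∈ bd E (reach E N u)) :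
    y ∉ N ∧ ∃ x, Rch E N u x ∧ E x y := by
  simp only [mem_bd, mem_reach] at h
  obtain ⟨h1, x, h2, h3⟩ := h
  exact ⟨fun hy => h1 (h2.tail h3 hy), x, h2, h3⟩

/-- restriction of the arc relation to a vertex set -/
def res (E : V → V → Prop) (W : Finset V) : V → V → Prop := fun x y => E x y ∧ x ∈ W ∧ y ∈ W

/-- minimum out-degree inside a nonempty vertex set -/
def MinOut (E : V → V → Prop) (W : Finset V) (K : ℕ) : Prop :=
  W.Nonempty ∧ ∀ v ∈ W, K ≤ (W.filter (E v)).card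

theorem MinOut.mono {E : V → V → Prop} {W : Finset V} {K K' : ℕ} (h : MinOut E W K)
    (hK : K' ≤ K) : MinOut E W K' := ⟨h.1, fun v hv => hK.trans (h.2 v hv)⟩

theorem MinOut.sub {E : V → V → Prop} {W S Y : Finset V} {K K' : ℕ} (h : MinOut E W K)
    (hS : S.Nonempty) (hSW : S ⊆ W) (hY : ∀ x ∈ S, ∀ y ∈ W, E x y → y ∈ S ∨ y ∈ Y)
    (hK : K' + Y.card ≤ K) : MinOut E S K' := by
  refine ⟨hS, fun v hv => ?_⟩
  have h1 := h.2 v (hSW hv)
  have h2 : W.filter (E v) ⊆ S.filter (E v) ∪ Y := by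
    intro y hy
    simp only [Finset.mem_filter, Finset.mem_union] at hy ⊢
    rcases hY v hv y hy.1 hy.2 with h | h
    · exact Or.inl ⟨h, hy.2⟩
    · exact Or.inr h
  have h3 := (Finset.card_le_card h2).trans (Finset.card_union_le _ _)
  omega

theorem MinOut.card_le {E : V → V → Prop} {W : Finset V} {K : ℕ} (h : MinOut E W K) :
    K ≤ W.card := by
  obtain ⟨v, hv⟩ := h.1
  exact (h.2 v hv).trans (Finset.card_filter_le _ _)

theorem MinOut.res {E : V → V → Prop} {W : Finset V} {K : ℕ} (h : MinOut E W K) :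
    MinOut (res E W) W K := by
  refine ⟨h.1, fun v hv => (h.2 v hv).trans (Finset.card_le_card ?_)⟩
  intro y hy
  simp only [Finset.mem_filter, MP_a3bdf6_co.res] at hy ⊢
  tauto

theorem MinOut.monoE {E E' : V → V → Prop} {W : Finset V} {K : ℕ} (h : MinOut E W K)
    (hE : ∀ x ∈ W, ∀ y ∈ W, E x y → E' x y) : MinOut E' W K := by
  refine ⟨h.1, fun v hv => (h.2 v hv).trans (Finset.card_le_card ?_)⟩
  intro y hy
  simp only [Finset.mem_filter] at hy ⊢
  exact ⟨hy.1, hE v hv y hy.1 hy.2⟩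

theorem MinOut.exists_out {E : V → V → Prop} {W Z : Finset V} {K : ℕ} (h : MinOut E W K)
    (hZ : Z.card < K) {v : V} (hv : v ∈ W) : ∃ y ∈ W, y ∉ Z ∧ E v y := by
  obtain ⟨y, hy, hy'⟩ := Finset.exists_mem_notMem_of_card_lt_card (hZ.trans_le (h.2 v hv))
  rw [Finset.mem_filter] at hy
  exact ⟨y, hy.1, hy', hy.2⟩

end Fin

end Pool.Agent.P.MP_a3bdf6_co
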