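import Pool.Agent.P.MP_a3bdf6_co.LongCyc2

/-! Large minimum out-degree forces many disjoint long directed cycles. -/

namespace Pool.Agent.P.MP_a3bdf6_co

open Classical Finset

set_option linter.unusedSectionVars false

/-- closed list x :: l ++ [x] of a directed cycle with at least b+1 vertices -/
def CycL {V : Type*} (E : V → V → Prop) (b : ℕ) (c : List V) : Prop :=
  ∃ x l, c = x :: l ++ [x] ∧ c.IsChain E ∧ (x :: l).Nodup ∧ b ≤ l.length

variable {V : Type} [Fintype V]

theorem exists_cycle {E : V → V → Prop} {S : Finset V} (h : MinOut E S 1) :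
    ∃ c, CycL E 0 c ∧ ∀ z ∈ c, z ∈ S := by
  obtain ⟨⟨a₀, ha₀⟩, h⟩ := minOut_one.1 h
  have key : ∀ n a b l, Wk E a b l → l.Nodup → (∀ z ∈ l, z ∈ S) → S.card ≤ l.length + n →
      ∃ c, CycL E 0 c ∧ ∀ z ∈ c, z ∈ S := by
    intro n
    induction n with
    | zero =>
      intro a b l h1 h2 h3 h4
      obtain ⟨y, hy, e⟩ := h b (h3 b h1.last_mem)
      have hyl : y ∈ l := by
        have : l.toFinset = S := eq_of_subset_of_card_le
          (fun z hz => h3 z (List.mem_toFinset.1 hz)) (by rwa [List.toFinset_card_of_nodup h2])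
        rwa [← this, List.mem_toFinset] at hy
      obtain ⟨l1, l2, rfl, -, h5⟩ := h1.split hyl
      exact ⟨_, ⟨y, l2, rfl, (h5.concat e).chain, h2.of_append_right, Nat.zero_le _⟩,
        fun z hz => h3 z (by simp at hz ⊢; tauto)⟩
    | succ n ih =>
      intro a b l h1 h2 h3 h4
      obtain ⟨y, hy, e⟩ := h b (h3 b h1.last_mem)
      by_cases hyl : y ∈ l
      · obtain ⟨l1, l2, rfl, -, h5⟩ := h1.split hyl
        exact ⟨_, ⟨y, l2, rfl, (h5.concat e).chain, h2.of_append_right, Nat.zero_le _⟩,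
          fun z hz => h3 z (by simp at hz ⊢; tauto)⟩
      · refine ih a y _ (h1.concat e) ?_ (fun z hz => ?_) (by simp; omega)
        · rw [List.nodup_append]
          refine ⟨h2, by simp, fun z hz w hw hzw => hyl ?_⟩
          rw [List.mem_singleton.1 hw] at hzw
          exact hzw ▸ hz
        · rcases List.mem_append.1 hz with hz | hz
          · exact h3 z hz
          · rw [List.mem_singleton.1 hz]; exact hy
  exact key S.card a₀ a₀ [a₀] (Wk.single _) (by simp) (by simpa) (by omega)

/-- the vertices reached by walks with at most `n` vertices -/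
noncomputable def near (E : V → V → Prop) (n : ℕ) (v : V) : Finset V :=
  univ.filter fun u => ∃ l, Wk E v u l ∧ l.length ≤ n

theorem card_near {O : V → Finset V} {K : ℕ} (hO : ∀ v, (O v).card ≤ K) (n : ℕ) :
    ∀ v, (near (fun x y => y ∈ O x) n v).card ≤ (K + 1) ^ n := by
  induction n with
  | zero =>
    intro v
    rw [near, filter_eq_empty_iff.2]
    · simp
    · rintro u - ⟨l, h1, h2⟩
      exact h1.ne_nil (List.length_eq_zero_iff.1 (by omega))
  | succ n ih =>
    intro v
    have : near (fun x y => y ∈ O x) (n + 1) v ⊆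
        insert v ((O v).biUnion (near (fun x y => y ∈ O x) n)) := by
      intro u hu
      simp only [near, mem_filter, mem_univ, true_and, mem_insert, mem_biUnion] at hu ⊢
      obtain ⟨l, h1, h2⟩ := hu
      cases h1 with
      | single => exact Or.inl rfl
      | cons e h1 => exact Or.inr ⟨_, e, _, h1, by simpa using h2⟩
    have h1 := card_biUnion_le_card_mul (O v) _ _ fun w _ => ih w
    have h2 := (card_le_card this).trans (card_insert_le _ _)
    have h3 : (O v).card * (K + 1) ^ n ≤ K * (K + 1) ^ n := by gcongr; exact hO v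
    have h4 : 1 ≤ (K + 1) ^ n := Nat.one_le_pow _ _ (by omega)
    rw [pow_succ]
    nlinarith

theorem Wk.col {A : Type} [AddCommMonoidWithOne A] {c : V → A} {a b : V} {l : List V}
    (h : Wk (fun x y => c y = c x + 1) a b l) : c b + 1 = c a + l.length := by
  induction h with
  | single => simp
  | cons e _ ih => rw [ih, e, List.length_cons, Nat.cast_succ, add_assoc, add_comm 1]

theorem exists_girth (k b : ℕ) : ∃ K : ℕ, ∀ (V : Type) [Fintype V] (E : V → V → Prop)
    (W : Finset V), MinOut E W K → ∃ E' : V → V → Prop, (∀ x y, E' x y → E x y) ∧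
      MinOut E' W k ∧ ∀ c, CycL E' 0 c → CycL E' b c := by
  obtain ⟨g, hg⟩ : ∃ g, (b + 1) * (k + 1) = g + 1 := ⟨b * k + b + k, by ring⟩
  obtain ⟨q, -, hq⟩ := exists_size ((k + 2) ^ (2 * b + 2)) (2 * b + 2) g 0
  refine ⟨q + 1 + k, fun V _ E W hE => ?_⟩
  obtain ⟨O, hO, hO'⟩ := hE.exact
  have hOc : ∀ v, (O v).card ≤ q + 1 + k := fun v => by
    by_cases hv : v ∈ W
    · exact (hO v hv).2.1.le
    · simp [hO' v hv]
  set sh : V → Finset V := fun u =>
    (O u).filter fun v => u ∈ near (fun x y => y ∈ O x) (2 * b + 2) v with hsh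
  set I := W.filter fun u => q + 1 ≤ (sh u).card with hI
  have : ∀ u ∈ I, ∃ e ⊆ sh u, e.card = q + 1 := fun u hu =>
    exists_subset_card_eq (mem_filter.1 hu).2
  choose! e he1 he2 using this
  obtain ⟨c, hc⟩ := exists_polychromatic (α := ZMod (b + 1) × Fin (k + 1)) I e (q := q)
    (Δ := (k + 2) ^ (2 * b + 2) * (q + 1) ^ (2 * b + 2)) (g := g) (by simp [hg]) he2
    (fun v => by
      refine (card_le_card (t := near (fun x y => y ∈ O x) (2 * b + 2) v) fun u hu => ?_).trans
        ((card_near hOc _ v).trans ?_)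
      · rw [mem_filter] at hu
        exact (mem_filter.1 (he1 u hu.1 hu.2)).2
      · rw [← mul_pow]
        gcongr
        nlinarith) hq
  refine ⟨fun x y => y ∈ O x ∧ (y ∈ sh x → (c y).1 = (c x).1 + 1), fun x y h => ?_,
    minOut_of_sub hE.1 fun u hu => ?_, ?_⟩
  · by_cases hx : x ∈ W
    · exact (hO x hx).2.2 y h.1
    · simp [hO' x hx] at h
  · by_cases huI : u ∈ I
    · choose f hf1 hf2 using fun j : Fin (k + 1) => hc u huI ((c u).1 + 1, j)
      refine ⟨univ.image f, ?_, fun y hy => ?_⟩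
      · rw [card_image_of_injective _ fun i j hij => by
          have := (hf2 i).symm.trans (hij ▸ hf2 j)
          exact (Prod.ext_iff.1 this).2]
        simp
      · obtain ⟨j, -, rfl⟩ := mem_image.1 hy
        have := (mem_filter.1 (he1 u huI (hf1 j))).1
        exact ⟨(hO u hu).1 this, this, fun _ => by rw [hf2]⟩
    · refine ⟨O u \ sh u, ?_, fun y hy => ?_⟩
      · have h1 := le_card_sdiff (sh u) (O u)
        have h2 := (hO u hu).2.1
        simp only [hI, mem_filter, hu, true_and, not_le] at huI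
        omega
      · rw [mem_sdiff] at hy
        exact ⟨(hO u hu).1 hy.1, hy.1, fun h => absurd h hy.2⟩
  · rintro _ ⟨x, l, rfl, h1, h2, -⟩
    refine ⟨x, l, rfl, h1, h2, ?_⟩
    by_contra hb
    have h3 := Wk.of_chain' h1
    have h4 : Wk (fun x y => y ∈ O x) x x (x :: l ++ [x]) := h3.mono fun _ _ _ _ h => h.1
    have h5 := (h3.mono (E' := fun u v => (c v).1 = (c u).1 + 1) fun u hu v hv h => h.2 (by
      refine mem_filter.2 ⟨h.1, mem_filter.2 ⟨mem_univ _, ?_⟩⟩
      obtain ⟨l1, l2, e1, k1, -⟩ := h4.split hu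
      obtain ⟨l3, l4, e2, -, k2⟩ := h4.split hv
      obtain ⟨l5, e3⟩ := k1.eq_cons
      rw [e3] at k1
      refine ⟨_, k2.append k1, ?_⟩
      have := congrArg List.length e1
      have := congrArg List.length e2
      have := congrArg List.length e3
      simp at *
      omega)).col (c := fun v => (c v).1)
    have h6 : ((l.length + 1 : ℕ) : ZMod (b + 1)) = 0 := by
      simp only [List.cons_append, List.length_cons, List.length_append, List.length_nil] at h5
      push_cast at h5 ⊢
      linear_combination -h5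
    have := Nat.le_of_dvd (by omega) ((ZMod.natCast_eq_zero_iff _ _).1 h6)
    omega

theorem long_cycles (M b : ℕ) : ∃ K : ℕ, ∀ (V : Type) [Fintype V] (E : V → V → Prop) (W : Finset V),
    MinOut E W K → ∃ Z : Finset (List V), Z.card = M ∧ PD Z ∧ ∀ c ∈ Z, CycL E b c ∧ ∀ z ∈ c, z ∈ W := by
  obtain ⟨k, -, hk⟩ := exists_disjSets M
  obtain ⟨K, hK⟩ := exists_girth k b
  refine ⟨K, fun V _ E W hE => ?_⟩
  obtain ⟨E', h1, h2, h3⟩ := hK V E W hE
  obtain ⟨S, h4, h5⟩ := hk V E' W h2
  choose c hc1 hc2 using fun i => exists_cycle (h4 i).2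
  refine ⟨univ.image c, ?_, ?_, ?_⟩
  · rw [card_image_of_injective _ fun i j hij => ?_]
    · simp
    · obtain ⟨x, l, e, -⟩ := hc1 i
      have : x ∈ c i := by simp [e]
      exact h5 i j x (hc2 i x this) (hc2 j x (hij ▸ this))
  · intro P hP P' hP' z hz hz'
    obtain ⟨i, -, rfl⟩ := mem_image.1 hP
    obtain ⟨j, -, rfl⟩ := mem_image.1 hP'
    rw [h5 i j z (hc2 i z hz) (hc2 j z hz')]
  · intro P hP
    obtain ⟨i, -, rfl⟩ := mem_image.1 hP
    obtain ⟨x, l, e, k1, k2⟩ := h3 _ (hc1 i)
    exact ⟨⟨x, l, e, k1.imp fun _ _ => h1 _ _, k2⟩, fun z hz => (h4 i).1 (hc2 i z hz)⟩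

end Pool.Agent.P.MP_a3bdf6_co
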