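import Pool.Agent.P.MP_a3bdf6_co.Menger

/-! A linkage that is minimal with respect to a given set of arcs carries a time function. -/

namespace Pool.Agent.P.MP_a3bdf6_co

open Classical

variable {V : Type*}

theorem Wk.exit {G : V → V → Prop} {X : Set V} {a b : V} {l : List V} (h : Wk G a b l)
    (ha : a ∈ X) (hb : b ∉ X) : ∃ y ∈ l, y ∉ X ∧ ∃ x ∈ X, G x y := by
  induction h with
  | single => exact absurd ha hb
  | @cons a c b l h1 h2 ih =>
    by_cases hc : c ∈ X
    · obtain ⟨y, hy, h3⟩ := ih hc hb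
      exact ⟨y, by simp [hy], h3⟩
    · exact ⟨c, by simp [h2.head_mem], hc, a, ha, h1⟩

variable [Fintype V]

/-- boundary including the sources outside the set -/
noncomputable def bdA (G : V → V → Prop) (A X : Finset V) : Finset V :=
  Finset.univ.filter fun y => y ∉ X ∧ (y ∈ A ∨ ∃ x ∈ X, G x y)

theorem mem_bdA {G : V → V → Prop} {A X : Finset V} {y : V} :
    y ∈ bdA G A X ↔ y ∉ X ∧ (y ∈ A ∨ ∃ x ∈ X, G x y) := by simp [bdA]

theorem Wk.exitA {G : V → V → Prop} {A X : Finset V} {a b : V} {l : List V} (h : Wk G a b l)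
    (ha : a ∈ A) (hb : b ∉ X) : ∃ y ∈ bdA G A X, y ∈ l := by
  by_cases haX : a ∈ X
  · obtain ⟨y, hy, h1, h2⟩ := h.exit (X := (X : Set V)) haX hb
    exact ⟨y, mem_bdA.2 ⟨h1, Or.inr h2⟩, hy⟩
  · exact ⟨a, mem_bdA.2 ⟨haX, Or.inl ha⟩, h.head_mem⟩

theorem bdA_submod (G : V → V → Prop) (A X X' : Finset V) :
    (bdA G A (X ∩ X')).card + (bdA G A (X ∪ X')).card ≤ (bdA G A X).card + (bdA G A X').card := by
  rw [← Finset.card_union_add_card_inter, ← Finset.card_union_add_card_inter (bdA G A X)]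
  refine add_le_add (Finset.card_le_card ?_) (Finset.card_le_card ?_)
  · intro y
    simp only [Finset.mem_union, mem_bdA, Finset.mem_inter]
    grind
  · intro y
    simp only [Finset.mem_union, mem_bdA, Finset.mem_inter]
    grind

theorem time_lemma (E Q : V → V → Prop) (hQ : ∀ x y, Q x y → E x y) (A B : Finset V) (p : ℕ)
    (hp : 0 < p) (hA : A.card = p) (h : ∃ T, Lk E A B T ∧ T.card = p) :
    ∃ (T : Finset (List V)) (τ : V → ℕ), Lk E A B T ∧ T.card = p ∧
      (∀ P ∈ T, P.IsChain fun x y => τ x ≤ τ y ∧ (τ x = τ y → Q x y)) ∧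
      ∀ c, ∃ S : Finset V, S.card ≤ p ∧ ∀ x y, Q x y → τ x < c → c ≤ τ y → y ∈ S := by
  have ex : ∃ n, ∃ F : Finset (V × V), F.card = n ∧ (∀ e ∈ F, E e.1 e.2) ∧
      ∃ T, Lk (fun x y => (x, y) ∈ F ∨ Q x y) A B T ∧ T.card = p := by
    obtain ⟨T, h1, h2⟩ := h
    exact ⟨_, Finset.univ.filter fun e => E e.1 e.2, rfl, by simp, T,
      h1.monoE fun x y h => Or.inl (by simpa using h), h2⟩
  obtain ⟨F, hF, hFE, T, hT, hTp⟩ := Nat.find_spec ex
  set G : V → V → Prop := fun x y => (x, y) ∈ F ∨ Q x y with hG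
  have lower : ∀ X : Finset V, (∀ z ∈ X, z ∉ B) → p ≤ (bdA G A X).card := by
    intro X hX
    rw [← hTp]
    refine hT.2.card_le fun P hP => ?_
    obtain ⟨-, a, ha, c, hc, h1⟩ := hT.1 P hP
    exact h1.exitA ha fun h => hX c h hc
  let Cut : Finset V → Prop := fun X => (∀ z ∈ X, z ∉ B) ∧ (bdA G A X).card ≤ p
  have cut_inter : ∀ X, Cut X → ∀ X', Cut X' → Cut (X ∩ X') := by
    intro X hX X' hX'
    refine ⟨fun z hz => hX.1 z (Finset.mem_inter.1 hz).1, ?_⟩
    have := bdA_submod G A X X'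
    have := lower (X ∪ X') fun z hz => (Finset.mem_union.1 hz).elim (hX.1 z) (hX'.1 z)
    have := hX.2
    have := hX'.2
    omega
  have cut_union : ∀ X, Cut X → ∀ X', Cut X' → Cut (X ∪ X') := by
    intro X hX X' hX'
    refine ⟨fun z hz => (Finset.mem_union.1 hz).elim (hX.1 z) (hX'.1 z), ?_⟩
    have := bdA_submod G A X X'
    have := lower (X ∩ X') fun z hz => hX.1 z (Finset.mem_inter.1 hz).1
    have := hX.2
    have := hX'.2
    omega
  have cut_empty : Cut ∅ := by
    refine ⟨by simp, ?_⟩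
    rw [← hA]
    refine Finset.card_le_card fun y hy => ?_
    simpa [mem_bdA] using hy
  have initial : ∀ X, Cut X → ∀ P ∈ T, ∀ l1 u v l2, P = l1 ++ u :: v :: l2 → v ∈ X → u ∈ X := by
    rintro X hX P hP l1 u v l2 rfl hv
    by_contra hu
    obtain ⟨hn, a, ha, c, hc, h1⟩ := hT.1 _ hP
    obtain ⟨y1, k1, k2⟩ := h1.of_append_left.exitA (X := X) ha hu
    have h2 : Wk G v c (v :: l2) := by
      apply Wk.of_append_right (a := a) (l1 := l1 ++ [u]); simpa using h1
    obtain ⟨y2, k3, k4, k5⟩ := h2.exit (X := (X : Set V)) hv fun h => hX.1 c h hc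
    have : T.card ≤ ((bdA G A X).erase y1).card := by
      refine hT.2.card_le fun P' hP' => ?_
      by_cases hPP : P' = l1 ++ u :: v :: l2
      · refine ⟨y2, Finset.mem_erase.2 ⟨?_, mem_bdA.2 ⟨k4, Or.inr k5⟩⟩, by rw [hPP]; simp at k3 ⊢; tauto⟩
        rintro rfl
        have e : l1 ++ u :: v :: l2 = (l1 ++ [u]) ++ v :: l2 := by simp
        rw [e] at hn
        exact List.disjoint_of_nodup_append hn k2 k3
      · obtain ⟨-, a', ha', c', hc', h3⟩ := hT.1 _ hP'
        obtain ⟨y, k6, k7⟩ := h3.exitA (X := X) ha' fun h => hX.1 c' h hc'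
        refine ⟨y, Finset.mem_erase.2 ⟨?_, k6⟩, k7⟩
        rintro rfl
        exact hPP (hT.2 _ hP' _ hP y k7 (by simp at k2 ⊢; tauto))
    rw [Finset.card_erase_of_mem k1] at this
    have := hX.2
    omega
  have critical : ∀ u v, G u v → ¬ Q u v → ∃ X, Cut X ∧ u ∈ X ∧ v ∉ X := by
    intro u v huv hq
    have he : (u, v) ∈ F := huv.resolve_right hq
    have hmin := Nat.find_min ex (m := (F.erase (u, v)).card) (by
      rw [← hF, Finset.card_erase_of_mem he]
      have := Finset.card_pos.2 ⟨_, he⟩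
      omega)
    have : ¬ ∀ Y : Finset V, Y.card < p → ∃ a ∈ A, ∃ c ∈ B,
        Rch (fun x y => (x, y) ∈ F.erase (u, v) ∨ Q x y) {z | z ∉ Y} a c := fun hh =>
      hmin ⟨_, rfl, fun e he => hFE e (Finset.mem_of_mem_erase he), menger _ A B p hh⟩
    push Not at this
    obtain ⟨Y, hY, hY'⟩ := this
    let X : Finset V := Finset.univ.filter fun z => ∃ a ∈ A,
      Rch (fun x y => (x, y) ∈ F.erase (u, v) ∨ Q x y) {z | z ∉ Y} a z
    have hXB : ∀ z ∈ X, z ∉ B := by
      intro z hz hzB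
      obtain ⟨a, ha, h1⟩ := (Finset.mem_filter.1 hz).2
      exact hY' a ha z hzB h1
    have hbd : ∀ y ∈ bdA G A X, y ∈ Y ∨ (y = v ∧ u ∈ X ∧ v ∉ X) := by
      intro y hy
      obtain ⟨h1, h2⟩ := mem_bdA.1 hy
      by_contra hc
      push Not at hc
      rcases h2 with h2 | ⟨x, hx, h2⟩
      · exact h1 (Finset.mem_filter.2 ⟨Finset.mem_univ _, y, h2, Rch.refl hc.1⟩)
      · obtain ⟨a, ha, h3⟩ := (Finset.mem_filter.1 hx).2
        by_cases h4 : (x, y) = (u, v)
        · obtain ⟨rfl, rfl⟩ := Prod.mk.inj h4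
          exact h1 (hc.2 rfl hx)
        · refine h1 (Finset.mem_filter.2 ⟨Finset.mem_univ _, a, ha, h3.tail ?_ hc.1⟩)
          rcases h2 with h2 | h2
          · exact Or.inl (Finset.mem_erase.2 ⟨h4, h2⟩)
          · exact Or.inr h2
    refine ⟨X, ⟨hXB, ?_⟩, ?_⟩
    · have : bdA G A X ⊆ insert v Y := fun y hy => by
        rcases hbd y hy with h | h <;> simp [h]
      have := (Finset.card_le_card this).trans (Finset.card_insert_le _ _)
      omega
    · by_contra hc
      have : bdA G A X ⊆ Y := fun y hy => (hbd y hy).resolve_right fun h => hc h.2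
      have := Finset.card_le_card this
      have := lower X hXB
      omega
  let cl : V → Finset V := fun x => (Finset.univ.filter fun X => Cut X ∧ x ∈ X).inf id
  have cl_sub : ∀ x X, Cut X → x ∈ X → cl x ⊆ X := fun x X h1 h2 =>
    Finset.inf_le (f := id) (Finset.mem_filter.2 ⟨Finset.mem_univ _, h1, h2⟩)
  have mem_cl : ∀ x y, y ∈ cl x ↔ ∀ X, Cut X → x ∈ X → y ∈ X := by
    intro x y
    simp only [cl, Finset.mem_inf, Finset.mem_filter, Finset.mem_univ, true_and, id, and_imp]
  have cl_mono : ∀ x y, y ∈ cl x → cl y ⊆ cl x := by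
    intro x y h z hz
    rw [mem_cl] at *
    exact fun X h1 h2 => hz X h1 (h X h1 h2)
  have cl_cut : ∀ x, cl x = Finset.univ ∨ Cut (cl x) := by
    intro x
    refine Finset.inf_induction (p := fun X => X = Finset.univ ∨ Cut X) (Or.inl rfl) ?_ ?_
    · rintro X (rfl | hX) X' (rfl | hX')
      · simp
      · simpa using Or.inr hX'
      · simpa using Or.inr hX
      · exact Or.inr (cut_inter X hX X' hX')
    · intro X hX
      exact Or.inr (Finset.mem_filter.1 hX).2.1
  refine ⟨T, fun x => (cl x).card, hT.monoE ?_, hTp, ?_, ?_⟩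
  · rintro x y (h | h)
    · exact hFE _ h
    · exact hQ _ _ h
  · intro P hP
    rw [List.isChain_iff_forall_rel_of_append_cons_cons]
    intro u v l1 l2 hl
    have h1 : u ∈ cl v := (mem_cl v u).2 fun X hX hv => initial X hX P hP l1 u v l2 hl hv
    refine ⟨Finset.card_le_card (cl_mono v u h1), fun h2 => ?_⟩
    have h3 := Finset.eq_of_subset_of_card_le (cl_mono v u h1) h2.ge
    by_contra hq
    obtain ⟨-, a, -, c, -, h4⟩ := hT.1 P hP
    have h5 := List.isChain_iff_forall_rel_of_append_cons_cons.1 h4.chain hl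
    obtain ⟨X, hX, hu, hv⟩ := critical u v h5 hq
    exact hv (cl_sub u X hX hu (h3 ▸ (mem_cl v v).2 fun _ _ h => h))
  · intro c
    by_cases hc : Fintype.card V < c
    · refine ⟨∅, by simp, fun x y _ _ h => ?_⟩
      have := Finset.card_le_univ (cl y)
      beta_reduce at h
      omega
    let X : Finset V := (Finset.univ.filter fun x => (cl x).card < c).sup cl
    have hX : Cut X := by
      refine Finset.sup_induction (p := Cut) cut_empty cut_union ?_
      intro x hx
      rcases cl_cut x with h | h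
      · have := (Finset.mem_filter.1 hx).2
        rw [h, Finset.card_univ] at this
        omega
      · exact h
    refine ⟨bdA G A X, hX.2, fun x y hxy hx hy => mem_bdA.2 ⟨?_, Or.inr ⟨x, ?_, Or.inr hxy⟩⟩⟩
    · intro hyX
      obtain ⟨z, hz, hz'⟩ := Finset.mem_sup.1 hyX
      have := (Finset.mem_filter.1 hz).2
      have := Finset.card_le_card (cl_mono z y hz')
      beta_reduce at hy
      omega
    · exact Finset.mem_sup.2 ⟨x, Finset.mem_filter.2 ⟨Finset.mem_univ _, hx⟩,
        (mem_cl x x).2 fun _ _ h => h⟩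

end Pool.Agent.P.MP_a3bdf6_co
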