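import Pool.Agent.P.MP_a3bdf6_co.OW
import Pool.Agent.P.MP_a3bdf6_co.Time

/-! Spiders, caterpillars, and paths meeting all sets with a small boundary. -/

namespace Pool.Agent.P.MP_a3bdf6_co

open Classical

set_option linter.unusedSectionVars false

variable {V : Type*} [Fintype V]

theorem MinOut.extend {E : V → V → Prop} {B : Finset V} {K : ℕ} (h : MinOut E B K) (n : ℕ) :
    ∀ (Z : Finset V) (v : V), v ∈ B → Z.card + n ≤ K →
      ∃ l : List V, l.length = n ∧ l.Nodup ∧ (∀ z ∈ l, z ∈ B ∧ z ∉ Z) ∧ (v :: l).IsChain E := by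
  induction n with
  | zero => exact fun Z v _ _ => ⟨[], rfl, by simp, by simp, by simp⟩
  | succ n ih =>
    intro Z v hv hZ
    obtain ⟨y, h1, h2, h3⟩ := h.exists_out (Z := Z) (by omega) hv
    obtain ⟨l, k1, k2, k3, k4⟩ := ih (insert y Z) y h1 (by
      have := Finset.card_insert_le y Z; omega)
    refine ⟨y :: l, by simp [k1], List.nodup_cons.2 ⟨fun hy => (k3 y hy).2 (by simp), k2⟩, ?_,
      List.isChain_cons_cons.2 ⟨h3, k4⟩⟩
    intro z hz
    rcases List.mem_cons.1 hz with rfl | hz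
    · exact ⟨h1, h2⟩
    · exact ⟨(k3 z hz).1, fun hh => (k3 z hz).2 (by simp [hh])⟩

theorem MinOut.legs {E : V → V → Prop} {B : Finset V} {K : ℕ} (h : MinOut E B K) (n : ℕ)
    {ι : Type*} (r : ι → V) (hr : ∀ j, r j ∈ B) (Z : Finset V) (J : Finset ι) :
    Z.card + J.card * n ≤ K → ∃ leg : ι → List V, (∀ j ∈ J, (leg j).length = n ∧ (leg j).Nodup ∧
      (∀ z ∈ leg j, z ∈ B ∧ z ∉ Z) ∧ (r j :: leg j).IsChain E) ∧
      ∀ j ∈ J, ∀ j' ∈ J, ∀ z, z ∈ leg j → z ∈ leg j' → j = j' := by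
  induction J using Finset.induction_on with
  | empty => exact fun _ => ⟨fun _ => [], by simp, by simp⟩
  | insert j J hj ih =>
    intro hK
    rw [Finset.card_insert_of_notMem hj, add_mul] at hK
    obtain ⟨leg, h1, h2⟩ := ih (by omega)
    obtain ⟨l, k1, k2, k3, k4⟩ := h.extend n (Z ∪ J.biUnion fun j => (leg j).toFinset) (r j) (hr j)
      (by
        have := Finset.card_biUnion_le_card_mul J (fun j => (leg j).toFinset) n fun i hi =>
          (leg i).toFinset_card_le.trans (h1 i hi).1.le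
        have := Finset.card_union_le Z (J.biUnion fun j => (leg j).toFinset)
        omega)
    have hup : ∀ i ∈ J, Function.update leg j l i = leg i := fun i hi =>
      Function.update_of_ne (by rintro rfl; exact hj hi) _ _
    have k5 : ∀ i ∈ J, ∀ z ∈ l, z ∉ leg i := fun i hi z hz hz' =>
      (k3 z hz).2 (Finset.mem_union_right _ (Finset.mem_biUnion.2 ⟨i, hi, by simpa using hz'⟩))
    refine ⟨Function.update leg j l, fun i hi => ?_, fun i hi i' hi' z hz hz' => ?_⟩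
    · rcases Finset.mem_insert.1 hi with rfl | hi
      · rw [Function.update_self]
        exact ⟨k1, k2, fun z hz => ⟨(k3 z hz).1, fun hh => (k3 z hz).2 (by simp [hh])⟩, k4⟩
      · rw [hup i hi]; exact h1 i hi
    · rcases Finset.mem_insert.1 hi with h3 | h3 <;> rcases Finset.mem_insert.1 hi' with h4 | h4
      · rw [h3, h4]
      · rw [h3, Function.update_self] at hz; rw [hup _ h4] at hz'
        exact absurd hz' (k5 _ h4 z hz)
      · rw [h4, Function.update_self] at hz'; rw [hup _ h3] at hz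
        exact absurd hz (k5 _ h3 z hz')
      · rw [hup _ h3] at hz; rw [hup _ h4] at hz'
        exact h2 _ h3 _ h4 z hz hz'

/-- the list meets every nonempty subset of `W` with boundary smaller than `L` -/
def Big (E : V → V → Prop) (W : Finset V) (L : ℕ) (P : List V) : Prop :=
  ∀ S ⊆ W, S.Nonempty → (bd E S).card < L → ∃ z ∈ P, z ∈ S

theorem exists_closed {E : V → V → Prop} {W : Finset V} {K L : ℕ} (hW : ∀ x y, E x y → y ∈ W)
    (h : MinOut E W K) (hL : 0 < L) (hK : L + 1 ≤ K) (P : List V) (hP : Big E W L P) :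
    ∃ P', P' <:+ P ∧ Big E W L P' ∧ ∃ B ⊆ W, B.Nonempty ∧ (bd E B).card = L ∧ ∀ z ∈ P', z ∉ B := by
  induction P with
  | nil =>
    have : bd E W = ∅ := by
      ext y; simp only [mem_bd, Finset.notMem_empty, iff_false]
      rintro ⟨h1, x, -, h2⟩; exact h1 (hW x y h2)
    simpa using hP W le_rfl h.1 (by simp [this, hL])
  | cons v P ih =>
    by_cases h0 : Big E W L P
    · obtain ⟨P', h1, h2⟩ := ih h0
      exact ⟨P', h1.trans (List.suffix_cons _ _), h2⟩
    · unfold Big at h0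
      push Not at h0
      obtain ⟨S, h1, h2, h3, h4⟩ := h0
      have h5 : MinOut E S 2 := h.sub h2 h1 (Y := bd E S) (fun x hx y _ hxy => by
        by_cases hy : y ∈ S
        · exact Or.inl hy
        · exact Or.inr (mem_bd.2 ⟨hy, x, hx, hxy⟩)) (by omega)
      have h6 : (S.erase v).Nonempty := Finset.card_pos.1 (by
        have := h5.card_le
        have := Finset.pred_card_le_card_erase (s := S) (a := v)
        omega)
      have h7 : ∀ z ∈ v :: P, z ∉ S.erase v := by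
        intro z hz hz'
        rcases List.mem_cons.1 hz with rfl | hz
        · simp at hz'
        · exact h4 z hz (Finset.mem_of_mem_erase hz')
      refine ⟨v :: P, List.suffix_rfl, hP, S.erase v, (Finset.erase_subset _ _).trans h1, h6,
        le_antisymm ?_ ?_, h7⟩
      · have : bd E (S.erase v) ⊆ insert v (bd E S) := by
          intro y hy
          simp only [mem_bd, Finset.mem_erase, Finset.mem_insert] at hy ⊢
          obtain ⟨k1, x, k2, k3⟩ := hy
          by_cases k4 : y = v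
          · exact Or.inl k4
          · exact Or.inr ⟨fun k5 => k1 ⟨k4, k5⟩, x, k2.2, k3⟩
        have := (Finset.card_le_card this).trans (Finset.card_insert_le _ _)
        omega
      · by_contra hc
        obtain ⟨z, hz, hz'⟩ := hP _ ((Finset.erase_subset _ _).trans h1) h6 (by omega)
        exact h7 z hz hz'

theorem exists_big {E : V → V → Prop} {W : Finset V} {L : ℕ} (hW : ∀ x y, E x y → y ∈ W)
    (h0 : W.Nonempty)
    (h : ∀ S ⊆ W, S.Nonempty → (bd E S).card < L → ∀ S' ⊆ W, S'.Nonempty → (bd E S').card < L →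
      ∃ z ∈ S, z ∈ S') : ∃ P : List V, P.IsChain E ∧ P.Nodup ∧ Big E W L P := by
  rcases Nat.eq_zero_or_pos L with rfl | hL
  · exact ⟨[], by simp, by simp, fun S _ _ h => by omega⟩
  let F : Finset (Finset V) := W.powerset.filter fun S => S.Nonempty ∧ (bd E S).card < L
  have hF : ∀ S, S ∈ F ↔ S ⊆ W ∧ S.Nonempty ∧ (bd E S).card < L := by simp [F]
  let un : List V → Finset (Finset V) := fun P => F.filter fun S => ∀ z ∈ P, z ∉ S
  have ex : ∃ n, ∃ a v P B, Wk E a v P ∧ P.Nodup ∧ B ∈ F ∧ v ∈ B ∧ (∀ z ∈ P, z ∈ B → z = v) ∧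
      (un P).card = n := by
    obtain ⟨v, hv⟩ := h0
    have : bd E W = ∅ := by
      ext y; simp only [mem_bd, Finset.notMem_empty, iff_false]
      rintro ⟨h1, x, -, h2⟩; exact h1 (hW x y h2)
    exact ⟨_, v, v, [v], W, Wk.single v, by simp, (hF W).2 ⟨le_rfl, ⟨v, hv⟩, by simp [this, hL]⟩,
      hv, by simp, rfl⟩
  obtain ⟨a, v, P, B, h1, h2, h3, h4, h5, h6⟩ := Nat.find_spec ex
  refine ⟨P, h1.chain, h2, fun S k1 k2 k3 => ?_⟩
  by_contra hc
  push Not at hc
  have hB := (hF B).1 h3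
  have hR : reach E B v ⊆ B := fun z hz => (mem_reach.1 hz).right
  obtain ⟨z, hz, hz'⟩ := h (reach E B v) (hR.trans hB.1) ⟨v, mem_reach.2 (Rch.refl h4)⟩
    (lt_of_le_of_lt (Finset.card_le_card fun y hy => by
      obtain ⟨r1, x, r2, r3⟩ := bd_reach hy
      exact mem_bd.2 ⟨r1, x, r2.right, r3⟩) hB.2.2) S k1 k2 k3
  obtain ⟨p, q, m, r1, r2, r3, rfl, ⟨S', r5, r5'⟩, -, r7⟩ := (mem_reach.1 hz).trim (· = v)
    (fun z => ∃ S ∈ un P, z ∈ S) rfl ⟨S, Finset.mem_filter.2 ⟨(hF S).2 ⟨k1, k2, k3⟩, hc⟩, hz'⟩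
  obtain ⟨m', rfl⟩ := r1.eq_cons
  obtain ⟨r8, r9⟩ := Finset.mem_filter.1 r5
  rw [List.nodup_cons] at r2
  refine Nat.find_min ex (m := (un (P ++ m')).card) ?_ ⟨a, q, P ++ m', S', h1.append r1, ?_, r8, r5',
    ?_, rfl⟩
  · rw [← h6]
    refine Finset.card_lt_card ⟨fun S hS => ?_, fun hh => ?_⟩
    · simp only [un, Finset.mem_filter, List.mem_append] at hS ⊢
      exact ⟨hS.1, fun z hz => hS.2 z (Or.inl hz)⟩
    · exact (Finset.mem_filter.1 (hh r5)).2 q (h1.append r1).last_mem r5'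
  · refine List.nodup_append.2 ⟨h2, r2.2, ?_⟩
    rintro x hx y hy rfl
    exact r2.1 (h5 x hx (r3 x (by simp [hy])) ▸ hy)
  · intro z hz hz'
    rcases List.mem_append.1 hz with hz | hz
    · exact absurd hz' (r9 z hz)
    · exact r7 z (by simp [hz]) ⟨S', r5, hz'⟩

theorem caterpillar {E : V → V → Prop} {W B : Finset V} {L : ℕ} (hW : ∀ x y, E x y → y ∈ W)
    {P : List V} (hc : P.IsChain E) (hn : P.Nodup) (hP : Big E W L P) (hBW : B ⊆ W)
    (hB : (bd E B).card = L) (hBL : L ≤ B.card) (hPB : ∀ z ∈ P, z ∉ B) (hL : 0 < L) (G : ℕ) :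
    ∃ (e : ℕ → V) (Reg : ℕ → Set V), (∀ i < L, e i ∈ bd E B) ∧
      (∀ i < L, ∀ j < L, e i = e j → i = j) ∧ (∀ f, ∀ z ∈ Reg f, z ∉ B) ∧
      (∀ f f' z, z ∈ Reg f → z ∈ Reg f' → f = f') ∧ (∀ i < L, e i ∈ Reg (i / G)) ∧
      ∀ i < L, ∀ j < L, i / G = j / G → Vc E (Reg (i / G)) (e i) (e j) := by
  obtain ⟨T, hT, hTc⟩ := menger E (bd E B) P.toFinset L (by
    intro Y hY
    obtain ⟨v, hv, hvY⟩ := Finset.exists_mem_notMem_of_card_lt_card (hY.trans_le hBL)
    obtain ⟨z, hz, hz'⟩ := hP (reach E {z | z ∉ Y} v) (by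
        intro z hz
        obtain ⟨l, k1, -⟩ := mem_reach.1 hz
        by_contra k2
        obtain ⟨y, -, k3, x, -, k4⟩ := k1.exit (X := (W : Set V)) (hBW hv) k2
        exact k3 (hW x y k4)) ⟨v, mem_reach.2 (Rch.refl hvY)⟩
      (lt_of_le_of_lt (Finset.card_le_card fun y hy => by simpa using (bd_reach hy).1) hY)
    obtain ⟨l, k1, k2⟩ := mem_reach.1 hz'
    obtain ⟨y, k3, k4⟩ := k1.exit (X := (B : Set V)) hv (hPB z hz)
    obtain ⟨l1, l2, rfl, -, k5⟩ := k1.split k3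
    exact ⟨y, mem_bd.2 k4, z, by simpa using hz, _, k5, fun w hw => k2 w (by simp at hw ⊢; tauto)⟩)
  have h1 : ∀ x ∈ bd E B, ∃ (y : V) (m l : List V), l ∈ T ∧ x ∈ l ∧ m ⊆ l ∧ Wk E x y m ∧ y ∈ P ∧
      (∀ z ∈ m, z ∈ P → z = y) ∧ (∀ z ∈ m, z ∉ B) ∧ ∀ z ∈ l, z ∈ bd E B → z = x := by
    intro x hx
    obtain ⟨l, hl, y, hy, k1⟩ := hT.cover_start (by omega) hx
    obtain ⟨p, q, m, r1, r2, r3, rfl, r5, -, r7⟩ := k1.trim (· = x) (· ∈ P) rfl (by simpa using hy)
    have r8 : ∀ z ∈ l, z ∈ bd E B → z = p := fun z hz hz' => hT.start_only (by omega) hl k1 hz hz'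
    refine ⟨q, m, l, hl, k1.head_mem, r3, r1, r5, r7, fun z hz hzB => ?_, r8⟩
    obtain ⟨l', s1, s2⟩ := r1.rch_right r2 hz
    obtain ⟨w, s3, s4⟩ := s1.exit (X := (B : Set V)) hzB (hPB q r5)
    obtain ⟨s5, s6⟩ := s2 w s3
    exact s4.1 (s6 (r8 w (r3 s5) (mem_bd.2 s4)) ▸ hzB)
  have : Nonempty V := by
    obtain ⟨v, -⟩ := Finset.card_pos.1 (hL.trans_le hBL)
    exact ⟨v⟩
  choose! y m l hl hxl hml hw hy hmP hmB hlX using h1
  have hd : ∀ x ∈ bd E B, ∀ x' ∈ bd E B, ∀ z, z ∈ m x → z ∈ m x' → x = x' := by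
    intro x hx x' hx' z hz hz'
    have := hT.2 _ (hl x hx) _ (hl x' hx') z (hml x hx hz) (hml x' hx' hz')
    exact hlX x' hx' x (this ▸ hxl x hx) hx
  have hinj : Set.InjOn (fun x => P.idxOf (y x)) (bd E B) := by
    intro x hx x' hx' hh
    have := (List.idxOf_inj (hy x hx)).1 hh
    exact hd x hx x' hx' _ (hw x hx).last_mem (this ▸ (hw x' hx').last_mem)
  obtain ⟨g, hg1, hg2⟩ := exists_enum ((bd E B).image fun x => P.idxOf (y x))
  rw [Finset.card_image_of_injOn hinj, hB] at hg1 hg2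
  have h2 : ∀ i < L, ∃ x ∈ bd E B, P.idxOf (y x) = g i := fun i hi => Finset.mem_image.1 (hg2 i hi)
  choose! e he1 he2 using h2
  have hg3 : ∀ i < L, ∀ j < L, g i ≤ g j → i ≤ j := by
    intro i hi j hj hh
    by_contra hc
    have := hg1 j i (by omega) hi
    omega
  have he3 : ∀ i < L, ∀ j < L, e i = e j → i = j := by
    intro i hi j hj hh
    have k1 := he2 i hi
    rw [hh, he2 j hj] at k1
    exact le_antisymm (hg3 i hi j hj k1.ge) (hg3 j hj i hi k1.le)
  refine ⟨e, fun f => {z | (∃ i < L, i / G = f ∧ z ∈ m (e i)) ∨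
    (z ∈ P ∧ ∃ i < L, ∃ j < L, i / G = f ∧ j / G = f ∧ g i ≤ P.idxOf z ∧ P.idxOf z ≤ g j)},
    he1, he3, ?_, ?_, fun i hi => Or.inl ⟨i, hi, rfl, (hw _ (he1 i hi)).head_mem⟩, ?_⟩
  · rintro f z (⟨i, hi, -, hz⟩ | ⟨hz, -⟩)
    · exact hmB _ (he1 i hi) z hz
    · exact hPB z hz
  · have key : ∀ f f' z, (∃ i < L, i / G = f ∧ z ∈ m (e i)) → (z ∈ P ∧ ∃ i < L, ∃ j < L,
        i / G = f' ∧ j / G = f' ∧ g i ≤ P.idxOf z ∧ P.idxOf z ≤ g j) → f = f' := by
      rintro f f' z ⟨i, hi, rfl, hz⟩ ⟨hzP, j, hj, j', hj', rfl, k1, k2, k3⟩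
      rw [hmP _ (he1 i hi) z hz hzP, he2 i hi] at k2 k3
      have := Nat.div_le_div_right (c := G) (hg3 _ hj _ hi k2)
      have := Nat.div_le_div_right (c := G) (hg3 _ hi _ hj' k3)
      omega
    rintro f f' z (hz | hz) (hz' | hz')
    · obtain ⟨i, hi, rfl, hz⟩ := hz
      obtain ⟨j, hj, rfl, hz'⟩ := hz'
      rw [he3 i hi j hj (hd _ (he1 i hi) _ (he1 j hj) z hz hz')]
    · exact key _ _ _ hz hz'
    · exact (key _ _ _ hz' hz).symm
    · obtain ⟨-, i, hi, i', hi', rfl, k1, k2, k3⟩ := hz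
      obtain ⟨-, j, hj, j', hj', rfl, k4, k5, k6⟩ := hz'
      have := Nat.div_le_div_right (c := G) (hg3 _ hi _ hj' (k2.trans k6))
      have := Nat.div_le_div_right (c := G) (hg3 _ hj _ hi' (k5.trans k3))
      omega
  · have key : ∀ f, ∀ i < L, ∀ j < L, i / G = f → j / G = f → g i ≤ g j →
        Vc E {z | (∃ i < L, i / G = f ∧ z ∈ m (e i)) ∨ (z ∈ P ∧ ∃ i < L, ∃ j < L, i / G = f ∧
          j / G = f ∧ g i ≤ P.idxOf z ∧ P.idxOf z ≤ g j)} (e i) (e j) := by
      intro f i hi j hj k1 k2 k3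
      obtain ⟨s, r1, -, r3⟩ := idx_seg hc hn (hy _ (he1 i hi)) (hy _ (he1 j hj))
        (by rw [he2 i hi, he2 j hj]; exact k3)
      rw [he2 i hi, he2 j hj] at r3
      exact ⟨y (e j), ((hw _ (he1 i hi)).rch.mono fun z hz => Or.inl ⟨i, hi, k1, hz⟩).trans
        (r1.rch.mono fun z hz => Or.inr ⟨((r3 z).1 hz).1, i, hi, j, hj, k1, k2, ((r3 z).1 hz).2⟩),
        (hw _ (he1 j hj)).rch.mono fun z hz => Or.inl ⟨j, hj, k2, hz⟩⟩
    intro i hi j hj hij
    rcases le_total (g i) (g j) with hh | hh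
    · exact key _ i hi j hj rfl hij.symm hh
    · exact (key _ j hj i hi hij.symm rfl hh).symm

end Pool.Agent.P.MP_a3bdf6_co
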