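import Pool.Agent.P.MP_a3bdf6_co.Extract
import Pool.Agent.P.MP_a3bdf6_co.Time

/-! Adding linkages one by one: disjoint representatives or an ordered web. -/

namespace Pool.Agent.P.MP_a3bdf6_co

open Classical

variable {V : Type*}

theorem Lk.shrink {E : V → V → Prop} {A B : Finset V} {T : Finset (List V)} (h : Lk E A B T)
    {p : ℕ} (hp : p ≤ T.card) : ∃ A' ⊆ A, A'.card = p ∧ ∃ T', Lk E A' B T' ∧ T'.card = p := by
  obtain ⟨T', h1, rfl⟩ := Finset.exists_subset_card_eq hp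
  have h2 := h.mono h1
  rcases T'.eq_empty_or_nonempty with rfl | ⟨l0, hl0⟩
  · exact ⟨∅, by simp, rfl, ∅, ⟨by simp, h2.2⟩, rfl⟩
  obtain ⟨-, a0, -⟩ := h2.1 l0 hl0
  have : Nonempty V := ⟨a0⟩
  have h3 : ∀ l ∈ T', ∃ a ∈ A, ∃ b ∈ B, Wk E a b l := fun l hl => (h2.1 l hl).2
  choose! f hf1 hf2 using h3
  refine ⟨T'.image f, fun a ha => ?_, Finset.card_image_of_injOn fun l hl l' hl' hh => ?_, T',
    ⟨fun l hl => ⟨(h2.1 l hl).1, f l, Finset.mem_image_of_mem _ hl, hf2 l hl⟩, h2.2⟩, rfl⟩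
  · obtain ⟨l, hl, rfl⟩ := Finset.mem_image.1 ha
    exact hf1 l hl
  · obtain ⟨_, -, k1⟩ := hf2 l hl
    obtain ⟨_, -, k2⟩ := hf2 l' hl'
    exact h2.2 l hl l' hl' _ k1.head_mem (hh ▸ k2.head_mem)

theorem cyc_good {E : V → V → Prop} {b c : ℕ} {g : List V} {τ : V → ℕ} (h : CycL' E b g)
    (hg : Good τ g c) {x y : V} (hx : x ∈ g) (hy : y ∈ g) (hc : τ x < c) : τ y < c := by
  obtain ⟨x0, l, rfl, -⟩ := h
  have h1 : (x0 :: l ++ [x0]).Pairwise fun x y =>
      (if τ x < c then 1 else 0) ≤ (if τ y < c then 1 else 0) :=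
    pairwise_of_chain (f := fun x => if τ x < c then 1 else 0) (hg.imp (by
      intro x y h; split_ifs <;> omega))
  have h2 : ∀ z ∈ x0 :: l ++ [x0], (if τ z < c then 1 else 0) = (if τ x0 < c then 1 else 0) := by
    intro z hz
    by_cases hz0 : z = x0
    · rw [hz0]
    have hzl : z ∈ l := by simpa [hz0] using hz
    have k1 := (List.pairwise_append.1 h1).2.2 z (by simp [hzl]) x0 (by simp)
    have k2 := List.rel_of_pairwise_cons (List.pairwise_append.1 h1).1 hzl
    omega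
  have k1 := h2 x hx
  have k2 := h2 y hy
  split_ifs at k1 k2; omega

/-- the kept cycles and paths -/
structure Cl {ι : Type*} (E : V → V → Prop) (b : ℕ) (A X : ι → Finset V) (J : Finset ι) (N : ℕ)
    (T : Option ι → Finset (List V)) : Prop where
  card : ∀ o ∈ Finset.insertNone J, N ≤ (T o).card
  cyc : ∀ l ∈ T none, CycL' E b l
  path : ∀ j ∈ J, ∀ l ∈ T (some j), l.Nodup ∧ ∃ a ∈ A j, ∃ x ∈ X j, Wk E a x l
  disj : ∀ o ∈ Finset.insertNone J, ∀ o' ∈ Finset.insertNone J, ∀ l ∈ T o, ∀ l' ∈ T o',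
    ∀ z, z ∈ l → z ∈ l' → o = o' ∧ l = l'

noncomputable def hits (P : Finset (List V)) (g : List V) : Finset (List V) :=
  P.filter fun l => ∃ x ∈ l, x ∈ g

theorem heavy_cyc {κ : Type*} [Fintype κ] {c : κ → ℕ} {b k : ℕ} (hk0 : 0 < k) {V : Type}
    [Fintype V] {E Q : V → V → Prop}
    (hk : ∀ (S : Set V) (θ : V → ℕ) (T : Finset ℕ) (hi : ℕ),
      OW E S θ T → k ≤ T.card → (∀ t ∈ T, t < hi) → Zigs E b c {z | z ∈ S ∧ θ z < hi})
    {p : ℕ} {P H : Finset (List V)} {τ : V → ℕ} (h : Timed E Q p P H τ)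
    (hc : ∀ g ∈ H, CycL' E b g ∧ 4 ≤ (hits P g).card)
    (hH : (k * 2 ^ p + Fintype.card κ) * (4 * p) < H.card) : Fam E b c Set.univ := by
  rcases h.extract (Finset.Subset.refl _) (k * 2 ^ p + Fintype.card κ) with
    ⟨cc, h1, h2⟩ | ⟨cc, h1, h2, h3, H', h4, h5, h6⟩
  · obtain ⟨T, k1, k2, k3⟩ := h.ow_one (Finset.Subset.refl _) (S := Set.univ) (by simp) (by simp)
      h1 (Nat.le_add_right _ _) h2 hk0
    have k4 := hk _ _ _ _ k1 k2 k3
    choose! g hg hG1 hG2 hm using h2
    have k5 : ∀ i < k * 2 ^ p + Fintype.card κ, ∀ z ∈ g i,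
        chi cc (k * 2 ^ p + Fintype.card κ) (τ z) = i := by
      intro i hi z hz
      obtain ⟨l, hl⟩ := Finset.card_pos.1 (lt_of_lt_of_le (by omega) (hm i hi))
      obtain ⟨-, x, -, r1, r2, r3⟩ := Finset.mem_filter.1 hl
      refine chi_eq h1 hi ?_ (cyc_good (hc _ (hg i hi)).1 (hG2 i hi) r1 hz r3)
      by_contra r4
      have := cyc_good (hc _ (hg i hi)).1 (hG1 i hi) hz r1 (by omega)
      omega
    refine k4.fam (C := (Finset.Ico (k * 2 ^ p) (k * 2 ^ p + Fintype.card κ)).image g) ?_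
      (h.pdH.mono ?_) ?_ ?_
    · rw [Finset.card_image_of_injOn]
      · simp
      · intro i hi j hj hij
        simp only [Finset.coe_Ico, Set.mem_Ico] at hi hj
        obtain ⟨x, l, r1, -⟩ := (hc _ (hg i hi.2)).1
        have r2 : x ∈ g i := by simp [r1]
        exact (k5 i hi.2 x r2).symm.trans (k5 j hj.2 x (hij ▸ r2))
    · intro l hl
      obtain ⟨i, hi, rfl⟩ := Finset.mem_image.1 hl
      exact hg i (Finset.mem_Ico.1 hi).2
    · intro l hl
      obtain ⟨i, hi, rfl⟩ := Finset.mem_image.1 hl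
      exact (hc _ (hg i (Finset.mem_Ico.1 hi).2)).1
    · rintro l hl z hz ⟨-, r1⟩
      obtain ⟨i, hi, rfl⟩ := Finset.mem_image.1 hl
      rw [Finset.mem_Ico] at hi
      have := k5 i hi.2 z hz
      omega
  · exfalso
    obtain ⟨g, hg⟩ : H'.Nonempty := Finset.card_pos.1 (by omega)
    obtain ⟨r1, r2⟩ := hc g (h4 hg)
    have r3 := r1
    obtain ⟨x, l, r4, -⟩ := r3
    have hx : x ∈ g := by simp [r4]
    obtain ⟨i, hi, r5, r6⟩ := exists_chunk h2 (h3 x)
    have r7 : hits P g ⊆ meet τ P g (cc i) (cc (i + 1)) := by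
      intro l hl
      obtain ⟨r8, y, r9, hy⟩ := Finset.mem_filter.1 hl
      refine Finset.mem_filter.2 ⟨r8, y, r9, hy, ?_, cyc_good r1 (h6 g hg i hi).1 hx hy r6⟩
      rcases i with _ | i
      · omega
      · by_contra r10
        have := cyc_good r1 (h6 g hg i (by omega)).1 hy hx (by omega)
        omega
    have := Finset.card_le_card r7
    have := (h6 g hg i hi).2
    omega

theorem heavy_path {κ : Type*} [Fintype κ] {c : κ → ℕ} {b k : ℕ} (hk0 : 0 < k) {V : Type}
    [Fintype V] {E Q : V → V → Prop}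
    (hk : ∀ (S : Set V) (θ : V → ℕ) (T : Finset ℕ) (hi : ℕ),
      OW E S θ T → k ≤ T.card → (∀ t ∈ T, t < hi) → Zigs E b c {z | z ∈ S ∧ θ z < hi})
    {p : ℕ} {P H C : Finset (List V)} {τ : V → ℕ} (h : Timed E Q p P H τ)
    (hc : ∀ g ∈ H, g.Nodup ∧ 4 * k + 4 * Fintype.card κ ≤ (hits P g).card)
    (hH : (k * 2 ^ p) * (4 * p) + (p + 1) ^ (k * 2 ^ p) * 4 ≤ H.card)
    (hC : C.card = Fintype.card κ) (hCP : PD C) (hC' : ∀ l ∈ C, CycL' E b l ∧ (hits P l).card < 4)
    (hCH : ∀ l ∈ C, ∀ g ∈ H, ∀ z ∈ l, z ∉ g) : Fam E b c Set.univ := by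
  obtain ⟨P', hmem⟩ : ∃ P' : Finset (List V), ∀ l, l ∈ P' ↔ l ∈ P ∧ ∀ l' ∈ C, ∀ x ∈ l, x ∉ l' :=
    ⟨P.filter fun l => ∀ l' ∈ C, ∀ x ∈ l, x ∉ l', by simp⟩
  have hP' : P' ⊆ P := fun l hl => ((hmem l).1 hl).1
  let S : Set V := {z | ∀ l ∈ C, z ∉ l}
  have hS : ∀ l ∈ P', ∀ z ∈ l, z ∈ S := fun l hl z hz l' hl' =>
    ((hmem l).1 hl).2 l' hl' z hz
  have hS' : ∀ l ∈ H, ∀ z ∈ l, z ∈ S := fun l hl z hz l' hl' hz' => hCH l' hl' l hl z hz' hz
  have fin : ∀ (θ : V → ℕ) (T : Finset ℕ), OW E S θ T → k ≤ T.card → Fam E b c Set.univ := by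
    intro θ T h1 h2
    refine (hk _ _ _ (T.sup id + 1) h1 h2 fun t ht =>
      Nat.lt_succ_of_le (Finset.le_sup (f := id) ht)).fam hC.ge hCP (fun l hl => (hC' l hl).1) ?_
    rintro l hl z hz ⟨h3, -⟩
    exact h3 l hl hz
  rcases h.extract hP' (k * 2 ^ p) with ⟨cc, h1, h2⟩ | ⟨cc, h1, h2, h3, H', h4, h5, h6⟩
  · obtain ⟨T, k1, k2, -⟩ := h.ow_one hP' hS hS' h1 le_rfl h2 hk0
    exact fin _ _ k1 k2
  · obtain ⟨T, k1, k2⟩ := (h.monoH h4).ow_two (k := k) hP' hS (fun l hl => hS' l (h4 hl)) h1 h2 h3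
      (by omega) (fun l hl => (hc l (h4 hl)).1) (by
        intro g hg
        have r1 : hits P g ⊆ (P'.filter fun l => ∃ x ∈ l, x ∈ g) ∪ C.biUnion (hits P) := by
          intro l hl
          obtain ⟨r2, r3⟩ := Finset.mem_filter.1 hl
          by_cases r4 : l ∈ P'
          · exact Finset.mem_union_left _ (Finset.mem_filter.2 ⟨r4, r3⟩)
          · simp only [hmem, r2, true_and] at r4
            push Not at r4
            obtain ⟨l', r5, x, r6, r7⟩ := r4
            exact Finset.mem_union_right _ (Finset.mem_biUnion.2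
              ⟨l', r5, Finset.mem_filter.2 ⟨r2, x, r6, r7⟩⟩)
        have r2 := (Finset.card_le_card r1).trans (Finset.card_union_le _ _)
        have r3 := Finset.card_biUnion_le_card_mul C (hits P) 4 fun l hl => (hC' l hl).2.le
        have r4 := (hc g (h4 hg)).2
        omega) h6
    exact fin _ _ k1 k2

theorem clean {κ : Type*} [Fintype κ] (c : κ → ℕ) (b n : ℕ) : ∀ N, Fintype.card κ ≤ N →
    ∃ M p : ℕ, ∀ (V : Type) [Fintype V] (E : V → V → Prop) (ι : Type) (J : Finset ι)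
      (A X : ι → Finset V), J.card = n → (∀ j ∈ J, ∃ T, Lk E (A j) (X j) T ∧ T.card = p) →
      ∀ Z : Finset (List V), Z.card = M → PD Z → (∀ l ∈ Z, CycL' E b l) →
        Fam E b c Set.univ ∨ ∃ T, Cl E b A X J N T ∧ T none ⊆ Z := by
  obtain ⟨k, hk0, hk⟩ := ow_zigs c b
  induction n with
  | zero =>
    intro N _
    refine ⟨N, 0, fun V _ E ι J A X hJ _ Z h1 h2 h3 => Or.inr ⟨fun _ => Z, ?_, le_rfl⟩⟩
    rw [Finset.card_eq_zero] at hJ
    subst hJ
    refine ⟨fun _ _ => h1.ge, h3, by simp, fun o ho o' ho' l hl l' hl' z hz hz' => ?_⟩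
    refine ⟨?_, h2 l hl l' hl' z hz hz'⟩
    rcases o with _ | o <;> rcases o' with _ | o' <;> simp at ho ho' ⊢
  | succ n ih =>
    intro N hN
    obtain ⟨hp, hhp⟩ : ∃ hp, hp = 4 * k + 4 * Fintype.card κ := ⟨_, rfl⟩
    obtain ⟨p1, hp1⟩ : ∃ p1, p1 = N + (n + 1) * (N * hp) + 1 := ⟨_, rfl⟩
    obtain ⟨q, hq1, hq2⟩ : ∃ q, (k * 2 ^ p1 + Fintype.card κ) * (4 * p1) < q ∧
        (k * 2 ^ p1) * (4 * p1) + (p1 + 1) ^ (k * 2 ^ p1) * 4 ≤ q :=
      ⟨max _ _ + 1, Nat.lt_succ_of_le (le_max_left _ _), (le_max_right _ _).trans (Nat.le_succ _)⟩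
    obtain ⟨M, p', ih⟩ := ih (N + q) (by omega)
    refine ⟨M, max p' p1, fun V _ E ι J A X hJ hL Z h1 h2 h3 => ?_⟩
    obtain ⟨j, J, hj, rfl, hJ'⟩ := Finset.card_eq_succ.1 hJ
    clear hJ
    rename' hJ' => hJ
    rcases ih V E ι J A X hJ (fun i hi => by
      obtain ⟨T, k1, k2⟩ := hL i (Finset.mem_insert_of_mem hi)
      obtain ⟨T', k3, k4⟩ := Finset.exists_subset_card_eq (s := T) (n := p') (by omega)
      exact ⟨T', k1.mono k3, k4⟩) Z h1 h2 h3 with hF | ⟨T, hT, hTZ⟩
    · exact Or.inl hF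
    obtain ⟨L, k1, k2⟩ := hL j (Finset.mem_insert_self _ _)
    obtain ⟨A', hA', hA'c, hL'⟩ := k1.shrink (p := p1) (by omega)
    set O := Finset.insertNone J with hO
    have hch : ∀ o ∈ O, ∀ l ∈ T o, l.IsChain E := by
      intro o ho l hl
      rcases o with _ | i
      · obtain ⟨_, _, -, r, -⟩ := hT.cyc l hl; exact r
      · obtain ⟨-, _, -, _, -, r⟩ := hT.path i (by simpa [hO] using ho) l hl; exact r.chain
    let Q : V → V → Prop := fun x y => ∃ o ∈ O, ∃ l ∈ T o, [x, y] <:+: l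
    have hQ : ∀ x y, Q x y → E x y := by
      rintro x y ⟨o, ho, l, hl, r⟩
      obtain ⟨s, t, rfl⟩ := r
      exact List.isChain_pair.1 (hch o ho _ hl).left_of_append.right_of_append
    obtain ⟨P, τ, hP, hPc, hτ, hcut⟩ := time_lemma E Q hQ A' (X j) p1 (by omega) hA'c hL'
    have timed : ∀ o ∈ O, Timed E Q p1 P (T o) τ := fun o ho =>
      { hQ := hQ
        card := hPc
        pd := hP.2
        path := fun l hl => by
          obtain ⟨r1, _, -, _, -, r2⟩ := hP.1 l hl
          exact ⟨r2.chain, r1⟩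
        time := hτ
        cut := hcut
        pdH := fun l hl l' hl' z hz hz' => (hT.disj o ho o ho l hl l' hl' z hz hz').2
        chainH := fun l hl => (List.isChain_isInfix l).imp fun x y r => ⟨o, ho, l, hl, r⟩
        lab := by
          rintro l hl x y ⟨o', ho', l', hl', r⟩
          have hx : x ∈ l' := r.subset (by simp)
          have hy : y ∈ l' := r.subset (by simp)
          exact ⟨fun r1 => (hT.disj o ho o' ho' l hl l' hl' x r1 hx).2 ▸ hy,
            fun r1 => (hT.disj o ho o' ho' l hl l' hl' y r1 hy).2 ▸ hx⟩ }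
    have hnone : none ∈ O := by simp [hO]
    by_cases c1 : q ≤ ((T none).filter fun g => 4 ≤ (hits P g).card).card
    · left
      exact heavy_cyc hk0 (hk V E) ((timed none hnone).monoH (Finset.filter_subset _ _))
        (fun g hg => ⟨hT.cyc g (Finset.mem_filter.1 hg).1, (Finset.mem_filter.1 hg).2⟩) (by omega)
    have lightC : N ≤ ((T none).filter fun g => ¬ 4 ≤ (hits P g).card).card := by
      have := Finset.card_filter_add_card_filter_not (s := T none) fun g => 4 ≤ (hits P g).card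
      have := hT.card none hnone
      omega
    by_cases c2 : ∃ i ∈ J, q ≤ ((T (some i)).filter fun g => hp ≤ (hits P g).card).card
    · left
      obtain ⟨i, hi, c2⟩ := c2
      have hiO : some i ∈ O := by simpa [hO] using hi
      obtain ⟨C, r1, r2⟩ := Finset.exists_subset_card_eq (hN.trans lightC)
      have r3 : C ⊆ T none := r1.trans (Finset.filter_subset _ _)
      refine heavy_path hk0 (hk V E) ((timed _ hiO).monoH (Finset.filter_subset _ _))
        (fun g hg => ⟨(hT.path i hi g (Finset.mem_filter.1 hg).1).1,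
          hhp ▸ (Finset.mem_filter.1 hg).2⟩) (by omega) r2 ((timed none hnone).pdH.mono r3)
        (fun l hl => ⟨hT.cyc l (r3 hl), by simpa using (Finset.mem_filter.1 (r1 hl)).2⟩) ?_
      intro l hl g hg z hz hz'
      simpa using (hT.disj none hnone _ hiO l (r3 hl) g (Finset.mem_filter.1 hg).1 z hz hz').1
    right
    push Not at c2
    have light : ∀ o ∈ O, ∃ T' ⊆ T o, T'.card = N ∧ ∀ g ∈ T', (hits P g).card ≤ hp := by
      intro o ho
      rcases o with _ | i
      · obtain ⟨C, r1, r2⟩ := Finset.exists_subset_card_eq lightC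
        refine ⟨C, r1.trans (Finset.filter_subset _ _), r2, fun g hg => ?_⟩
        have := (Finset.mem_filter.1 (r1 hg)).2
        omega
      · have r0 : N ≤ ((T (some i)).filter fun g => ¬ hp ≤ (hits P g).card).card := by
          have := Finset.card_filter_add_card_filter_not (s := T (some i))
            fun g => hp ≤ (hits P g).card
          have := hT.card _ ho
          have := c2 i (by simpa [hO] using ho)
          omega
        obtain ⟨C, r1, r2⟩ := Finset.exists_subset_card_eq r0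
        refine ⟨C, r1.trans (Finset.filter_subset _ _), r2, fun g hg => ?_⟩
        have := (Finset.mem_filter.1 (r1 hg)).2
        omega
    choose! T' hT1 hT2 hT3 using light
    let bad := O.biUnion fun o => (T' o).biUnion (hits P)
    have hbad : bad.card ≤ (n + 1) * (N * hp) := by
      refine (Finset.card_biUnion_le_card_mul _ _ (N * hp) fun o ho => ?_).trans
        (by simp [hO, hJ])
      exact (Finset.card_biUnion_le_card_mul _ _ hp (hT3 o ho)).trans (by rw [hT2 o ho])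
    have hgood : N ≤ (P \ bad).card := by
      have := Finset.le_card_sdiff bad P
      omega
    have hmem : ∀ o, o ∈ Finset.insertNone (insert j J) ↔ o = some j ∨ o ∈ O := by
      intro o
      rcases o with _ | i <;> simp [hO]
    have hjO : some j ∉ O := by simpa [hO] using hj
    have hup : ∀ o ∈ O, Function.update T' (some j) (P \ bad) o = T' o := fun o ho =>
      Function.update_of_ne (by rintro rfl; exact hjO ho) _ _
    have hcross : ∀ o ∈ O, ∀ l ∈ T' o, ∀ l' ∈ P \ bad, ∀ z, z ∈ l → z ∈ l' → False := by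
      intro o ho l hl l' hl' z hz hz'
      obtain ⟨r1, r2⟩ := Finset.mem_sdiff.1 hl'
      exact r2 (Finset.mem_biUnion.2 ⟨o, ho, Finset.mem_biUnion.2
        ⟨l, hl, Finset.mem_filter.2 ⟨r1, z, hz', hz⟩⟩⟩)
    refine ⟨Function.update T' (some j) (P \ bad), ⟨?_, ?_, ?_, ?_⟩, ?_⟩
    · intro o ho
      rcases (hmem o).1 ho with rfl | ho
      · simpa using hgood
      · rw [hup o ho, hT2 o ho]
    · rw [hup _ hnone]
      exact fun l hl => hT.cyc l (hT1 _ hnone hl)
    · intro i hi l hl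
      rcases Finset.mem_insert.1 hi with rfl | hi
      · rw [Function.update_self] at hl
        obtain ⟨r1, a, ha, r2⟩ := hP.1 l (Finset.mem_sdiff.1 hl).1
        exact ⟨r1, a, hA' ha, r2⟩
      · have hiO : some i ∈ O := by simpa [hO] using hi
        rw [hup _ hiO] at hl
        exact hT.path i hi l (hT1 _ hiO hl)
    · intro o ho o' ho' l hl l' hl' z hz hz'
      rcases (hmem o).1 ho with rfl | ho <;> rcases (hmem o').1 ho' with rfl | ho'
      · rw [Function.update_self] at hl hl'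
        exact ⟨rfl, hP.2 l (Finset.mem_sdiff.1 hl).1 l' (Finset.mem_sdiff.1 hl').1 z hz hz'⟩
      · rw [Function.update_self] at hl
        rw [hup _ ho'] at hl'
        exact (hcross _ ho' l' hl' l hl z hz' hz).elim
      · rw [Function.update_self] at hl'
        rw [hup _ ho] at hl
        exact (hcross _ ho l hl l' hl' z hz hz').elim
      · rw [hup _ ho] at hl
        rw [hup _ ho'] at hl'
        exact hT.disj o ho o' ho' l (hT1 _ ho hl) l' (hT1 _ ho' hl') z hz hz'
    · rw [hup _ hnone]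
      exact (hT1 _ hnone).trans hTZ

end Pool.Agent.P.MP_a3bdf6_co
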