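import Mathlib

namespace Pool.Agent.P.MP_a3bdf6_co

/-- `D` contains a subdivision of `F`: branch vertices `φ`, and for every arc `(u,v)` of `F` a
directed path from `φ u` to `φ v` in `D` with list of inner vertices `P u v`; the inner vertices
are no branch vertices and different arcs have disjoint sets of inner vertices. -/
def ContainsSubdivision {α β : Type} (F : Digraph α) (D : Digraph β) : Prop :=
  ∃ (φ : α → β) (P : α → α → List β), Function.Injective φ ∧
    (∀ u v, F.Adj u v → List.IsChain D.Adj (φ u :: P u v ++ [φ v]) ∧ (P u v).Nodup ∧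
      ∀ x ∈ P u v, x ∉ Set.range φ) ∧
    ∀ u v u' v', F.Adj u v → F.Adj u' v' → (u, v) ≠ (u', v') → List.Disjoint (P u v) (P u' v')

/-- The disjoint union of `m` orientations of cycles. The `i`-th cycle has length `n i + 2` and
vertices `Fin (n i + 2)` in cyclic order. For length two it is the digon; otherwise the edge
between `x` and `x + 1` is directed from `x` to `x + 1` if `o i x` holds and backwards if not. -/
def cycleUnion {m : ℕ} (n : Fin m → ℕ) (o : (i : Fin m) → Fin (n i + 2) → Bool) :
    Digraph ((i : Fin m) × Fin (n i + 2)) where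
  Adj a b := ∃ (i : Fin m) (x y : Fin (n i + 2)), a = ⟨i, x⟩ ∧ b = ⟨i, y⟩ ∧
    if n i = 0 then x ≠ y else (y = x + 1 ∧ o i x = true) ∨ (x = y + 1 ∧ o i y = false)

end Pool.Agent.P.MP_a3bdf6_co
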