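import Pool.Agent.P.MP_a3bdf6_co.OW

/-! Extraction of an ordered web from a timed linkage and many crossing tracks. -/

namespace Pool.Agent.P.MP_a3bdf6_co

open Classical

variable {V : Type*}

/-- a linkage with time function together with a family of tracks -/
structure Timed (E Q : V → V → Prop) (p : ℕ) (P H : Finset (List V)) (τ : V → ℕ) : Prop where
  hQ : ∀ x y, Q x y → E x y
  card : P.card = p
  pd : PD P
  path : ∀ l ∈ P, l.IsChain E ∧ l.Nodup
  time : ∀ l ∈ P, l.IsChain fun x y => τ x ≤ τ y ∧ (τ x = τ y → Q x y)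
  cut : ∀ c, ∃ S : Finset V, S.card ≤ p ∧ ∀ x y, Q x y → τ x < c → c ≤ τ y → y ∈ S
  pdH : PD H
  chainH : ∀ l ∈ H, l.IsChain Q
  lab : ∀ l ∈ H, ∀ x y, Q x y → (x ∈ l ↔ y ∈ l)

noncomputable def meet (τ : V → ℕ) (P : Finset (List V)) (h : List V) (c c' : ℕ) :
    Finset (List V) := P.filter fun l => ∃ x ∈ l, x ∈ h ∧ c ≤ τ x ∧ τ x < c'

def Good (τ : V → ℕ) (h : List V) (c : ℕ) : Prop := h.IsChain fun x y => ¬ (τ x < c ∧ c ≤ τ y)

noncomputable def chi (c : ℕ → ℕ) (k n : ℕ) : ℕ := ((Finset.range k).filter fun i => c (i + 1) ≤ n).card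

theorem chi_mono (c : ℕ → ℕ) (k : ℕ) {n n' : ℕ} (h : n ≤ n') : chi c k n ≤ chi c k n' :=
  Finset.card_le_card fun i hi => by
    simp only [Finset.mem_filter] at hi ⊢; exact ⟨hi.1, hi.2.trans h⟩

theorem chi_eq {c : ℕ → ℕ} (hc : Monotone c) {k n i : ℕ} (hi : i < k) (h1 : c i ≤ n)
    (h2 : n < c (i + 1)) : chi c k n = i := by
  have : ((Finset.range k).filter fun i => c (i + 1) ≤ n) = Finset.range i := by
    ext j
    simp only [Finset.mem_filter, Finset.mem_range]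
    constructor
    · rintro ⟨-, h3⟩
      by_contra h4
      have := hc (show i + 1 ≤ j + 1 by omega)
      omega
    · intro h3
      exact ⟨by omega, (hc (by omega)).trans h1⟩
  rw [chi, this, Finset.card_range]

theorem exists_chunk {c : ℕ → ℕ} (h0 : c 0 = 0) {k n : ℕ} (h : n < c k) :
    ∃ i < k, c i ≤ n ∧ n < c (i + 1) := by
  induction k with
  | zero => omega
  | succ k ih =>
    by_cases h1 : n < c k
    · obtain ⟨i, hi, h2⟩ := ih h1
      exact ⟨i, by omega, h2⟩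
    · exact ⟨k, by omega, by omega, h⟩

theorem chain_and {R R' : V → V → Prop} {l : List V} (h : l.IsChain R) (h' : l.IsChain R') :
    l.IsChain fun x y => R x y ∧ R' x y := by
  rw [List.isChain_iff_forall_rel_of_append_cons_cons] at *
  exact fun _ _ _ _ hl => ⟨h hl, h' hl⟩

namespace Timed

variable {E Q : V → V → Prop} {p : ℕ} {P H P' : Finset (List V)} {τ : V → ℕ}

theorem monoH (h : Timed E Q p P H τ) {H' : Finset (List V)} (hH : H' ⊆ H) :
    Timed E Q p P H' τ :=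
  { h with
    pdH := h.pdH.mono hH
    chainH := fun l hl => h.chainH l (hH hl)
    lab := fun l hl => h.lab l (hH hl) }

theorem mono_τ (h : Timed E Q p P H τ) {l : List V} (hl : l ∈ P) :
    l.Pairwise fun x y => τ x ≤ τ y :=
  pairwise_of_chain ((h.time l hl).imp fun _ _ h => h.1)

theorem same_time (h : Timed E Q p P H τ) {l g : List V} (hl : l ∈ P) (hg : g ∈ H) {x y : V}
    (hx : x ∈ l) (hy : y ∈ l) (hτ : τ x = τ y) (hxg : x ∈ g) : y ∈ g := by
  let R : V → V → Prop := fun u v => τ u ≤ τ v ∧ (τ u = τ v → (u ∈ g ↔ v ∈ g))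
  have : Trans R R R := ⟨fun {u v w} h1 h2 => ⟨h1.1.trans h2.1, fun h3 =>
    (h1.2 (by have := h1.1; have := h2.1; omega)).trans (h2.2 (by have := h1.1; have := h2.1; omega))⟩⟩
  have h1 : l.IsChain R := (h.time l hl).imp fun u v h1 => ⟨h1.1, fun h2 => h.lab g hg u v (h1.2 h2)⟩
  rcases pairwise_cases h1.pairwise hx hy with rfl | h2 | h2
  · exact hxg
  · exact (h2.2 hτ).1 hxg
  · exact (h2.2 hτ.symm).2 hxg

theorem at_time (h : Timed E Q p P H τ) (c : ℕ) :
    (H.filter fun g => ∃ l ∈ P, ∃ x ∈ l, x ∈ g ∧ τ x = c).card ≤ p := by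
  have : ∀ g ∈ H.filter fun g => ∃ l ∈ P, ∃ x ∈ l, x ∈ g ∧ τ x = c,
      ∃ l ∈ P, ∃ x ∈ l, x ∈ g ∧ τ x = c := fun g hg => (Finset.mem_filter.1 hg).2
  choose! f hf1 hf2 using this
  rw [← h.card]
  refine Finset.card_le_card_of_injOn f hf1 fun g hg g' hg' hgg => ?_
  obtain ⟨x, k1, k2, k3⟩ := hf2 g hg
  obtain ⟨y, k4, k5, k6⟩ := hf2 g' hg'
  have hgH := (Finset.mem_filter.1 hg).1
  exact h.pdH g hgH g' (Finset.mem_filter.1 hg').1 y
    (h.same_time (hf1 g hg) hgH k1 (hgg ▸ k4) (k3.trans k6.symm) k2) k5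

theorem bad_le (h : Timed E Q p P H τ) (c : ℕ) : (H.filter fun g => ¬ Good τ g c).card ≤ p := by
  obtain ⟨S, h1, h2⟩ := h.cut c
  refine le_trans ((h.pdH.mono (Finset.filter_subset _ _)).card_le fun g hg => ?_) h1
  obtain ⟨h3, h4⟩ := Finset.mem_filter.1 hg
  rw [Good, List.isChain_iff_forall_rel_of_append_cons_cons] at h4
  push Not at h4
  obtain ⟨x, y, l1, l2, h5, h6, h7⟩ := h4
  exact ⟨y, h2 x y (List.isChain_iff_forall_rel_of_append_cons_cons.1 (h.chainH g h3) h5) h6 h7,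
    by simp [h5]⟩

theorem extract [Fintype V] (h : Timed E Q p P H τ) (hP' : P' ⊆ P) (k : ℕ) :
    (∃ c : ℕ → ℕ, Monotone c ∧ ∀ i < k, ∃ g ∈ H, Good τ g (c i) ∧ Good τ g (c (i + 1)) ∧
      4 ≤ (meet τ P' g (c i) (c (i + 1))).card) ∨
    (∃ c : ℕ → ℕ, Monotone c ∧ c 0 = 0 ∧ (∀ x, τ x < c k) ∧ ∃ H' ⊆ H,
      H.card ≤ H'.card + k * (4 * p) ∧
      ∀ g ∈ H', ∀ i < k, Good τ g (c (i + 1)) ∧ (meet τ P' g (c i) (c (i + 1))).card < 4) := by
  obtain ⟨T, hT⟩ : ∃ T, ∀ x, τ x < T :=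
    ⟨Finset.univ.sup τ + 1, fun x => Nat.lt_succ_of_le (Finset.le_sup (Finset.mem_univ x))⟩
  let f : ℕ → ℕ → ℕ := fun c c' => (H.filter fun g => 4 ≤ (meet τ P' g c c').card).card
  have f0 : ∀ c c', c' ≤ c → f c c' = 0 := by
    intro c c' hc
    simp only [f, Finset.card_eq_zero, Finset.filter_eq_empty_iff]
    intro g _
    have : meet τ P' g c c' = ∅ := by
      simp only [meet, Finset.filter_eq_empty_iff]
      rintro l - ⟨x, -, -, h1, h2⟩
      omega
    simp [this]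
  have fs : ∀ c c', f c (c' + 1) ≤ f c c' + p := by
    intro c c'
    refine le_trans (Finset.card_le_card ?_)
      ((Finset.card_union_le _ _).trans (Nat.add_le_add_left (h.at_time c') _))
    intro g hg
    simp only [Finset.mem_filter, Finset.mem_union] at hg ⊢
    by_cases h1 : ∃ l ∈ P, ∃ x ∈ l, x ∈ g ∧ τ x = c'
    · exact Or.inr ⟨hg.1, h1⟩
    · refine Or.inl ⟨hg.1, hg.2.trans (Finset.card_le_card ?_)⟩
      intro l hl
      simp only [meet, Finset.mem_filter] at hl ⊢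
      obtain ⟨h2, x, h3, h4, h5, h6⟩ := hl
      refine ⟨h2, x, h3, h4, h5, ?_⟩
      by_contra h7
      exact h1 ⟨l, hP' h2, x, h3, h4, by omega⟩
  let nx : ℕ → ℕ := fun c => if h : ∃ c', 2 * p + 1 ≤ f c c' then Nat.find h else c + T
  let c : ℕ → ℕ := fun i => nx^[i] 0
  have cs : ∀ i, c (i + 1) = nx (c i) := fun i => Function.iterate_succ_apply' _ _ _
  have nx_ge : ∀ c, c ≤ nx c := by
    intro c
    simp only [nx]
    split_ifs with h1
    · by_contra h2
      have := Nat.find_spec h1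
      rw [f0 _ _ (by omega)] at this
      omega
    · omega
  have nx_le : ∀ c, f c (nx c) ≤ 3 * p := by
    intro c
    simp only [nx]
    split_ifs with h1
    · rcases Nat.eq_zero_or_pos (Nat.find h1) with h2 | h2
      · rw [h2, f0 _ _ (Nat.zero_le _)]; omega
      · have := Nat.find_min h1 (m := Nat.find h1 - 1) (by omega)
        have h3 := fs c (Nat.find h1 - 1)
        rw [Nat.sub_add_cancel h2] at h3
        omega
    · push Not at h1
      have := h1 (c + T)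
      omega
  have hc : Monotone c := monotone_nat_of_le_succ fun i => by rw [cs]; exact nx_ge _
  by_cases hall : ∀ i < k, ∃ c', 2 * p + 1 ≤ f (c i) c'
  · left
    refine ⟨c, hc, fun i hi => ?_⟩
    have h1 : 2 * p + 1 ≤ f (c i) (c (i + 1)) := by
      rw [cs]; simp only [nx, hall i hi, dif_pos]; exact Nat.find_spec (hall i hi)
    have h2 := (Finset.card_union_le _ _).trans
      (add_le_add (h.bad_le (c i)) (h.bad_le (c (i + 1))))
    obtain ⟨g, h3, h4⟩ := Finset.exists_mem_notMem_of_card_lt_card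
      (lt_of_le_of_lt h2 (lt_of_lt_of_le (by omega) h1))
    simp only [Finset.mem_filter, Finset.mem_union, not_or, not_and, not_not] at h3 h4
    exact ⟨g, h3.1, h4.1 h3.1, h4.2 h3.1, h3.2⟩
  · right
    push Not at hall
    obtain ⟨i, hi, h1⟩ := hall
    refine ⟨c, hc, rfl, fun x => ?_, H.filter fun g => ∀ i < k, Good τ g (c (i + 1)) ∧
      (meet τ P' g (c i) (c (i + 1))).card < 4, Finset.filter_subset _ _, ?_,
      fun g hg => (Finset.mem_filter.1 hg).2⟩
    · have h2 : c (i + 1) = c i + T := by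
        rw [cs]; simp only [nx]; rw [dif_neg]; push Not; exact h1
      have := hc (show i + 1 ≤ k by omega)
      have := hT x
      omega
    · rw [← Finset.card_filter_add_card_filter_not (s := H) fun g => ∀ i < k,
        Good τ g (c (i + 1)) ∧ (meet τ P' g (c i) (c (i + 1))).card < 4]
      refine Nat.add_le_add_left ?_ _
      refine le_trans (Finset.card_le_card (t := (Finset.range k).biUnion fun i =>
        (H.filter fun g => ¬ Good τ g (c (i + 1))) ∪
          H.filter fun g => 4 ≤ (meet τ P' g (c i) (c (i + 1))).card) ?_) ?_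
      · intro g hg
        simp only [Finset.mem_filter, Finset.mem_biUnion, Finset.mem_union, Finset.mem_range] at hg ⊢
        obtain ⟨h2, h3⟩ := hg
        push Not at h3
        obtain ⟨j, hj, h4⟩ := h3
        refine ⟨j, hj, ?_⟩
        by_cases h5 : Good τ g (c (j + 1))
        · exact Or.inr ⟨h2, h4 h5⟩
        · exact Or.inl ⟨h2, h5⟩
      · refine (Finset.card_biUnion_le_card_mul _ _ (4 * p) fun j _ => ?_).trans (by simp)
        have h2 := h.bad_le (c (j + 1))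
        have h3 := nx_le (c j)
        rw [← cs] at h3
        exact (Finset.card_union_le _ _).trans (by simp only [f] at h3; omega)

theorem ow_one (h : Timed E Q p P H τ) (hP' : P' ⊆ P) {S : Set V} (hS : ∀ l ∈ P', ∀ z ∈ l, z ∈ S)
    (hS' : ∀ l ∈ H, ∀ z ∈ l, z ∈ S) {c : ℕ → ℕ} (hc : Monotone c) {k k' : ℕ} (hk : k * 2 ^ p ≤ k')
    (h1 : ∀ i < k', ∃ g ∈ H, Good τ g (c i) ∧ Good τ g (c (i + 1)) ∧
      4 ≤ (meet τ P' g (c i) (c (i + 1))).card) (hk0 : 0 < k) :
    ∃ T : Finset ℕ, OW E S (fun x => chi c k' (τ x)) T ∧ k ≤ T.card ∧ ∀ t ∈ T, t < k * 2 ^ p := by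
  have h2 : ∀ i < k', ∃ g ∈ H, ∃ U ⊆ meet τ P' g (c i) (c (i + 1)), U.card = 4 ∧
      Good τ g (c i) ∧ Good τ g (c (i + 1)) := by
    intro i hi
    obtain ⟨g, hg, k1, k2, k3⟩ := h1 i hi
    obtain ⟨U, k4, k5⟩ := Finset.exists_subset_card_eq k3
    exact ⟨g, hg, U, k4, k5, k1, k2⟩
  choose! g hg U hU hU4 hG1 hG2 using h2
  have hUP : ∀ i < k', U i ⊆ P' := fun i hi => (hU i hi).trans (Finset.filter_subset _ _)
  obtain ⟨U0, -, hU0⟩ := Finset.exists_le_card_fiber_of_mul_le_card_of_maps_to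
    (s := Finset.range (k * 2 ^ p)) (t := P.powerset) (f := U) (n := k)
    (fun i hi => Finset.mem_powerset.2 ((hUP i (by simp at hi; omega)).trans hP'))
    ⟨∅, by simp⟩ (by simp [h.card, mul_comm])
  set T := (Finset.range (k * 2 ^ p)).filter fun i => U i = U0 with hT
  have hT1 : ∀ t ∈ T, t < k * 2 ^ p := fun t ht => by simpa using (Finset.mem_filter.1 ht).1
  have hT2 : ∀ t ∈ T, U t = U0 := fun t ht => (Finset.mem_filter.1 ht).2
  obtain ⟨t0, ht0⟩ : T.Nonempty := Finset.card_pos.1 (by omega)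
  have hU0P : U0 ⊆ P' := hT2 t0 ht0 ▸ hUP t0 ((hT1 t0 ht0).trans_le hk)
  have h3 : ∀ i < k', ∃ m : List V, m.IsChain E ∧
      ∀ z, z ∈ m ↔ z ∈ g i ∧ c i ≤ τ z ∧ τ z < c (i + 1) := by
    intro i hi
    have := hc (show i ≤ i + 1 by omega)
    obtain ⟨m, k1, -, k3⟩ := chain_filter ((h.chainH _ (hg i hi)).imp h.hQ)
      (f := fun x => if τ x < c i then 2 else if τ x < c (i + 1) then 1 else 0)
      (pairwise_of_chain ((chain_and (hG1 i hi) (hG2 i hi)).imp (by
        rintro x y ⟨r1, r2⟩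
        split_ifs <;> omega))) 1 1
    refine ⟨m, k1, fun z => (k3 z).trans (and_congr_right fun _ => ?_)⟩
    split_ifs <;> omega
  choose! R hR1 hR2 using h3
  refine ⟨T, ⟨U0, R, hT2 t0 ht0 ▸ hU4 t0 ((hT1 t0 ht0).trans_le hk), h.pd.mono (hU0P.trans hP'),
    fun r hr => ?_, fun t ht => ?_⟩, hU0, hT1⟩
  · have hr' := hP' (hU0P hr)
    exact ⟨(h.path r hr').1, (h.path r hr').2, (h.mono_τ hr').imp fun h => chi_mono _ _ h,
      hS r (hU0P hr)⟩
  · have ht' := (hT1 t ht).trans_le hk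
    refine ⟨hR1 t ht', fun z hz => ?_, fun r hr => ?_⟩
    · obtain ⟨k1, k2, k3⟩ := (hR2 t ht' z).1 hz
      exact ⟨chi_eq hc ht' k2 k3, hS' _ (hg t ht') z k1⟩
    · obtain ⟨-, x, k1, k2⟩ := Finset.mem_filter.1 (hU t ht' (hT2 t ht ▸ hr))
      exact ⟨x, k1, (hR2 t ht' x).2 k2⟩

theorem ow_two (h : Timed E Q p P H τ) (hP' : P' ⊆ P) {S : Set V} (hS : ∀ l ∈ P', ∀ z ∈ l, z ∈ S)
    (hS' : ∀ l ∈ H, ∀ z ∈ l, z ∈ S) {c : ℕ → ℕ} (hc : Monotone c) (h0 : c 0 = 0) {k k' : ℕ}
    (hτ : ∀ x, τ x < c k') (hH : (p + 1) ^ k' * 4 ≤ H.card) (hn : ∀ l ∈ H, l.Nodup)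
    (hm : ∀ g ∈ H, 4 * k ≤ (P'.filter fun l => ∃ x ∈ l, x ∈ g).card)
    (h1 : ∀ g ∈ H, ∀ i < k', Good τ g (c (i + 1)) ∧ (meet τ P' g (c i) (c (i + 1))).card < 4) :
    ∃ T : Finset ℕ, OW E S (fun x => k' - chi c k' (τ x)) T ∧ k ≤ T.card := by
  let π : List V → Fin k' → Option (List V) := fun g i =>
    if h : (meet τ P' g (c i) (c (i + 1))).Nonempty then some h.choose else none
  have hπ : ∀ g i l, π g i = some l → l ∈ meet τ P' g (c i) (c (i + 1)) := by
    intro g i l hl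
    simp only [π] at hl
    split_ifs at hl with h2
    rw [← Option.some.inj hl]
    exact h2.choose_spec
  have hπ' : ∀ g i, π g i = none → meet τ P' g (c i) (c (i + 1)) = ∅ := by
    intro g i hl
    simp only [π] at hl
    split_ifs at hl with h2
    exact Finset.not_nonempty_iff_eq_empty.1 h2
  obtain ⟨π0, -, hπ0⟩ := Finset.exists_le_card_fiber_of_mul_le_card_of_maps_to (s := H)
    (t := Fintype.piFinset fun _ : Fin k' => Finset.insertNone P) (f := π) (n := 4)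
    (by
      intro g _
      rw [Fintype.mem_piFinset]
      intro i
      rw [Finset.mem_insertNone]
      intro l hl
      exact hP' (Finset.mem_filter.1 (hπ g i l hl)).1)
    ⟨fun _ => none, by simp⟩ (by simpa [h.card] using hH)
  obtain ⟨U, hU, hU4⟩ := Finset.exists_subset_card_eq hπ0
  have hUH : U ⊆ H := hU.trans (Finset.filter_subset _ _)
  have hUπ : ∀ g ∈ U, π g = π0 := fun g hg => (Finset.mem_filter.1 (hU hg)).2
  obtain ⟨g0, hg0⟩ : U.Nonempty := Finset.card_pos.1 (by omega)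
  let T0 : Finset (Fin k') := Finset.univ.filter fun i => π0 i ≠ none
  have hT0 : k ≤ T0.card := by
    have k1 := hm g0 (hUH hg0)
    have k2 : (P'.filter fun l => ∃ x ∈ l, x ∈ g0) ⊆
        T0.biUnion fun i => meet τ P' g0 (c i) (c (i + 1)) := by
      intro l hl
      obtain ⟨k3, x, k4, k5⟩ := Finset.mem_filter.1 hl
      obtain ⟨i, hi, k6⟩ := exists_chunk h0 (hτ x)
      have k7 : l ∈ meet τ P' g0 (c i) (c (i + 1)) := Finset.mem_filter.2 ⟨k3, x, k4, k5, k6⟩
      refine Finset.mem_biUnion.2 ⟨⟨i, hi⟩, Finset.mem_filter.2 ⟨Finset.mem_univ _, fun k8 => ?_⟩, k7⟩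
      rw [← hUπ g0 hg0] at k8
      have := hπ' g0 ⟨i, hi⟩ k8
      simp only at this
      rw [this] at k7
      simp at k7
    have k3 := (Finset.card_le_card k2).trans (Finset.card_biUnion_le_card_mul _ _ 4
      fun i _ => (h1 g0 (hUH hg0) i i.2).2.le)
    omega
  have h3 : ∀ i : Fin k', π0 i ≠ none → ∃ m : List V, m.IsChain E ∧
      (∀ z ∈ m, chi c k' (τ z) = i ∧ z ∈ S) ∧ ∀ g ∈ U, ∃ z ∈ g, z ∈ m := by
    intro i hi
    obtain ⟨l, hl⟩ := Option.ne_none_iff_exists'.1 hi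
    have hlP : l ∈ P' := (Finset.mem_filter.1 (hπ g0 i l (by rw [hUπ g0 hg0, hl]))).1
    obtain ⟨m, k1, -, k3⟩ := chain_filter (h.path l (hP' hlP)).1 (f := fun x => chi c k' (τ x))
      ((h.mono_τ (hP' hlP)).imp fun h => chi_mono _ _ h) i i
    refine ⟨m, k1, fun z hz => ?_, fun g hg => ?_⟩
    · obtain ⟨k4, k5, k6⟩ := (k3 z).1 hz
      exact ⟨le_antisymm k6 k5, hS l hlP z k4⟩
    · obtain ⟨-, x, k4, k5, k6, k7⟩ := Finset.mem_filter.1 (hπ g i l (by rw [hUπ g hg, hl]))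
      have := chi_eq hc i.2 k6 k7
      exact ⟨x, k5, (k3 x).2 ⟨k4, this.ge, this.le⟩⟩
  choose! R hR1 hR2 hR3 using h3
  refine ⟨T0.image fun i : Fin k' => k' - i.1,
    ⟨U, fun t => if h : k' - t < k' then R ⟨k' - t, h⟩ else [], hU4, h.pdH.mono hUH,
      fun r hr => ?_, fun t ht => ?_⟩, ?_⟩
  · refine ⟨(h.chainH r (hUH hr)).imp h.hQ, hn r (hUH hr), pairwise_of_chain ?_, hS' r (hUH hr)⟩
    rw [List.isChain_iff_forall_rel_of_append_cons_cons]
    intro x y l1 l2 hl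
    refine Nat.sub_le_sub_left (Finset.card_le_card fun i hi => ?_) _
    simp only [Finset.mem_filter, Finset.mem_range] at hi ⊢
    have := List.isChain_iff_forall_rel_of_append_cons_cons.1 (h1 r (hUH hr) i hi.1).1 hl
    exact ⟨hi.1, by omega⟩
  · obtain ⟨i, hi, rfl⟩ := Finset.mem_image.1 ht
    have hi' := (Finset.mem_filter.1 hi).2
    have e : k' - (k' - (i : ℕ)) = i := by have := i.2; omega
    simp only [e, i.2, dif_pos, Fin.eta]
    refine ⟨hR1 i hi', fun z hz => ?_, hR3 i hi'⟩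
    obtain ⟨k1, k2⟩ := hR2 i hi' z hz
    exact ⟨by rw [k1], k2⟩
  · rw [Finset.card_image_of_injOn]
    · exact hT0
    · intro i _ j _ hij
      have := i.2
      have := j.2
      simp only at hij
      exact Fin.ext (by omega)

end Timed

end Pool.Agent.P.MP_a3bdf6_co
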