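import Mathlib

/-! Polychromatic colourings of bounded-degree uniform hypergraphs, by a counting argument. -/

namespace Pool.Agent.P.MP_a3bdf6_co

open Classical Finset

theorem poly_lt_exp (C d a q₀ : ℕ) : ∃ q, q₀ ≤ q ∧ C * (q + 1) ^ d * a ^ q ≤ (a + 1) ^ q := by
  rcases Nat.eq_zero_or_pos a with rfl | ha
  · exact ⟨q₀ + 1, by omega, by simp⟩
  have ha' : (0 : ℝ) < a := by exact_mod_cast ha
  have hr : (1 : ℝ) < (a + 1) / a := by rw [lt_div_iff₀ ha']; linarith
  have h := (tendsto_pow_const_div_const_pow_of_one_lt d hr).eventually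
    (gt_mem_nhds (show (0 : ℝ) < 1 / (C * 2 ^ d + 1) by positivity))
  obtain ⟨q, hq, h1, h2⟩ := ((Filter.eventually_ge_atTop q₀).and
    ((Filter.eventually_ge_atTop 1).and h)).exists
  refine ⟨q, hq, ?_⟩
  rw [div_pow, div_div_eq_mul_div, div_lt_div_iff₀ (by positivity) (by positivity)] at h2
  have h3 : ((q : ℝ) + 1) ^ d ≤ 2 ^ d * q ^ d := by
    rw [← mul_pow]
    have : (1 : ℝ) ≤ q := by exact_mod_cast h1
    gcongr
    linarith
  have h4 : (C : ℝ) * (q + 1) ^ d * a ^ q ≤ (a + 1) ^ q := by
    calc (C : ℝ) * (q + 1) ^ d * a ^ q ≤ C * (2 ^ d * q ^ d) * a ^ q := by gcongr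
      _ ≤ (q : ℝ) ^ d * a ^ q * (C * 2 ^ d + 1) := by
        have : (0 : ℝ) ≤ q ^ d * a ^ q := by positivity
        nlinarith
      _ ≤ _ := by linarith
  exact_mod_cast h4

section Poly

variable {V ι α : Type} [Fintype V] [Fintype α] [Inhabited α]

/-- colourings supported on `S` in which every edge inside `S` sees all colours -/
noncomputable def goodCol (α : Type) [Fintype α] [Inhabited α] (I : Finset ι) (e : ι → Finset V)
    (S : Finset V) : Finset (V → α) :=
  univ.filter fun c => (∀ v, v ∉ S → c v = default) ∧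
    ∀ i ∈ I, e i ⊆ S → ∀ a, ∃ v ∈ e i, c v = a

theorem card_bad (I : Finset ι) (e : ι → Finset V) (S T : Finset V) (a : α) :
    (univ.filter fun c : V → α => (∀ v, v ∉ S → v ∉ T → c v = default) ∧
      (∀ i ∈ I, e i ⊆ S → ∀ a, ∃ v ∈ e i, c v = a) ∧ ∀ v ∈ T, c v ≠ a).card ≤
      (goodCol α I e (S \ T)).card * (Fintype.card α - 1) ^ T.card := by
  have : (Fintype.piFinset fun _ : T => univ.erase a).card = (Fintype.card α - 1) ^ T.card := by
    simp [Fintype.card_piFinset, card_erase_of_mem]
  rw [← this, ← card_product]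
  refine card_le_card_of_injOn
    (fun c => (fun v => if v ∈ T then default else c v, fun v : T => c v)) ?_ ?_
  · intro c hc
    simp only [coe_filter, mem_univ, true_and, Set.mem_ofPred_eq] at hc
    obtain ⟨h1, h2, h3⟩ := hc
    simp only [coe_product, Set.mem_prod, mem_coe, goodCol, mem_filter, mem_univ, true_and,
      Fintype.mem_piFinset, mem_erase, and_true]
    refine ⟨⟨fun v hv => ?_, fun i hi hs b => ?_⟩, fun v => h3 v v.2⟩
    · split_ifs with h
      · rfl
      · exact h1 v (fun h' => hv (mem_sdiff.2 ⟨h', h⟩)) h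
    · obtain ⟨v, hv, hb⟩ := h2 i hi (hs.trans sdiff_subset) b
      exact ⟨v, hv, by rw [if_neg (mem_sdiff.1 (hs hv)).2, hb]⟩
  · intro c _ c' _ h
    simp only [Prod.mk.injEq] at h
    funext v
    by_cases hv : v ∈ T
    · exact congrFun h.2 ⟨v, hv⟩
    · simpa [hv] using congrFun h.1 v

theorem goodCol_step (I : Finset ι) (e : ι → Finset V) {q Δ g : ℕ} (hg : Fintype.card α = g + 1)
    (hq : ∀ i ∈ I, (e i).card = q + 1) (hΔ : ∀ v, (I.filter fun i => v ∈ e i).card ≤ Δ)
    (h : Δ * (g + 1) * (2 * g) ^ (q + 1) ≤ (2 * g + 1) ^ q) (S : Finset V) :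
    ∀ v, v ∉ S → (2 * g + 1) * (goodCol α I e S).card ≤
      2 * (goodCol α I e (insert v S)).card := by
  induction S using Finset.strongInduction with
  | H S ih =>
  intro v hv
  have iter : ∀ T : Finset V, T ⊆ S → (2 * g + 1) ^ T.card * (goodCol α I e (S \ T)).card ≤
      2 ^ T.card * (goodCol α I e S).card := by
    intro T
    induction T using Finset.induction_on with
    | empty => simp
    | insert w T hw ihT =>
      intro hT
      have h1 := ihT ((subset_insert _ _).trans hT)
      have hwS : w ∈ S := hT (mem_insert_self _ _)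
      have h2 := ih (S \ insert w T) (sdiff_ssubset hT (insert_nonempty _ _)) w (by simp)
      have e1 : insert w (S \ insert w T) = S \ T := by
        ext z
        by_cases hz : z = w
        · subst hz; simp [hwS, hw]
        · simp [hz]
      rw [e1] at h2
      rw [card_insert_of_notMem hw, pow_succ, pow_succ]
      calc _ = (2 * g + 1) ^ T.card * ((2 * g + 1) * (goodCol α I e (S \ insert w T)).card) := by
            ring
        _ ≤ (2 * g + 1) ^ T.card * (2 * (goodCol α I e (S \ T)).card) := by gcongr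
        _ = 2 * ((2 * g + 1) ^ T.card * (goodCol α I e (S \ T)).card) := by ring
        _ ≤ 2 * (2 ^ T.card * (goodCol α I e S).card) := by gcongr
        _ = _ := by ring
  set N := (goodCol α I e S).card with hN
  set J := I.filter fun i => v ∈ e i ∧ e i ⊆ insert v S with hJ
  set B : ι × α → Finset (V → α) := fun p => univ.filter fun c : V → α =>
    (∀ w, w ∉ S → w ∉ e p.1 → c w = default) ∧
      (∀ i ∈ I, e i ⊆ S → ∀ a, ∃ w ∈ e i, c w = a) ∧ ∀ w ∈ e p.1, c w ≠ p.2 with hB
  have h1 : N * (g + 1) ≤ (goodCol α I e (insert v S) ∪ (J ×ˢ univ).biUnion B).card := by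
    rw [hN, ← hg, ← card_univ, ← card_product]
    refine card_le_card_of_injOn (fun p => Function.update p.1 v p.2) ?_ ?_
    · rintro ⟨c, a⟩ hc
      simp only [coe_product, Set.mem_prod, mem_coe, goodCol, mem_filter, mem_univ, true_and,
        and_true] at hc
      obtain ⟨k1, k2⟩ := hc
      have k3 : ∀ i ∈ I, e i ⊆ S → ∀ b, ∃ w ∈ e i, Function.update c v a w = b := by
        intro i hi hs b
        obtain ⟨w, hw, hb⟩ := k2 i hi hs b
        exact ⟨w, hw, by rw [Function.update_of_ne (fun h : w = v => hv (h ▸ hs hw)), hb]⟩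
      rw [mem_coe, mem_union]
      by_cases hgood : ∀ i ∈ I, e i ⊆ insert v S → ∀ b, ∃ w ∈ e i, Function.update c v a w = b
      · left
        simp only [goodCol, mem_filter, mem_univ, true_and]
        refine ⟨fun w hw => ?_, hgood⟩
        rw [mem_insert, not_or] at hw
        rw [Function.update_of_ne hw.1, k1 w hw.2]
      · right
        push Not at hgood
        obtain ⟨i, hi, hs, b, hb⟩ := hgood
        have hvi : v ∈ e i := by
          by_contra hvi
          obtain ⟨w, hw, hb'⟩ := k3 i hi ((subset_insert_iff_of_notMem hvi).1 hs) b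
          exact hb w hw hb'
        refine mem_biUnion.2 ⟨(i, b), by simp [hJ, hi, hvi, hs], ?_⟩
        simp only [hB, mem_filter, mem_univ, true_and]
        refine ⟨fun w hw hw' => ?_, k3, hb⟩
        rw [Function.update_of_ne (fun h : w = v => hw' (h ▸ hvi)), k1 w hw]
    · rintro ⟨c, a⟩ hc ⟨c', a'⟩ hc' hh
      simp only [coe_product, Set.mem_prod, mem_coe, goodCol, mem_filter, mem_univ, true_and,
        and_true] at hc hc'
      simp only at hh
      refine Prod.ext (funext fun w => ?_) (by simpa using congrFun hh v)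
      by_cases hw : w = v
      · subst hw; exact (hc.1 w hv).trans (hc'.1 w hv).symm
      · simpa [Function.update_of_ne hw] using congrFun hh w
  have h2 : ∀ p ∈ J ×ˢ (univ : Finset α),
      (2 * g + 1) ^ q * (B p).card ≤ 2 ^ q * N * g ^ (q + 1) := by
    rintro ⟨i, a⟩ hp
    simp only [hJ, mem_product, mem_filter, mem_univ, and_true] at hp
    obtain ⟨hi, hvi, hs⟩ := hp
    have k1 := card_bad I e S (e i) a
    rw [hg, hq i hi, Nat.add_sub_cancel] at k1
    have k2 := iter ((e i).erase v) (fun w hw => by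
      have := hs (mem_of_mem_erase hw)
      rw [mem_insert] at this
      exact this.resolve_left (ne_of_mem_erase hw))
    have e1 : S \ (e i).erase v = S \ e i := by
      ext z
      by_cases hz : z = v
      · subst hz; simp [hv]
      · simp [hz]
    rw [e1, card_erase_of_mem hvi, hq i hi, Nat.add_sub_cancel] at k2
    calc _ ≤ (2 * g + 1) ^ q * ((goodCol α I e (S \ e i)).card * g ^ (q + 1)) := by gcongr
      _ = (2 * g + 1) ^ q * (goodCol α I e (S \ e i)).card * g ^ (q + 1) := by ring
      _ ≤ _ := by gcongr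
  have h3 : (J ×ˢ (univ : Finset α)).card ≤ Δ * (g + 1) := by
    rw [card_product, card_univ, hg]
    gcongr
    exact (card_le_card fun i hi => by
      simp only [hJ, mem_filter] at hi ⊢; exact ⟨hi.1, hi.2.1⟩).trans (hΔ v)
  have h4 : (2 * g + 1) ^ q * ((J ×ˢ univ).biUnion B).card ≤
      Δ * (g + 1) * (2 ^ q * N * g ^ (q + 1)) := by
    calc _ ≤ (2 * g + 1) ^ q * ∑ p ∈ J ×ˢ univ, (B p).card := by gcongr; exact card_biUnion_le
      _ = ∑ p ∈ J ×ˢ univ, (2 * g + 1) ^ q * (B p).card := mul_sum _ _ _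
      _ ≤ (J ×ˢ (univ : Finset α)).card • (2 ^ q * N * g ^ (q + 1)) := sum_le_card_nsmul _ _ _ h2
      _ ≤ _ := by rw [smul_eq_mul]; gcongr
  have h5 : (2 * g + 1) ^ q * (2 * ((J ×ˢ univ).biUnion B).card) ≤ (2 * g + 1) ^ q * N := by
    calc _ = 2 * ((2 * g + 1) ^ q * ((J ×ˢ univ).biUnion B).card) := by ring
      _ ≤ 2 * (Δ * (g + 1) * (2 ^ q * N * g ^ (q + 1))) := by gcongr
      _ = Δ * (g + 1) * (2 * g) ^ (q + 1) * N := by rw [mul_pow]; ring
      _ ≤ _ := by gcongr
  have h6 := Nat.le_of_mul_le_mul_left h5 (by positivity)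
  have h7 := h1.trans (card_union_le _ _)
  nlinarith

/-- a uniform hypergraph with large edges and bounded degree has a polychromatic colouring -/
theorem exists_polychromatic (I : Finset ι) (e : ι → Finset V) {q Δ g : ℕ}
    (hg : Fintype.card α = g + 1) (hq : ∀ i ∈ I, (e i).card = q + 1)
    (hΔ : ∀ v, (I.filter fun i => v ∈ e i).card ≤ Δ)
    (h : Δ * (g + 1) * (2 * g) ^ (q + 1) ≤ (2 * g + 1) ^ q) :
    ∃ c : V → α, ∀ i ∈ I, ∀ a, ∃ v ∈ e i, c v = a := by
  have key : ∀ S : Finset V, 0 < (goodCol α I e S).card := by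
    intro S
    induction S using Finset.induction_on with
    | empty =>
      refine card_pos.2 ⟨fun _ => default, ?_⟩
      simp only [goodCol, mem_filter, mem_univ, true_and]
      refine ⟨fun _ _ => trivial, fun i hi hs => ?_⟩
      have := hq i hi
      rw [subset_empty.1 hs] at this
      simp at this
    | insert v S hv ih =>
      have := goodCol_step I e hg hq hΔ h S v hv
      have : 0 < (2 * g + 1) * (goodCol α I e S).card := by positivity
      omega
  obtain ⟨c, hc⟩ := card_pos.1 (key univ)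
  simp only [goodCol, mem_filter, mem_univ, true_and] at hc
  exact ⟨c, fun i hi => hc.2 i hi (subset_univ _)⟩

end Poly

/-- choice of the edge size for a polynomially bounded degree -/
theorem exists_size (C d g q₀ : ℕ) : ∃ q, q₀ ≤ q ∧
    C * (q + 1) ^ d * (g + 1) * (2 * g) ^ (q + 1) ≤ (2 * g + 1) ^ q := by
  obtain ⟨q, h1, h2⟩ := poly_lt_exp (C * (g + 1) * (2 * g)) d (2 * g) q₀
  exact ⟨q, h1, le_of_eq_of_le (by ring) h2⟩

end Pool.Agent.P.MP_a3bdf6_co
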