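import Pool.Agent.P.MP_a3bdf6_co.Basic
import Pool.Agent.P.MP_a3bdf6_co.LongCyc1

/-! Large minimum out-degree forces many disjoint sets of minimum out-degree one. -/

namespace Pool.Agent.P.MP_a3bdf6_co

open Classical Finset

set_option linter.unusedSectionVars false

variable {V : Type} [Fintype V]

theorem MinOut.exact {E : V → V → Prop} {W : Finset V} {K : ℕ} (h : MinOut E W K) :
    ∃ O : V → Finset V, (∀ v ∈ W, O v ⊆ W ∧ (O v).card = K ∧ ∀ y ∈ O v, E v y) ∧
      ∀ v, v ∉ W → O v = ∅ := by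
  have : ∀ v, ∃ O : Finset V, (v ∈ W → O ⊆ W ∧ O.card = K ∧ ∀ y ∈ O, E v y) ∧
      (v ∉ W → O = ∅) := by
    intro v
    by_cases hv : v ∈ W
    · obtain ⟨O, h1, h2⟩ := exists_subset_card_eq (h.2 v hv)
      exact ⟨O, fun _ => ⟨h1.trans (filter_subset _ _), h2, fun y hy => (mem_filter.1 (h1 hy)).2⟩,
        fun h => absurd hv h⟩
    · exact ⟨∅, fun h => absurd h hv, fun _ => rfl⟩
  choose O h1 h2 using this
  exact ⟨O, h1, h2⟩

theorem minOut_of_sub {E : V → V → Prop} {W : Finset V} {K : ℕ} (hW : W.Nonempty)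
    (h : ∀ v ∈ W, ∃ O : Finset V, K ≤ O.card ∧ ∀ y ∈ O, y ∈ W ∧ E v y) : MinOut E W K :=
  ⟨hW, fun v hv => by
    obtain ⟨O, h1, h2⟩ := h v hv
    exact h1.trans (card_le_card fun y hy => mem_filter.2 (h2 y hy))⟩

theorem minOut_one {E : V → V → Prop} {S : Finset V} :
    MinOut E S 1 ↔ S.Nonempty ∧ ∀ v ∈ S, ∃ y ∈ S, E v y := by
  unfold MinOut
  simp only [one_le_card, filter_nonempty_iff]

theorem exists_minOut_of_in {E : V → V → Prop} {A : Finset V} (hA : A.Nonempty)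
    (h : ∀ u ∈ A, ∃ x ∈ A, E x u) : ∃ S ⊆ A, MinOut E S 1 := by
  induction A using Finset.strongInduction with
  | H A ih =>
  by_cases h1 : ∀ v ∈ A, ∃ y ∈ A, E v y
  · exact ⟨A, Subset.rfl, minOut_one.2 ⟨hA, h1⟩⟩
  push Not at h1
  obtain ⟨v, hv, h1⟩ := h1
  have h2 : ∀ u ∈ A, ∃ x ∈ A.erase v, E x u := fun u hu => by
    obtain ⟨x, hx, e⟩ := h u hu
    exact ⟨x, mem_erase.2 ⟨fun h => h1 u hu (h ▸ e), hx⟩, e⟩
  obtain ⟨x, hx, -⟩ := h2 v hv
  obtain ⟨S, h3, h4⟩ := ih _ (erase_ssubset hv) ⟨x, hx⟩ fun u hu => h2 u (mem_of_mem_erase hu)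
  exact ⟨S, h3.trans (erase_subset _ _), h4⟩

theorem greedy_indep (C : V → Finset V) (D : ℕ) (hs : ∀ a b, b ∈ C a → a ∈ C b) (m : ℕ) :
    ∀ L : Finset V, (∀ v ∈ L, (C v).card ≤ D ∧ v ∈ C v) → m * D ≤ L.card →
      (D = 0 → False) → ∃ T ⊆ L, T.card = m ∧ ∀ a ∈ T, ∀ b ∈ T, b ∈ C a → a = b := by
  induction m with
  | zero => exact fun L _ _ _ => ⟨∅, empty_subset _, rfl, by simp⟩
  | succ m ih =>
    intro L hL hc hD
    obtain ⟨v, hv⟩ : L.Nonempty := card_pos.1 (by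
      have : 0 < D := Nat.pos_of_ne_zero hD
      nlinarith)
    obtain ⟨T, h1, h2, h3⟩ := ih (L \ C v) (fun w hw => hL w (mem_sdiff.1 hw).1) (by
      have := le_card_sdiff (C v) L
      have := (hL v hv).1
      rw [Nat.succ_mul] at hc
      omega) hD
    have hvT : v ∉ T := fun h => (mem_sdiff.1 (h1 h)).2 (hL v hv).2
    refine ⟨insert v T, insert_subset hv (h1.trans sdiff_subset),
      by rw [card_insert_of_notMem hvT, h2], fun a ha b hb hab => ?_⟩
    rw [mem_insert] at ha hb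
    rcases ha with rfl | ha <;> rcases hb with rfl | hb
    · rfl
    · exact absurd hab (mem_sdiff.1 (h1 hb)).2
    · exact absurd (hs _ _ hab) (mem_sdiff.1 (h1 ha)).2
    · exact h3 a ha b hb hab

/-- `M` pairwise disjoint subsets of `W` with minimum out-degree one -/
def DisjSets (E : V → V → Prop) (W : Finset V) (M : ℕ) : Prop :=
  ∃ S : Fin M → Finset V, (∀ i, S i ⊆ W ∧ MinOut E (S i) 1) ∧
    ∀ i j z, z ∈ S i → z ∈ S j → i = j

theorem DisjSets.mono {E E' : V → V → Prop} {W W' : Finset V} {M : ℕ} (h : DisjSets E W M)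
    (hW : W ⊆ W') (hE : ∀ x ∈ W, ∀ y ∈ W, E x y → E' x y) : DisjSets E' W' M := by
  obtain ⟨S, h1, h2⟩ := h
  exact ⟨S, fun i => ⟨(h1 i).1.trans hW,
    (h1 i).2.monoE fun x hx y hy => hE x ((h1 i).1 hx) y ((h1 i).1 hy)⟩, h2⟩

theorem disj_of_common {O : V → Finset V} {W : Finset V} {K M q : ℕ} (hW : W.Nonempty)
    (hO : ∀ v ∈ W, O v ⊆ W ∧ (O v).card = K) (hK : K = q + 1)
    (hq : 2 * ((M + 1) * (2 * K * K)) * (M + 1) * (2 * M) ^ (q + 1) ≤ (2 * M + 1) ^ q)
    (hin : ∀ v ∈ W, ∃ u ∈ W, v ∈ O u)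
    (hc : ∀ u ∈ W, ∀ v ∈ O u, ∃ x ∈ W, u ∈ O x ∧ v ∈ O x) :
    DisjSets (fun x y => y ∈ O x) W (M + 1) := by
  set In : V → Finset V := fun v => W.filter fun u => v ∈ O u with hIn
  set L := W.filter fun v => (In v).card ≤ 2 * K with hL
  by_cases hbig : (M + 1) * (2 * K * K) ≤ L.card
  · obtain ⟨T, h1, h2, h3⟩ := greedy_indep (fun v => (In v).biUnion O) (2 * K * K)
      (fun a b hb => by
        simp only [hIn, mem_biUnion, mem_filter] at hb ⊢
        obtain ⟨u, ⟨h1, h2⟩, h3⟩ := hb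
        exact ⟨u, ⟨h1, h3⟩, h2⟩) (M + 1) L (fun v hv => by
        rw [hL, mem_filter] at hv
        constructor
        · refine (card_biUnion_le_card_mul _ _ K fun u hu => ?_).trans (by gcongr; exact hv.2)
          exact (hO u (mem_filter.1 hu).1).2.le
        · obtain ⟨u, hu, h⟩ := hin v hv.1
          exact mem_biUnion.2 ⟨u, mem_filter.2 ⟨hu, h⟩, h⟩) hbig (by rw [hK]; positivity)
    have : ∀ v ∈ W, ∃ S ⊆ In v, MinOut (fun x y => y ∈ O x) S 1 := fun v hv => by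
      obtain ⟨u, hu, h⟩ := hin v hv
      refine exists_minOut_of_in ⟨u, mem_filter.2 ⟨hu, h⟩⟩ fun w hw => ?_
      obtain ⟨x, hx, k1, k2⟩ := hc w (mem_filter.1 hw).1 v (mem_filter.1 hw).2
      exact ⟨x, mem_filter.2 ⟨hx, k2⟩, k1⟩
    choose! S hS1 hS2 using this
    set f := (T.equivFinOfCardEq h2).symm
    have hf : ∀ i, (f i : V) ∈ W := fun i => (mem_filter.1 (h1 (f i).2)).1
    refine ⟨fun i => S (f i), fun i => ⟨(hS1 _ (hf i)).trans (filter_subset _ _), hS2 _ (hf i)⟩,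
      fun i j z hi hj => f.injective (Subtype.ext (h3 _ (f i).2 _ (f j).2 ?_))⟩
    exact mem_biUnion.2 ⟨z, hS1 _ (hf i) hi, (mem_filter.1 (hS1 _ (hf j) hj)).2⟩
  · have hsum : ∑ v ∈ W, (In v).card = W.card * K := by
      simp only [hIn, card_filter]
      rw [sum_comm, ← smul_eq_mul, ← sum_const]
      refine sum_congr rfl fun u hu => ?_
      rw [← card_filter, filter_mem_eq_inter, inter_eq_right.2 (hO u hu).1, (hO u hu).2]
    have h1 : (W \ L).card * (2 * K) ≤ W.card * K := by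
      rw [← hsum, ← smul_eq_mul]
      refine (card_nsmul_le_sum _ _ _ fun v hv => ?_).trans
        (sum_le_sum_of_subset (f := fun v => (In v).card) sdiff_subset)
      rw [mem_sdiff, hL, mem_filter] at hv
      have := hv.2
      simp only [hv.1, true_and, not_le] at this
      exact this.le
    have h2 : (W \ L).card * 2 ≤ W.card :=
      Nat.le_of_mul_le_mul_right (c := K) (by linarith) (by omega)
    have h3 := le_card_sdiff L W
    obtain ⟨c, hc⟩ := exists_polychromatic (α := Fin (M + 1)) W O (q := q)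
      (Δ := 2 * ((M + 1) * (2 * K * K))) (g := M) (by simp) (fun i hi => (hO i hi).2.trans hK)
      (fun v => (card_filter_le _ _).trans (by omega)) hq
    refine ⟨fun j => W.filter fun v => c v = j, fun j => ⟨filter_subset _ _, minOut_one.2 ⟨?_, ?_⟩⟩,
      fun i j z hi hj => (mem_filter.1 hi).2.symm.trans (mem_filter.1 hj).2⟩
    · obtain ⟨v, hv⟩ := hW
      obtain ⟨y, hy, e⟩ := hc v hv j
      exact ⟨y, mem_filter.2 ⟨(hO v hv).1 hy, e⟩⟩
    · intro v hv
      obtain ⟨y, hy, e⟩ := hc v (mem_filter.1 hv).1 j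
      exact ⟨y, mem_filter.2 ⟨(hO v (mem_filter.1 hv).1).1 hy, e⟩, hy⟩

theorem disj_step {K K₀ M q : ℕ} (hK : K = q + 1) (hK₀ : K₀ ≤ q)
    (hq : 2 * ((M + 1) * (2 * K * K)) * (M + 1) * (2 * M) ^ (q + 1) ≤ (2 * M + 1) ^ q)
    (H : ∀ (E : V → V → Prop) (W : Finset V), MinOut E W K₀ → DisjSets E W M)
    (hM : 1 ≤ K₀) (W : Finset V) :
    ∀ E : V → V → Prop, MinOut E W K → DisjSets E W (M + 1) := by
  induction W using Finset.strongInduction with
  | H W ih =>
  intro E hE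
  obtain ⟨O, hO, -⟩ := hE.exact
  have hOW : MinOut (fun x y => y ∈ O x) W K := minOut_of_sub hE.1 fun v hv =>
    ⟨O v, (hO v hv).2.1.ge, fun y hy => ⟨(hO v hv).1 hy, hy⟩⟩
  refine DisjSets.mono (E := fun x y => y ∈ O x) ?_ Subset.rfl fun x hx y _ h => (hO x hx).2.2 y h
  have hne : ∀ v, (W.erase v).Nonempty := fun v => card_pos.1 (by
    have := hE.card_le
    have := pred_card_le_card_erase (s := W) (a := v)
    omega)
  by_cases h1 : ∃ v ∈ W, v ∈ O v
  · obtain ⟨v, hv, e⟩ := h1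
    obtain ⟨S, k1, k2⟩ := H _ _ (hOW.sub (Y := {v}) (K' := K₀) (hne v) (erase_subset v W)
      (fun x _ y hy _ => by by_cases h : y = v <;> simp [h, hy]) (by simp; omega))
    refine ⟨Fin.cons {v} S, fun i => ?_, fun i j z => ?_⟩
    · refine Fin.cases ?_ (fun i => ?_) i
      · exact ⟨by simpa using hv, minOut_one.2 ⟨by simp, by simpa using e⟩⟩
      · exact ⟨(k1 i).1.trans (erase_subset _ _), (k1 i).2⟩
    · have hv' : ∀ i, v ∉ S i := fun i h => by simpa using (k1 i).1 h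
      refine Fin.cases ?_ (fun i => ?_) i <;> refine Fin.cases ?_ (fun j => ?_) j
      · exact fun _ _ => rfl
      · simp only [Fin.cons_zero, Fin.cons_succ, mem_singleton]
        rintro rfl h
        exact absurd h (hv' j)
      · simp only [Fin.cons_zero, Fin.cons_succ, mem_singleton]
        rintro h rfl
        exact absurd h (hv' i)
      · exact fun hi hj => congrArg _ (k2 i j z hi hj)
  push Not at h1
  by_cases h2 : ∃ v ∈ W, ∀ u ∈ W, v ∉ O u
  · obtain ⟨v, hv, e⟩ := h2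
    exact (ih _ (erase_ssubset hv) _ (hOW.sub (Y := ∅) (hne v) (erase_subset v W)
      (fun x hx y hy hxy => Or.inl (mem_erase.2
        ⟨fun h => e x (mem_of_mem_erase hx) (h ▸ hxy), hy⟩)) (by simp))).mono
      (erase_subset _ _) fun _ _ _ _ h => h
  push Not at h2
  by_cases h3 : ∀ u ∈ W, ∀ v ∈ O u, ∃ x ∈ W, u ∈ O x ∧ v ∈ O x
  · exact disj_of_common hE.1 (fun v hv => ⟨(hO v hv).1, (hO v hv).2.1⟩) hK hq h2 h3
  push Not at h3
  obtain ⟨u, hu, v, hv, h3⟩ := h3
  have hvu : v ≠ u := fun h => h1 u hu (h ▸ hv)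
  have hvW : v ∈ W.erase u := mem_erase.2 ⟨hvu, (hO u hu).1 hv⟩
  obtain ⟨S, k1, k2⟩ := ih _ (erase_ssubset hu) (fun x y => y ∈ O x ∨ (y = v ∧ u ∈ O x))
    (minOut_of_sub (hne u) fun x hx => by
      have hx' := mem_of_mem_erase hx
      rw [← (hO x hx').2.1]
      by_cases hux : u ∈ O x
      · refine ⟨insert v ((O x).erase u), ?_, fun y hy => ?_⟩
        · rw [card_insert_of_notMem (fun h => h3 x hx' hux (mem_of_mem_erase h)),
            card_erase_add_one hux]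
        rcases mem_insert.1 hy with rfl | hy
        · exact ⟨hvW, Or.inr ⟨rfl, hux⟩⟩
        · exact ⟨mem_erase.2 ⟨ne_of_mem_erase hy, (hO x hx').1 (mem_of_mem_erase hy)⟩,
            Or.inl (mem_of_mem_erase hy)⟩
      · exact ⟨O x, le_rfl, fun y hy =>
          ⟨mem_erase.2 ⟨fun h => hux (h ▸ hy), (hO x hx').1 hy⟩, Or.inl hy⟩⟩)
  have huS : ∀ i, u ∉ S i := fun i h => by simpa using (k1 i).1 h
  refine ⟨fun i => if v ∈ S i then insert u (S i) else S i, fun i => ?_, fun i j z => ?_⟩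
  · obtain ⟨k3, k4⟩ := minOut_one.1 (k1 i).2
    have k5 := (k1 i).1.trans (erase_subset _ _)
    dsimp only
    split_ifs with h
    · refine ⟨insert_subset hu k5, minOut_one.2 ⟨insert_nonempty _ _, fun x hx => ?_⟩⟩
      rcases mem_insert.1 hx with rfl | hx
      · exact ⟨v, mem_insert_of_mem h, hv⟩
      · obtain ⟨y, hy, e | ⟨-, e⟩⟩ := k4 x hx
        · exact ⟨y, mem_insert_of_mem hy, e⟩
        · exact ⟨u, mem_insert_self _ _, e⟩
    · refine ⟨k5, minOut_one.2 ⟨k3, fun x hx => ?_⟩⟩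
      obtain ⟨y, hy, e | ⟨rfl, -⟩⟩ := k4 x hx
      · exact ⟨y, hy, e⟩
      · exact absurd hy h
  · dsimp only
    intro hi hj
    by_cases hz : z = u
    · subst hz
      by_cases h : v ∈ S i
      · by_cases h' : v ∈ S j
        · exact k2 i j v h h'
        · rw [if_neg h'] at hj; exact absurd hj (huS j)
      · rw [if_neg h] at hi; exact absurd hi (huS i)
    · refine k2 i j z ?_ ?_
      · split_ifs at hi
        · exact (mem_insert.1 hi).resolve_left hz
        · exact hi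
      · split_ifs at hj
        · exact (mem_insert.1 hj).resolve_left hz
        · exact hj

theorem exists_disjSets (M : ℕ) : ∃ K : ℕ, 1 ≤ K ∧ ∀ (V : Type) [Fintype V] (E : V → V → Prop)
    (W : Finset V), MinOut E W K → DisjSets E W M := by
  induction M with
  | zero => exact ⟨1, le_rfl, fun V _ E W _ => ⟨Fin.elim0, fun i => i.elim0, fun i => i.elim0⟩⟩
  | succ M ih =>
    obtain ⟨K₀, h1, h2⟩ := ih
    obtain ⟨q, h3, h4⟩ := exists_size (4 * (M + 1)) 2 M K₀
    exact ⟨q + 1, by omega, fun V _ E W =>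
      disj_step rfl h3 (le_of_eq_of_le (by ring) h4) (h2 V) h1 W E⟩

end Pool.Agent.P.MP_a3bdf6_co
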