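import Pool.Agent.P.MP_a3bdf6_co.Web

/-! Ordered webs with four rows contain all zigzags. -/

namespace Pool.Agent.P.MP_a3bdf6_co

open Classical

variable {V : Type*}

theorem pairwise_of_chain {l : List V} {f : V → ℕ} (h : l.IsChain fun x y => f x ≤ f y) :
    l.Pairwise fun x y => f x ≤ f y := by
  have : (l.map f).IsChain (· ≤ ·) := (List.isChain_map f).2 h
  exact List.pairwise_map.1 this.pairwise

theorem chain_filter {E : V → V → Prop} {l : List V} (hc : l.IsChain E) {f : V → ℕ}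
    (hp : l.Pairwise fun x y => f x ≤ f y) (lo hi : ℕ) :
    ∃ m : List V, m.IsChain E ∧ m.Sublist l ∧ ∀ z, z ∈ m ↔ z ∈ l ∧ lo ≤ f z ∧ f z ≤ hi := by
  refine ⟨l.filter fun z => lo ≤ f z ∧ f z ≤ hi, ?_, List.filter_sublist, by simp⟩
  induction l with
  | nil => simp
  | cons a l ih =>
    have ih' := ih hc.tail hp.of_cons
    by_cases ha : lo ≤ f a ∧ f a ≤ hi
    · rw [List.filter_cons_of_pos (by simpa using ha)]
      rcases l with _ | ⟨c, l⟩
      · simp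
      · rw [List.isChain_cons_cons] at hc
        by_cases hc' : lo ≤ f c ∧ f c ≤ hi
        · rw [List.filter_cons_of_pos (by simpa using hc')] at ih' ⊢
          exact List.isChain_cons_cons.2 ⟨hc.1, ih'⟩
        · have : (c :: l).filter (fun z => lo ≤ f z ∧ f z ≤ hi) = [] := by
            rw [List.filter_eq_nil_iff]
            intro z hz
            have h1 := List.rel_of_pairwise_cons hp (List.mem_cons_self (a := c) (l := l))
            rcases List.mem_cons.1 hz with rfl | hz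
            · simpa using hc'
            · have h2 := List.rel_of_pairwise_cons hp.of_cons hz
              simp; omega
          rw [this]; simp
    · rw [List.filter_cons_of_neg (by simpa using ha)]; exact ih'

theorem pairwise_idx {l : List V} (h : l.Nodup) :
    l.Pairwise fun x y => l.idxOf x < l.idxOf y := by
  rw [List.pairwise_iff_getElem]
  intro i j hi hj hij
  rw [h.idxOf_getElem, h.idxOf_getElem]
  exact hij

theorem pairwise_cases {R : V → V → Prop} {l : List V} (h : l.Pairwise R) {x y : V} (hx : x ∈ l)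
    (hy : y ∈ l) : x = y ∨ R x y ∨ R y x := by
  have : l.Pairwise fun x y => R x y ∨ R y x := h.imp Or.inl
  by_cases hxy : x = y
  · exact Or.inl hxy
  · have : Std.Symm fun x y => R x y ∨ R y x := ⟨fun _ _ => Or.symm⟩
    exact Or.inr (List.Pairwise.forall ‹l.Pairwise fun x y => R x y ∨ R y x› hx hy hxy)

theorem idx_seg {E : V → V → Prop} {l : List V} (hc : l.IsChain E) (hn : l.Nodup) {x y : V}
    (hx : x ∈ l) (hy : y ∈ l) (h : l.idxOf x ≤ l.idxOf y) :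
    ∃ m, Wk E x y m ∧ m.Nodup ∧
      ∀ z, z ∈ m ↔ (z ∈ l ∧ l.idxOf x ≤ l.idxOf z ∧ l.idxOf z ≤ l.idxOf y) := by
  obtain ⟨m, h1, h2, h3⟩ := chain_filter hc (f := fun z => l.idxOf z)
    ((pairwise_idx hn).imp le_of_lt) (l.idxOf x) (l.idxOf y)
  have hxm : x ∈ m := (h3 x).2 ⟨hx, le_rfl, h⟩
  have hym : y ∈ m := (h3 y).2 ⟨hy, h, le_rfl⟩
  obtain ⟨a, c, hw⟩ := Wk.exists_of_chain h1 (List.ne_nil_of_mem hxm)
  have hp := (pairwise_idx hn).sublist h2
  have ha : a = x := by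
    obtain ⟨m', rfl⟩ := hw.eq_cons
    rcases List.mem_cons.1 hxm with h4 | h4
    · exact h4.symm
    · have := List.rel_of_pairwise_cons hp h4
      have := ((h3 a).1 (by simp)).2.1
      omega
  have hc' : c = y := by
    obtain ⟨m', rfl⟩ := hw.eq_concat
    rcases List.mem_append.1 hym with h4 | h4
    · have := (List.pairwise_append.1 hp).2.2 y h4 c (by simp)
      have := ((h3 c).1 (by simp)).2.2
      omega
    · exact (List.mem_singleton.1 h4).symm
  exact ⟨m, ha ▸ hc' ▸ hw, hn.sublist h2, h3⟩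

theorem exists_enum (T : Finset ℕ) : ∃ g : ℕ → ℕ, (∀ s t, s < t → t < T.card → g s < g t) ∧
    ∀ t < T.card, g t ∈ T := by
  refine ⟨fun t => if h : t < T.card then T.orderEmbOfFin rfl ⟨t, h⟩ else 0, ?_, ?_⟩
  · intro s t hst ht
    simp only [ht, hst.trans ht, dif_pos]
    exact (T.orderEmbOfFin rfl).strictMono hst
  · intro t ht
    simp only [ht, dif_pos]
    exact T.orderEmbOfFin_mem rfl _

theorem chain_link {E : V → V → Prop} {l : List V} (hc : l.IsChain E) (α β : V → Prop)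
    (hα : ∃ x ∈ l, α x) (hβ : ∃ x ∈ l, β x) :
    ∃ p q m, Wk E p q m ∧ m.Nodup ∧ (∀ z ∈ m, z ∈ l) ∧ ((α p ∧ β q) ∨ (β p ∧ α q)) ∧
      ∀ z ∈ m, α z ∨ β z → z = p ∨ z = q := by
  obtain ⟨x, hx, hx'⟩ := hα
  obtain ⟨y, hy, hy'⟩ := hβ
  rcases chain_rch hc hx hy with h | h
  · obtain ⟨p, q, m, h1, h2, h3, h4, h5, h6, h7⟩ := h.trim α β hx' hy'
    exact ⟨p, q, m, h1, h2, h3, Or.inl ⟨h4, h5⟩, fun z hz h => h.imp (h6 z hz) (h7 z hz)⟩
  · obtain ⟨p, q, m, h1, h2, h3, h4, h5, h6, h7⟩ := h.trim β α hy' hx'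
    exact ⟨p, q, m, h1, h2, h3, Or.inr ⟨h4, h5⟩, fun z hz h => h.symm.imp (h6 z hz) (h7 z hz)⟩

/-- ordered web with four rows -/
structure OW (E : V → V → Prop) (S : Set V) (θ : V → ℕ) (T : Finset ℕ) : Prop where
  ex : ∃ (U : Finset (List V)) (R : ℕ → List V), U.card = 4 ∧ PD U ∧
    (∀ r ∈ U, r.IsChain E ∧ r.Nodup ∧ (r.Pairwise fun x y => θ x ≤ θ y) ∧ ∀ z ∈ r, z ∈ S) ∧
    ∀ t ∈ T, (R t).IsChain E ∧ (∀ z ∈ R t, θ z = t ∧ z ∈ S) ∧ ∀ r ∈ U, ∃ z ∈ r, z ∈ R t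

theorem OW.mono {E : V → V → Prop} {S : Set V} {θ : V → ℕ} {T T' : Finset ℕ} (h : OW E S θ T)
    (hT : T' ⊆ T) : OW E S θ T' := by
  obtain ⟨U, R, h1, h2, h3, h4⟩ := h.ex
  exact ⟨U, R, h1, h2, h3, fun t ht => h4 t (hT ht)⟩

theorem OW.zig {E : V → V → Prop} {S : Set V} {θ : V → ℕ} {T : Finset ℕ} (h : OW E S θ T)
    {a b lo hi : ℕ} (ha : a ≠ 0) (hT : 2 ^ 16 * (a * (b + 5) + 1) ≤ T.card)
    (hlo : ∀ t ∈ T, lo ≤ t ∧ t ≤ hi) : ZigIn E b a {z | z ∈ S ∧ lo ≤ θ z ∧ θ z ≤ hi} := by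
  obtain ⟨U, R, h1, h2, h3, h4⟩ := h.ex
  let e := Finset.equivFinOfCardEq h1
  let ρ : Fin 4 → List V := fun i => (e.symm i).1
  have hρ : ∀ i, ρ i ∈ U := fun i => (e.symm i).2
  have disj : ∀ i k z, z ∈ ρ i → z ∈ ρ k → i = k := fun i k z hi hk =>
    e.symm.injective (Subtype.ext (h2 _ (hρ i) _ (hρ k) z hi hk))
  let G : ℕ → Finset (Fin 4 × Fin 4) := fun t => Finset.univ.filter fun uv =>
    ∃ p ∈ ρ uv.1, ∃ q ∈ ρ uv.2, ∃ m, Wk E p q m ∧ m.Nodup ∧ (∀ z ∈ m, z ∈ R t) ∧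
      ∀ z ∈ m, ∀ w, z ∈ ρ w → z = p ∨ z = q
  obtain ⟨Γ, -, hΓ⟩ := Finset.exists_le_card_fiber_of_mul_le_card_of_maps_to (s := T)
    (t := Finset.univ) (f := G) (n := a * (b + 5) + 1) (fun _ _ => Finset.mem_univ _)
    Finset.univ_nonempty (by simpa using hT)
  set T' := T.filter fun t => G t = Γ with hT'
  obtain ⟨g, hg1, hg2⟩ := exists_enum T'
  have hgT : ∀ t < T'.card, g t ∈ T := fun t ht => (Finset.mem_filter.1 (hg2 t ht)).1
  have hgG : ∀ t < T'.card, G (g t) = Γ := fun t ht => (Finset.mem_filter.1 (hg2 t ht)).2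
  have hγ : ∀ i t, ∃ z, t < T'.card → z ∈ ρ i ∧ θ z = g t := by
    intro i t
    by_cases ht : t < T'.card
    · obtain ⟨z, hz, hz'⟩ := (h4 _ (hgT t ht)).2.2 _ (hρ i)
      exact ⟨z, fun _ => ⟨hz, ((h4 _ (hgT t ht)).2.1 z hz').1⟩⟩
    · obtain ⟨z, hz, -⟩ := (h4 _ (hgT 0 (by omega))).2.2 _ (hρ i)
      exact ⟨z, fun h => absurd h ht⟩
  choose γ hγ using hγ
  have hR : ∀ t < T'.card, ∀ z ∈ R (g t), θ z = g t ∧ z ∈ {z | z ∈ S ∧ lo ≤ θ z ∧ θ z ≤ hi} := by
    intro t ht z hz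
    obtain ⟨k1, k2⟩ := (h4 _ (hgT t ht)).2.1 z hz
    exact ⟨k1, k2, k1 ▸ hlo _ (hgT t ht)⟩
  let w : Web E {z | z ∈ S ∧ lo ≤ θ z ∧ θ z ≤ hi} T'.card :=
    { ρ := ρ
      φ := fun i z => (ρ i).idxOf z
      θ := θ
      g := g
      γ := γ
      Γ := fun u v => (u, v) ∈ Γ
      seg := fun i x hx y hy h => idx_seg (h3 _ (hρ i)).1 (h3 _ (hρ i)).2.1 hx hy h
      mono := by
        intro i x hx y hy h
        rcases pairwise_cases ((pairwise_idx (h3 _ (hρ i)).2.1).and (h3 _ (hρ i)).2.2.1) hx hy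
          with rfl | h5 | h5
        · exact le_rfl
        · exact h5.2
        · omega
      inj := fun i x hx y hy h => (List.idxOf_inj hx).1 h
      disj := disj
      γ_mem := fun i t ht => hγ i t ht
      g_mono := hg1
      hS := by
        intro i z hz s hs t ht k1 k2
        have := hlo _ (hgT s hs)
        have := hlo _ (hgT t ht)
        exact ⟨(h3 _ (hρ i)).2.2.2 z hz, by omega, by omega⟩
      link := by
        intro t ht u v huv
        rw [← hgG t ht] at huv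
        obtain ⟨p, hp, q, hq, m, k1, k2, k3, k4⟩ := (Finset.mem_filter.1 huv).2
        exact ⟨p, hp, q, hq, m, k1, k2, fun z hz => hR t ht z (k3 z hz), k4⟩
      conn := by
        rintro α ⟨i, hi⟩ ⟨k, hk⟩
        have h0 : 0 < T'.card := by omega
        obtain ⟨k1, -, k3⟩ := h4 _ (hgT 0 h0)
        obtain ⟨p, q, m, r1, r2, r3, r4, r5⟩ := chain_link k1 (fun z => ∃ i, α i ∧ z ∈ ρ i)
          (fun z => ∃ i, ¬ α i ∧ z ∈ ρ i)
          (by obtain ⟨z, hz, hz'⟩ := k3 _ (hρ i); exact ⟨z, hz', i, hi, hz⟩)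
          (by obtain ⟨z, hz, hz'⟩ := k3 _ (hρ k); exact ⟨z, hz', k, hk, hz⟩)
        have r6 : ∀ z ∈ m, ∀ w, z ∈ ρ w → z = p ∨ z = q := by
          intro z hz w hw
          refine r5 z hz ?_
          by_cases hα : α w
          · exact Or.inl ⟨w, hα, hw⟩
          · exact Or.inr ⟨w, hα, hw⟩
        rw [← hgG 0 h0]
        rcases r4 with ⟨⟨i, hi, hp⟩, ⟨k, hk, hq⟩⟩ | ⟨⟨k, hk, hp⟩, ⟨i, hi, hq⟩⟩
        · exact ⟨i, k, hi, hk, Or.inl (Finset.mem_filter.2
            ⟨Finset.mem_univ _, p, hp, q, hq, m, r1, r2, r3, r6⟩)⟩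
        · exact ⟨i, k, hi, hk, Or.inr (Finset.mem_filter.2
            ⟨Finset.mem_univ _, p, hp, q, hq, m, r1, r2, r3, r6⟩)⟩
      link2 := by
        intro t ht u v huv
        obtain ⟨k1, -, k3⟩ := h4 _ (hgT t ht)
        obtain ⟨p, q, m, r1, r2, r3, r4, r5⟩ := chain_link k1 (· ∈ ρ u) (· ∈ ρ v)
          (by obtain ⟨z, hz, hz'⟩ := k3 _ (hρ u); exact ⟨z, hz', hz⟩)
          (by obtain ⟨z, hz, hz'⟩ := k3 _ (hρ v); exact ⟨z, hz', hz⟩)
        exact ⟨p, q, m, r4, r1, r2, fun z hz => hR t ht z (r3 z hz), r5⟩ }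
  exact w.zig ha (by omega)

theorem ow_zigs {ι : Type*} [Fintype ι] (c : ι → ℕ) (b : ℕ) : ∃ k : ℕ, 0 < k ∧
    ∀ (V : Type) (E : V → V → Prop) (S : Set V) (θ : V → ℕ) (T : Finset ℕ) (hi : ℕ),
      OW E S θ T → k ≤ T.card → (∀ t ∈ T, t < hi) → Zigs E b c {z | z ∈ S ∧ θ z < hi} := by
  obtain ⟨k0, hk0⟩ : ∃ k0, k0 = 2 ^ 16 * ((∑ i, c i) * (b + 5) + 1) := ⟨_, rfl⟩
  have hk : 0 < k0 := by rw [hk0]; positivity
  have hkc : ∀ i, 2 ^ 16 * (c i * (b + 5) + 1) ≤ k0 := by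
    intro i
    have : c i ≤ ∑ i, c i := Finset.single_le_sum (fun _ _ => Nat.zero_le _) (Finset.mem_univ i)
    rw [hk0]
    gcongr
  clear hk0
  refine ⟨Fintype.card ι * k0 + 1, by omega, fun V E S θ T hi h hT hhi => ?_⟩
  obtain ⟨g, hg1, hg2⟩ := exists_enum T
  have hg : ∀ s t, s ≤ t → t < T.card → g s ≤ g t := by
    intro s t hst ht
    rcases hst.eq_or_lt with rfl | hst
    · exact le_rfl
    · exact (hg1 s t hst ht).le
  let e := Fintype.equivFin ι
  have hb : ∀ i, (e i : ℕ) * k0 + k0 < T.card := by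
    intro i
    have := (e i).2
    have : ((e i : ℕ) + 1) * k0 ≤ Fintype.card ι * k0 := Nat.mul_le_mul_right _ this
    nlinarith
  refine ⟨fun i => {z | z ∈ S ∧ g (e i * k0) ≤ θ z ∧ θ z ≤ g (e i * k0 + (k0 - 1))}, ?_, ?_, ?_⟩
  · rintro i z ⟨k1, k2, k3⟩
    have := hb i
    have := hhi _ (hg2 (e i * k0 + (k0 - 1)) (by omega))
    exact ⟨k1, by omega⟩
  · rintro i k z ⟨-, k2, k3⟩ ⟨-, k5, k6⟩
    apply e.injective
    apply Fin.ext
    have := hb i
    have := hb k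
    by_contra hne
    rcases Nat.lt_or_gt_of_ne hne with h5 | h5
    · have : ((e i : ℕ) + 1) * k0 ≤ e k * k0 := Nat.mul_le_mul_right _ h5
      have := hg1 (e i * k0 + (k0 - 1)) (e k * k0) (by rw [add_mul] at this; omega) (by omega)
      omega
    · have : ((e k : ℕ) + 1) * k0 ≤ e i * k0 := Nat.mul_le_mul_right _ h5
      have := hg1 (e k * k0 + (k0 - 1)) (e i * k0) (by rw [add_mul] at this; omega) (by omega)
      omega
  · intro i hi0
    have := hb i
    refine (h.mono (T' := (Finset.range k0).image fun s => g (e i * k0 + s)) ?_).zig hi0 ?_ ?_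
    · intro t ht
      obtain ⟨s, hs, rfl⟩ := Finset.mem_image.1 ht
      rw [Finset.mem_range] at hs
      exact hg2 _ (by omega)
    · rw [Finset.card_image_of_injOn, Finset.card_range]
      · exact hkc i
      · intro s hs t ht hst
        simp only [Finset.coe_range, Set.mem_Iio] at hs ht hst
        by_contra hne
        rcases Nat.lt_or_gt_of_ne hne with h5 | h5
        · have := hg1 (e i * k0 + s) (e i * k0 + t) (by omega) (by omega); omega
        · have := hg1 (e i * k0 + t) (e i * k0 + s) (by omega) (by omega); omega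
    · intro t ht
      obtain ⟨s, hs, rfl⟩ := Finset.mem_image.1 ht
      rw [Finset.mem_range] at hs
      exact ⟨hg _ _ (by omega) (by omega), hg _ _ (by omega) (by omega)⟩

end Pool.Agent.P.MP_a3bdf6_co
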