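import Pool.Agent.P.MP_a3bdf6_co.BigPath

/-! The dichotomy, and the case of many disjoint pieces with a common boundary. -/

namespace Pool.Agent.P.MP_a3bdf6_co

open Classical

set_option linter.unusedSectionVars false

section

variable {V : Type*} [Fintype V] {E : V → V → Prop}

/-- `B` is a nonempty subset of `W` with at most `L` further out-neighbours in `W` -/
def Cls (E : V → V → Prop) (W B : Finset V) (L : ℕ) : Prop :=
  B ⊆ W ∧ B.Nonempty ∧ ∃ Y : Finset V, Y.card ≤ L ∧ ∀ x ∈ B, ∀ y ∈ W, E x y → y ∈ B ∨ y ∈ Y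

theorem Cls.minOut {W B : Finset V} {L K : ℕ} (h : Cls E W B L) (hK : MinOut E W (K + L)) :
    MinOut E B K := by
  obtain ⟨h1, h2, Y, h3, h4⟩ := h
  exact hK.sub h2 h1 h4 (by omega)

theorem Cls.trans {W B D : Finset V} {L L' : ℕ} (h : Cls E W B L) (h' : Cls E B D L') :
    Cls E W D (L + L') := by
  obtain ⟨h1, -, Y, h3, h4⟩ := h
  obtain ⟨k1, k2, Y', k3, k4⟩ := h'
  refine ⟨k1.trans h1, k2, Y ∪ Y', (Finset.card_union_le _ _).trans (by omega),
    fun x hx y hy hxy => ?_⟩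
  rcases h4 x (k1 hx) y hy hxy with h5 | h5
  · exact (k4 x hx y h5 hxy).imp id fun h => Finset.mem_union_right _ h
  · exact Or.inr (Finset.mem_union_left _ h5)

theorem Cls.mono {W B : Finset V} {L L' : ℕ} (h : Cls E W B L) (hL : L ≤ L') : Cls E W B L' := by
  obtain ⟨h1, h2, Y, h3, h4⟩ := h
  exact ⟨h1, h2, Y, h3.trans hL, h4⟩

theorem exists_min_set (p : Finset V → Prop) (S : Finset V) (h : p S) :
    ∃ S', p S' ∧ ∀ S'', p S'' → S'' ⊆ S' → S'' = S' := by
  obtain ⟨S', h1, h2⟩ := Finset.exists_min_image (Finset.univ.filter p) Finset.card ⟨S, by simpa⟩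
  exact ⟨S', by simpa using h1, fun S'' h3 h4 =>
    Finset.eq_of_subset_of_card_le h4 (h2 _ (by simpa))⟩

theorem piece_reach {D : Finset V} {s w : ℕ} (hmin : ∀ R ⊆ D, R.Nonempty → s < (bd E R).card)
    (hD : (bd E D).card ≤ s + w) (I Y T : Finset V) (hT : T ⊆ bd E D)
    (hc : Y.card + I.card + w ≤ T.card) {u : V} (hu : u ∈ D) (huI : u ∉ I) (huY : u ∉ Y) :
    ∃ t ∈ T, Rch (fun x y => E x y ∧ x ∈ D ∧ x ∉ I ∧ y ∉ I) {z | z ∉ Y} u t := by
  by_contra hcon
  push Not at hcon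
  let R := (reach (fun x y => E x y ∧ x ∈ D ∧ x ∉ I ∧ y ∉ I) {z | z ∉ Y} u).filter (· ∈ D)
  have h1 : bd E R ⊆ Y ∪ I ∪ (bd E D \ T) := by
    intro y hy
    obtain ⟨k1, x, k2, k3⟩ := mem_bd.1 hy
    obtain ⟨k4, k5⟩ := Finset.mem_filter.1 k2
    rw [mem_reach] at k4
    by_contra k6
    simp only [Finset.mem_union, Finset.mem_sdiff, not_or, not_and, not_not] at k6
    obtain ⟨l, k7, k8⟩ := k4
    have k9 : Rch (fun x y => E x y ∧ x ∈ D ∧ x ∉ I ∧ y ∉ I) {z | z ∉ Y} u y :=
      Rch.tail ⟨l, k7, k8⟩ ⟨k3, k5, (wk_inside k7 huI x k7.last_mem).1, k6.1.2⟩ k6.1.1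
    by_cases k10 : y ∈ D
    · exact k1 (Finset.mem_filter.2 ⟨mem_reach.2 k9, k10⟩)
    · exact hcon y (k6.2 (mem_bd.2 ⟨k10, x, k5, k3⟩)) k9
  have h2 := Finset.card_le_card h1
  have h3 := Finset.card_union_le (Y ∪ I) (bd E D \ T)
  have h4 := Finset.card_union_le Y I
  have h5 := Finset.card_sdiff_add_card_eq_card hT
  have h6 := hmin R (fun z hz => (Finset.mem_filter.1 hz).2)
    ⟨u, Finset.mem_filter.2 ⟨mem_reach.2 (Rch.refl huY), hu⟩⟩
  omega

theorem piece_lam {D : Finset V} {s w b : ℕ} (hmin : ∀ R ⊆ D, R.Nonempty → s < (bd E R).card)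
    (hD : (bd E D).card ≤ s + w) (hK : MinOut E D (2 * b + 3)) (T : Finset V) (hT : T ⊆ bd E D) :
    ∃ NL : Finset V, (T \ NL).card ≤ w + 2 * b + 5 ∧ ∀ t ∈ NL,
      (T.filter fun t' => ¬ St E b 1 t t' (D ∪ {t, t'})).card ≤ w + 2 * b + 5 := by
  obtain ⟨r, hr⟩ := hK.1
  obtain ⟨leg, hleg, hlegd⟩ := hK.legs (b + 1) (fun _ : Bool => r) (fun _ => hr) {r} Finset.univ
    (by simp; omega)
  simp only [Finset.mem_univ, true_imp_iff] at hleg hlegd
  have hen : ∀ j, ∃ en ∈ leg j, Wk E r en (r :: leg j) := by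
    intro j
    obtain ⟨h1, -, -, h2⟩ := hleg j
    have h3 : leg j ≠ [] := by rintro h; simp [h] at h1
    exact ⟨(leg j).getLast h3, List.getLast_mem h3, Wk.of_chain _ _ _ h2 (by
      rw [List.getLast?_cons, List.getLast?_eq_some_getLast h3]; rfl)⟩
  choose en hen1 hen2 using hen
  let I : Finset V := {r} ∪ Finset.univ.biUnion fun j => (leg j).toFinset.erase (en j)
  have hI : I.card ≤ 2 * b + 3 := by
    have := Finset.card_biUnion_le_card_mul Finset.univ
      (fun j => (leg j).toFinset.erase (en j)) (b + 1) fun j _ =>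
        (Finset.card_erase_le.trans (leg j).toFinset_card_le).trans (hleg j).1.le
    have := Finset.card_union_le {r} (Finset.univ.biUnion fun j => (leg j).toFinset.erase (en j))
    simp only [Finset.card_univ, Fintype.card_bool, Finset.card_singleton] at *
    simp only [I]
    omega
  have hm : ∀ j, ∀ z ∈ r :: leg j, z ∈ D ∧ (z ∈ I ∨ z = en j) := by
    intro j z hz
    rcases List.mem_cons.1 hz with rfl | hz
    · exact ⟨hr, Or.inl (by simp [I])⟩
    refine ⟨((hleg j).2.2.1 z hz).1, ?_⟩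
    by_cases h : z = en j
    · exact Or.inr h
    · exact Or.inl (Finset.mem_union_right _ (Finset.mem_biUnion.2
        ⟨j, Finset.mem_univ _, by simp [h, hz]⟩))
  have henI : ∀ j, en j ∉ I := by
    intro j h
    rcases Finset.mem_union.1 h with h | h
    · exact ((hleg j).2.2.1 _ (hen1 j)).2 h
    · obtain ⟨j', -, h⟩ := Finset.mem_biUnion.1 h
      simp only [Finset.mem_erase, List.mem_toFinset] at h
      exact h.1 (by rw [hlegd _ _ _ (hen1 j) h.2])
  have henD : ∀ j, en j ∈ D := fun j => ((hleg j).2.2.1 _ (hen1 j)).1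
  have hne : en false ≠ en true := fun h => by
    exact absurd (hlegd false true _ (hen1 false) (by rw [h]; exact hen1 true)) (by decide)
  set E' : V → V → Prop := fun x y => E x y ∧ x ∈ D ∧ x ∉ I ∧ y ∉ I with hE'
  have nd : ∀ j, (r :: leg j).Nodup := fun j =>
    List.nodup_cons.2 ⟨fun h => ((hleg j).2.2.1 _ h).2 (by simp), (hleg j).2.1⟩
  have h1 := St.lam (b := b) (hen2 false) (hen2 true) (nd _) (nd _) (by
    intro z hz hz'
    rcases List.mem_cons.1 hz with hz | hz
    · exact hz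
    rcases List.mem_cons.1 hz' with hz' | hz'
    · exact hz'
    simpa using hlegd _ _ z hz hz') (by simp [(hleg _).1]) (by simp [(hleg _).1])
  have ext : ∀ (N0 N1 : Set V) t t', Rch E' N0 (en false) t → Rch E' N1 (en true) t' →
      (∀ z ∈ N0, z ∉ N1) → St E b 1 t t' (D ∪ {t, t'}) := by
    rintro N0 N1 t t' ⟨l0, k1, k2⟩ ⟨l1, k3, k4⟩ hd
    have k5 := wk_inside k1 (henI _)
    have k6 := wk_inside k3 (henI _)
    have h2 := h1.ext ((k1.mono fun x _ y _ h => h.1).rch) (by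
      rintro z hz (hz' | hz')
      · exact (hm false z hz').2.resolve_left (k5 z hz).1
      · have := (hm true z hz').2.resolve_left (k5 z hz).1
        exact absurd (k4 _ (this ▸ k3.head_mem)) (hd z (k2 z hz)))
    have h3 := h2.ext' ((k3.mono fun x _ y _ h => h.1).rch) (by
      rintro z hz ((hz' | hz') | hz')
      · have := (hm false z hz').2.resolve_left (k6 z hz).1
        exact absurd (k4 z hz) (hd z (k2 _ (this ▸ k1.head_mem)))
      · exact (hm true z hz').2.resolve_left (k6 z hz).1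
      · exact absurd (k4 z hz) (hd z (k2 z hz')))
    refine h3.mono ?_
    rintro z (((hz | hz) | hz) | hz)
    · exact Or.inl (hm false z hz).1
    · exact Or.inl (hm true z hz).1
    · exact (k5 z hz).2.imp id Or.inl
    · exact (k6 z hz).2.imp id Or.inr
  refine ⟨T.filter fun t => ∃ j, Rch E' Set.univ (en j) t, ?_, fun t ht => ?_⟩
  · by_contra hc
    obtain ⟨t, k1, k2⟩ := piece_reach hmin hD I ∅ _ (Finset.sdiff_subset.trans hT)
      (show _ ≤ (T \ T.filter fun t => ∃ j, Rch E' Set.univ (en j) t).card by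
        simp only [Finset.card_empty]; omega) (henD false) (henI false) (by simp)
    obtain ⟨k3, k4⟩ := Finset.mem_sdiff.1 k1
    exact k4 (Finset.mem_filter.2 ⟨k3, false, k2.mono (Set.subset_univ _)⟩)
  · by_contra hc
    obtain ⟨-, j, hj⟩ := Finset.mem_filter.1 ht
    obtain ⟨L, hL, hLc⟩ := menger E' {en false, en true}
      (T.filter fun t' => ¬ St E b 1 t t' (D ∪ {t, t'})) 2 (by
        intro Y hY
        obtain ⟨u, hu, huY⟩ := Finset.exists_mem_notMem_of_card_lt_card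
          (hY.trans_eq (Finset.card_pair hne).symm)
        have : u ∈ D ∧ u ∉ I := by
          simp only [Finset.mem_insert, Finset.mem_singleton] at hu
          rcases hu with rfl | rfl <;> exact ⟨henD _, henI _⟩
        obtain ⟨t', k1, k2⟩ := piece_reach hmin hD I Y _ ((Finset.filter_subset _ _).trans hT)
          (show _ ≤ (T.filter fun t' => ¬ St E b 1 t t' (D ∪ {t, t'})).card by omega)
          this.1 this.2 huY
        exact ⟨u, hu, t', k1, k2⟩)
    obtain ⟨P0, hP0, t0, ht0, w0⟩ := hL.cover_start (a := en false)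
      (by rw [Finset.card_pair hne]; omega) (by simp)
    obtain ⟨P1, hP1, t1, ht1, w1⟩ := hL.cover_start (a := en true)
      (by rw [Finset.card_pair hne]; omega) (by simp)
    have hd : ∀ z ∈ P0, z ∉ P1 := fun z hz hz' =>
      hne (w0.ends_unique (hL.2 _ hP0 _ hP1 z hz hz' ▸ w1)).1
    obtain ⟨p, q, m, r1, -, -, r4, rfl, r6, -⟩ := hj.trim (fun z => z ∈ P0 ∨ z ∈ P1) (· = t)
      (by cases j; exacts [Or.inl w0.head_mem, Or.inr w1.head_mem]) rfl
    rcases r4 with r4 | r4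
    · refine (Finset.mem_filter.1 ht1).2 (ext {z | z ∈ P0 ∨ z ∈ m} _ _ _
        (((w0.rch_left (hL.1 _ hP0).1 r4).mono fun z hz => Or.inl hz.1).trans
          (r1.rch.mono fun z hz => Or.inr hz)) w1.rch ?_)
      rintro z (hz | hz) hz'
      · exact hd z hz hz'
      · exact hd p r4 (r6 z hz (Or.inr hz') ▸ hz')
    · refine (Finset.mem_filter.1 ht0).2 ((ext _ {z | z ∈ P1 ∨ z ∈ m} _ _ w0.rch
        (((w1.rch_left (hL.1 _ hP1).1 r4).mono fun z hz => Or.inl hz.1).trans
          (r1.rch.mono fun z hz => Or.inr hz)) ?_).symm.mono (by rw [Set.pair_comm]))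
      rintro z hz' (hz | hz)
      · exact hd z hz' hz
      · exact hd p (r6 z hz (Or.inl hz') ▸ hz') r4

end

theorem dich {κ : Type} [Fintype κ] (c : κ → ℕ) (b : ℕ) : ∃ K L : ℕ,
    ∀ (V : Type) [Fintype V] (E : V → V → Prop) (W : Finset V), MinOut E W K →
      Fam E b c W ∨ ∃ B1 B2, Cls E W B1 L ∧ Cls E W B2 L ∧ ∀ z ∈ B1, z ∉ B2 := by
  obtain ⟨K, L, h⟩ := big_path c b
  refine ⟨K, L, fun V _ E W hK => ?_⟩
  have hW : ∀ x y, res E W x y → y ∈ W := fun _ _ h => h.2.2
  by_cases h1 : ∀ S ⊆ W, S.Nonempty → (bd (res E W) S).card < L → ∀ S' ⊆ W, S'.Nonempty →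
      (bd (res E W) S').card < L → ∃ z ∈ S, z ∈ S'
  · obtain ⟨P, k1, k2, k3⟩ := exists_big hW hK.1 h1
    exact Or.inl (h V _ W hW hK.res P k1 k2 k3).of_res
  · push Not at h1
    obtain ⟨S, k1, k2, k3, S', k4, k5, k6, k7⟩ := h1
    have key : ∀ S ⊆ W, S.Nonempty → (bd (res E W) S).card < L → Cls E W S L := by
      intro S r1 r2 r3
      refine ⟨r1, r2, _, r3.le, fun x hx y hy hxy => ?_⟩
      by_cases r4 : y ∈ S
      · exact Or.inl r4
      · exact Or.inr (mem_bd.2 ⟨r4, x, hx, hxy, r1 hx, hy⟩)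
    exact Or.inr ⟨S, S', key S k1 k2 k3, key S' k4 k5 k6, k7⟩

theorem split {κ : Type} [Fintype κ] (c : κ → ℕ) (b : ℕ) : ∃ K L : ℕ, ∀ (r : ℕ)
    (V : Type) [Fintype V] (E : V → V → Prop) (W : Finset V), MinOut E W (K + r * L) →
      Fam E b c W ∨ ∃ D : ℕ → Finset V, (∀ i ≤ r, Cls E W (D i) (r * L)) ∧
        ∀ i ≤ r, ∀ k ≤ r, ∀ z ∈ D i, z ∈ D k → i = k := by
  obtain ⟨K, L, h⟩ := dich c b
  refine ⟨K, L, fun r V _ E => ?_⟩
  induction r with
  | zero =>
    exact fun W hW => Or.inr ⟨fun _ => W, fun i _ => ⟨le_rfl, hW.1, ∅, by simp, by tauto⟩,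
      fun i hi k hk _ _ _ => by omega⟩
  | succ r ih =>
    intro W hW
    rcases h V E W (hW.mono (by omega)) with h1 | ⟨B1, B2, h1, h2, h3⟩
    · exact Or.inl h1
    rcases ih B2 (h2.minOut (hW.mono (by rw [add_mul]; omega))) with h4 | ⟨D, h4, h5⟩
    · exact Or.inl (h4.mono (by exact_mod_cast h2.1))
    refine Or.inr ⟨fun i => Nat.casesOn i B1 D, fun i hi => ?_, fun i hi k hk z hz hz' => ?_⟩
    · rcases i with _ | i
      · exact h1.mono (by rw [add_mul]; omega)
      · exact (h2.trans (h4 i (by omega))).mono (by rw [add_mul]; omega)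
    · rcases i with _ | i <;> rcases k with _ | k
      · rfl
      · exact absurd ((h4 k (by omega)).1 hz') (h3 z hz)
      · exact absurd ((h4 i (by omega)).1 hz) (h3 z hz')
      · rw [h5 i (by omega) k (by omega) z hz hz']

theorem single_zig (a b : ℕ) (ha : a ≠ 0) : ∃ K : ℕ,
    ∀ (V : Type) [Fintype V] (E : V → V → Prop) (W : Finset V), MinOut E W K → ZigIn E b a W := by
  obtain ⟨K, L, h⟩ := split (fun _ : Unit => a) b
  obtain ⟨w, hw⟩ : ∃ w, w = a * L := ⟨_, rfl⟩
  obtain ⟨q, hq⟩ : ∃ q, q = (a + 1) * (w + 2 * b + 5) := ⟨_, rfl⟩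
  obtain ⟨s, hs⟩ : ∃ s, s = w + (a + 1) * w + q + a * q + w := ⟨_, rfl⟩
  refine ⟨K + w + (2 * b + 3) + s, fun V _ E0 W hW0 => ?_⟩
  suffices ZigIn (res E0 W) b a Set.univ from this.of_res.mono Set.inter_subset_right
  have hW := hW0.res
  have hEW : ∀ x y, res E0 W x y → y ∈ W := fun _ _ h => h.2.2
  generalize res E0 W = E at hW hEW ⊢
  clear hW0 E0
  obtain ⟨U0, ⟨a1, a2, a3⟩, a4⟩ := exists_min_set (fun S => S ⊆ W ∧ S.Nonempty ∧ bd E S = ∅) W
    ⟨le_rfl, hW.1, by
      ext y; simp only [mem_bd, Finset.notMem_empty, iff_false]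
      rintro ⟨h1, x, -, h2⟩; exact h1 (hEW x y h2)⟩
  have a5 : ∀ x ∈ U0, ∀ y, E x y → y ∈ U0 := fun x hx y hxy => by
    by_contra hc
    have : y ∈ bd E U0 := mem_bd.2 ⟨hc, x, hx, hxy⟩
    simp [a3] at this
  obtain ⟨U, ⟨b1, b2, b3⟩, b4⟩ := exists_min_set (fun S => S ⊆ U0 ∧ S.Nonempty ∧ (bd E S).card ≤ s)
    U0 ⟨le_rfl, a2, by simp [a3]⟩
  have hU : MinOut E U (K + w + (2 * b + 3)) := hW.sub b2 (b1.trans a1) (Y := bd E U)
    (fun x hx y _ hxy => by
      by_cases hy : y ∈ U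
      · exact Or.inl hy
      · exact Or.inr (mem_bd.2 ⟨hy, x, hx, hxy⟩)) (by omega)
  rcases h a V E U (hU.mono (by omega)) with ⟨Z, -, -, h1⟩ | ⟨D, hD, hDd⟩
  · exact ((h1 ()).2 ha).mono (Set.subset_univ _)
  rw [← hw] at hD
  have hmin : ∀ i ≤ a, ∀ R ⊆ D i, R.Nonempty → s < (bd E R).card := by
    intro i hi R hR hRn
    by_contra hc
    have := b4 R ⟨(hR.trans (hD i hi).1).trans b1, hRn, by omega⟩ (hR.trans (hD i hi).1)
    obtain ⟨k, hk, hki⟩ : ∃ k ≤ a, k ≠ i := by
      by_cases hi0 : i = 0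
      · exact ⟨1, by omega, by omega⟩
      · exact ⟨0, by omega, by omega⟩
    obtain ⟨z, hz⟩ := (hD k hk).2.1
    exact hki (hDd k hk i hi z hz (hR (this ▸ (hD k hk).1 hz)))
  have hbd : ∀ i ≤ a, (bd E (D i)).card ≤ (bd E U ∩ bd E (D i)).card + w := by
    intro i hi
    obtain ⟨k1, -, Y, k2, k3⟩ := hD i hi
    have : bd E (D i) ⊆ (bd E U ∩ bd E (D i)) ∪ Y := by
      intro y hy
      obtain ⟨r1, x, r2, r3⟩ := mem_bd.1 hy
      by_cases r4 : y ∈ U
      · exact Finset.mem_union_right _ ((k3 x r2 y r4 r3).resolve_left r1)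
      · exact Finset.mem_union_left _ (Finset.mem_inter.2 ⟨mem_bd.2 ⟨r4, x, k1 r2, r3⟩, hy⟩)
    exact (Finset.card_le_card this).trans ((Finset.card_union_le _ _).trans (by omega))
  have hbd' : ∀ i ≤ a, (bd E (D i)).card ≤ s + w := fun i hi => by
    have := hbd i hi
    have := Finset.card_le_card (Finset.inter_subset_left (s₁ := bd E U) (s₂ := bd E (D i)))
    omega
  let T := (bd E U).filter fun t => ∀ i ≤ a, t ∈ bd E (D i)
  have hT : ∀ i ≤ a, T ⊆ bd E (D i) := fun i hi t ht => (Finset.mem_filter.1 ht).2 i hi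
  have hTc : q + a * q + w ≤ T.card := by
    have k1 : bd E U ⊆ T ∪ (Finset.range (a + 1)).biUnion fun i => bd E U \ bd E (D i) := by
      intro t ht
      by_cases k2 : t ∈ T
      · exact Finset.mem_union_left _ k2
      · simp only [T, Finset.mem_filter, ht, true_and] at k2
        push Not at k2
        obtain ⟨i, hi, k3⟩ := k2
        exact Finset.mem_union_right _ (Finset.mem_biUnion.2
          ⟨i, by simp; omega, Finset.mem_sdiff.2 ⟨ht, k3⟩⟩)
    have k2 := (Finset.card_le_card k1).trans (Finset.card_union_le _ _)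
    have k3 := Finset.card_biUnion_le_card_mul (Finset.range (a + 1))
      (fun i => bd E U \ bd E (D i)) w (by
        intro i hi
        have hi' : i ≤ a := by simp at hi; omega
        have := hbd i hi'
        have := hmin i hi' _ le_rfl (hD i hi').2.1
        have := Finset.card_sdiff_add_card_inter (bd E U) (bd E (D i))
        omega)
    rw [Finset.card_range] at k3
    have := hbd 0 (by omega)
    have := hmin 0 (by omega) _ le_rfl (hD 0 (by omega)).2.1
    have := Finset.card_le_card (Finset.inter_subset_left (s₁ := bd E U) (s₂ := bd E (D 0)))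
    omega
  have hlam := fun i (hi : i ≤ a) => piece_lam (b := b) (hmin i hi) (hbd' i hi)
    ((hD i hi).minOut (hU.mono (by omega))) T (hT i hi)
  choose! NL hNL1 hNL2 using hlam
  let T' := T.filter fun t => ∀ i ≤ a, t ∈ NL i
  have hT'c : a * q + w ≤ T'.card := by
    have k1 : T ⊆ T' ∪ (Finset.range (a + 1)).biUnion fun i => T \ NL i := by
      intro t ht
      by_cases k2 : t ∈ T'
      · exact Finset.mem_union_left _ k2
      · simp only [T', Finset.mem_filter, ht, true_and] at k2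
        push Not at k2
        obtain ⟨i, hi, k3⟩ := k2
        exact Finset.mem_union_right _ (Finset.mem_biUnion.2
          ⟨i, by simp; omega, Finset.mem_sdiff.2 ⟨ht, k3⟩⟩)
    have k2 := (Finset.card_le_card k1).trans (Finset.card_union_le _ _)
    have k3 := Finset.card_biUnion_le_card_mul (Finset.range (a + 1))
      (fun i => T \ NL i) _ fun i hi => hNL1 i (by simp at hi; omega)
    rw [Finset.card_range] at k3
    omega
  let C : V → Finset V := fun t => T'.filter fun t' => t ∈ T' ∧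
    ∃ i ≤ a, ¬ St E b 1 t t' (D i ∪ {t, t'})
  have hC : ∀ t ∈ T', (C t).card ≤ q ∧ t ∈ C t := by
    intro t ht
    refine ⟨?_, Finset.mem_filter.2 ⟨ht, ht, 0, by omega, fun h => h.ne rfl⟩⟩
    refine le_trans (Finset.card_le_card (t := (Finset.range (a + 1)).biUnion fun i =>
      T.filter fun t' => ¬ St E b 1 t t' (D i ∪ {t, t'})) ?_) ?_
    · intro t' ht'
      obtain ⟨k1, -, i, hi, k2⟩ := Finset.mem_filter.1 ht'
      exact Finset.mem_biUnion.2 ⟨i, by simp; omega,
        Finset.mem_filter.2 ⟨(Finset.mem_filter.1 k1).1, k2⟩⟩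
    · refine (Finset.card_biUnion_le_card_mul _ _ _ fun i hi =>
        hNL2 i (by simp at hi; omega) t ((Finset.mem_filter.1 ht).2 i (by simp at hi; omega))).trans ?_
      rw [Finset.card_range, hq]
  have hC' : ∀ t ∈ T', ∀ t' ∈ T', t' ∉ C t → ∀ i ≤ a, St E b 1 t t' (D i ∪ {t, t'}) := by
    intro t ht t' ht' h1 i hi
    by_contra h2
    exact h1 (Finset.mem_filter.2 ⟨ht', ht, i, hi, h2⟩)
  have hT'U : ∀ t ∈ T', t ∈ bd E U := fun t ht => (Finset.mem_filter.1 (Finset.mem_filter.1 ht).1).1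
  have hq0 : 0 < q := by rw [hq]; positivity
  by_cases ha1 : a = 1
  · subst ha1
    obtain ⟨t0, ht0⟩ : T'.Nonempty := Finset.card_pos.1 (by omega)
    obtain ⟨u0, hu0⟩ := (hD 0 (by omega)).2.1
    have ht0U : t0 ∈ U0 := by
      obtain ⟨-, x, k1, k2⟩ := mem_bd.1 (hT'U t0 ht0)
      exact a5 x (b1 k1) _ k2
    have hr : reach E U0 t0 = U0 := by
      have k1 : reach E U0 t0 ⊆ U0 := fun z hz => (mem_reach.1 hz).right
      refine a4 _ ⟨k1.trans a1, ⟨t0, mem_reach.2 (Rch.refl ht0U)⟩, ?_⟩ k1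
      ext y
      simp only [Finset.notMem_empty, iff_false]
      intro hy
      obtain ⟨k2, x, k3, k4⟩ := bd_reach hy
      exact k2 (a5 x k3.right y k4)
    have hr' : Rch E U0 t0 u0 := mem_reach.1 (hr.symm ▸ b1 ((hD 0 (by omega)).1 hu0))
    obtain ⟨t', u, m, r1, -, -, r4, ⟨i, hi, r5⟩, -, r7⟩ := hr'.trim (· ∈ T')
      (fun z => ∃ i ≤ 1, z ∈ D i) ht0 ⟨0, by omega, hu0⟩
    obtain ⟨t, k1, l, k2, -⟩ := piece_reach (hmin i hi) (hbd' i hi) ∅ ∅ (T' \ C t')
      ((Finset.sdiff_subset.trans (Finset.filter_subset _ _)).trans (hT i hi)) (by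
        have := Finset.le_card_sdiff (C t') T'
        have := (hC t' r4).1
        simp only [Finset.card_empty]
        omega) r5 (by simp) (by simp)
    obtain ⟨k3, k4⟩ := Finset.mem_sdiff.1 k1
    have k5 := wk_inside k2 (by simp)
    have k6 : Vc E {z | z ∈ m ∨ z ∈ l} t' t := ⟨t, (r1.rch.mono fun z hz => Or.inl hz).trans
      ((k2.mono fun _ _ _ _ h => h.1).rch.mono fun z hz => Or.inr hz),
      Rch.refl (Or.inr k2.last_mem)⟩
    refine ((hC' t' r4 t k3 k4 (1 - i) (by omega)).close k6 ?_).mono (Set.subset_univ _)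
    rintro z hz (hz' | hz')
    · exfalso
      rcases hz with hz | hz
      · have := hDd i hi (1 - i) (by omega) z (r7 z hz ⟨1 - i, by omega, hz'⟩ ▸ r5) hz'
        omega
      · rcases (k5 z hz).2 with k7 | k7
        · have := hDd i hi (1 - i) (by omega) z k7 hz'
          omega
        · exact (mem_bd.1 (hT'U t k3)).1 ((hD _ (by omega)).1 (k7 ▸ hz'))
    · exact hz'
  · obtain ⟨T0, k1, k2, k3⟩ := greedy_indep C q (by
      intro t t' h1
      obtain ⟨r1, r2, i, hi, r3⟩ := Finset.mem_filter.1 h1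
      exact Finset.mem_filter.2 ⟨r2, r1, i, hi, fun r4 => r3 (r4.symm.mono (by rw [Set.pair_comm]))⟩)
      a T' hC (by omega) (by omega)
    let e := Finset.equivFinOfCardEq k2
    have ha0 : 0 < a := by omega
    let t : ℕ → V := fun i => (e.symm ⟨i % a, Nat.mod_lt _ ha0⟩).1
    have ht : ∀ i, t i ∈ T0 := fun i => (e.symm _).2
    have hti : ∀ i < a, ∀ k < a, t i = t k → i = k := by
      intro i hi k hk hh
      have := congrArg Fin.val (e.symm.injective (Subtype.ext hh))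
      simpa [Nat.mod_eq_of_lt hi, Nat.mod_eq_of_lt hk] using this
    refine (zig_glue (by omega) t (fun i => D i) (bd E U) hti (fun i _ => hT'U _ (k1 (ht i)))
      (fun i hi k hk z hz hz' => hDd i hi.le k hk.le z hz hz')
      (fun i hi z hz hz' => (mem_bd.1 hz').1 ((hD i hi.le).1 hz)) fun i hi => ?_).mono
      (Set.subset_univ _)
    refine hC' _ (k1 (ht _)) _ (k1 (ht _)) (fun h1 => ?_) i hi.le
    have := hti i hi _ (Nat.mod_lt _ ha0) (k3 _ (ht _) _ (ht _) h1)
    rcases Nat.lt_or_ge (i + 1) a with h2 | h2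
    · rw [Nat.mod_eq_of_lt h2] at this; omega
    · have h3 : i + 1 = a := by omega
      rw [h3, Nat.mod_self] at this; omega

theorem single_piece (c b : ℕ) : ∃ K : ℕ,
    ∀ (V : Type) [Fintype V] (E : V → V → Prop) (W : Finset V), MinOut E W K → Piece E b c W := by
  by_cases hc : c = 0
  · obtain ⟨K, h⟩ := long_cycles 1 b
    refine ⟨K, fun V _ E W hW => ⟨fun _ => ?_, fun h => absurd hc h⟩⟩
    obtain ⟨Z, h1, -, h3⟩ := h V E W hW
    obtain ⟨l, hl⟩ := Finset.card_pos.1 (show 0 < Z.card by omega)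
    exact ⟨l, (h3 l hl).1, (h3 l hl).2⟩
  · obtain ⟨K, h⟩ := single_zig c b hc
    exact ⟨K, fun V _ E W hW => ⟨fun h => absurd h hc, fun _ => h V E W hW⟩⟩

theorem exists_fam (b : ℕ) : ∀ (m : ℕ) (c : Fin m → ℕ), ∃ K : ℕ,
    ∀ (V : Type) [Fintype V] (E : V → V → Prop) (W : Finset V), MinOut E W K → Fam E b c W := by
  intro m
  induction m with
  | zero => exact fun c => ⟨0, fun V _ E W _ => ⟨fun _ => ∅, by simp, by simp, by simp⟩⟩
  | succ m ih =>
    intro c
    obtain ⟨K1, L, h1⟩ := dich c b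
    obtain ⟨K2, h2⟩ := single_piece (c 0) b
    obtain ⟨K3, h3⟩ := ih (Fin.tail c)
    refine ⟨K1 + K2 + K3 + L, fun V _ E W hW => ?_⟩
    rcases h1 V E W (hW.mono (by omega)) with h | ⟨B1, B2, k1, k2, k3⟩
    · exact h
    have r1 := h2 V E B1 (k1.minOut (hW.mono (by omega)))
    obtain ⟨Z, r2, r3, r4⟩ := h3 V E B2 (k2.minOut (hW.mono (by omega)))
    refine ⟨Fin.cons (B1 : Set V) Z, fun i => ?_, fun i k z => ?_, fun i => ?_⟩
    · refine Fin.cases ?_ (fun i => ?_) i
      · exact_mod_cast k1.1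
      · exact (r2 i).trans (by exact_mod_cast k2.1)
    · refine Fin.cases ?_ (fun i => ?_) i <;> refine Fin.cases ?_ (fun k => ?_) k <;>
        simp only [Fin.cons_zero, Fin.cons_succ] <;> intro hz hz'
      · trivial
      · exact absurd (r2 k hz') (k3 z hz)
      · exact absurd (r2 i hz) (k3 z hz')
      · rw [r3 i k z hz hz']
    · refine Fin.cases ?_ (fun i => ?_) i
      · exact r1
      · exact r4 i

end Pool.Agent.P.MP_a3bdf6_co
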