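import Pool.Agent.P.MP_a3bdf6_co.Zig
import Pool.Agent.P.MP_a3bdf6_co.Defs

/-! From disjoint cycles and zigzags to a subdivision of a union of oriented cycles. -/

namespace Pool.Agent.P.MP_a3bdf6_co

open Classical

section words

variable {V : Type} {E : V → V → Prop} {b : ℕ}

/-- a block between `x` and `y` with inner vertices `A`, directed according to `d` -/
def Seg (E : V → V → Prop) (d : Bool) (x y : V) (A : List V) : Prop :=
  (d = true → (x :: A ++ [y]).IsChain E) ∧ (d = false → (y :: A ++ [x]).IsChain E)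

/-- an oriented walk that follows a word of directions; the multiset omits the end vertex -/
inductive SOW (E : V → V → Prop) (b : ℕ) : List Bool → V → V → Multiset V → Prop
  | nil (x : V) : SOW E b [] x x 0
  | cons {d : Bool} {w : List Bool} {x y z : V} {A : List V} {Z : Multiset V} :
      Seg E d x y A → b ≤ A.length → SOW E b w y z Z →
      SOW E b (d :: w) x z (x ::ₘ (A : Multiset V) + Z)

theorem SOW.append {w w' : List Bool} {x y z : V} {Z Z' : Multiset V} (h : SOW E b w x y Z)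
    (h' : SOW E b w' y z Z') : SOW E b (w ++ w') x z (Z + Z') := by
  induction h with
  | nil => simpa using h'
  | cons h1 h2 _ ih =>
    rw [add_assoc]
    exact cons h1 h2 (ih h')

theorem SOW.inv_cons {d : Bool} {w : List Bool} {x z : V} {Z : Multiset V}
    (h : SOW E b (d :: w) x z Z) : ∃ y A Z', Seg E d x y A ∧ b ≤ A.length ∧ SOW E b w y z Z' ∧
      Z = x ::ₘ (A : Multiset V) + Z' := by
  cases h with
  | cons h1 h2 h3 => exact ⟨_, _, _, h1, h2, h3, rfl⟩

theorem SOW.split : ∀ (w : List Bool) {w' : List Bool} {x z : V} {Z : Multiset V},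
    SOW E b (w ++ w') x z Z → ∃ y Z1 Z2, SOW E b w x y Z1 ∧ SOW E b w' y z Z2 ∧ Z = Z1 + Z2
  | [], _, x, _, Z, h => ⟨x, 0, Z, nil x, h, by simp⟩
  | d :: w, _, _, _, _, h => by
    obtain ⟨y, A, Z', h1, h2, h3, rfl⟩ := SOW.inv_cons (by simpa using h)
    obtain ⟨y', Z1, Z2, k1, k2, rfl⟩ := SOW.split w h3
    exact ⟨y', _, Z2, cons h1 h2 k1, k2, by rw [add_assoc]⟩

theorem SOW.mono {b' : ℕ} {w : List Bool} {x z : V} {Z : Multiset V} (h : SOW E b w x z Z)
    (hb : b' ≤ b) : SOW E b' w x z Z := by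
  induction h with
  | nil => exact nil _
  | cons h1 h2 _ ih => exact cons h1 (hb.trans h2) ih

/-- a closed oriented walk without repeated vertices inside `S` -/
def CW (E : V → V → Prop) (b : ℕ) (w : List Bool) (S : Set V) : Prop :=
  ∃ x Z, SOW E b w x x Z ∧ Z.Nodup ∧ ∀ z ∈ Z, z ∈ S

theorem CW.rot {w w' : List Bool} {S : Set V} (h : CW E b (w ++ w') S) : CW E b (w' ++ w) S := by
  obtain ⟨x, Z, h1, h2, h3⟩ := h
  obtain ⟨y, Z1, Z2, k1, k2, rfl⟩ := SOW.split w h1
  rw [add_comm] at h2 h3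
  exact ⟨y, _, k2.append k1, h2, h3⟩

theorem chain_split {x y : V} {A : List V} (h : (x :: A ++ [y]).IsChain E)
    (hA : 2 * b + 1 ≤ A.length) : ∃ A1 m A2, A = A1 ++ m :: A2 ∧ b ≤ A1.length ∧ b ≤ A2.length ∧
      (x :: A1 ++ [m]).IsChain E ∧ (m :: A2 ++ [y]).IsChain E := by
  have hb : b < A.length := by omega
  have e : A = A.take b ++ A[b] :: A.drop (b + 1) := by
    rw [← List.drop_eq_getElem_cons hb, List.take_append_drop]
  refine ⟨A.take b, A[b], A.drop (b + 1), e, by simp; omega, by simp; omega, ?_⟩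
  have e2 : x :: A ++ [y] = (x :: A.take b) ++ A[b] :: (A.drop (b + 1) ++ [y]) := by
    conv_lhs => rw [e]
    simp only [List.cons_append, List.append_assoc]
  rw [e2, List.isChain_split] at h
  exact h

theorem CW.dup {d : Bool} {w : List Bool} {S : Set V} (h : CW E (2 * b + 1) (d :: w) S) :
    CW E b (d :: d :: w) S := by
  obtain ⟨x, Z, h1, h2, h3⟩ := h
  obtain ⟨y, A, Z', k1, k2, k3, rfl⟩ := h1.inv_cons
  have k3' : SOW E b w y x Z' := k3.mono (by omega)
  cases d with
  | true =>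
    obtain ⟨A1, m, A2, rfl, l1, l2, c1, c2⟩ := chain_split (k1.1 rfl) k2
    have := SOW.cons (d := true) ⟨fun _ => c1, fun h => by cases h⟩ l1
      (SOW.cons (d := true) ⟨fun _ => c2, fun h => by cases h⟩ l2 k3')
    have e : x ::ₘ ((A1 ++ m :: A2 : List V) : Multiset V) + Z'
        = x ::ₘ (A1 : Multiset V) + (m ::ₘ (A2 : Multiset V) + Z') := by
      rw [← Multiset.coe_add, ← Multiset.cons_coe]
      simp only [← Multiset.singleton_add]; abel
    rw [e] at h2 h3
    exact ⟨x, _, this, h2, h3⟩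
  | false =>
    obtain ⟨A1, m, A2, rfl, l1, l2, c1, c2⟩ := chain_split (k1.2 rfl) k2
    have := SOW.cons (d := false) ⟨fun h => (by cases h), fun _ => c2⟩ l2
      (SOW.cons (d := false) ⟨fun h => (by cases h), fun _ => c1⟩ l1 k3')
    have e : x ::ₘ ((A1 ++ m :: A2 : List V) : Multiset V) + Z'
        = x ::ₘ (A2 : Multiset V) + (m ::ₘ (A1 : Multiset V) + Z') := by
      rw [← Multiset.coe_add, ← Multiset.cons_coe]
      simp only [← Multiset.singleton_add]; abel
    rw [e] at h2 h3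
    exact ⟨x, _, this, h2, h3⟩

/-- alternating words -/
def altw : Bool → ℕ → List Bool
  | _, 0 => []
  | d, k + 1 => d :: altw (!d) k

theorem altw_odd (d : Bool) (a : ℕ) : altw d (2 * a + 1) = altw d (2 * a) ++ [d] := by
  induction a with
  | zero => rfl
  | succ a ih =>
    show d :: (!d) :: altw (!!d) (2 * a + 1) = d :: (!d) :: altw (!!d) (2 * a) ++ [d]
    rw [Bool.not_not, ih]; rfl

theorem altw_even (d : Bool) (a : ℕ) : altw d (2 * a + 2) = altw d (2 * a + 1) ++ [!d] := by
  show d :: altw (!d) (2 * a + 1) = d :: altw (!d) (2 * a) ++ [!d]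
  rw [altw_odd]; rfl

theorem Lam.ow {x y : V} {Z : Multiset V} (h : Lam E b x y Z) :
    SOW E b [false, true] x y (x ::ₘ Z) := by
  obtain ⟨s, A, B, h1, h2, h3, h4, rfl⟩ := h
  have := SOW.cons (d := false) ⟨fun h => (by cases h), fun _ => h1.chain⟩ h3
    (SOW.cons (d := true) ⟨fun _ => h2.chain, fun h => by cases h⟩ h4 (SOW.nil y))
  have e : x ::ₘ s ::ₘ ((A : Multiset V) + (B : Multiset V))
      = x ::ₘ (A : Multiset V) + (s ::ₘ (B : Multiset V) + 0) := by
    simp only [← Multiset.singleton_add]; abel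
  rw [e]; exact this

theorem OZ.ow {j : ℕ} {x y : V} {Z : Multiset V} (h : OZ E b j x y Z) :
    SOW E b (altw false (2 * j)) x y (x ::ₘ Z) := by
  induction h with
  | one h => exact h.ow
  | @cons j x t y Z Z' h _ ih =>
    have := h.ow.append ih
    rw [Multiset.cons_add] at this
    exact this

end words

/-- the closed walks that follow `w` can be found in long pieces of one type -/
def SGood (w : List Bool) : Prop :=
  ∃ c : ℕ, ∀ b : ℕ, ∃ b0 : ℕ, ∀ b', b0 ≤ b' → ∀ (V : Type) (E : V → V → Prop) (S : Set V),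
    Piece E b' c S → CW E b w S

theorem SGood.rot {w w' : List Bool} (h : SGood (w ++ w')) : SGood (w' ++ w) := by
  obtain ⟨c, h⟩ := h
  refine ⟨c, fun b => ?_⟩
  obtain ⟨b0, h⟩ := h b
  exact ⟨b0, fun b' hb V E S hP => (h b' hb V E S hP).rot⟩

theorem SGood.dup {d : Bool} {w : List Bool} (h : SGood (d :: w)) : SGood (d :: d :: w) := by
  obtain ⟨c, h⟩ := h
  refine ⟨c, fun b => ?_⟩
  obtain ⟨b0, h⟩ := h (2 * b + 1)
  exact ⟨b0, fun b' hb V E S hP => (h b' hb V E S hP).dup⟩

theorem good_single (d : Bool) : SGood [d] := by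
  refine ⟨0, fun b => ⟨b, fun b' hb V E S hP => ?_⟩⟩
  obtain ⟨c, ⟨x, l, rfl, h1, h2, h3⟩, h4⟩ := hP.1 rfl
  refine ⟨x, _, SOW.cons ⟨fun _ => h1, fun _ => h1⟩ (hb.trans h3) (SOW.nil x), ?_, ?_⟩
  · simpa using h2
  · intro z hz
    refine h4 z ?_
    simp only [add_zero, Multiset.mem_cons, Multiset.mem_coe] at hz
    rcases hz with rfl | hz
    · simp
    · simp [hz]

theorem good_alt_false (a : ℕ) : SGood (altw false (2 * a + 2)) := by
  refine ⟨a + 1, fun b => ⟨b, fun b' hb V E S hP => ?_⟩⟩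
  obtain ⟨x, Z, h1, h2, h3, h4⟩ := hP.2 (by omega)
  refine ⟨x, _, h1.ow.mono hb, h2, fun z hz => ?_⟩
  rcases Multiset.mem_cons.1 hz with rfl | hz
  · exact h3
  · exact h4 z hz

theorem good_alt_even (d : Bool) (a : ℕ) : SGood (altw d (2 * a + 2)) := by
  cases d with
  | false => exact good_alt_false a
  | true =>
    have := good_alt_false a
    rw [altw_even] at this
    exact this.rot

theorem good_alt (d : Bool) (k : ℕ) : SGood (altw d (k + 1)) := by
  obtain ⟨a, rfl | rfl⟩ := Nat.even_or_odd' k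
  · cases a with
    | zero => exact good_single d
    | succ a =>
      rw [altw_odd]
      exact SGood.rot (w := [d]) (SGood.dup (good_alt_even d a))
  · exact good_alt_even d a

theorem exists_alt : ∀ (d : Bool) (w : List Bool), ∃ k, ∀ t,
    SGood (altw d (k + 1) ++ t) → SGood (d :: w ++ t)
  | d, [] => ⟨0, fun _ h => h⟩
  | d, e :: w => by
    obtain ⟨k, hk⟩ := exists_alt e w
    have key : ∀ t, SGood (d :: altw e (k + 1) ++ t) → SGood (d :: e :: w ++ t) := by
      intro t h
      have h1 : SGood ((altw e (k + 1) ++ t) ++ [d]) := SGood.rot (w := [d]) h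
      rw [List.append_assoc] at h1
      have h2 := hk _ h1
      rw [← List.append_assoc] at h2
      exact h2.rot
    by_cases hde : e = d
    · subst hde
      exact ⟨k, fun t h => key t (SGood.dup h)⟩
    · have : e = !d := by cases d <;> cases e <;> simp_all
      subst this
      exact ⟨k + 1, fun t h => key t h⟩

theorem good_of_ne_nil {w : List Bool} (hw : w ≠ []) : SGood w := by
  obtain ⟨d, w, rfl⟩ := List.exists_cons_of_ne_nil hw
  obtain ⟨k, hk⟩ := exists_alt d w
  simpa using hk [] (by simpa using good_alt d k)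

section readoff

variable {V : Type} {E : V → V → Prop} {b : ℕ}

theorem SOW.fns {w : List Bool} {x y : V} {Z : Multiset V} (h : SOW E b w x y Z) :
    ∃ (φ : ℕ → V) (A : ℕ → List V), φ 0 = x ∧ φ w.length = y ∧
      (∀ k (hk : k < w.length), Seg E w[k] (φ k) (φ (k + 1)) (A k)) ∧
      Z = ∑ k ∈ Finset.range w.length, φ k ::ₘ (A k : Multiset V) := by
  induction h with
  | nil x => exact ⟨fun _ => x, fun _ => [], rfl, rfl, by simp, by simp⟩
  | @cons d w x y z A Z h1 _ _ ih =>
    obtain ⟨φ, B, k1, k2, k3, k4⟩ := ih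
    refine ⟨fun k => Nat.casesOn k x φ, fun k => Nat.casesOn k A B, rfl, k2, ?_, ?_⟩
    · intro k hk
      cases k with
      | zero => subst k1; exact h1
      | succ k => exact k3 k (by simpa using hk)
    · rw [List.length_cons, Finset.sum_range_succ', k4, add_comm]
      rfl

theorem CW.fns {N : ℕ} {o : Fin (N + 1) → Bool} {S : Set V} (h : CW E b (List.ofFn o) S) :
    ∃ (φ : Fin (N + 1) → V) (A : Fin (N + 1) → List V),
      (∀ k, Seg E (o k) (φ k) (φ (k + 1)) (A k)) ∧ (∀ k, (φ k :: A k).Nodup) ∧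
      (∀ k, ∀ z ∈ φ k :: A k, z ∈ S) ∧
      ∀ k k', k ≠ k' → ∀ z, z ∈ φ k :: A k → z ∉ φ k' :: A k' := by
  obtain ⟨x, Z, h1, h2, h3⟩ := h
  obtain ⟨φ, A, k1, k2, k3, rfl⟩ := h1.fns
  simp only [List.length_ofFn] at k2 h2 h3
  have hle : ∀ k : Fin (N + 1), (φ k ::ₘ (A k : Multiset V))
      ≤ ∑ k ∈ Finset.range (N + 1), φ k ::ₘ (A k : Multiset V) := fun k =>
    Finset.single_le_sum (f := fun k => φ k ::ₘ (A k : Multiset V)) (fun _ _ => zero_le)
      (Finset.mem_range.2 k.2)
  refine ⟨fun k => φ k, fun k => A k, fun k => ?_, fun k => ?_, fun k z hz => ?_,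
    fun k k' hk z hz hz' => ?_⟩
  · have := k3 k (by simpa using k.2)
    simp only [List.getElem_ofFn, Fin.eta] at this
    have e : φ ((k + 1 : Fin (N + 1)) : ℕ) = φ (k + 1) := by
      rw [Fin.val_add_one]
      split_ifs with hk
      · rw [hk, Fin.val_last, k1, k2]
      · rfl
    show Seg E (o k) (φ k) (φ ((k + 1 : Fin (N + 1)) : ℕ)) (A k)
    rw [e]; exact this
  · have := Multiset.nodup_of_le (hle k) h2
    rwa [Multiset.cons_coe, Multiset.coe_nodup] at this
  · exact h3 z (Multiset.mem_of_le (hle k) (by rwa [Multiset.cons_coe, Multiset.mem_coe]))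
  · have hne : (k : ℕ) ≠ k' := fun h => hk (Fin.ext h)
    have hsub : ({(k : ℕ), (k' : ℕ)} : Finset ℕ) ⊆ Finset.range (N + 1) := by
      intro j hj
      simp only [Finset.mem_insert, Finset.mem_singleton] at hj
      rcases hj with rfl | rfl
      · exact Finset.mem_range.2 k.2
      · exact Finset.mem_range.2 k'.2
    have := Finset.sum_le_sum_of_subset (f := fun k => φ k ::ₘ (A k : Multiset V)) hsub
    rw [Finset.sum_pair hne] at this
    have hd := (Multiset.nodup_add.1 (Multiset.nodup_of_le this h2)).2.2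
    rw [Multiset.disjoint_left] at hd
    exact hd (a := z) (by rwa [Multiset.cons_coe, Multiset.mem_coe])
      (by rwa [Multiset.cons_coe, Multiset.mem_coe])

theorem subdiv_of_fns {T : Type} (F : Digraph T) (D : Digraph V) (o : T → Bool) (nx : T → T)
    (hF : ∀ u v, F.Adj u v → (o u = true ∧ v = nx u) ∨ (o v = false ∧ u = nx v))
    (φ : T → V) (A : T → List V) (h1 : ∀ t, Seg D.Adj (o t) (φ t) (φ (nx t)) (A t))
    (h2 : ∀ t, (φ t :: A t).Nodup)
    (h3 : ∀ t t', t ≠ t' → ∀ z, z ∈ φ t :: A t → z ∉ φ t' :: A t') :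
    ContainsSubdivision F D := by
  let e : T → T → T := fun u v => if o u = true ∧ v = nx u then u else v
  have he : ∀ u v, F.Adj u v → (o u = true ∧ v = nx u ∧ e u v = u) ∨
      (o v = false ∧ u = nx v ∧ e u v = v) := by
    intro u v h
    by_cases hc : o u = true ∧ v = nx u
    · exact Or.inl ⟨hc.1, hc.2, if_pos hc⟩
    · exact Or.inr ⟨((hF u v h).resolve_left hc).1, ((hF u v h).resolve_left hc).2, if_neg hc⟩
  refine ⟨φ, fun u v => A (e u v), fun t t' h => ?_, fun u v h => ⟨?_, ?_, ?_⟩,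
    fun u v u' v' h h' hne => ?_⟩
  · by_contra hne
    exact h3 t t' hne (φ t) (by simp) (by simp [h])
  · rcases he u v h with ⟨a1, a2, a3⟩ | ⟨a1, a2, a3⟩
    · show List.IsChain D.Adj (φ u :: A (e u v) ++ [φ v])
      rw [a3, a2]; exact (h1 u).1 a1
    · show List.IsChain D.Adj (φ u :: A (e u v) ++ [φ v])
      rw [a3, a2]; exact (h1 v).2 a1
  · exact (List.nodup_cons.1 (h2 _)).2
  · rintro x hx ⟨t, rfl⟩
    by_cases ht : t = e u v
    · exact (List.nodup_cons.1 (h2 t)).1 (ht ▸ hx)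
    · exact h3 t _ ht (φ t) (by simp) (List.mem_cons_of_mem _ hx)
  · have : e u v ≠ e u' v' := by
      intro hee
      apply hne
      rcases he u v h with ⟨a1, a2, a3⟩ | ⟨a1, a2, a3⟩ <;>
        rcases he u' v' h' with ⟨b1, b2, b3⟩ | ⟨b1, b2, b3⟩ <;> rw [a3, b3] at hee
      · rw [a2, b2, hee]
      · rw [hee, b1] at a1; cases a1
      · rw [hee, b1] at a1; cases a1
      · rw [a2, b2, hee]
    intro z hz hz'
    exact h3 _ _ this z (List.mem_cons_of_mem _ hz) (List.mem_cons_of_mem _ hz')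

end readoff

theorem fam_subdiv {m : ℕ} (n : Fin m → ℕ) (o : (i : Fin m) → Fin (n i + 2) → Bool) :
    ∃ (c : Fin m → ℕ) (b : ℕ), ∀ (V : Type) (D : Digraph V),
      Fam D.Adj b c Set.univ → ContainsSubdivision (cycleUnion n o) D := by
  let o' : (i : Fin m) → Fin (n i + 2) → Bool := fun i x => if n i = 0 then true else o i x
  have hg : ∀ i, SGood (List.ofFn (o' i)) := fun i => good_of_ne_nil (by simp)
  choose c hc using hg
  choose b0 hb0 using fun i => hc i 0
  refine ⟨c, Finset.univ.sup b0, fun V D ⟨Z, _, hZ, hP⟩ => ?_⟩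
  have hW : ∀ i, CW D.Adj 0 (List.ofFn (o' i)) (Z i) := fun i =>
    hb0 i _ (Finset.le_sup (Finset.mem_univ i)) V D.Adj (Z i) (hP i)
  choose φ A h1 h2 h3 h4 using fun i => (hW i).fns
  refine subdiv_of_fns _ D (fun t => o' t.1 t.2) (fun t => ⟨t.1, t.2 + 1⟩) ?_
    (fun t => φ t.1 t.2) (fun t => A t.1 t.2) (fun t => h1 t.1 t.2) (fun t => h2 t.1 t.2) ?_
  · rintro _ _ ⟨i, x, y, rfl, rfl, h⟩
    by_cases hn : n i = 0
    · rw [if_pos hn] at h
      refine Or.inl ⟨if_pos hn, ?_⟩
      have : y = x + 1 := by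
        have hx := x.2
        have hy := y.2
        have hxy : (x : ℕ) ≠ y := fun hh => h (Fin.ext hh)
        apply Fin.ext
        rw [Fin.val_add_one]
        split_ifs with hl
        · have := congrArg Fin.val hl
          rw [Fin.val_last] at this
          omega
        · have : (x : ℕ) ≠ n i + 1 := fun hh => hl (Fin.ext hh)
          omega
      rw [this]
    · rw [if_neg hn] at h
      rcases h with ⟨rfl, h⟩ | ⟨rfl, h⟩
      · exact Or.inl ⟨(if_neg hn).trans h, rfl⟩
      · exact Or.inr ⟨(if_neg hn).trans h, rfl⟩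
  · rintro ⟨i, x⟩ ⟨j, y⟩ hne z hz hz'
    have hij : i = j := hZ i j z (h3 i x z hz) (h3 j y z hz')
    subst hij
    exact h4 i x y (fun hh => hne (by rw [hh])) z hz hz'

end Pool.Agent.P.MP_a3bdf6_co
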