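import Pool.Agent.P.MP_a3bdf6_co.UWeb

/-! Cleaning linkages against objects made of boundedly many tracks. -/

namespace Pool.Agent.P.MP_a3bdf6_co

open Classical

theorem chi_pos {c : ℕ → ℕ} (hc : Monotone c) {k n : ℕ} (h : 1 ≤ chi c k n) : c 0 ≤ n := by
  obtain ⟨i, hi⟩ := Finset.card_pos.1 h
  exact (hc (Nat.zero_le _)).trans (Finset.mem_filter.1 hi).2

theorem chi_lt {c : ℕ → ℕ} (hc : Monotone c) {k n : ℕ} (h : chi c k n < k) : n < c k := by
  by_contra h1
  have : (Finset.range k).filter (fun i => c (i + 1) ≤ n) = Finset.range k :=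
    Finset.filter_true_of_mem fun i hi => (hc (by simp at hi; omega)).trans (not_lt.1 h1)
  rw [chi, this, Finset.card_range] at h
  omega

theorem bad_objs {V : Type*} {E Q : V → V → Prop} {p f : ℕ} {P : Finset (List V)} {I : Finset ℕ}
    {Ob : ℕ → Finset (List V)} {τ : V → ℕ} (h : Timed E Q p P (I.biUnion Ob) τ)
    (hO : Objs E f I Ob) (d : ℕ → ℕ) (w : ℕ) :
    (I.filter fun i => ¬ ∀ l ∈ Ob i, ∀ s < w, Good τ l (d (s + 1))).card ≤ w * p := by
  have h1 := hO.card_touch ((Finset.range w).biUnion fun s =>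
    (I.biUnion Ob).filter fun g => ¬ Good τ g (d (s + 1))) (by
      intro l hl
      obtain ⟨s, -, hs⟩ := Finset.mem_biUnion.1 hl
      rintro rfl
      exact (Finset.mem_filter.1 hs).2 List.isChain_nil)
  have h2 := Finset.card_biUnion_le_card_mul (Finset.range w) (fun s =>
    (I.biUnion Ob).filter fun g => ¬ Good τ g (d (s + 1))) p fun s _ => h.bad_le _
  rw [Finset.card_range] at h2
  refine le_trans (Finset.card_le_card fun i hi => ?_) (h1.trans h2)
  obtain ⟨k1, k2⟩ := Finset.mem_filter.1 hi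
  push Not at k2
  obtain ⟨l, k3, s, k4, k5⟩ := k2
  exact Finset.mem_filter.2 ⟨k1, l, k3, Finset.mem_biUnion.2 ⟨s, by simpa using k4,
    Finset.mem_filter.2 ⟨Finset.mem_biUnion.2 ⟨i, k1, k3⟩, k5⟩⟩⟩

theorem heavy_obj {κ : Type*} {c : κ → ℕ} {b k : ℕ} (hk0 : 0 < k) {V : Type}
    [Fintype V] {E Q : V → V → Prop}
    (hk : ∀ (S : Set V) (θ : V → ℕ) (T : Finset ℕ), OW E S θ T → k ≤ T.card → Zigs E b c S)
    {p f : ℕ} {P : Finset (List V)} {I : Finset ℕ} {Ob : ℕ → Finset (List V)} {τ : V → ℕ}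
    (h : Timed E Q p P (I.biUnion Ob) τ) (hO : Objs E f I Ob) {w k' : ℕ}
    (hw : w = 5 * 2 ^ (5 * f) * k) (hk' : k' = w * ((k + 1) * 2 ^ p))
    (hc : ∀ i ∈ I, ∃ l ∈ Ob i, 4 * w ≤ (hits P l).card)
    (hI : k' * (4 * p) + k' * p + k' + (p + 1) ^ k' * 5 ≤ I.card) :
    ∃ i ∈ I, Zigs E b c (Off (Ob i)) := by
  obtain ⟨k1, hk1⟩ : ∃ k1, k1 = (k + 1) * 2 ^ p := ⟨_, rfl⟩
  rw [← hk1] at hk'
  have hk1p : 0 < k1 := by rw [hk1]; positivity
  have hw0 : 0 < w := by rw [hw]; positivity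
  have hwk : w ≤ k' := by rw [hk']; exact Nat.le_mul_of_pos_right _ hk1p
  choose! g hg1 hg2 using hc
  have hgne : ∀ i ∈ I, g i ≠ [] := fun i hi hh => by
    have := hg2 i hi
    simp [hh, hits] at this
    omega
  have hginj : Set.InjOn g I := fun i hi j hj hij => by
    obtain ⟨z, hz⟩ := List.exists_mem_of_ne_nil _ (hgne i hi)
    exact (hO.disj i hi j hj _ (hg1 i hi) _ (hg1 j hj) z hz (hij ▸ hz)).1
  have hG : I.image g ⊆ I.biUnion Ob := fun l hl => by
    obtain ⟨i, hi, rfl⟩ := Finset.mem_image.1 hl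
    exact Finset.mem_biUnion.2 ⟨i, hi, hg1 i hi⟩
  rcases (h.monoH hG).extract (Finset.Subset.refl _) k' with
    ⟨cc, h1, h2⟩ | ⟨cc, h1, h2, h3, H', h4, h5, h6⟩
  · choose! u hu hG1 hG2 hm using h2
    let d : ℕ → ℕ := fun s => cc (s * k1)
    have hd : Monotone d := fun s t hst => h1 (Nat.mul_le_mul_right _ hst)
    have hGs : (Finset.range k').image u ⊆ I.image g := fun l hl => by
      obtain ⟨i, hi, rfl⟩ := Finset.mem_image.1 hl
      exact hu i (by simpa using hi)
    have b1 := bad_objs h hO d w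
    have b2 := (hO.card_touch ((Finset.range k').image u) (fun l hl => by
      obtain ⟨i, hi, rfl⟩ := Finset.mem_image.1 (hGs hl)
      exact hgne i hi)).trans Finset.card_image_le
    rw [Finset.card_range] at b2
    set I2 := I.filter fun i => (∀ l ∈ Ob i, ∀ s < w, Good τ l (d (s + 1))) ∧
      ¬ ∃ l ∈ Ob i, l ∈ (Finset.range k').image u with hI2
    have hI2I : I2 ⊆ I := Finset.filter_subset _ _
    have b3 : (p + 1) ^ w * 5 ≤ I2.card := by
      have r1 : I ⊆ I2 ∪ ((I.filter fun i => ¬ ∀ l ∈ Ob i, ∀ s < w, Good τ l (d (s + 1))) ∪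
          I.filter fun i => ∃ l ∈ Ob i, l ∈ (Finset.range k').image u) := by
        intro i hi
        simp only [hI2, Finset.mem_union, Finset.mem_filter, hi, true_and]
        tauto
      have r2 := (Finset.card_le_card r1).trans (Finset.card_union_le _ _)
      have r3 := Finset.card_union_le
        (I.filter fun i => ¬ ∀ l ∈ Ob i, ∀ s < w, Good τ l (d (s + 1)))
        (I.filter fun i => ∃ l ∈ Ob i, l ∈ (Finset.range k').image u)
      have r4 : (p + 1) ^ w ≤ (p + 1) ^ k' := Nat.pow_le_pow_right (by omega) hwk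
      have r5 : w * p ≤ k' * p := Nat.mul_le_mul_right _ hwk
      omega
    by_cases hall : ∀ i ∈ I2, ∀ s < w, ∃ r ∈ P, Mt τ (Ob i) r (d s) (d (s + 1))
    · obtain ⟨i, hi, θ, T, r1, r2⟩ := h.dual2 (hO.mono hI2I) hd b3
        (fun i hi => (Finset.mem_filter.1 hi).2.1) hk0 (fun i hi => by
          rw [Finset.filter_true_of_mem fun s hs => hall i hi s (by simpa using hs),
            Finset.card_range, hw])
      exact ⟨i, hI2I hi, hk _ _ _ r1 r2⟩
    push Not at hall
    obtain ⟨i, hi, s, hs, hall⟩ := hall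
    refine ⟨i, hI2I hi, ?_⟩
    let c' : ℕ → ℕ := fun t => cc (s * k1 + t)
    have hc' : Monotone c' := fun a b hab => h1 (by omega)
    have hlt : ∀ t < k1, s * k1 + t < k' := fun t ht => by
      have : (s + 1) * k1 ≤ w * k1 := Nat.mul_le_mul_right _ hs
      rw [add_mul] at this
      omega
    obtain ⟨T, r1, r2, r3⟩ := ((h.monoH hG).monoH hGs).ow_one (k := k + 1) (k' := k1)
      (Finset.Subset.refl _)
      (S := {z | (∃ r ∈ P, z ∈ r) ∨ ∃ l ∈ (Finset.range k').image u, z ∈ l})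
      (fun l hl z hz => Or.inl ⟨l, hl, hz⟩) (fun l hl z hz => Or.inr ⟨l, hl, hz⟩) hc' hk1.ge
      (fun t ht => ⟨u (s * k1 + t), Finset.mem_image_of_mem _ (by simpa using hlt t ht),
        hG1 _ (hlt t ht), hG2 _ (hlt t ht), hm _ (hlt t ht)⟩) (by omega)
    have r4 : k ≤ (T.erase 0).card := by
      have := Finset.pred_card_le_card_erase (s := T) (a := 0)
      omega
    refine hk _ _ _ (((r1.mono (Finset.erase_subset 0 T)).window (lo := 1) (hi := k1 - 1)
      (Finset.card_pos.1 (by omega)) fun t ht => ?_).monoS ?_) r4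
    · have := Finset.ne_of_mem_erase ht
      have := r3 t (Finset.mem_of_mem_erase ht)
      omega
    · rintro z ⟨⟨r, hr, hz⟩ | ⟨l', hl', hz⟩, r5, r6⟩ l hl hzl
      · refine hall r hr ⟨l, hl, z, hz, hzl, chi_pos hc' r5, ?_⟩
        have := chi_lt hc' (k := k1) (n := τ z) (by omega)
        simpa only [d, c', add_mul, one_mul] using this
      · obtain ⟨j, hj, rfl⟩ := Finset.mem_image.1 (hGs hl')
        have := (hO.disj i (hI2I hi) j hj l hl _ (hg1 j hj) z hzl hz).2
        exact (Finset.mem_filter.1 hi).2.2 ⟨l, hl, this ▸ hl'⟩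
  · have b1 := bad_objs h hO cc k'
    rw [Finset.card_image_of_injOn hginj] at h5
    set I2 := I.filter fun i => (∀ l ∈ Ob i, ∀ s < k', Good τ l (cc (s + 1))) ∧ g i ∈ H' with hI2
    have hI2I : I2 ⊆ I := Finset.filter_subset _ _
    have b2 : H'.card ≤ (I.filter fun i => g i ∈ H').card := by
      refine le_trans (Finset.card_le_card fun l hl => ?_) (Finset.card_image_le (f := g))
      obtain ⟨i, hi, rfl⟩ := Finset.mem_image.1 (h4 hl)
      exact Finset.mem_image_of_mem _ (Finset.mem_filter.2 ⟨hi, hl⟩)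
    have b3 : (p + 1) ^ k' * 5 ≤ I2.card := by
      have r1 : (I.filter fun i => g i ∈ H') ⊆
          I2 ∪ (I.filter fun i => ¬ ∀ l ∈ Ob i, ∀ s < k', Good τ l (cc (s + 1))) := by
        intro i hi
        obtain ⟨r2, r3⟩ := Finset.mem_filter.1 hi
        simp only [hI2, Finset.mem_union, Finset.mem_filter, r2, r3, true_and, and_true]
        tauto
      have r2 := (Finset.card_le_card r1).trans (Finset.card_union_le _ _)
      omega
    obtain ⟨i, hi, θ, T, r1, r2⟩ := h.dual2 (hO.mono hI2I) h1 b3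
      (fun i hi => (Finset.mem_filter.1 hi).2.1) hk0 (fun i hi => by
        obtain ⟨r1, -, r2⟩ := Finset.mem_filter.1 hi
        have r3 : hits P (g i) ⊆ ((Finset.range k').filter fun s =>
            ∃ r ∈ P, Mt τ (Ob i) r (cc s) (cc (s + 1))).biUnion fun s =>
              meet τ P (g i) (cc s) (cc (s + 1)) := by
          intro l hl
          obtain ⟨k3, x, k4, k5⟩ := Finset.mem_filter.1 hl
          obtain ⟨s, hs, k6⟩ := exists_chunk h2 (h3 x)
          exact Finset.mem_biUnion.2 ⟨s, Finset.mem_filter.2 ⟨by simpa using hs, l, k3,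
            g i, hg1 i r1, x, k4, k5, k6⟩, Finset.mem_filter.2 ⟨k3, x, k4, k5, k6⟩⟩
        have r4 := (Finset.card_le_card r3).trans (Finset.card_biUnion_le_card_mul _ _ 4
          fun s hs => (h6 _ r2 s (by simpa using (Finset.mem_filter.1 hs).1)).2.le)
        have := hg2 i r1
        omega)
    exact ⟨i, hI2I hi, hk _ _ _ r1 r2⟩

theorem heavy_path2 {κ : Type*} {c : κ → ℕ} {b k : ℕ} (hk0 : 0 < k) {V : Type}
    [Fintype V] {E Q : V → V → Prop}
    (hk : ∀ (S : Set V) (θ : V → ℕ) (T : Finset ℕ), OW E S θ T → k ≤ T.card → Zigs E b c S)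
    {p n : ℕ} {P H C : Finset (List V)} {τ : V → ℕ} (h : Timed E Q p P H τ)
    (hc : ∀ g ∈ H, g.Nodup ∧ 4 * k + n ≤ (hits P g).card)
    (hH : (k * 2 ^ p) * (4 * p) + (p + 1) ^ (k * 2 ^ p) * 4 ≤ H.card)
    (hC : (C.biUnion (hits P)).card ≤ n) (hCH : ∀ l ∈ C, ∀ g ∈ H, ∀ z ∈ l, z ∉ g) :
    Zigs E b c (Off C) := by
  obtain ⟨P', hmem⟩ : ∃ P' : Finset (List V), ∀ l, l ∈ P' ↔ l ∈ P ∧ ∀ l' ∈ C, ∀ x ∈ l, x ∉ l' :=
    ⟨P.filter fun l => ∀ l' ∈ C, ∀ x ∈ l, x ∉ l', by simp⟩
  have hP' : P' ⊆ P := fun l hl => ((hmem l).1 hl).1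
  have hS : ∀ l ∈ P', ∀ z ∈ l, z ∈ Off C := fun l hl z hz l' hl' =>
    ((hmem l).1 hl).2 l' hl' z hz
  have hS' : ∀ l ∈ H, ∀ z ∈ l, z ∈ Off C := fun l hl z hz l' hl' hz' =>
    hCH l' hl' l hl z hz' hz
  rcases h.extract hP' (k * 2 ^ p) with ⟨cc, h1, h2⟩ | ⟨cc, h1, h2, h3, H', h4, h5, h6⟩
  · obtain ⟨T, k1, k2, -⟩ := h.ow_one hP' hS hS' h1 le_rfl h2 hk0
    exact hk _ _ _ k1 k2
  · obtain ⟨T, k1, k2⟩ := (h.monoH h4).ow_two (k := k) hP' hS (fun l hl => hS' l (h4 hl)) h1 h2 h3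
      (by omega) (fun l hl => (hc l (h4 hl)).1) (by
        intro g hg
        have r1 : hits P g ⊆ (P'.filter fun l => ∃ x ∈ l, x ∈ g) ∪ C.biUnion (hits P) := by
          intro l hl
          obtain ⟨r2, r3⟩ := Finset.mem_filter.1 hl
          by_cases r4 : l ∈ P'
          · exact Finset.mem_union_left _ (Finset.mem_filter.2 ⟨r4, r3⟩)
          · simp only [hmem, r2, true_and] at r4
            push Not at r4
            obtain ⟨l', r5, x, r6, r7⟩ := r4
            exact Finset.mem_union_right _ (Finset.mem_biUnion.2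
              ⟨l', r5, Finset.mem_filter.2 ⟨r2, x, r6, r7⟩⟩)
        have r2 := (Finset.card_le_card r1).trans (Finset.card_union_le _ _)
        have r4 := (hc g (h4 hg)).2
        omega) h6
    exact hk _ _ _ k1 k2

/-- the kept objects and paths -/
structure Cl2 {V ι : Type*} (E : V → V → Prop) (A X : ι → Finset V) (J : Finset ι) (N : ℕ)
    (Ob : ℕ → Finset (List V)) (I : Finset ℕ) (T : ι → Finset (List V)) : Prop where
  cardI : N ≤ I.card
  card : ∀ j ∈ J, N ≤ (T j).card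
  path : ∀ j ∈ J, ∀ l ∈ T j, l.Nodup ∧ ∃ a ∈ A j, ∃ x ∈ X j, Wk E a x l
  disj : ∀ j ∈ J, ∀ j' ∈ J, ∀ l ∈ T j, ∀ l' ∈ T j', ∀ z, z ∈ l → z ∈ l' → j = j' ∧ l = l'
  off : ∀ j ∈ J, ∀ l ∈ T j, ∀ i ∈ I, ∀ z ∈ l, z ∈ Off (Ob i)

theorem clean2 {κ : Type*} [Fintype κ] (c : κ → ℕ) (b n f : ℕ) : ∀ N, 1 ≤ N →
    ∃ M p : ℕ, ∀ (V : Type) [Fintype V] (E : V → V → Prop) (ι : Type) (J : Finset ι)
      (A X : ι → Finset V), J.card = n → (∀ j ∈ J, ∃ T, Lk E (A j) (X j) T ∧ T.card = p) →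
      ∀ (I : Finset ℕ) (Ob : ℕ → Finset (List V)), I.card = M → Objs E f I Ob →
        (∃ i ∈ I, Zigs E b c (Off (Ob i))) ∨ ∃ I' ⊆ I, ∃ T, Cl2 E A X J N Ob I' T := by
  obtain ⟨k, hk0, hk'⟩ := ow_zigs c b
  have hk : ∀ (V : Type) (E : V → V → Prop) (S : Set V) (θ : V → ℕ) (T : Finset ℕ),
      OW E S θ T → k ≤ T.card → Zigs E b c S := fun V E S θ T h1 h2 =>
    (hk' V E S θ T (T.sup id + 1) h1 h2 fun t ht =>
      Nat.lt_succ_of_le (Finset.le_sup (f := id) ht)).mono fun _ hz => hz.1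
  induction n with
  | zero =>
    intro N _
    refine ⟨N, 0, fun V _ E ι J A X hJ _ I Ob h1 _ => Or.inr ⟨I, le_rfl, fun _ => ∅, ?_⟩⟩
    rw [Finset.card_eq_zero] at hJ
    subst hJ
    exact ⟨h1.ge, by simp, by simp, by simp, by simp⟩
  | succ n ih =>
    intro N hN
    obtain ⟨w, hw⟩ : ∃ w, w = 5 * 2 ^ (5 * f) * k := ⟨_, rfl⟩
    obtain ⟨hp, hhp⟩ : ∃ hp, hp = 4 * k + f * (4 * w) := ⟨_, rfl⟩
    obtain ⟨p1, hp1⟩ : ∃ p1, p1 = N + (n + 1) * (N * hp) + 1 := ⟨_, rfl⟩
    obtain ⟨k', hk'⟩ : ∃ k', k' = w * ((k + 1) * 2 ^ p1) := ⟨_, rfl⟩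
    obtain ⟨q, hq1, hq2⟩ : ∃ q, k' * (4 * p1) + k' * p1 + k' + (p1 + 1) ^ k' * 5 ≤ q ∧
        (k * 2 ^ p1) * (4 * p1) + (p1 + 1) ^ (k * 2 ^ p1) * 4 ≤ q :=
      ⟨max _ _, le_max_left _ _, le_max_right _ _⟩
    obtain ⟨M, p', ih⟩ := ih (N + q) (by omega)
    refine ⟨M, max p' p1, fun V _ E ι J A X hJ hL I0 Ob h1 h2 => ?_⟩
    obtain ⟨j, J, hj, rfl, hJ'⟩ := Finset.card_eq_succ.1 hJ
    clear hJ
    rename' hJ' => hJ
    rcases ih V E ι J A X hJ (fun i hi => by
      obtain ⟨T, k1, k2⟩ := hL i (Finset.mem_insert_of_mem hi)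
      obtain ⟨T', k3, k4⟩ := Finset.exists_subset_card_eq (s := T) (n := p') (by omega)
      exact ⟨T', k1.mono k3, k4⟩) I0 Ob h1 h2 with hF | ⟨I, hII, T, hT⟩
    · exact Or.inl hF
    have hO := h2.mono hII
    obtain ⟨L, k1, k2⟩ := hL j (Finset.mem_insert_self _ _)
    obtain ⟨A', hA', hA'c, hL'⟩ := k1.shrink (p := p1) (by omega)
    let G : Finset (List V) := I.biUnion Ob ∪ J.biUnion T
    have hG1 : ∀ i ∈ I, ∀ l ∈ Ob i, l ∈ G := fun i hi l hl =>
      Finset.mem_union_left _ (Finset.mem_biUnion.2 ⟨i, hi, hl⟩)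
    have hG2 : ∀ i ∈ J, ∀ l ∈ T i, l ∈ G := fun i hi l hl =>
      Finset.mem_union_right _ (Finset.mem_biUnion.2 ⟨i, hi, hl⟩)
    have hGc : ∀ l ∈ G, (∃ i ∈ I, l ∈ Ob i) ∨ ∃ i ∈ J, l ∈ T i := fun l hl => by
      simpa only [G, Finset.mem_union, Finset.mem_biUnion] using hl
    have hch : ∀ l ∈ G, l.IsChain E := by
      intro l hl
      rcases hGc l hl with ⟨i, hi, hl⟩ | ⟨i, hi, hl⟩
      · exact (hO.path i hi l hl).1
      · obtain ⟨-, _, -, _, -, r⟩ := hT.path i hi l hl; exact r.chain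
    have hpd : PD G := by
      intro l hl l' hl' z hz hz'
      rcases hGc l hl with ⟨i, hi, hl⟩ | ⟨i, hi, hl⟩ <;>
        rcases hGc l' hl' with ⟨i', hi', hl'⟩ | ⟨i', hi', hl'⟩
      · exact (hO.disj i hi i' hi' l hl l' hl' z hz hz').2
      · exact absurd hz (hT.off i' hi' l' hl' i hi z hz' l hl)
      · exact absurd hz' (hT.off i hi l hl i' hi' z hz l' hl')
      · exact (hT.disj i hi i' hi' l hl l' hl' z hz hz').2
    let Q : V → V → Prop := fun x y => ∃ l ∈ G, [x, y] <:+: l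
    have hQ : ∀ x y, Q x y → E x y := by
      rintro x y ⟨l, hl, r⟩
      obtain ⟨s, t, rfl⟩ := r
      exact List.isChain_pair.1 (hch _ hl).left_of_append.right_of_append
    obtain ⟨P, τ, hP, hPc, hτ, hcut⟩ := time_lemma E Q hQ A' (X j) p1 (by omega) hA'c hL'
    have timed : Timed E Q p1 P G τ :=
      { hQ := hQ
        card := hPc
        pd := hP.2
        path := fun l hl => by
          obtain ⟨r1, _, -, _, -, r2⟩ := hP.1 l hl
          exact ⟨r2.chain, r1⟩
        time := hτ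
        cut := hcut
        pdH := hpd
        chainH := fun l hl => (List.isChain_isInfix l).imp fun x y r => ⟨l, hl, r⟩
        lab := by
          rintro l hl x y ⟨l', hl', r⟩
          have hx : x ∈ l' := r.subset (by simp)
          have hy : y ∈ l' := r.subset (by simp)
          exact ⟨fun r1 => (hpd l hl l' hl' x r1 hx) ▸ hy, fun r1 => (hpd l hl l' hl' y r1 hy) ▸ hx⟩ }
    by_cases c1 : q ≤ (I.filter fun i => ∃ l ∈ Ob i, 4 * w ≤ (hits P l).card).card
    · left
      obtain ⟨i, hi, r⟩ := heavy_obj hk0 (hk V E) (timed.monoH (H' := (I.filter fun i =>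
          ∃ l ∈ Ob i, 4 * w ≤ (hits P l).card).biUnion Ob) fun l hl => by
            obtain ⟨i, hi, r⟩ := Finset.mem_biUnion.1 hl
            exact hG1 i (Finset.mem_filter.1 hi).1 l r)
        (hO.mono (Finset.filter_subset _ _)) hw hk' (fun i hi => (Finset.mem_filter.1 hi).2)
        (by omega)
      exact ⟨i, hII (Finset.mem_filter.1 hi).1, r⟩
    have lightC : N ≤ (I.filter fun i => ¬ ∃ l ∈ Ob i, 4 * w ≤ (hits P l).card).card := by
      have := Finset.card_filter_add_card_filter_not (s := I)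
        fun i => ∃ l ∈ Ob i, 4 * w ≤ (hits P l).card
      have := hT.cardI
      omega
    obtain ⟨I', hI'1, hI'2⟩ := Finset.exists_subset_card_eq lightC
    have hI'I : I' ⊆ I := hI'1.trans (Finset.filter_subset _ _)
    have hI'h : ∀ i ∈ I', ((Ob i).biUnion (hits P)).card ≤ f * (4 * w) := fun i hi => by
      have r := (Finset.mem_filter.1 (hI'1 hi)).2
      push Not at r
      exact (Finset.card_biUnion_le_card_mul _ _ _ fun l hl => (r l hl).le).trans
        (Nat.mul_le_mul_right _ (hO.card i (hI'I hi)))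
    by_cases c2 : ∃ i ∈ J, q ≤ ((T i).filter fun g => hp ≤ (hits P g).card).card
    · left
      obtain ⟨i, hi, c2⟩ := c2
      obtain ⟨i0, hi0⟩ : I'.Nonempty := Finset.card_pos.1 (by omega)
      refine ⟨i0, hII (hI'I hi0), heavy_path2 hk0 (hk V E) (timed.monoH (H' := (T i).filter
          fun g => hp ≤ (hits P g).card) fun l hl => hG2 i hi l (Finset.mem_filter.1 hl).1)
        (fun g hg => ⟨(hT.path i hi g (Finset.mem_filter.1 hg).1).1,
          hhp ▸ (Finset.mem_filter.1 hg).2⟩) (by omega) (hI'h i0 hi0) ?_⟩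
      intro l hl g hg z hz hz'
      exact hT.off i hi g (Finset.mem_filter.1 hg).1 i0 (hI'I hi0) z hz' l hl hz
    right
    push Not at c2
    have light : ∀ i ∈ J, ∃ T' ⊆ T i, T'.card = N ∧ ∀ g ∈ T', (hits P g).card ≤ hp := by
      intro i hi
      have r0 : N ≤ ((T i).filter fun g => ¬ hp ≤ (hits P g).card).card := by
        have := Finset.card_filter_add_card_filter_not (s := T i)
          fun g => hp ≤ (hits P g).card
        have := hT.card _ hi
        have := c2 i hi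
        omega
      obtain ⟨C, r1, r2⟩ := Finset.exists_subset_card_eq r0
      refine ⟨C, r1.trans (Finset.filter_subset _ _), r2, fun g hg => ?_⟩
      have := (Finset.mem_filter.1 (r1 hg)).2
      omega
    choose! T' hT1 hT2 hT3 using light
    let bad := (J.biUnion fun o => (T' o).biUnion (hits P)) ∪
      I'.biUnion fun i => (Ob i).biUnion (hits P)
    have hbad : bad.card ≤ (n + 1) * (N * hp) := by
      have r1 : (J.biUnion fun o => (T' o).biUnion (hits P)).card ≤ n * (N * hp) :=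
        (Finset.card_biUnion_le_card_mul _ _ (N * hp) fun o ho =>
          (Finset.card_biUnion_le_card_mul _ _ hp (hT3 o ho)).trans (by rw [hT2 o ho])).trans
          (by rw [hJ])
      have r2 : (I'.biUnion fun i => (Ob i).biUnion (hits P)).card ≤ N * hp :=
        (Finset.card_biUnion_le_card_mul _ _ hp fun i hi =>
          (hI'h i hi).trans (by omega)).trans (by rw [hI'2])
      have r3 := Finset.card_union_le (J.biUnion fun o => (T' o).biUnion (hits P))
        (I'.biUnion fun i => (Ob i).biUnion (hits P))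
      rw [add_mul]
      simp only [bad]
      omega
    have hgood : N ≤ (P \ bad).card := by
      have := Finset.le_card_sdiff bad P
      omega
    have hup : ∀ o ∈ J, Function.update T' j (P \ bad) o = T' o := fun o ho =>
      Function.update_of_ne (by rintro rfl; exact hj ho) _ _
    have hcross : ∀ o ∈ J, ∀ l ∈ T' o, ∀ l' ∈ P \ bad, ∀ z, z ∈ l → z ∈ l' → False := by
      intro o ho l hl l' hl' z hz hz'
      obtain ⟨r1, r2⟩ := Finset.mem_sdiff.1 hl'
      exact r2 (Finset.mem_union_left _ (Finset.mem_biUnion.2 ⟨o, ho, Finset.mem_biUnion.2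
        ⟨l, hl, Finset.mem_filter.2 ⟨r1, z, hz', hz⟩⟩⟩))
    refine ⟨I', hI'I.trans hII, Function.update T' j (P \ bad), hI'2.ge, ?_, ?_, ?_, ?_⟩
    · intro o ho
      rcases Finset.mem_insert.1 ho with rfl | ho
      · simpa using hgood
      · rw [hup o ho, hT2 o ho]
    · intro i hi l hl
      rcases Finset.mem_insert.1 hi with rfl | hi
      · rw [Function.update_self] at hl
        obtain ⟨r1, a, ha, r2⟩ := hP.1 l (Finset.mem_sdiff.1 hl).1
        exact ⟨r1, a, hA' ha, r2⟩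
      · rw [hup _ hi] at hl
        exact hT.path i hi l (hT1 _ hi hl)
    · intro o ho o' ho' l hl l' hl' z hz hz'
      rw [Finset.mem_insert] at ho ho'
      rcases ho with rfl | ho <;> rcases ho' with rfl | ho'
      · rw [Function.update_self] at hl hl'
        exact ⟨rfl, hP.2 l (Finset.mem_sdiff.1 hl).1 l' (Finset.mem_sdiff.1 hl').1 z hz hz'⟩
      · rw [Function.update_self] at hl
        rw [hup _ ho'] at hl'
        exact (hcross _ ho' l' hl' l hl z hz' hz).elim
      · rw [Function.update_self] at hl'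
        rw [hup _ ho] at hl
        exact (hcross _ ho l hl l' hl' z hz hz').elim
      · rw [hup _ ho] at hl
        rw [hup _ ho'] at hl'
        exact hT.disj o ho o' ho' l (hT1 _ ho hl) l' (hT1 _ ho' hl') z hz hz'
    · intro o ho l hl i hi z hz
      rcases Finset.mem_insert.1 ho with rfl | ho
      · rw [Function.update_self] at hl
        obtain ⟨r1, r2⟩ := Finset.mem_sdiff.1 hl
        intro l' hl' hz'
        exact r2 (Finset.mem_union_right _ (Finset.mem_biUnion.2 ⟨i, hi, Finset.mem_biUnion.2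
          ⟨l', hl', Finset.mem_filter.2 ⟨r1, z, hz, hz'⟩⟩⟩))
      · rw [hup _ ho] at hl
        exact hT.off o ho l (hT1 _ ho hl) i (hI'I hi) z hz

end Pool.Agent.P.MP_a3bdf6_co
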