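import Pool.Agent.P.MP_a3bdf6_co.Clean

/-! Ordered webs that avoid one of many objects made of boundedly many tracks. -/

namespace Pool.Agent.P.MP_a3bdf6_co

open Classical

variable {V : Type*}

/-- disjoint objects, each a set of at most `f` disjoint directed paths -/
structure Objs (E : V → V → Prop) (f : ℕ) (I : Finset ℕ) (Ob : ℕ → Finset (List V)) : Prop where
  card : ∀ i ∈ I, (Ob i).card ≤ f
  path : ∀ i ∈ I, ∀ l ∈ Ob i, l.IsChain E ∧ l.Nodup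
  disj : ∀ i ∈ I, ∀ i' ∈ I, ∀ l ∈ Ob i, ∀ l' ∈ Ob i', ∀ z, z ∈ l → z ∈ l' → i = i' ∧ l = l'

theorem Objs.mono {E : V → V → Prop} {f : ℕ} {I I' : Finset ℕ} {Ob : ℕ → Finset (List V)}
    (h : Objs E f I Ob) (hI : I' ⊆ I) : Objs E f I' Ob :=
  ⟨fun i hi => h.card i (hI hi), fun i hi => h.path i (hI hi),
    fun i hi i' hi' => h.disj i (hI hi) i' (hI hi')⟩

theorem Objs.card_touch {E : V → V → Prop} {f : ℕ} {I : Finset ℕ} {Ob : ℕ → Finset (List V)}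
    (h : Objs E f I Ob) (B : Finset (List V)) (hB : ∀ l ∈ B, l ≠ []) :
    (I.filter fun i => ∃ l ∈ Ob i, l ∈ B).card ≤ B.card := by
  have : ∀ i ∈ I.filter fun i => ∃ l ∈ Ob i, l ∈ B, ∃ l ∈ Ob i, l ∈ B :=
    fun i hi => (Finset.mem_filter.1 hi).2
  choose! g h1 h2 using this
  refine Finset.card_le_card_of_injOn g h2 fun i hi j hj hij => ?_
  obtain ⟨z, hz⟩ := List.exists_mem_of_ne_nil _ (hB _ (h2 i hi))
  exact (h.disj i (Finset.mem_filter.1 hi).1 j (Finset.mem_filter.1 hj).1 _ (h1 i hi) _ (h1 j hj)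
    z hz (hij ▸ hz)).1

/-- the vertices outside an object -/
def Off (O : Finset (List V)) : Set V := {z | ∀ l ∈ O, z ∉ l}

theorem OW.monoS {E : V → V → Prop} {S S' : Set V} {θ : V → ℕ} {T : Finset ℕ} (h : OW E S θ T)
    (hS : S ⊆ S') : OW E S' θ T := by
  obtain ⟨U, R, h1, h2, h3, h4⟩ := h.ex
  refine ⟨U, R, h1, h2, fun r hr => ?_, fun t ht => ?_⟩
  · obtain ⟨k1, k2, k3, k4⟩ := h3 r hr
    exact ⟨k1, k2, k3, fun z hz => hS (k4 z hz)⟩
  · obtain ⟨k1, k2, k3⟩ := h4 t ht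
    exact ⟨k1, fun z hz => ⟨(k2 z hz).1, hS (k2 z hz).2⟩, k3⟩

theorem OW.window {E : V → V → Prop} {S : Set V} {θ : V → ℕ} {T : Finset ℕ} (h : OW E S θ T)
    (hT : T.Nonempty) {lo hi : ℕ} (hlo : ∀ t ∈ T, lo ≤ t ∧ t ≤ hi) :
    OW E {z | z ∈ S ∧ lo ≤ θ z ∧ θ z ≤ hi} θ T := by
  obtain ⟨U, R, h1, h2, h3, h4⟩ := h.ex
  have key : ∀ r ∈ U, ∃ m : List V, m.IsChain E ∧ m.Sublist r ∧
      ∀ z, z ∈ m ↔ z ∈ r ∧ lo ≤ θ z ∧ θ z ≤ hi := fun r hr =>
    chain_filter (h3 r hr).1 (h3 r hr).2.2.1 lo hi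
  choose! m m1 m2 m3 using key
  have hit : ∀ t ∈ T, ∀ r ∈ U, ∃ z ∈ m r, z ∈ R t := by
    intro t ht r hr
    obtain ⟨z, k1, k2⟩ := (h4 t ht).2.2 r hr
    exact ⟨z, (m3 r hr z).2 ⟨k1, by rw [((h4 t ht).2.1 z k2).1]; exact hlo t ht⟩, k2⟩
  obtain ⟨t0, ht0⟩ := hT
  refine ⟨U.image m, R, ?_, ?_, ?_, fun t ht => ⟨(h4 t ht).1, fun z hz => ?_, ?_⟩⟩
  · rw [Finset.card_image_of_injOn, h1]
    intro r hr r' hr' hh
    obtain ⟨z, k1, -⟩ := hit t0 ht0 r hr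
    exact h2 r hr r' hr' z ((m2 r hr).subset k1) ((m2 r' hr').subset (hh ▸ k1))
  · intro l hl l' hl' z hz hz'
    obtain ⟨r, hr, rfl⟩ := Finset.mem_image.1 hl
    obtain ⟨r', hr', rfl⟩ := Finset.mem_image.1 hl'
    rw [h2 r hr r' hr' z ((m2 r hr).subset hz) ((m2 r' hr').subset hz')]
  · intro l hl
    obtain ⟨r, hr, rfl⟩ := Finset.mem_image.1 hl
    refine ⟨m1 r hr, (h3 r hr).2.1.sublist (m2 r hr), (h3 r hr).2.2.1.sublist (m2 r hr),
      fun z hz => ?_⟩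
    obtain ⟨k1, k2⟩ := (m3 r hr z).1 hz
    exact ⟨(h3 r hr).2.2.2 z k1, k2⟩
  · obtain ⟨k1, k2⟩ := (h4 t ht).2.1 z hz
    exact ⟨k1, k2, by rw [k1]; exact hlo t ht⟩
  · intro l hl
    obtain ⟨r, hr, rfl⟩ := Finset.mem_image.1 hl
    exact hit t ht r hr

/-- an initial segment that misses exactly one of several disjoint sets -/
theorem exists_init {U : Finset ℕ} (hU : U.Nonempty) (A : ℕ → V → Prop) (m : List V)
    (hd : ∀ i ∈ U, ∀ j ∈ U, ∀ z, A i z → A j z → i = j) (hm : ∀ i ∈ U, ∃ z ∈ m, A i z) :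
    ∃ i0 ∈ U, ∃ m', m' <+: m ∧ (∀ z ∈ m', ¬ A i0 z) ∧ ∀ i ∈ U, i ≠ i0 → ∃ z ∈ m', A i z := by
  let a : ℕ → ℕ := fun i => m.findIdx fun z => decide (A i z)
  have ha : ∀ i ∈ U, a i < m.length := fun i hi => by
    obtain ⟨z, h1, h2⟩ := hm i hi
    exact List.findIdx_lt_length_of_exists ⟨z, h1, by simpa using h2⟩
  have ha2 : ∀ i (hi : i ∈ U), A i (m[a i]'(ha i hi)) := fun i hi => by
    simpa using List.findIdx_getElem (p := fun z => decide (A i z)) (xs := m) (w := ha i hi)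
  obtain ⟨i0, h0, hmax⟩ := U.exists_max_image a hU
  refine ⟨i0, h0, m.take (a i0), List.take_prefix _ _, fun z hz => ?_, fun i hi hne => ?_⟩
  · obtain ⟨n, hn, rfl⟩ := List.mem_iff_getElem.1 hz
    rw [List.getElem_take]
    have hn' : n < a i0 := by simp at hn; omega
    simpa using List.not_of_lt_findIdx (p := fun z => decide (A i0 z)) (xs := m) hn'
  · have hlt : a i < a i0 := by
      refine lt_of_le_of_ne (hmax i hi) fun hh => hne (hd i hi i0 h0 _ (ha2 i hi) ?_)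
      have := ha2 i0 h0
      simpa only [hh] using this
    refine ⟨m[a i]'(ha i hi), ?_, ha2 i hi⟩
    have := ha i0 h0
    exact List.mem_iff_getElem.2 ⟨a i, by simp; omega, by rw [List.getElem_take]⟩

/-- the object `O` meets the row `r` between the times `c` and `c'` -/
def Mt (τ : V → ℕ) (O : Finset (List V)) (r : List V) (c c' : ℕ) : Prop :=
  ∃ l ∈ O, ∃ x ∈ r, x ∈ l ∧ c ≤ τ x ∧ τ x < c'

namespace Timed

variable {E Q : V → V → Prop} {p : ℕ} {P H : Finset (List V)} {τ : V → ℕ}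

theorem dual (h : Timed E Q p P H τ) {f : ℕ} {U : Finset ℕ} {Ob : ℕ → Finset (List V)}
    (hO : Objs E f U Ob) (hU : U.card = 5) {d : ℕ → ℕ} (hd : Monotone d) {w k : ℕ}
    (hg : ∀ i ∈ U, ∀ l ∈ Ob i, ∀ s < w, Good τ l (d (s + 1))) {T0 : Finset ℕ}
    (hT0 : ∀ s ∈ T0, s < w ∧ ∃ r ∈ P, ∀ i ∈ U, Mt τ (Ob i) r (d s) (d (s + 1)))
    (hk0 : 0 < k) (hk : 5 * 2 ^ (5 * f) * k ≤ T0.card) :
    ∃ i ∈ U, ∃ (θ : V → ℕ) (T : Finset ℕ), OW E (Off (Ob i)) θ T ∧ k ≤ T.card := by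
  have hUn : U.Nonempty := Finset.card_pos.1 (by omega)
  have key : ∀ s ∈ T0, ∃ i0 ∈ U, ∃ R : Finset (List V), R.card = 4 ∧
      (∀ l ∈ R, ∃ i ∈ U, i ≠ i0 ∧ l ∈ Ob i) ∧ ∃ m : List V, m.IsChain E ∧
        (∀ z ∈ m, chi d w (τ z) = s ∧ z ∈ Off (Ob i0)) ∧ ∀ l ∈ R, ∃ z ∈ l, z ∈ m := by
    intro s hs
    obtain ⟨hsw, r, hr, h1⟩ := hT0 s hs
    obtain ⟨m, k1, -, k3⟩ := chain_filter (h.path r hr).1 (f := fun x => chi d w (τ x))
      ((h.mono_τ hr).imp fun h => chi_mono _ _ h) s s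
    obtain ⟨i0, h0, m', k4, k5, k6⟩ := exists_init hUn (fun i z => ∃ l ∈ Ob i, z ∈ l) m
      (fun i hi j hj z ⟨l, r1, r2⟩ ⟨l', r3, r4⟩ => (hO.disj i hi j hj l r1 l' r3 z r2 r4).1)
      (fun i hi => by
        obtain ⟨l, r1, x, r2, r3, r4, r5⟩ := h1 i hi
        have := chi_eq hd hsw r4 r5
        exact ⟨x, (k3 x).2 ⟨r2, this.ge, this.le⟩, l, r1, r3⟩)
    have k7 : ∀ i ∈ U.erase i0, ∃ l ∈ Ob i, ∃ z ∈ l, z ∈ m' := fun i hi => by
      obtain ⟨z, r1, l, r2, r3⟩ := k6 i (Finset.mem_of_mem_erase hi) (Finset.ne_of_mem_erase hi)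
      exact ⟨l, r2, z, r3, r1⟩
    choose! g g1 g2 using k7
    refine ⟨i0, h0, (U.erase i0).image g, ?_, ?_, m',
      (show (m' ++ k4.choose).IsChain _ by rw [k4.choose_spec]; exact k1).left_of_append,
      fun z hz => ⟨?_, ?_⟩, ?_⟩
    · rw [Finset.card_image_of_injOn, Finset.card_erase_of_mem h0, hU]
      intro i hi j hj hij
      obtain ⟨z, r1, -⟩ := g2 i hi
      exact (hO.disj i (Finset.mem_of_mem_erase hi) j (Finset.mem_of_mem_erase hj) _ (g1 i hi) _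
        (g1 j hj) z r1 (hij ▸ r1)).1
    · intro l hl
      obtain ⟨i, hi, rfl⟩ := Finset.mem_image.1 hl
      exact ⟨i, Finset.mem_of_mem_erase hi, Finset.ne_of_mem_erase hi, g1 i hi⟩
    · obtain ⟨-, r1, r2⟩ := (k3 z).1 (k4.subset hz)
      exact le_antisymm r2 r1
    · exact fun l hl hzl => k5 z hz ⟨l, hl, hzl⟩
    · intro l hl
      obtain ⟨i, hi, rfl⟩ := Finset.mem_image.1 hl
      exact g2 i hi
  choose! i0 hi0 R hR1 hR2 m hm1 hm2 hm3 using key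
  have hbU : (U.biUnion Ob).card ≤ 5 * f := hU ▸ Finset.card_biUnion_le_card_mul _ _ _ hO.card
  obtain ⟨⟨j, R0⟩, -, hπ⟩ := Finset.exists_le_card_fiber_of_mul_le_card_of_maps_to (s := T0)
    (t := U ×ˢ (U.biUnion Ob).powerset) (f := fun s => (i0 s, R s)) (n := k)
    (fun s hs => Finset.mem_product.2 ⟨hi0 s hs, Finset.mem_powerset.2 fun l hl => by
      obtain ⟨i, r1, -, r2⟩ := hR2 s hs l hl
      exact Finset.mem_biUnion.2 ⟨i, r1, r2⟩⟩)
    (hUn.product ⟨∅, by simp⟩) (by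
      rw [Finset.card_product, Finset.card_powerset, hU]
      exact le_trans (Nat.mul_le_mul_right _ (Nat.mul_le_mul_left _
        (Nat.pow_le_pow_right (by omega) hbU))) hk)
  set T1 := T0.filter fun s => (i0 s, R s) = (j, R0) with hT1
  have hT1a : ∀ s ∈ T1, s ∈ T0 ∧ i0 s = j ∧ R s = R0 := fun s hs => by
    obtain ⟨r1, r2⟩ := Finset.mem_filter.1 hs
    exact ⟨r1, (Prod.ext_iff.1 r2).1, (Prod.ext_iff.1 r2).2⟩
  obtain ⟨s0, hs0⟩ : T1.Nonempty := Finset.card_pos.1 (by omega)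
  obtain ⟨a1, a2, a3⟩ := hT1a s0 hs0
  have hjU : j ∈ U := a2 ▸ hi0 s0 a1
  have hR0 : ∀ l ∈ R0, ∃ i ∈ U, i ≠ j ∧ l ∈ Ob i := by rw [← a2, ← a3]; exact hR2 s0 a1
  refine ⟨j, hjU, fun x => w - chi d w (τ x), T1.image fun s => w - s,
    ⟨R0, fun t => m (w - t), a3 ▸ hR1 s0 a1, ?_, fun r hr => ?_, fun t ht => ?_⟩, ?_⟩
  · intro l hl l' hl' z hz hz'
    obtain ⟨i, r1, -, r2⟩ := hR0 l hl
    obtain ⟨i', r3, -, r4⟩ := hR0 l' hl'
    exact (hO.disj i r1 i' r3 l r2 l' r4 z hz hz').2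
  · obtain ⟨i, r1, r2, r3⟩ := hR0 r hr
    refine ⟨(hO.path i r1 r r3).1, (hO.path i r1 r r3).2, pairwise_of_chain ?_,
      fun z hz l hl hzl => r2 (hO.disj i r1 j hjU r r3 l hl z hz hzl).1⟩
    rw [List.isChain_iff_forall_rel_of_append_cons_cons]
    intro x y l1 l2 hl
    refine Nat.sub_le_sub_left (Finset.card_le_card fun s hs => ?_) _
    simp only [Finset.mem_filter, Finset.mem_range] at hs ⊢
    have := List.isChain_iff_forall_rel_of_append_cons_cons.1 (hg i r1 r r3 s hs.1) hl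
    exact ⟨hs.1, by omega⟩
  · obtain ⟨s, hs, rfl⟩ := Finset.mem_image.1 ht
    obtain ⟨b1, b2, b3⟩ := hT1a s hs
    have e : w - (w - s) = s := by have := (hT0 s b1).1; omega
    simp only [e]
    refine ⟨hm1 s b1, fun z hz => ?_, b3 ▸ hm3 s b1⟩
    obtain ⟨k1, k2⟩ := hm2 s b1 z hz
    exact ⟨by rw [k1], b2 ▸ k2⟩
  · rw [Finset.card_image_of_injOn]
    · exact hπ
    · intro s hs t ht hst
      have := (hT0 s (hT1a s hs).1).1
      have := (hT0 t (hT1a t ht).1).1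
      simp only at hst
      omega

theorem dual2 (h : Timed E Q p P H τ) {f : ℕ} {I : Finset ℕ} {Ob : ℕ → Finset (List V)}
    (hO : Objs E f I Ob) {d : ℕ → ℕ} (hd : Monotone d) {w k : ℕ} (hI : (p + 1) ^ w * 5 ≤ I.card)
    (hg : ∀ i ∈ I, ∀ l ∈ Ob i, ∀ s < w, Good τ l (d (s + 1))) (hk0 : 0 < k)
    (hm : ∀ i ∈ I, 5 * 2 ^ (5 * f) * k ≤
      ((Finset.range w).filter fun s => ∃ r ∈ P, Mt τ (Ob i) r (d s) (d (s + 1))).card) :
    ∃ i ∈ I, ∃ (θ : V → ℕ) (T : Finset ℕ), OW E (Off (Ob i)) θ T ∧ k ≤ T.card := by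
  let π : ℕ → Fin w → Option (List V) := fun i s =>
    if h : ∃ r ∈ P, Mt τ (Ob i) r (d s) (d (s + 1)) then some h.choose else none
  have hπ : ∀ i s r, π i s = some r → r ∈ P ∧ Mt τ (Ob i) r (d s) (d (s + 1)) := by
    intro i s r hr
    simp only [π] at hr
    split_ifs at hr with h2
    rw [← Option.some.inj hr]
    exact h2.choose_spec
  obtain ⟨π0, -, hπ0⟩ := Finset.exists_le_card_fiber_of_mul_le_card_of_maps_to (s := I)
    (t := Fintype.piFinset fun _ : Fin w => Finset.insertNone P) (f := π) (n := 5)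
    (by
      intro g _
      rw [Fintype.mem_piFinset]
      intro s
      rw [Finset.mem_insertNone]
      intro l hl
      exact (hπ g s l hl).1)
    ⟨fun _ => none, by simp⟩ (by simpa [h.card] using hI)
  obtain ⟨U, hU, hU5⟩ := Finset.exists_subset_card_eq hπ0
  have hUI : U ⊆ I := hU.trans (Finset.filter_subset _ _)
  have hUπ : ∀ g ∈ U, π g = π0 := fun g hg => (Finset.mem_filter.1 (hU hg)).2
  obtain ⟨g0, hg0⟩ : U.Nonempty := Finset.card_pos.1 (by omega)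
  obtain ⟨i, hi, hh⟩ := h.dual (hO.mono hUI) hU5 hd (fun i hi => hg i (hUI hi))
    (T0 := (Finset.range w).filter fun s => ∃ r ∈ P, Mt τ (Ob g0) r (d s) (d (s + 1)))
    (fun s hs => by
      obtain ⟨r1, r2⟩ := Finset.mem_filter.1 hs
      rw [Finset.mem_range] at r1
      have r3 : π g0 ⟨s, r1⟩ = some r2.choose := dif_pos r2
      refine ⟨r1, r2.choose, r2.choose_spec.1, fun i hi => ?_⟩
      exact (hπ i ⟨s, r1⟩ _ (by rw [hUπ i hi, ← hUπ g0 hg0, r3])).2) hk0 (hm g0 (hUI hg0))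
  exact ⟨i, hUI hi, hh⟩

end Timed

end Pool.Agent.P.MP_a3bdf6_co
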