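import Pool.Agent.P.MP_a3bdf6_co.UDefs
import Pool.Agent.P.MP_a3bdf6_co.UWeb

/-! Subdivisions inside a vertex set. -/

namespace Pool.Agent.P.MP_a3bdf6_co

open Classical

/-- the data of a subdivision of `F` inside `S` -/
structure SubD {α V : Type*} (F : α → α → Prop) (E : V → V → Prop) (S : Set V) (φ : α → V)
    (P : α → α → List V) : Prop where
  inj : Function.Injective φ
  mem : ∀ u, φ u ∈ S
  chain : ∀ u v, F u v → (φ u :: P u v ++ [φ v]).IsChain E
  nodup : ∀ u v, F u v → (P u v).Nodup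
  inner : ∀ u v, F u v → ∀ x ∈ P u v, x ∈ S ∧ ∀ a, φ a ≠ x
  disj : ∀ u v u' v', F u v → F u' v' → ∀ x ∈ P u v, x ∈ P u' v' → u = u' ∧ v = v'

/-- a subdivision of `F` inside `S` -/
def SubIn {α V : Type*} (F : α → α → Prop) (E : V → V → Prop) (S : Set V) : Prop :=
  ∃ φ P, SubD F E S φ P

/-- maderian, in terms of vertex sets -/
def Mad {α : Type*} (F : α → α → Prop) : Prop :=
  ∃ K : ℕ, ∀ (V : Type) [Fintype V] (E : V → V → Prop) (W : Finset V), MinOut E W K →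
    SubIn F E (W : Set V)

section

variable {α β V : Type*} {F F' : α → α → Prop} {G : β → β → Prop} {E E' : V → V → Prop}
  {S S' : Set V}

theorem SubIn.mono (h : SubIn F E S) (hS : S ⊆ S') : SubIn F E S' := by
  obtain ⟨φ, P, h⟩ := h
  exact ⟨φ, P, h.inj, fun u => hS (h.mem u), h.chain, h.nodup,
    fun u v e x hx => ⟨hS (h.inner u v e x hx).1, (h.inner u v e x hx).2⟩, h.disj⟩

theorem SubD.mem_full {φ : α → V} {P : α → α → List V} (h : SubD F E S φ P) {u v : α}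
    (e : F u v) : ∀ z ∈ φ u :: P u v ++ [φ v], z ∈ S := by
  intro z hz
  simp only [List.cons_append, List.mem_cons, List.mem_append, List.not_mem_nil, or_false] at hz
  rcases hz with rfl | hz | rfl
  · exact h.mem u
  · exact (h.inner u v e z hz).1
  · exact h.mem v

theorem SubIn.monoE (h : SubIn F E S) (hE : ∀ x ∈ S, ∀ y ∈ S, E x y → E' x y) :
    SubIn F E' S := by
  obtain ⟨φ, P, h⟩ := h
  exact ⟨φ, P, h.inj, h.mem, fun u v e => ((Wk.of_chain' (h.chain u v e)).mono fun x hx y hy =>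
    hE x (h.mem_full e x hx) y (h.mem_full e y hy)).chain, h.nodup, h.inner, h.disj⟩

theorem SubIn.comap (h : SubIn F E S) (g : β → α) (hg : Function.Injective g)
    (hG : ∀ a b, G a b → F (g a) (g b)) : SubIn G E S := by
  obtain ⟨φ, P, h⟩ := h
  refine ⟨φ ∘ g, fun a b => P (g a) (g b), h.inj.comp hg, fun u => h.mem _,
    fun u v e => h.chain _ _ (hG u v e), fun u v e => h.nodup _ _ (hG u v e),
    fun u v e x hx => ⟨(h.inner _ _ (hG u v e) x hx).1, fun a => (h.inner _ _ (hG u v e) x hx).2 _⟩,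
    fun u v u' v' e e' x hx hx' => ?_⟩
  obtain ⟨h1, h2⟩ := h.disj _ _ _ _ (hG u v e) (hG u' v' e') x hx hx'
  exact ⟨hg h1, hg h2⟩

theorem Mad.comap (h : Mad F) (g : β → α) (hg : Function.Injective g)
    (hG : ∀ a b, G a b → F (g a) (g b)) : Mad G :=
  let ⟨K, h⟩ := h
  ⟨K, fun V _ E W hW => (h V E W hW).comap g hg hG⟩

theorem SubIn.sum (h : SubIn F E S) (h' : SubIn G E S') (hd : ∀ z ∈ S, z ∉ S') :
    SubIn (Sum.LiftRel F G) E (S ∪ S') := by
  obtain ⟨φ, P, h⟩ := h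
  obtain ⟨ψ, R, h'⟩ := h'
  let PR : α ⊕ β → α ⊕ β → List V := fun a b =>
    match a, b with
    | .inl a, .inl b => P a b
    | .inr a, .inr b => R a b
    | _, _ => []
  refine ⟨Sum.elim φ ψ, PR, ?_, ?_, ?_, ?_, ?_, ?_⟩
  · exact h.inj.sumElim h'.inj fun a b hh => hd _ (h.mem a) (hh ▸ h'.mem b)
  · rintro (u | u)
    · exact Or.inl (h.mem u)
    · exact Or.inr (h'.mem u)
  · rintro _ _ (e | e)
    · exact h.chain _ _ e
    · exact h'.chain _ _ e
  · rintro _ _ (e | e)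
    · exact h.nodup _ _ e
    · exact h'.nodup _ _ e
  · rintro _ _ (e | e) x hx
    · refine ⟨Or.inl (h.inner _ _ e x hx).1, ?_⟩
      rintro (a | a)
      · exact (h.inner _ _ e x hx).2 a
      · exact fun hh => hd _ (h.inner _ _ e x hx).1 (hh ▸ h'.mem a)
    · refine ⟨Or.inr (h'.inner _ _ e x hx).1, ?_⟩
      rintro (a | a)
      · exact fun hh => hd _ (hh ▸ h.mem a) (h'.inner _ _ e x hx).1
      · exact (h'.inner _ _ e x hx).2 a
  · rintro _ _ _ _ (e | e) (e' | e') x hx hx'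
    · obtain ⟨rfl, rfl⟩ := h.disj _ _ _ _ e e' x hx hx'
      exact ⟨rfl, rfl⟩
    · exact absurd (h'.inner _ _ e' x hx').1 (hd x (h.inner _ _ e x hx).1)
    · exact absurd (h'.inner _ _ e x hx).1 (hd x (h.inner _ _ e' x hx').1)
    · obtain ⟨rfl, rfl⟩ := h'.disj _ _ _ _ e e' x hx hx'
      exact ⟨rfl, rfl⟩

/-- a subdivision is covered by boundedly many disjoint paths -/
theorem SubIn.tracks [Fintype α] (h : SubIn F E S) : ∃ O : Finset (List V),
    O.card ≤ Fintype.card α + Fintype.card α * Fintype.card α ∧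
      (∀ l ∈ O, l.IsChain E ∧ l.Nodup ∧ ∀ z ∈ l, z ∈ S) ∧ PD O ∧
        SubIn F E {z | ∃ l ∈ O, z ∈ l} := by
  obtain ⟨φ, P, h⟩ := h
  let O : Finset (List V) := (Finset.univ.image fun u => [φ u]) ∪
    (Finset.univ.filter fun e : α × α => F e.1 e.2).image fun e => P e.1 e.2
  have hO : ∀ l, l ∈ O ↔ (∃ u, [φ u] = l) ∨ ∃ u v, F u v ∧ P u v = l := by
    intro l; simp [O]
  refine ⟨O, ?_, fun l hl => ?_, fun l hl l' hl' z hz hz' => ?_, φ, P, h.inj, fun u => ?_,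
    h.chain, h.nodup, fun u v e x hx => ⟨?_, (h.inner u v e x hx).2⟩, h.disj⟩
  · refine (Finset.card_union_le _ _).trans (add_le_add Finset.card_image_le
      (Finset.card_image_le.trans ((Finset.card_filter_le _ _).trans (by simp))))
  · rcases (hO l).1 hl with ⟨u, rfl⟩ | ⟨u, v, e, rfl⟩
    · simpa using h.mem u
    · exact ⟨(h.chain u v e).left_of_append.tail, h.nodup u v e,
        fun z hz => (h.inner u v e z hz).1⟩
  · rcases (hO l).1 hl with ⟨u, rfl⟩ | ⟨u, v, e, rfl⟩ <;>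
      rcases (hO l').1 hl' with ⟨u', rfl⟩ | ⟨u', v', e', rfl⟩
    · simp only [List.mem_singleton] at hz hz'
      rw [← hz, ← hz']
    · exact absurd (List.mem_singleton.1 hz).symm ((h.inner _ _ e' z hz').2 u)
    · exact absurd (List.mem_singleton.1 hz').symm ((h.inner _ _ e z hz).2 u')
    · obtain ⟨rfl, rfl⟩ := h.disj _ _ _ _ e e' z hz hz'
      rfl
  · exact ⟨[φ u], (hO _).2 (Or.inl ⟨u, rfl⟩), by simp⟩
  · exact ⟨P u v, (hO _).2 (Or.inr ⟨u, v, e, rfl⟩), hx⟩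

/-- the relation of `M` disjoint copies -/
def Cop (M : ℕ) (F : α → α → Prop) (a b : Fin M × α) : Prop := a.1 = b.1 ∧ F a.2 b.2

theorem SubIn.copies {M : ℕ} (h : SubIn (Cop M F) E S) : ∃ Z : Fin M → Set V,
    (∀ i, Z i ⊆ S ∧ SubIn F E (Z i)) ∧ ∀ i j z, z ∈ Z i → z ∈ Z j → i = j := by
  obtain ⟨φ, P, h⟩ := h
  refine ⟨fun i => {z | (∃ u, φ (i, u) = z) ∨ ∃ u v, F u v ∧ z ∈ P (i, u) (i, v)},
    fun i => ⟨?_, fun u => φ (i, u), fun u v => P (i, u) (i, v), fun u v hh => ?_,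
      fun u => Or.inl ⟨u, rfl⟩, fun u v e => h.chain _ _ ⟨rfl, e⟩,
      fun u v e => h.nodup _ _ ⟨rfl, e⟩, fun u v e x hx => ⟨Or.inr ⟨u, v, e, hx⟩,
        fun a => (h.inner (i, u) (i, v) ⟨rfl, e⟩ x hx).2 _⟩, fun u v u' v' e e' x hx hx' => ?_⟩, ?_⟩
  · rintro z (⟨u, rfl⟩ | ⟨u, v, e, hz⟩)
    · exact h.mem _
    · exact (h.inner (i, u) (i, v) ⟨rfl, e⟩ z hz).1
  · exact (Prod.ext_iff.1 (h.inj hh)).2
  · obtain ⟨h1, h2⟩ := h.disj (i, u) (i, v) (i, u') (i, v') ⟨rfl, e⟩ ⟨rfl, e'⟩ x hx hx'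
    exact ⟨(Prod.ext_iff.1 h1).2, (Prod.ext_iff.1 h2).2⟩
  · rintro i j z (⟨u, rfl⟩ | ⟨u, v, e, hz⟩) (⟨u', hz'⟩ | ⟨u', v', e', hz'⟩)
    · exact (Prod.ext_iff.1 (h.inj hz')).1.symm
    · exact absurd rfl ((h.inner (j, u') (j, v') ⟨rfl, e'⟩ _ hz').2 (i, u))
    · exact absurd hz' ((h.inner (i, u) (i, v) ⟨rfl, e⟩ _ hz).2 (j, u'))
    · exact (Prod.ext_iff.1 (h.disj (i, u) (i, v) (j, u') (j, v') ⟨rfl, e⟩ ⟨rfl, e'⟩ z hz hz').1).1

theorem SubIn.objs [Fintype α] {M : ℕ} (h : SubIn (Cop M F) E S) :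
    ∃ Ob : ℕ → Finset (List V),
      Objs E (Fintype.card α + Fintype.card α * Fintype.card α) (Finset.range M) Ob ∧
        ∀ i < M, (∀ l ∈ Ob i, ∀ z ∈ l, z ∈ S) ∧ SubIn F E {z | ∃ l ∈ Ob i, z ∈ l} := by
  obtain ⟨Z, h1, h2⟩ := h.copies
  choose O k1 k2 k3 k4 using fun i => (h1 i).2.tracks
  refine ⟨fun i => if h : i < M then O ⟨i, h⟩ else ∅, ⟨fun i hi => ?_, fun i hi l hl => ?_,
    fun i hi i' hi' l hl l' hl' z hz hz' => ?_⟩, fun i hi => ?_⟩
  · rw [Finset.mem_range] at hi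
    simp only [hi, dif_pos]; exact k1 _
  · rw [Finset.mem_range] at hi
    simp only [hi, dif_pos] at hl
    exact ⟨(k2 _ l hl).1, (k2 _ l hl).2.1⟩
  · rw [Finset.mem_range] at hi hi'
    simp only [hi, hi', dif_pos] at hl hl'
    have := h2 _ _ z ((k2 _ l hl).2.2 z hz) ((k2 _ l' hl').2.2 z hz')
    refine ⟨congrArg Fin.val this, k3 _ l hl l' (this ▸ hl') z hz hz'⟩
  · simp only [hi, dif_pos]
    exact ⟨fun l hl z hz => (h1 _).1 ((k2 _ l hl).2.2 z hz), k4 _⟩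

end

theorem subIn_iff {α V : Type} (F : Digraph α) (D : Digraph V) :
    ContainsSubdivision F D ↔ SubIn F.Adj D.Adj Set.univ := by
  constructor
  · rintro ⟨φ, P, h1, h2, h3⟩
    refine ⟨φ, P, h1, by simp, fun u v e => (h2 u v e).1, fun u v e => (h2 u v e).2.1,
      fun u v e x hx => ⟨trivial, fun a ha => (h2 u v e).2.2 x hx ⟨a, ha⟩⟩,
      fun u v u' v' e e' x hx hx' => ?_⟩
    by_contra hne
    exact h3 u v u' v' e e' (fun hh => hne (Prod.ext_iff.1 hh)) hx hx'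
  · rintro ⟨φ, P, h⟩
    refine ⟨φ, P, h.inj, fun u v e => ⟨h.chain u v e, h.nodup u v e, ?_⟩,
      fun u v u' v' e e' hne x hx hx' => hne (Prod.ext_iff.2 (h.disj u v u' v' e e' x hx hx'))⟩
    rintro x hx ⟨a, ha⟩
    exact (h.inner u v e x hx).2 a ha

theorem mad_iff {α : Type} (F : Digraph α) : Maderian F ↔ Mad F.Adj := by
  constructor
  · rintro ⟨k, h⟩
    refine ⟨k + 1, fun V _ E W hW => ?_⟩
    have : Nonempty W := hW.1.coe_sort
    obtain ⟨φ, P, h1⟩ := (subIn_iff _ _).1 (h W ⟨fun x y => E x y ∧ x ≠ y⟩ (by simp) fun v => by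
      have h1 := hW.2 v v.2
      have h2 := Finset.pred_card_le_card_erase (s := W.filter (E v)) (a := v)
      refine le_trans (show k ≤ ((W.filter (E v)).erase v).card by omega) ?_
      rw [← Set.ncard_image_of_injective _ Subtype.val_injective, ← Set.ncard_coe_finset]
      refine Set.ncard_le_ncard (fun y hy => ?_) (Set.toFinite _)
      simp only [Finset.coe_erase, Finset.coe_filter, Set.mem_sdiff, Set.mem_ofPred_eq,
        Set.mem_singleton_iff] at hy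
      exact ⟨⟨y, hy.1.1⟩, ⟨hy.1.2, fun hh => hy.2 (congrArg Subtype.val hh).symm⟩, rfl⟩)
    refine ⟨fun u => φ u, fun u v => (P u v).map Subtype.val, Subtype.val_injective.comp h1.inj,
      fun u => (φ u).2, fun u v e => ?_, fun u v e => (h1.nodup u v e).map Subtype.val_injective,
      fun u v e x hx => ?_, fun u v u' v' e e' x hx hx' => ?_⟩
    · have := List.isChain_map_of_isChain (S := E) Subtype.val (fun a b h => h.1) (h1.chain u v e)
      simpa using this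
    · obtain ⟨y, hy, rfl⟩ := List.mem_map.1 hx
      exact ⟨y.2, fun a ha => (h1.inner u v e y hy).2 a (Subtype.ext ha)⟩
    · obtain ⟨y, hy, rfl⟩ := List.mem_map.1 hx
      obtain ⟨y', hy', hh⟩ := List.mem_map.1 hx'
      exact h1.disj u v u' v' e e' y hy (Subtype.ext hh ▸ hy')
  · rintro ⟨K, h⟩
    refine ⟨K, fun V _ _ D _ hd => (subIn_iff _ _).2 ((h V D.Adj Finset.univ
      ⟨Finset.univ_nonempty, fun v _ => ?_⟩).mono (Set.subset_univ _))⟩
    have := hd v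
    rw [Set.ncard_eq_toFinset_card'] at this
    convert this using 2
    ext w
    simp

end Pool.Agent.P.MP_a3bdf6_co
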