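import Pool.Agent.P.MP_a3bdf6_co.Split
import Pool.Agent.P.MP_a3bdf6_co.UClean
import Pool.Agent.P.MP_a3bdf6_co.USub

/-! Adding zigzags to a digraph all of whose multiples are maderian. -/

namespace Pool.Agent.P.MP_a3bdf6_co

open Classical

theorem Zigs.monoE {V ι : Type*} {E E' : V → V → Prop} {b : ℕ} {c : ι → ℕ} {S : Set V}
    (h : Zigs E b c S) (hE : ∀ x y, E x y → E' x y) : Zigs E' b c S :=
  let ⟨Z, h1, h2, h3⟩ := h
  ⟨Z, h1, h2, fun i hi => (h3 i hi).monoE hE⟩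

theorem big_path2 {α : Type} [Fintype α] {F : α → α → Prop} (hF : ∀ M, Mad (Cop M F))
    {κ : Type} [Fintype κ] (c : κ → ℕ) (b : ℕ) : ∃ K L : ℕ,
    ∀ (V : Type) [Fintype V] (E : V → V → Prop) (W : Finset V), (∀ x y, E x y → y ∈ W) →
      MinOut E W K → ∀ P : List V, P.IsChain E → P.Nodup → Big E W L P →
        ∃ S ⊆ (W : Set V), SubIn F E S ∧ Zigs E b c Sᶜ := by
  let σ := (i : κ) × Fin (c i)
  let δ := σ × Bool
  obtain ⟨M, p, hcl⟩ := clean2 c b (Fintype.card δ)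
    (Fintype.card α + Fintype.card α * Fintype.card α) 1 le_rfl
  obtain ⟨K0, hK0⟩ := hF M
  obtain ⟨ι0, hι0⟩ : ∃ ι0, ι0 = Fintype.card σ + Fintype.card (δ × Fin p) * (b + 1) := ⟨_, rfl⟩
  obtain ⟨G, hG⟩ : ∃ G, G = p + ι0 + 1 := ⟨_, rfl⟩
  obtain ⟨L, hL⟩ : ∃ L, L = Fintype.card σ * G + 1 := ⟨_, rfl⟩
  refine ⟨K0 + ι0 + 2 * L + 1, L, fun V _ E W hW hK P0 hc0 hn0 hP0 => ?_⟩
  obtain ⟨P, hPP, hP, B, hBW, hBn, hB, hPB⟩ := exists_closed hW hK (by omega) (by omega) P0 hP0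
  have hKB : MinOut E B (K0 + ι0 + L + 1) := hK.sub hBn hBW (Y := bd E B) (fun x hx y _ hxy => by
    by_cases hy : y ∈ B
    · exact Or.inl hy
    · exact Or.inr (mem_bd.2 ⟨hy, x, hx, hxy⟩)) (by omega)
  have hBc := hKB.card_le
  obtain ⟨e, Reg, he1, he2, hR1, hR2, hR3, hR4⟩ := caterpillar hW (hc0.suffix hPP)
    (hn0.sublist hPP.sublist) hP hBW hB (by omega) hPB (by omega) G
  obtain ⟨rt⟩ : Nonempty (σ ↪ B) := Function.Embedding.nonempty_of_card_le (by simp only [Fintype.card_coe]; omega)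
  let root : σ → V := fun k => rt k
  have root_inj : Function.Injective root := fun k k' h => rt.injective (Subtype.ext h)
  let Z0 : Finset V := Finset.univ.image root
  have hZ0 : Z0.card ≤ Fintype.card σ := Finset.card_image_le
  obtain ⟨leg, hleg, hlegd⟩ := hKB.legs (b + 1) (fun j : δ × Fin p => root j.1.1)
    (fun j => (rt j.1.1).2) Z0 Finset.univ (by rw [Finset.card_univ]; omega)
  simp only [Finset.mem_univ, true_imp_iff] at hleg hlegd
  have hen : ∀ j, ∃ en ∈ leg j, Wk E (root j.1.1) en (root j.1.1 :: leg j) := by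
    intro j
    obtain ⟨h1, -, -, h2⟩ := hleg j
    have h3 : leg j ≠ [] := by rintro h; simp [h] at h1
    exact ⟨(leg j).getLast h3, List.getLast_mem h3, Wk.of_chain _ _ _ h2 (by
      rw [List.getLast?_cons, List.getLast?_eq_some_getLast h3]; rfl)⟩
  choose en hen1 hen2 using hen
  let I : Finset V := Z0 ∪ Finset.univ.biUnion fun j => (leg j).toFinset.erase (en j)
  have hI : I.card ≤ ι0 := by
    have := Finset.card_biUnion_le_card_mul Finset.univ
      (fun j => (leg j).toFinset.erase (en j)) (b + 1) fun j _ =>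
        (Finset.card_erase_le.trans (leg j).toFinset_card_le).trans (hleg j).1.le
    have := Finset.card_union_le Z0 (Finset.univ.biUnion fun j => (leg j).toFinset.erase (en j))
    rw [Finset.card_univ] at *
    simp only [I]
    omega
  have hIroot : ∀ k, root k ∈ I := fun k =>
    Finset.mem_union_left _ (Finset.mem_image_of_mem _ (Finset.mem_univ k))
  have hIleg : ∀ j, ∀ z ∈ leg j, z ∈ I ∨ z = en j := by
    intro j z hz
    by_cases h : z = en j
    · exact Or.inr h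
    · exact Or.inl (Finset.mem_union_right _ (Finset.mem_biUnion.2
        ⟨j, Finset.mem_univ _, by simp [h, hz]⟩))
  have henI : ∀ j, en j ∉ I := by
    intro j h
    rcases Finset.mem_union.1 h with h | h
    · exact ((hleg j).2.2.1 _ (hen1 j)).2 h
    · obtain ⟨j', -, h⟩ := Finset.mem_biUnion.1 h
      simp only [Finset.mem_erase, List.mem_toFinset] at h
      exact h.1 (by rw [hlegd _ _ _ (hen1 j) h.2])
  have henB : ∀ j, en j ∈ B := fun j => ((hleg j).2.2.1 _ (hen1 j)).1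
  let E' : V → V → Prop := fun x y => E x y ∧ x ∈ B ∧ x ∉ I ∧ y ∉ I
  let nx : σ → σ := fun k => ⟨k.1, ⟨(k.2 + 1) % c k.1, Nat.mod_lt _ k.2.pos⟩⟩
  let snk : δ → σ := fun d => if d.2 then nx d.1 else d.1
  let num := Fintype.equivFin σ
  have hnum : ∀ k, ∀ j < G, num k * G + j < L ∧ (num k * G + j) / G = num k := by
    intro k j hj
    have : ((num k : ℕ) + 1) * G ≤ Fintype.card σ * G := Nat.mul_le_mul_right _ (num k).2
    refine ⟨by rw [add_mul] at this; omega, ?_⟩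
    rw [mul_comm, Nat.mul_add_div (by omega), Nat.div_eq_of_lt hj, add_zero]
  let A : δ → Finset V := fun d => Finset.univ.image fun j : Fin p => en (d, j)
  let X : δ → Finset V := fun d => (Finset.range G).image fun j => e (num (snk d) * G + j)
  have hAc : ∀ d, (A d).card = p := by
    intro d
    rw [Finset.card_image_of_injective, Finset.card_univ, Fintype.card_fin]
    intro j j' h
    exact congrArg Prod.snd
      (hlegd _ _ _ (hen1 (d, j)) (by rw [show en (d, j) = en (d, j') from h]; exact hen1 (d, j')))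
  have hXc : ∀ d, (X d).card = G := by
    intro d
    rw [Finset.card_image_of_injOn, Finset.card_range]
    intro j hj j' hj' h
    have := he2 _ (hnum _ j (by simpa using hj)).1 _ (hnum _ j' (by simpa using hj')).1 h
    omega
  have hXm : ∀ d, ∀ x ∈ X d, ∃ i < L, i / G = num (snk d) ∧ x = e i := by
    intro d x hx
    obtain ⟨j, hj, rfl⟩ := Finset.mem_image.1 hx
    exact ⟨_, (hnum _ j (by simpa using hj)).1, (hnum _ j (by simpa using hj)).2, rfl⟩
  have hXb : ∀ d, X d ⊆ bd E B := by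
    intro d x hx
    obtain ⟨i, hi, -, rfl⟩ := hXm d x hx
    exact he1 i hi
  have hlink : ∀ d ∈ (Finset.univ : Finset δ), ∃ T, Lk E' (A d) (X d) T ∧ T.card = p := by
    intro d _
    refine menger E' _ _ p fun Y hY => ?_
    obtain ⟨u, hu, huY⟩ := Finset.exists_mem_notMem_of_card_lt_card (hY.trans_eq (hAc d).symm)
    obtain ⟨j, -, rfl⟩ := Finset.mem_image.1 hu
    refine ⟨_, hu, ?_⟩
    by_contra hcon
    push Not at hcon
    let R := (reach E' {z | z ∉ Y} (en (d, j))).filter (· ∈ B)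
    have h1 : bd E R ⊆ Y ∪ I ∪ (bd E B \ X d) := by
      intro y hy
      obtain ⟨k1, x, k2, k3⟩ := mem_bd.1 hy
      obtain ⟨k4, k5⟩ := Finset.mem_filter.1 k2
      rw [mem_reach] at k4
      by_contra k6
      simp only [Finset.mem_union, Finset.mem_sdiff, not_or, not_and, not_not] at k6
      obtain ⟨l, k7, k8⟩ := k4
      have k9 : Rch E' {z | z ∉ Y} (en (d, j)) y :=
        Rch.tail ⟨l, k7, k8⟩ ⟨k3, k5, (wk_inside k7 (henI _) x k7.last_mem).1, k6.1.2⟩ k6.1.1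
      by_cases k10 : y ∈ B
      · exact k1 (Finset.mem_filter.2 ⟨mem_reach.2 k9, k10⟩)
      · exact hcon y (k6.2 (mem_bd.2 ⟨k10, x, k5, k3⟩)) k9
    have h2 := Finset.card_le_card h1
    have h3 := Finset.card_union_le (Y ∪ I) (bd E B \ X d)
    have h4 := Finset.card_union_le Y I
    have h5 := Finset.card_sdiff_add_card_eq_card (hXb d)
    have h6 := hXc d
    obtain ⟨z, hz, hz'⟩ := hP R (fun z hz => hBW (Finset.mem_filter.1 hz).2)
      ⟨_, Finset.mem_filter.2 ⟨mem_reach.2 (Rch.refl huY), henB _⟩⟩ (by omega)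
    exact hPB z hz (Finset.mem_filter.1 hz').2
  have hK' : MinOut E' (B \ I) K0 := by
    refine (hKB.sub (S := B \ I) (Y := I) (Finset.card_pos.1 ?_) Finset.sdiff_subset
      (fun x _ y hy _ => by
        by_cases h : y ∈ I
        · exact Or.inr h
        · exact Or.inl (Finset.mem_sdiff.2 ⟨hy, h⟩)) (by omega)).monoE ?_
    · have := Finset.le_card_sdiff I B
      omega
    · intro x hx y hy h
      rw [Finset.mem_sdiff] at hx hy
      exact ⟨h, hx.1, hx.2, hy.2⟩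
  obtain ⟨Ob, hZ1, hZ2⟩ := (hK0 V E' _ hK').objs
  have hEE : ∀ x y, E' x y → E x y := fun _ _ h => h.1
  have hOb : ∀ i ∈ Finset.range M, ∀ l ∈ Ob i, ∀ z ∈ l, z ∈ B ∧ z ∉ I := fun i hi l hl z hz =>
    Finset.mem_sdiff.1 ((hZ2 i (Finset.mem_range.1 hi)).1 l hl z hz)
  suffices hS : ∃ i ∈ Finset.range M, Zigs E b c (Off (Ob i)) by
    obtain ⟨i, hi, hS⟩ := hS
    refine ⟨{z | ∃ l ∈ Ob i, z ∈ l}, fun z ⟨l, hl, hz⟩ => hBW (hOb i hi l hl z hz).1,
      (hZ2 i (Finset.mem_range.1 hi)).2.monoE fun x _ y _ => hEE x y, hS.mono ?_⟩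
    rintro z hz ⟨l, hl, hzl⟩
    exact hz l hl hzl
  rcases hcl V E' δ Finset.univ A X Finset.card_univ hlink _ Ob (Finset.card_range M) hZ1
    with ⟨i, hi, hF⟩ | ⟨I', hI', T, hT⟩
  · exact ⟨i, hi, hF.monoE hEE⟩
  have hπ : ∀ d : δ, ∃ l ∈ T d, ∃ j : Fin p, ∃ x ∈ X d, Wk E' (en (d, j)) x l := by
    intro d
    obtain ⟨l, hl⟩ : (T d).Nonempty := Finset.card_pos.1 (hT.card d (by simp))
    obtain ⟨-, a, ha, x, hx, h⟩ := hT.path d (Finset.mem_univ _) l hl
    obtain ⟨j, -, rfl⟩ := Finset.mem_image.1 ha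
    exact ⟨l, hl, j, x, hx, h⟩
  choose π hπT jj xx hxx hπw using hπ
  have hπd : ∀ d d' z, z ∈ π d → z ∈ π d' → d = d' := fun d d' z hz hz' =>
    (hT.disj d (by simp) d' (by simp) _ (hπT d) _ (hπT d') z hz hz').1
  have hπi : ∀ d, ∀ z ∈ π d, z ∉ I ∧ (z ∈ B ∨ z = xx d) := fun d => wk_inside (hπw d) (henI _)
  let Sg : σ → Set V := fun k => {z | ∃ s : Bool, z ∈ π (k, s) ∨
    (z ∈ I ∧ (z = root k ∨ z ∈ leg ((k, s), jj (k, s))))}
  have hSt : ∀ k, St E b 1 (xx (k, false)) (xx (k, true)) (Sg k) := by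
    intro k
    have nd : ∀ j : δ × Fin p, (root j.1.1 :: leg j).Nodup := fun j =>
      List.nodup_cons.2 ⟨fun h => ((hleg j).2.2.1 _ h).2
        (Finset.mem_image_of_mem _ (Finset.mem_univ _)), (hleg j).2.1⟩
    have h1 := St.lam (b := b) (hen2 ((k, false), jj (k, false))) (hen2 ((k, true), jj (k, true)))
      (nd _) (nd _) (by
        intro z hz hz'
        rcases List.mem_cons.1 hz with hz | hz
        · exact hz
        rcases List.mem_cons.1 hz' with hz' | hz'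
        · exact hz'
        exact absurd (congrArg (·.1.2) (hlegd _ _ z hz hz')) (by simp)) (by simp [(hleg _).1]) (by simp [(hleg _).1])
    have hm : ∀ s : Bool, ∀ z ∈ root k :: leg ((k, s), jj (k, s)),
        (z ∈ I ∧ (z = root k ∨ z ∈ leg ((k, s), jj (k, s)))) ∨ z = en ((k, s), jj (k, s)) := by
      intro s z hz
      rcases List.mem_cons.1 hz with rfl | hz
      · exact Or.inl ⟨hIroot k, Or.inl rfl⟩
      · exact (hIleg _ z hz).imp (fun h => ⟨h, Or.inr hz⟩) id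
    have h2 := h1.ext (((hπw (k, false)).mono fun x _ y _ => hEE x y).rch) (by
      rintro z hz (hz' | hz')
      · exact (hm false z hz').resolve_left fun h => (hπi _ z hz).1 h.1
      · have := (hm true z hz').resolve_left fun h => (hπi _ z hz).1 h.1
        exact absurd (congrArg Prod.snd (hπd _ _ z hz (this ▸ (hπw (k, true)).head_mem))) (by simp))
    have h3 := h2.ext' (((hπw (k, true)).mono fun x _ y _ => hEE x y).rch) (by
      rintro z hz ((hz' | hz') | hz')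
      · have := (hm false z hz').resolve_left fun h => (hπi _ z hz).1 h.1
        exact absurd (congrArg Prod.snd (hπd _ _ z hz (this ▸ (hπw (k, false)).head_mem))) (by simp)
      · exact (hm true z hz').resolve_left fun h => (hπi _ z hz).1 h.1
      · exact absurd (congrArg Prod.snd (hπd _ _ z hz hz')) (by simp))
    refine h3.mono ?_
    rintro z (((hz | hz) | hz) | hz)
    · exact ⟨false, (hm false z hz).symm.imp (fun h => by rw [h]; exact (hπw (k, false)).head_mem) id⟩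
    · exact ⟨true, (hm true z hz).symm.imp (fun h => by rw [h]; exact (hπw (k, true)).head_mem) id⟩
    · exact ⟨false, Or.inl hz⟩
    · exact ⟨true, Or.inl hz⟩
  have hSS : ∀ k k', ∀ z ∈ Sg k, z ∈ Sg k' → k = k' := by
    rintro k k' z ⟨s, hz | ⟨h1, hz⟩⟩ ⟨s', hz' | ⟨h2, hz'⟩⟩
    · exact congrArg Prod.fst (hπd _ _ z hz hz')
    · exact absurd h2 (hπi _ z hz).1
    · exact absurd h1 (hπi _ z hz').1
    · rcases hz with hz | hz <;> rcases hz' with hz' | hz'
      · exact root_inj (hz.symm.trans hz')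
      · exact absurd (hz ▸ Finset.mem_image_of_mem _ (Finset.mem_univ _)) ((hleg _).2.2.1 z hz').2
      · exact absurd (hz' ▸ Finset.mem_image_of_mem _ (Finset.mem_univ _)) ((hleg _).2.2.1 z hz).2
      · exact congrArg (·.1.1) (hlegd _ _ z hz hz')
  have hNN : ∀ k k', ∀ z ∈ Reg (num k), z ∈ Reg (num k') → k = k' := fun k k' z hz hz' =>
    num.injective (Fin.ext (hR2 _ _ z hz hz'))
  have hxR : ∀ d, xx d ∈ Reg (num (snk d)) := by
    intro d
    obtain ⟨i, hi, h1, h2⟩ := hXm d _ (hxx d)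
    rw [h2, ← h1]; exact hR3 i hi
  have hSN : ∀ k k', ∀ z ∈ Sg k, z ∈ Reg (num k') →
      (z = xx (k, false) ∧ k' = k) ∨ (z = xx (k, true) ∧ k' = nx k) := by
    rintro k k' z ⟨s, hz | ⟨-, hz | hz⟩⟩ hz'
    · have h1 := (hπi _ z hz).2.resolve_left (hR1 _ z hz')
      have h2 := hNN _ _ z hz' (h1 ▸ hxR _)
      cases s
      · exact Or.inl ⟨h1, h2⟩
      · exact Or.inr ⟨h1, h2⟩
    · exact absurd (hz ▸ (rt k).2) (hR1 _ z hz')
    · exact absurd ((hleg _).2.2.1 z hz).1 (hR1 _ z hz')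
  have hVc : ∀ k, Vc E (Reg (num (nx k))) (xx (k, true)) (xx (nx k, false)) := by
    intro k
    obtain ⟨i, hi, h1, h2⟩ := hXm _ _ (hxx (k, true))
    obtain ⟨j, hj, h3, h4⟩ := hXm _ _ (hxx (nx k, false))
    have := hR4 i hi j hj (h1.trans h3.symm)
    rw [h1] at this
    rw [h2, h4]; exact this
  have hzig : Zigs E b c {z | ∃ k, z ∈ Sg k ∨ z ∈ Reg (num k)} := by
    refine ⟨fun i => {z | ∃ k : Fin (c i), z ∈ Sg ⟨i, k⟩ ∨ z ∈ Reg (num ⟨i, k⟩)},
      fun i z ⟨k, hz⟩ => ⟨_, hz⟩, ?_, fun i hi => ?_⟩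
    · rintro i i' z ⟨k, hz | hz⟩ ⟨k', hz' | hz'⟩
      · exact congrArg Sigma.fst (hSS _ _ z hz hz')
      · rcases hSN _ _ z hz hz' with h | h <;> exact (congrArg Sigma.fst h.2).symm
      · rcases hSN _ _ z hz' hz with h | h <;> exact congrArg Sigma.fst h.2
      · exact congrArg Sigma.fst (hNN _ _ z hz hz')
    · have inj : ∀ k k' : Fin (c i), (⟨i, k⟩ : σ) = ⟨i, k'⟩ → k = k' := fun k k' h => by
        simpa [σ] using h
      exact zig_merge_fin (Nat.pos_of_ne_zero hi) (fun k => xx (⟨i, k⟩, false))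
        (fun k => xx (⟨i, k⟩, true)) (fun k => Sg ⟨i, k⟩) (fun k => Reg (num ⟨i, k⟩))
        (fun k => ⟨(k + 1) % c i, Nat.mod_lt _ k.pos⟩) (fun _ => rfl) (fun k => hSt _)
        (fun k => hVc ⟨i, k⟩) (fun k k' z hz hz' => inj _ _ (hSS _ _ z hz hz'))
        (fun k k' z hz hz' => inj _ _ (hNN _ _ z hz hz'))
        (fun k k' z hz hz' => (hSN _ _ z hz hz').imp (fun h => ⟨h.1, inj _ _ h.2⟩)
          fun h => ⟨h.1, inj _ _ h.2⟩)
  obtain ⟨i, hi⟩ : I'.Nonempty := Finset.card_pos.1 hT.cardI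
  refine ⟨i, hI' hi, hzig.mono ?_⟩
  rintro z ⟨k, ⟨s, hz' | hz'⟩ | hz'⟩ l hl hz
  · exact hT.off (k, s) (by simp) _ (hπT _) i hi z hz' l hl hz
  · exact (hOb i (hI' hi) l hl z hz).2 hz'.1
  · exact hR1 _ z hz' (hOb i (hI' hi) l hl z hz).1

theorem add_zigs {α : Type} [Fintype α] {F : α → α → Prop} (hF : ∀ M, Mad (Cop M F)) {m : ℕ}
    (c : Fin m → ℕ) (b : ℕ) : ∃ K : ℕ, ∀ (V : Type) [Fintype V] (E : V → V → Prop)
      (W : Finset V), MinOut E W K → ∃ S ⊆ (W : Set V), SubIn F E S ∧ Zigs E b c (W \ S) := by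
  obtain ⟨K, L, h⟩ := big_path2 hF c b
  obtain ⟨K1, h1⟩ := (hF 1).comap (G := F) (fun a => (0, a))
    (fun a b hh => (Prod.ext_iff.1 hh).2) fun a b e => ⟨rfl, e⟩
  obtain ⟨K2, h2⟩ := exists_fam b m c
  refine ⟨K + K1 + K2 + L, fun V _ E W hK => ?_⟩
  have hW : ∀ x y, res E W x y → y ∈ W := fun _ _ h => h.2.2
  by_cases h0 : ∀ S ⊆ W, S.Nonempty → (bd (res E W) S).card < L → ∀ S' ⊆ W, S'.Nonempty →
      (bd (res E W) S').card < L → ∃ z ∈ S, z ∈ S'
  · obtain ⟨P, k1, k2, k3⟩ := exists_big hW hK.1 h0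
    obtain ⟨S, k4, k5, Z, k6, k7, k8⟩ := h V _ W hW (hK.res.mono (by omega)) P k1 k2 k3
    exact ⟨S, k4, k5.monoE fun _ _ _ _ e => e.1, fun i => Z i ∩ W, fun i z hz => ⟨hz.2, k6 i hz.1⟩,
      fun i k z hz hz' => k7 i k z hz.1 hz'.1, fun i hi => (k8 i hi).of_res⟩
  · push Not at h0
    obtain ⟨S, k1, k2, k3, S', k4, k5, k6, k7⟩ := h0
    have key : ∀ S ⊆ W, S.Nonempty → (bd (res E W) S).card < L → Cls E W S L := by
      intro S r1 r2 r3
      refine ⟨r1, r2, _, r3.le, fun x hx y hy hxy => ?_⟩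
      by_cases r4 : y ∈ S
      · exact Or.inl r4
      · exact Or.inr (mem_bd.2 ⟨r4, x, hx, hxy, r1 hx, hy⟩)
    obtain ⟨Z, r1, r2, r3⟩ := h2 V E S' ((key S' k4 k5 k6).minOut (hK.mono (by omega)))
    refine ⟨S, by exact_mod_cast k1, h1 V E S ((key S k1 k2 k3).minOut (hK.mono (by omega))),
      Z, fun i z hz => ⟨k4 (r1 i hz), fun hz' => k7 z hz' (r1 i hz)⟩, r2, fun i => (r3 i).2⟩

end Pool.Agent.P.MP_a3bdf6_co
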