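import Pool.Agent.P.MP_a3bdf6_co.Basic

/-! Open and closed zigzags: chains of long `Λ` shapes glued at sinks. -/

namespace Pool.Agent.P.MP_a3bdf6_co

open Classical

variable {V : Type*}

/-- closed list x :: l ++ [x] of a directed cycle with at least b+1 vertices -/
def CycL' (E : V → V → Prop) (b : ℕ) (c : List V) : Prop :=
  ∃ x l, c = x :: l ++ [x] ∧ c.IsChain E ∧ (x :: l).Nodup ∧ b ≤ l.length

def Lam (E : V → V → Prop) (b : ℕ) (x y : V) (Z : Multiset V) : Prop :=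
  ∃ (s : V) (A B : List V), Wk E s x (s :: A ++ [x]) ∧ Wk E s y (s :: B ++ [y]) ∧
    b ≤ A.length ∧ b ≤ B.length ∧ Z = s ::ₘ ((A : Multiset V) + (B : Multiset V))

inductive OZ (E : V → V → Prop) (b : ℕ) : ℕ → V → V → Multiset V → Prop
  | one {x y : V} {Z : Multiset V} : Lam E b x y Z → OZ E b 1 x y Z
  | cons {j : ℕ} {x t y : V} {Z Z' : Multiset V} :
      Lam E b x t Z → OZ E b j t y Z' → OZ E b (j + 1) x y (Z + t ::ₘ Z')

variable {E E' : V → V → Prop} {b j j' : ℕ} {x y t x' a a' : V} {Z Z' : Multiset V}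
  {S S' N : Set V}

theorem Lam.symm (h : Lam E b x y Z) : Lam E b y x Z := by
  obtain ⟨s, A, B, h1, h2, h3, h4, rfl⟩ := h
  exact ⟨s, B, A, h2, h1, h4, h3, by rw [add_comm]⟩

theorem Lam.ext {m : List V} (h : Lam E b x y Z) (hw : Wk E x x' (m ++ [x'])) :
    Lam E b x' y (Z + (m : Multiset V)) := by
  obtain ⟨s, A, B, h1, h2, h3, h4, rfl⟩ := h
  obtain ⟨r, hr⟩ := hw.eq_cons
  refine ⟨s, A ++ m, B, ?_, h2, by simp; omega, h4, ?_⟩
  · have := h1.append (hr ▸ hw)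
    have e : s :: (A ++ m) ++ [x'] = s :: A ++ [x] ++ r := by
      simp only [List.cons_append, List.append_assoc, List.nil_append, hr]
    rw [e]; exact this
  · rw [← Multiset.coe_add]; simp only [Multiset.cons_add]; congr 1; abel

theorem Lam.monoE (h : Lam E b x y Z) (hE : ∀ x y, E x y → E' x y) : Lam E' b x y Z := by
  obtain ⟨s, A, B, h1, h2, h3⟩ := h
  exact ⟨s, A, B, h1.mono fun x _ y _ => hE x y, h2.mono fun x _ y _ => hE x y, h3⟩

theorem OZ.monoE (h : OZ E b j x y Z) (hE : ∀ x y, E x y → E' x y) : OZ E' b j x y Z := by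
  induction h with
  | one h => exact one (h.monoE hE)
  | cons h _ ih => exact cons (h.monoE hE) ih

theorem OZ.append (h : OZ E b j x t Z) (h' : OZ E b j' t y Z') :
    OZ E b (j + j') x y (Z + t ::ₘ Z') := by
  induction h with
  | one h => rw [add_comm 1]; exact cons h h'
  | @cons j x t1 t Z1 Z2 h _ ih =>
    have := cons h (ih h')
    have e : Z1 + t1 ::ₘ Z2 + t ::ₘ Z' = Z1 + t1 ::ₘ (Z2 + t ::ₘ Z') := by
      simp only [← Multiset.singleton_add]; abel
    rw [e, add_right_comm]; exact this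

theorem OZ.symm (h : OZ E b j x y Z) : OZ E b j y x Z := by
  induction h with
  | one h => exact one h.symm
  | @cons j x t y Z Z' h _ ih =>
    have := ih.append (one h.symm)
    have e : Z + t ::ₘ Z' = Z' + t ::ₘ Z := by simp only [← Multiset.singleton_add]; abel
    rw [e]; exact this

theorem OZ.ext {m : List V} (h : OZ E b j x y Z) (hw : Wk E x x' (m ++ [x'])) :
    OZ E b j x' y (Z + (m : Multiset V)) := by
  cases h with
  | one h => exact one (h.ext hw)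
  | @cons j x t y Z Z' h h' =>
    have := cons (h.ext hw) h'
    have e : Z + t ::ₘ Z' + (m : Multiset V) = Z + (m : Multiset V) + t ::ₘ Z' := by abel
    rw [e]; exact this

theorem Wk.mem_of_res {W : Finset V} {l : List V} (h : Wk (res E W) x y l) (hl : 2 ≤ l.length) :
    ∀ z ∈ l, z ∈ W := by
  induction h with
  | single => simp at hl
  | cons h1 h2 ih =>
    intro z hz
    rcases List.mem_cons.1 hz with rfl | hz
    · exact h1.2.1
    · cases h2 with
      | single => simp at hz; exact hz ▸ h1.2.2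
      | cons h3 h4 => exact ih (by obtain ⟨_, rfl⟩ := h4.eq_cons; simp) z hz

theorem OZ.mem_of_res {W : Finset V} (h : OZ (res E W) b j x y Z) :
    x ∈ W ∧ y ∈ W ∧ ∀ z ∈ Z, z ∈ W := by
  have key : ∀ {x y : V} {Z : Multiset V}, Lam (res E W) b x y Z →
      x ∈ W ∧ y ∈ W ∧ ∀ z ∈ Z, z ∈ W := by
    rintro x y Z ⟨s, A, B, h1, h2, -, -, rfl⟩
    have k1 := h1.mem_of_res (by simp)
    have k2 := h2.mem_of_res (by simp)
    refine ⟨k1 _ (by simp), k2 _ (by simp), fun z hz => ?_⟩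
    simp only [Multiset.mem_cons, Multiset.mem_add, Multiset.mem_coe] at hz
    rcases hz with rfl | hz | hz
    · exact k1 _ (by simp)
    · exact k1 _ (by simp [hz])
    · exact k2 _ (by simp [hz])
  induction h with
  | one h => exact key h
  | cons h _ ih =>
    refine ⟨(key h).1, ih.2.1, fun z hz => ?_⟩
    simp only [Multiset.mem_cons, Multiset.mem_add] at hz
    rcases hz with hz | rfl | hz
    · exact (key h).2.2 z hz
    · exact ih.1
    · exact ih.2.2 z hz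

/-- open zigzag with `j` sources and ends `x`, `y` inside `S` -/
def St (E : V → V → Prop) (b j : ℕ) (x y : V) (S : Set V) : Prop :=
  ∃ Z, OZ E b j x y Z ∧ (x ::ₘ y ::ₘ Z).Nodup ∧ x ∈ S ∧ y ∈ S ∧ ∀ z ∈ Z, z ∈ S

/-- closed zigzag with `j` sources inside `S` -/
def ZigIn (E : V → V → Prop) (b j : ℕ) (S : Set V) : Prop :=
  ∃ x Z, OZ E b j x x Z ∧ (x ::ₘ Z).Nodup ∧ x ∈ S ∧ ∀ z ∈ Z, z ∈ S

def CycIn (E : V → V → Prop) (b : ℕ) (S : Set V) : Prop := ∃ c, CycL' E b c ∧ ∀ z ∈ c, z ∈ S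

theorem St.mono (h : St E b j x y S) (hS : S ⊆ S') : St E b j x y S' := by
  obtain ⟨Z, h1, h2, h3, h4, h5⟩ := h
  exact ⟨Z, h1, h2, hS h3, hS h4, fun z hz => hS (h5 z hz)⟩

theorem St.monoE (h : St E b j x y S) (hE : ∀ x y, E x y → E' x y) : St E' b j x y S := by
  obtain ⟨Z, h1, h2⟩ := h
  exact ⟨Z, h1.monoE hE, h2⟩

theorem St.left (h : St E b j x y S) : x ∈ S := let ⟨_, _, _, h, _⟩ := h; h

theorem St.right (h : St E b j x y S) : y ∈ S := let ⟨_, _, _, _, h, _⟩ := h; h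

theorem St.ne (h : St E b j x y S) : x ≠ y := by
  obtain ⟨Z, -, h2, -⟩ := h
  simp only [Multiset.nodup_cons, Multiset.mem_cons, not_or] at h2
  exact h2.1.1

theorem ZigIn.mono (h : ZigIn E b j S) (hS : S ⊆ S') : ZigIn E b j S' := by
  obtain ⟨x, Z, h1, h2, h3, h5⟩ := h
  exact ⟨x, Z, h1, h2, hS h3, fun z hz => hS (h5 z hz)⟩

theorem ZigIn.monoE (h : ZigIn E b j S) (hE : ∀ x y, E x y → E' x y) : ZigIn E' b j S := by
  obtain ⟨x, Z, h1, h2⟩ := h
  exact ⟨x, Z, h1.monoE hE, h2⟩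

theorem CycL'.monoE {c : List V} (h : CycL' E b c) (hE : ∀ x y, E x y → E' x y) :
    CycL' E' b c := by
  obtain ⟨x, l, h1, h2, h3⟩ := h
  exact ⟨x, l, h1, h2.imp hE, h3⟩

theorem CycIn.mono (h : CycIn E b S) (hS : S ⊆ S') : CycIn E b S' := by
  obtain ⟨c, h1, h2⟩ := h
  exact ⟨c, h1, fun z hz => hS (h2 z hz)⟩

theorem CycIn.monoE (h : CycIn E b S) (hE : ∀ x y, E x y → E' x y) : CycIn E' b S := by
  obtain ⟨c, h1, h2⟩ := h
  exact ⟨c, h1.monoE hE, h2⟩

theorem ZigIn.of_res {W : Finset V} (h : ZigIn (res E W) b j S) : ZigIn E b j (S ∩ W) := by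
  obtain ⟨x, Z, h1, h2, h3, h5⟩ := h
  exact ⟨x, Z, h1.monoE fun _ _ h => h.1, h2, ⟨h3, h1.mem_of_res.1⟩,
    fun z hz => ⟨h5 z hz, h1.mem_of_res.2.2 z hz⟩⟩

theorem CycIn.of_res {W : Finset V} (h : CycIn (res E W) b S) : CycIn E b (S ∩ W) := by
  obtain ⟨c, h1, h2⟩ := h
  refine ⟨c, h1.monoE fun _ _ h => h.1, fun z hz => ⟨h2 z hz, ?_⟩⟩
  obtain ⟨x, l, rfl, h3, -⟩ := h1
  exact (Wk.of_chain' h3).mem_of_res (by simp) z hz

theorem St.symm (h : St E b j x y S) : St E b j y x S := by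
  obtain ⟨Z, h1, h2, h3, h4, h5⟩ := h
  exact ⟨Z, h1.symm, by rwa [Multiset.cons_swap], h4, h3, h5⟩

theorem St.lam {s : V} {l l' : List V} (h : Wk E s x l) (h' : Wk E s y l') (hn : l.Nodup)
    (hn' : l'.Nodup) (hd : ∀ z ∈ l, z ∈ l' → z = s) (hl : b + 2 ≤ l.length)
    (hl' : b + 2 ≤ l'.length) : St E b 1 x y {z | z ∈ l ∨ z ∈ l'} := by
  have key : ∀ {x : V} {l : List V}, Wk E s x l → b + 2 ≤ l.length →
      ∃ A, l = s :: A ++ [x] := by
    intro x l h hl
    obtain ⟨l1, rfl⟩ := h.eq_cons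
    obtain ⟨l2, h2⟩ := h.eq_concat
    rcases l2 with _ | ⟨c, l2⟩
    · simp at h2; simp [h2.2] at hl
    · simp at h2; exact ⟨l2, by simp [h2.2]⟩
  obtain ⟨A, rfl⟩ := key h hl
  obtain ⟨B, rfl⟩ := key h' hl'
  refine ⟨_, OZ.one ⟨s, A, B, h, h', by simp at hl; omega, by simp at hl'; omega, rfl⟩, ?_,
    by simp, by simp, ?_⟩
  · simp only [List.cons_append, List.nodup_cons, List.mem_append, List.mem_singleton, not_or,
      List.nodup_append, List.mem_cons] at hn hn' hd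
    simp only [Multiset.nodup_cons, Multiset.mem_cons, Multiset.mem_add, Multiset.mem_coe, not_or,
      Multiset.nodup_add, Multiset.coe_nodup, Multiset.coe_disjoint, List.disjoint_left]
    grind
  · intro z hz
    simp only [Multiset.mem_cons, Multiset.mem_add, Multiset.mem_coe] at hz
    simp; tauto

theorem St.ext (h : St E b j x y S) (hr : Rch E N x x') (hN : ∀ z ∈ N, z ∈ S → z = x) :
    St E b j x' y (S ∪ N) := by
  obtain ⟨Z, h1, h2, h3, h4, h5⟩ := h
  obtain ⟨l, k1, k2, k3⟩ := hr.path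
  obtain ⟨m, rfl⟩ := k1.eq_concat
  refine ⟨_, h1.ext k1, ?_, Or.inr hr.right, Or.inl h4, ?_⟩
  · simp only [List.nodup_append, List.mem_append, List.mem_singleton] at k2 k3
    simp only [Multiset.nodup_cons, Multiset.mem_cons, Multiset.mem_add, Multiset.mem_coe, not_or,
      Multiset.nodup_add, Multiset.coe_nodup, Multiset.disjoint_left] at h2 ⊢
    grind
  · intro z hz
    simp only [Multiset.mem_add, Multiset.mem_coe] at hz
    rcases hz with hz | hz
    · exact Or.inl (h5 z hz)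
    · exact Or.inr (k3 z (by simp [hz]))

theorem St.ext' (h : St E b j x y S) (hr : Rch E N y x') (hN : ∀ z ∈ N, z ∈ S → z = y) :
    St E b j x x' (S ∪ N) := (h.symm.ext hr hN).symm

theorem St.glue (h : St E b j x t S) (h' : St E b j' t y S') (hd : ∀ z ∈ S, z ∈ S' → z = t) :
    St E b (j + j') x y (S ∪ S') := by
  obtain ⟨Z, h1, h2, h3, h4, h5⟩ := h
  obtain ⟨Z', k1, k2, k3, k4, k5⟩ := h'
  refine ⟨_, h1.append k1, ?_, Or.inl h3, Or.inr k4, ?_⟩
  · simp only [Multiset.nodup_cons, Multiset.mem_cons, Multiset.mem_add, not_or,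
      Multiset.nodup_add, Multiset.disjoint_left] at h2 k2 ⊢
    grind
  · intro z hz
    simp only [Multiset.mem_add, Multiset.mem_cons] at hz
    rcases hz with hz | rfl | hz
    · exact Or.inl (h5 z hz)
    · exact Or.inl h4
    · exact Or.inr (k5 z hz)

theorem St.close2 (h : St E b j x y S) (h' : St E b j' y x S')
    (hd : ∀ z ∈ S, z ∈ S' → z = x ∨ z = y) : ZigIn E b (j + j') (S ∪ S') := by
  obtain ⟨Z, h1, h2, h3, h4, h5⟩ := h
  obtain ⟨Z', k1, k2, k3, k4, k5⟩ := h'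
  refine ⟨x, _, h1.append k1, ?_, Or.inl h3, ?_⟩
  · simp only [Multiset.nodup_cons, Multiset.mem_cons, Multiset.mem_add, not_or,
      Multiset.nodup_add, Multiset.disjoint_left] at h2 k2 ⊢
    grind
  · intro z hz
    simp only [Multiset.mem_add, Multiset.mem_cons] at hz
    rcases hz with hz | rfl | hz
    · exact Or.inl (h5 z hz)
    · exact Or.inl h4
    · exact Or.inr (k5 z hz)

/-- two vertices reach a common vertex inside `N` -/
def Vc (E : V → V → Prop) (N : Set V) (a a' : V) : Prop := ∃ t, Rch E N a t ∧ Rch E N a' t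

theorem Vc.symm (h : Vc E N a a') : Vc E N a' a := let ⟨t, h1, h2⟩ := h; ⟨t, h2, h1⟩

theorem Vc.mono (h : Vc E N a a') (hN : N ⊆ S) : Vc E S a a' :=
  let ⟨t, h1, h2⟩ := h; ⟨t, h1.mono hN, h2.mono hN⟩

theorem Vc.clean (h : Vc E N a a') : ∃ t m m', Wk E a t m ∧ Wk E a' t m' ∧ m.Nodup ∧ m'.Nodup ∧
    (∀ z ∈ m, z ∈ N) ∧ (∀ z ∈ m', z ∈ N) ∧ ∀ z ∈ m, z ∈ m' → z = t := by
  obtain ⟨t, h1, h2⟩ := h
  obtain ⟨l, k1, k2, k3⟩ := h1.path
  obtain ⟨p, q, m', r1, r2, r3, rfl, r5, -, r7⟩ := h2.trim (· = a') (· ∈ l) rfl k1.last_mem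
  obtain ⟨l1, l2, rfl, k4, -⟩ := k1.split r5
  refine ⟨q, l1 ++ [q], m', k4, r1, k2.sublist (by simp), r2, fun z hz => k3 z ?_, r3,
    fun z hz hz' => r7 z hz' ?_⟩
  · simp at hz ⊢; tauto
  · simp at hz ⊢; tauto

theorem St.merge (h : St E b j x a S) (h' : St E b j' a' y S') (hd : ∀ z ∈ S, z ∉ S')
    (hv : Vc E N a a') (hN : ∀ z ∈ N, z ∈ S → z = a) (hN' : ∀ z ∈ N, z ∈ S' → z = a') :
    St E b (j + j') x y (S ∪ S' ∪ N) := by
  obtain ⟨t, m, m', k1, k2, -, -, k5, k6, k7⟩ := hv.clean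
  have r1 := h.ext' k1.rch fun z hz => hN z (k5 z hz)
  have r2 := h'.ext k2.rch fun z hz => hN' z (k6 z hz)
  refine (r1.glue r2 ?_).mono ?_
  · rintro z (hz | hz) (hz' | hz')
    · exact absurd hz' (hd z hz)
    · exact k7 z (hN z (k6 z hz') hz ▸ k1.head_mem) hz'
    · exact k7 z hz (hN' z (k5 z hz) hz' ▸ k2.head_mem)
    · exact k7 z hz hz'
  · rintro z ((hz | hz) | (hz | hz))
    · exact Or.inl (Or.inl hz)
    · exact Or.inr (k5 z hz)
    · exact Or.inl (Or.inr hz)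
    · exact Or.inr (k6 z hz)

theorem St.close (h : St E b j a a' S) (hv : Vc E N a a')
    (hN : ∀ z ∈ N, z ∈ S → z = a ∨ z = a') : ZigIn E b j (S ∪ N) := by
  obtain ⟨t, m, m', k1, k2, k3, k4, k5, k6, k7⟩ := hv.clean
  obtain ⟨Z, h1, h2, h3, h4, h5⟩ := h
  obtain ⟨m1, rfl⟩ := k1.eq_concat
  obtain ⟨m2, rfl⟩ := k2.eq_concat
  refine ⟨t, _, ((h1.ext k1).symm.ext k2), ?_, Or.inr (k5 t (by simp)), ?_⟩
  · simp only [List.nodup_append, List.mem_append, List.mem_singleton] at k3 k4 k5 k6 k7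
    simp only [Multiset.nodup_cons, Multiset.mem_cons, Multiset.mem_add, Multiset.mem_coe, not_or,
      Multiset.nodup_add, Multiset.coe_nodup, Multiset.disjoint_left] at h2 ⊢
    grind
  · intro z hz
    simp only [Multiset.mem_add, Multiset.mem_coe] at hz
    rcases hz with (hz | hz) | hz
    · exact Or.inl (h5 z hz)
    · exact Or.inr (k5 z (by simp [hz]))
    · exact Or.inr (k6 z (by simp [hz]))

/-- cyclic assembly by gluing at shared ends -/
theorem zig_glue {n : ℕ} (hn : 2 ≤ n) (t : ℕ → V) (D : ℕ → Set V) (T : Set V)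
    (ht : ∀ i < n, ∀ k < n, t i = t k → i = k) (htT : ∀ i < n, t i ∈ T)
    (hD : ∀ i < n, ∀ k < n, ∀ z ∈ D i, z ∈ D k → i = k) (hDT : ∀ i < n, ∀ z ∈ D i, z ∉ T)
    (h : ∀ i < n, St E b 1 (t i) (t ((i + 1) % n)) (D i ∪ {t i, t ((i + 1) % n)})) :
    ZigIn E b n {z | z ∈ T ∨ ∃ i < n, z ∈ D i} := by
  have key : ∀ j, j + 1 < n → St E b (j + 1) (t 0) (t (j + 1))
      {z | (∃ i ≤ j + 1, z = t i) ∨ ∃ i ≤ j, z ∈ D i} := by
    intro j
    induction j with
    | zero =>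
      intro hj
      have := h 0 (by omega)
      rw [Nat.mod_eq_of_lt hj] at this
      refine this.mono ?_
      rintro z (hz | rfl | rfl)
      · exact Or.inr ⟨0, le_rfl, hz⟩
      · exact Or.inl ⟨0, by omega, rfl⟩
      · exact Or.inl ⟨1, by omega, rfl⟩
    | succ j ih =>
      intro hj
      have h1 := h (j + 1) (by omega)
      rw [Nat.mod_eq_of_lt hj] at h1
      refine ((ih (by omega)).glue h1 ?_).mono ?_
      · rintro z (⟨i, hi, rfl⟩ | ⟨i, hi, hz⟩) (hz' | hz' | hz')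
        · exact absurd (htT i (by omega)) (hDT _ (by omega) _ hz')
        · exact hz'
        · have := ht i (by omega) _ hj hz'; omega
        · have := hD i (by omega) _ (by omega) z hz hz'; omega
        · exact hz'
        · exact absurd (hz' ▸ htT _ hj) (hDT _ (by omega) _ hz)
      · rintro z ((⟨i, hi, rfl⟩ | ⟨i, hi, hz⟩) | (hz' | rfl | rfl))
        · exact Or.inl ⟨i, by omega, rfl⟩
        · exact Or.inr ⟨i, by omega, hz⟩
        · exact Or.inr ⟨_, le_rfl, hz'⟩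
        · exact Or.inl ⟨_, by omega, rfl⟩
        · exact Or.inl ⟨_, le_rfl, rfl⟩
  obtain ⟨j, rfl⟩ : ∃ j, n = j + 2 := ⟨n - 2, by omega⟩
  have h1 := h (j + 1) (by omega)
  rw [Nat.mod_self] at h1
  refine (((key j (by omega)).close2 h1 ?_).mono ?_ : ZigIn E b (j + 1 + 1) _)
  · rintro z (⟨i, hi, rfl⟩ | ⟨i, hi, hz⟩) (hz' | hz' | hz')
    · exact absurd (htT i (by omega)) (hDT _ (by omega) _ hz')
    · exact Or.inr hz'
    · exact Or.inl hz'
    · have := hD i (by omega) _ (by omega) z hz hz'; omega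
    · exact Or.inr hz'
    · exact Or.inl hz'
  · rintro z ((⟨i, hi, rfl⟩ | ⟨i, hi, hz⟩) | (hz' | rfl | rfl))
    · exact Or.inl (htT i (by omega))
    · exact Or.inr ⟨i, by omega, hz⟩
    · exact Or.inr ⟨_, by omega, hz'⟩
    · exact Or.inl (htT _ (by omega))
    · exact Or.inl (htT _ (by omega))

/-- cyclic assembly by merging -/
theorem zig_merge {n : ℕ} (hn : 1 ≤ n) (x y : ℕ → V) (S N : ℕ → Set V)
    (h : ∀ i < n, St E b 1 (x i) (y i) (S i))
    (hv : ∀ i < n, Vc E (N ((i + 1) % n)) (y i) (x ((i + 1) % n)))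
    (hS : ∀ i < n, ∀ k < n, ∀ z ∈ S i, z ∈ S k → i = k)
    (hN : ∀ i < n, ∀ k < n, ∀ z ∈ N i, z ∈ N k → i = k)
    (hSN : ∀ i < n, ∀ k < n, ∀ z ∈ S i, z ∈ N k → (z = x i ∧ k = i) ∨ (z = y i ∧ k = (i + 1) % n)) :
    ZigIn E b n {z | ∃ i < n, z ∈ S i ∨ z ∈ N i} := by
  have key : ∀ j, j < n → St E b (j + 1) (x 0) (y j)
      {z | (∃ i ≤ j, z ∈ S i) ∨ ∃ i ≤ j, 0 < i ∧ z ∈ N i} := by
    intro j
    induction j with
    | zero =>
      intro hj
      exact (h 0 hj).mono fun z hz => Or.inl ⟨0, le_rfl, hz⟩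
    | succ j ih =>
      intro hj
      have h1 := hv j (by omega)
      rw [Nat.mod_eq_of_lt hj] at h1
      refine ((ih (by omega)).merge (h (j + 1) hj) ?_ h1 ?_ ?_).mono ?_
      · rintro z (⟨i, hi, hz⟩ | ⟨i, hi, hi0, hz⟩) hz'
        · have := hS i (by omega) _ hj z hz hz'; omega
        · rcases hSN _ hj i (by omega) z hz' hz with h2 | h2
          · omega
          · rcases Nat.lt_or_ge (j + 1 + 1) n with h3 | h3
            · rw [Nat.mod_eq_of_lt h3] at h2; omega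
            · have : j + 1 + 1 = n := by omega
              rw [this, Nat.mod_self] at h2; omega
      · rintro z hz' (⟨i, hi, hz⟩ | ⟨i, hi, hi0, hz⟩)
        · rcases hSN i (by omega) _ hj z hz hz' with h2 | h2
          · omega
          · rw [Nat.mod_eq_of_lt (by omega)] at h2
            have : i = j := by omega
            rw [h2.1, this]
        · have := hN i (by omega) _ hj z hz hz'; omega
      · intro z hz' hz
        rcases hSN _ hj _ hj z hz hz' with h2 | h2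
        · exact h2.1
        · rcases Nat.lt_or_ge (j + 1 + 1) n with h3 | h3
          · rw [Nat.mod_eq_of_lt h3] at h2; omega
          · have : j + 1 + 1 = n := by omega
            rw [this, Nat.mod_self] at h2; omega
      · rintro z (((⟨i, hi, hz⟩ | ⟨i, hi, hi0, hz⟩) | hz) | hz)
        · exact Or.inl ⟨i, by omega, hz⟩
        · exact Or.inr ⟨i, by omega, hi0, hz⟩
        · exact Or.inl ⟨_, le_rfl, hz⟩
        · exact Or.inr ⟨_, le_rfl, by omega, hz⟩
  obtain ⟨j, rfl⟩ : ∃ j, n = j + 1 := ⟨n - 1, by omega⟩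
  have h1 := hv j (by omega)
  rw [Nat.mod_self] at h1
  refine ((key j (by omega)).close h1.symm ?_).mono ?_
  · rintro z hz' (⟨i, hi, hz⟩ | ⟨i, hi, hi0, hz⟩)
    · rcases hSN i (by omega) 0 (by omega) z hz hz' with h2 | h2
      · left; rw [h2.1, ← h2.2]
      · right
        rcases Nat.lt_or_ge (i + 1) (j + 1) with h3 | h3
        · rw [Nat.mod_eq_of_lt h3] at h2; omega
        · have : i = j := by omega
          rw [h2.1, this]
    · have := hN i (by omega) 0 (by omega) z hz hz'; omega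
  · rintro z ((⟨i, hi, hz⟩ | ⟨i, hi, hi0, hz⟩) | hz)
    · exact ⟨i, by omega, Or.inl hz⟩
    · exact ⟨i, by omega, Or.inr hz⟩
    · exact ⟨0, by omega, Or.inr hz⟩

/-- a directed cycle (type `0`) or a zigzag with `c` sources -/
def Piece (E : V → V → Prop) (b c : ℕ) (S : Set V) : Prop :=
  (c = 0 → CycIn E b S) ∧ (c ≠ 0 → ZigIn E b c S)

/-- disjoint pieces of the prescribed types inside `S` -/
def Fam {ι : Type*} (E : V → V → Prop) (b : ℕ) (c : ι → ℕ) (S : Set V) : Prop :=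
  ∃ Z : ι → Set V, (∀ i, Z i ⊆ S) ∧ (∀ i k z, z ∈ Z i → z ∈ Z k → i = k) ∧
    ∀ i, Piece E b (c i) (Z i)

/-- disjoint zigzags of the prescribed nonzero types inside `S` -/
def Zigs {ι : Type*} (E : V → V → Prop) (b : ℕ) (c : ι → ℕ) (S : Set V) : Prop :=
  ∃ Z : ι → Set V, (∀ i, Z i ⊆ S) ∧ (∀ i k z, z ∈ Z i → z ∈ Z k → i = k) ∧
    ∀ i, c i ≠ 0 → ZigIn E b (c i) (Z i)

theorem Zigs.mono {ι : Type*} {c : ι → ℕ} (h : Zigs E b c S) (hS : S ⊆ S') : Zigs E b c S' :=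
  let ⟨Z, h1, h2⟩ := h; ⟨Z, fun i => (h1 i).trans hS, h2⟩

theorem Fam.mono {ι : Type*} {c : ι → ℕ} (h : Fam E b c S) (hS : S ⊆ S') : Fam E b c S' :=
  let ⟨Z, h1, h2⟩ := h; ⟨Z, fun i => (h1 i).trans hS, h2⟩

theorem Fam.monoE {ι : Type*} {c : ι → ℕ} (h : Fam E b c S) (hE : ∀ x y, E x y → E' x y) :
    Fam E' b c S :=
  let ⟨Z, h1, h2, h3⟩ := h
  ⟨Z, h1, h2, fun i => ⟨fun hc => ((h3 i).1 hc).monoE hE, fun hc => ((h3 i).2 hc).monoE hE⟩⟩

theorem Fam.of_res {ι : Type*} {c : ι → ℕ} {W : Finset V} (h : Fam (res E W) b c S) :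
    Fam E b c W :=
  let ⟨Z, _, h2, h3⟩ := h
  ⟨fun i => Z i ∩ W, fun _ => Set.inter_subset_right, fun i k z hz hz' => h2 i k z hz.1 hz'.1,
    fun i => ⟨fun hc => ((h3 i).1 hc).of_res, fun hc => ((h3 i).2 hc).of_res⟩⟩

theorem Zigs.fam {ι : Type*} [Fintype ι] {c : ι → ℕ} (h : Zigs E b c S) {C : Finset (List V)}
    (hC : Fintype.card ι ≤ C.card) (hP : PD C) (hc : ∀ l ∈ C, CycL' E b l)
    (hd : ∀ l ∈ C, ∀ z ∈ l, z ∉ S) : Fam E b c Set.univ := by
  obtain ⟨Z, h1, h2, h3⟩ := h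
  obtain ⟨f⟩ : Nonempty (ι ↪ C) := Function.Embedding.nonempty_of_card_le (by simpa using hC)
  refine ⟨fun i => if c i = 0 then {z | z ∈ (f i).1} else Z i, fun _ => Set.subset_univ _, ?_, ?_⟩
  · intro i k z hz hz'
    by_cases hi : c i = 0 <;> by_cases hk : c k = 0 <;> simp only [hi, hk, if_true, if_false] at hz hz'
    · exact f.injective (Subtype.ext (hP _ (f i).2 _ (f k).2 z hz hz'))
    · exact absurd (h1 k hz') (hd _ (f i).2 z hz)
    · exact absurd (h1 i hz) (hd _ (f k).2 z hz')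
    · exact h2 i k z hz hz'
  · intro i
    refine ⟨fun hi => ?_, fun hi => ?_⟩
    · simp only [hi, if_true]; exact ⟨_, hc _ (f i).2, fun _ hz => hz⟩
    · simp only [hi, if_false]; exact h3 i hi

end Pool.Agent.P.MP_a3bdf6_co
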