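import Pool.Agent.P.MP_a3bdf6_co.LongCyc
import Pool.Agent.P.MP_a3bdf6_co.Zig
import Pool.Agent.P.MP_a3bdf6_co.USub

/-! Adding a directed cycle to a maderian digraph whose subdivisions lift along contractions. -/

namespace Pool.Agent.P.MP_a3bdf6_co

open Classical Finset

set_option linter.unusedSectionVars false

/-- no loops, and a vertex with two in-neighbours has no third one and at most one out-neighbour -/
structure Fr {α : Type*} (F : α → α → Prop) : Prop where
  irr : ∀ v, ¬ F v v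
  two : ∀ v a b, a ≠ b → F a v → F b v → ∀ c, F c v → c = a ∨ c = b
  out : ∀ v a b, a ≠ b → F a v → F b v → ∀ x y, F v x → F v y → x = y

section lift

variable {α V : Type*} {F : α → α → Prop} {E : V → V → Prop} {u v : V}

theorem chain_nofix : ∀ (l : List V) (a : V), v ∉ l →
    (a :: l).IsChain (fun x y => E x y ∨ (y = v ∧ E x u)) → (a :: l).IsChain E
  | [], _, _, _ => List.isChain_singleton _
  | y :: l, a, hv, h => by
    rw [List.isChain_cons_cons] at h ⊢
    rw [List.mem_cons, not_or] at hv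
    exact ⟨h.1.resolve_right fun k => hv.1 k.1.symm, chain_nofix l y hv.2 h.2⟩

theorem chain_last : ∀ (l : List V) (a : V), v ∉ l →
    (a :: l ++ [v]).IsChain (fun x y => E x y ∨ (y = v ∧ E x u)) →
    ¬ (a :: l ++ [v]).IsChain E → (a :: l ++ [u]).IsChain E
  | [], a, _, h, h' => by
    simp only [List.cons_append, List.nil_append, List.isChain_pair] at h h' ⊢
    exact (h.resolve_left h').2
  | y :: l, a, hv, h, h' => by
    simp only [List.cons_append, List.isChain_cons_cons] at h h' ⊢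
    rw [List.mem_cons, not_or] at hv
    have := h.1.resolve_right fun k => hv.1 k.1.symm
    exact ⟨this, chain_last l y hv.2 h.2 fun k => h' ⟨this, k⟩⟩

theorem chain_fix (huv : E u v) (b : V) : ∀ (l : List V) (a : V), (l ++ [b]).Nodup → u ∉ l ++ [b] →
    (a :: l ++ [b]).IsChain (fun x y => E x y ∨ (y = v ∧ E x u)) →
    ∃ l', (a :: l' ++ [b]).IsChain E ∧ l'.Nodup ∧ ∀ z ∈ l', z ∈ l ∨ z = u
  | [], a, _, _, h => by
    simp only [List.cons_append, List.nil_append, List.isChain_pair] at h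
    rcases h with h | ⟨rfl, h⟩
    · exact ⟨[], by simpa using h, by simp, by simp⟩
    · exact ⟨[u], by simpa using ⟨h, huv⟩, by simp, by simp⟩
  | y :: l, a, hn, hu, h => by
    simp only [List.cons_append, List.isChain_cons_cons, List.nodup_cons, List.mem_cons,
      not_or] at h hn hu
    rcases h with ⟨h | ⟨rfl, h⟩, h'⟩
    · obtain ⟨l', k1, k2, k3⟩ := chain_fix huv b l y hn.2 hu.2 h'
      refine ⟨y :: l', List.isChain_cons_cons.2 ⟨h, k1⟩, List.nodup_cons.2 ⟨fun hy => ?_, k2⟩,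
        fun z hz => ?_⟩
      · rcases k3 y hy with k | k
        · exact hn.1 (by simp [k])
        · exact hu.1 k.symm
      · rcases List.mem_cons.1 hz with rfl | hz
        · simp
        · exact (k3 z hz).imp (List.mem_cons_of_mem _) id
    · refine ⟨u :: y :: l, List.isChain_cons_cons.2 ⟨h, List.isChain_cons_cons.2
        ⟨huv, chain_nofix _ y hn.1 h'⟩⟩, ?_, by simp +contextual [or_imp]⟩
      simp only [List.mem_append, not_or, List.nodup_append] at hn hu
      simp [hu.1, hu.2.1, hn.1.1, hn.2.1]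

theorem SubD.lift (hF : Fr F) (huv : E u v) {S : Set V} (hu : u ∉ S) {φ : α → V}
    {P : α → α → List V} (h : SubD F (fun x y => E x y ∨ (y = v ∧ E x u)) S φ P) :
    ∃ φ' P', SubD F E (insert u S) φ' P' ∧
      ∀ c, (∀ a b, F a c → F b c → a = b) → φ' c = φ c := by
  have hφ : ∀ a, φ a ≠ u := fun a hh => hu (hh ▸ h.mem a)
  have hP : ∀ a b, F a b → u ∉ P a b := fun a b e hh => hu (h.inner a b e u hh).1
  have nofix : ∀ a b, F a b → v ∉ P a b → φ b ≠ v → (φ a :: P a b ++ [φ b]).IsChain E :=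
    fun a b e h1 h2 => chain_nofix _ _ (by simp [h1, h2.symm]) (h.chain a b e)
  by_cases h2 : ∀ a b a' b', F a b → F a' b' → ¬ (φ a :: P a b ++ [φ b]).IsChain E →
      ¬ (φ a' :: P a' b' ++ [φ b']).IsChain E → a = a' ∧ b = b'
  · have key : ∀ a b, ∃ l', F a b → (φ a :: l' ++ [φ b]).IsChain E ∧ l'.Nodup ∧
        ∀ z ∈ l', z ∈ P a b ∨ (z = u ∧ ¬ (φ a :: P a b ++ [φ b]).IsChain E) := by
      intro a b
      by_cases e : F a b
      · by_cases hc : (φ a :: P a b ++ [φ b]).IsChain E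
        · exact ⟨P a b, fun _ => ⟨hc, h.nodup a b e, fun z hz => Or.inl hz⟩⟩
        · obtain ⟨l', k1, k2, k3⟩ := chain_fix huv (φ b) (P a b) (φ a) (by
            rw [List.nodup_append]
            refine ⟨h.nodup a b e, by simp, fun z hz w hw hzw => ?_⟩
            rw [List.mem_singleton] at hw
            exact (h.inner a b e z hz).2 b (hw ▸ hzw.symm))
            (by simp [hP a b e, (hφ b).symm]) (h.chain a b e)
          exact ⟨l', fun _ => ⟨k1, k2, fun z hz => (k3 z hz).imp id fun k => ⟨k, hc⟩⟩⟩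
      · exact ⟨[], fun e' => absurd e' e⟩
    choose P' hP' using key
    refine ⟨φ, P', ⟨h.inj, fun a => Or.inr (h.mem a), fun a b e => (hP' a b e).1,
      fun a b e => (hP' a b e).2.1, fun a b e z hz => ?_, fun a b a' b' e e' z hz hz' => ?_⟩,
      fun _ _ => rfl⟩
    · rcases (hP' a b e).2.2 z hz with k | ⟨rfl, -⟩
      · exact ⟨Or.inr (h.inner a b e z k).1, (h.inner a b e z k).2⟩
      · exact ⟨Or.inl rfl, hφ⟩
    · rcases (hP' a b e).2.2 z hz with k | ⟨rfl, k⟩ <;>
        rcases (hP' a' b' e').2.2 _ hz' with k' | ⟨k', k''⟩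
      · exact h.disj a b a' b' e e' z k k'
      · exact absurd (k' ▸ k) (hP a b e)
      · exact absurd k' (hP a' b' e')
      · exact h2 a b a' b' e e' k k''
  push Not at h2
  obtain ⟨a, b, a', b', e, e', c1, c2, hne⟩ := h2
  have hb : ∀ {a b a' b'}, F a b → F a' b' → ¬ (φ a :: P a b ++ [φ b]).IsChain E →
      ¬ (φ a' :: P a' b' ++ [φ b']).IsChain E → ¬ (a = a' ∧ b = b') → φ b = v := by
    intro a b a' b' e e' c1 c2 hne
    by_contra hv
    have k1 : v ∈ P a b := by
      by_contra k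
      exact c1 (nofix a b e k hv)
    refine c2 (nofix a' b' e' (fun k => hne (h.disj a b a' b' e e' v k1 k))
      ((h.inner a b e v k1).2 b'))
  have hb1 := hb e e' c1 c2 fun k => hne k.1 k.2
  have hb2 := hb e' e c2 c1 fun k => hne k.1.symm k.2.symm
  obtain rfl : b = b' := h.inj (hb1.trans hb2.symm)
  have haa : a ≠ a' := fun k => hne k rfl
  have hvP : ∀ x y, F x y → v ∉ P x y := fun x y e hh => (h.inner x y e v hh).2 b hb1
  have hφb : ∀ x, x ≠ b → φ x ≠ v := fun x hx hh => hx (h.inj (hh.trans hb1.symm))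
  have hup : ∀ x, x ≠ b → Function.update φ b u x = φ x := fun x hx => Function.update_of_ne hx _ _
  refine ⟨Function.update φ b u, fun x y => if x = b then v :: P x y else P x y,
    ⟨?_, ?_, ?_, ?_, ?_, ?_⟩, fun c hc => hup c fun k => haa (hc a a' (k ▸ e) (k ▸ e'))⟩
  · intro x y hxy
    by_cases hx : x = b <;> by_cases hy : y = b
    · rw [hx, hy]
    · rw [hx, Function.update_self, hup y hy] at hxy; exact absurd hxy.symm (hφ y)
    · rw [hy, Function.update_self, hup x hx] at hxy; exact absurd hxy (hφ x)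
    · rw [hup x hx, hup y hy] at hxy; exact h.inj hxy
  · intro x
    by_cases hx : x = b
    · rw [hx, Function.update_self]; exact Or.inl rfl
    · rw [hup x hx]; exact Or.inr (h.mem x)
  · intro x y exy
    by_cases hx : x = b
    · subst hx
      have hy : y ≠ x := fun k => hF.irr x (k ▸ exy)
      rw [if_pos rfl, Function.update_self, hup y hy]
      have := nofix x y exy (hvP x y exy) (hφb y hy)
      rw [hb1] at this
      exact List.isChain_cons_cons.2 ⟨huv, this⟩
    · rw [if_neg hx, hup x hx]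
      by_cases hy : y = b
      · subst hy
        rw [Function.update_self]
        have k := h.chain x y exy
        rw [hb1] at k c1 c2
        rcases hF.two y a a' haa e e' x exy with rfl | rfl
        · exact chain_last _ _ (hvP _ _ exy) k c1
        · exact chain_last _ _ (hvP _ _ exy) k c2
      · rw [hup y hy]; exact nofix x y exy (hvP x y exy) (hφb y hy)
  · intro x y exy
    split_ifs
    · exact List.nodup_cons.2 ⟨hvP x y exy, h.nodup x y exy⟩
    · exact h.nodup x y exy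
  · intro x y exy z hz
    have : z = v ∨ z ∈ P x y := by
      split_ifs at hz
      · exact List.mem_cons.1 hz
      · exact Or.inr hz
    have hzS : z ∈ S := by
      rcases this with rfl | k
      · exact hb1 ▸ h.mem b
      · exact (h.inner x y exy z k).1
    refine ⟨Or.inr hzS, fun c => ?_⟩
    by_cases hc : c = b
    · rw [hc, Function.update_self]; exact fun k => hu (k ▸ hzS)
    · rw [hup c hc]
      rcases this with rfl | k
      · exact hφb c hc
      · exact (h.inner x y exy z k).2 c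
  · intro x y x' y' exy exy' z hz hz'
    by_cases hzv : z = v
    · subst hzv
      by_cases hx : x = b
      · by_cases hx' : x' = b
        · subst hx
          subst hx'
          exact ⟨rfl, hF.out _ a a' haa e e' y y' exy exy'⟩
        · rw [if_neg hx'] at hz'; exact absurd hz' (hvP _ _ exy')
      · rw [if_neg hx] at hz; exact absurd hz (hvP _ _ exy)
    · refine h.disj x y x' y' exy exy' z ?_ ?_
      · split_ifs at hz
        · exact (List.mem_cons.1 hz).resolve_left hzv
        · exact hz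
      · split_ifs at hz'
        · exact (List.mem_cons.1 hz').resolve_left hzv
        · exact hz'

theorem SubIn.lift (hF : Fr F) (huv : E u v) {S : Set V} (hu : u ∉ S)
    (h : SubIn F (fun x y => E x y ∨ (y = v ∧ E x u)) S) : SubIn F E (insert u S) :=
  let ⟨_, _, h⟩ := h
  let ⟨φ, P, h, _⟩ := h.lift hF huv hu
  ⟨φ, P, h⟩

end lift

/-- properties of a digraph with a vertex set -/
abbrev Pr : Type 1 := ∀ V : Type, (V → V → Prop) → Set V → Prop

/-- monotone properties that lift along contractions of an arc whose tail has out-degree one -/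
structure Lft (F : Pr) : Prop where
  mono : ∀ {V : Type} {E : V → V → Prop} {S S' : Set V}, F V E S → S ⊆ S' → F V E S'
  monoE : ∀ {V : Type} {E E' : V → V → Prop} {S : Set V}, F V E S →
    (∀ x ∈ S, ∀ y ∈ S, E x y → E' x y) → F V E' S
  lift : ∀ {V : Type} {E : V → V → Prop} {S : Set V} {u v : V}, E u v → u ∉ S →
    F V (fun x y => E x y ∨ (y = v ∧ E x u)) S → F V E (insert u S)

/-- the property is forced by large minimum out-degree -/
def MadP (F : Pr) : Prop :=
  ∃ K : ℕ, ∀ (V : Type) [Fintype V] (E : V → V → Prop) (W : Finset V), MinOut E W K → F V E W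

theorem Fr.lft {α : Type*} {F : α → α → Prop} (h : Fr F) : Lft fun _ E S => SubIn F E S :=
  ⟨SubIn.mono, SubIn.monoE, fun h1 h2 => SubIn.lift h h1 h2⟩

/-- the property together with a disjoint set of minimum out-degree one -/
def Goal (F : Pr) : Pr := fun V E W =>
  ∃ S1 ⊆ W, ∃ S2 : Finset V, (S2 : Set V) ⊆ W ∧ (∀ z ∈ S1, z ∉ S2) ∧ F V E S1 ∧ MinOut E S2 1

theorem minOut_one' {V : Type} {E : V → V → Prop} {S : Finset V} :
    MinOut E S 1 ↔ S.Nonempty ∧ ∀ v ∈ S, ∃ y ∈ S, E v y := by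
  unfold MinOut
  simp only [one_le_card, filter_nonempty_iff]

theorem minOut_lift {V : Type} {E : V → V → Prop} {u v : V} (huv : E u v) {S : Finset V}
    (h : MinOut (fun x y => E x y ∨ (y = v ∧ E x u)) S 1) :
    MinOut E (if v ∈ S then insert u S else S) 1 := by
  obtain ⟨k3, k4⟩ := minOut_one'.1 h
  clear h
  split_ifs with h
  · refine minOut_one'.2 ⟨insert_nonempty _ _, fun x hx => ?_⟩
    rcases mem_insert.1 hx with rfl | hx
    · exact ⟨v, mem_insert_of_mem h, huv⟩
    · obtain ⟨y, hy, e | ⟨-, e⟩⟩ := k4 x hx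
      · exact ⟨y, mem_insert_of_mem hy, e⟩
      · exact ⟨u, mem_insert_self _ _, e⟩
  · refine minOut_one'.2 ⟨k3, fun x hx => ?_⟩
    obtain ⟨y, hy, e | ⟨rfl, -⟩⟩ := k4 x hx
    · exact ⟨y, hy, e⟩
    · exact absurd hy h

variable {F : Pr}

theorem Lft.goal (hF : Lft F) : Lft (Goal F) := by
  refine ⟨?_, ?_, ?_⟩
  · rintro V E S S' ⟨S1, h1, S2, h2, h3⟩ hS
    exact ⟨S1, h1.trans hS, S2, h2.trans hS, h3⟩
  · rintro V E E' S ⟨S1, h1, S2, h2, h3, h4, h5⟩ hE
    refine ⟨S1, h1, S2, h2, h3, hF.monoE h4 fun x hx y hy => hE x (h1 hx) y (h1 hy), ?_⟩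
    obtain ⟨k1, k2⟩ := minOut_one'.1 h5
    exact minOut_one'.2 ⟨k1, fun v hv => (k2 v hv).imp fun y hy =>
      ⟨hy.1, hE v (h2 hv) y (h2 hy.1) hy.2⟩⟩
  · rintro V E S u v hv hu ⟨S1, k1, S2, k2, k3, k4, k5⟩
    have k6 := minOut_lift hv k5
    by_cases h4 : v ∈ S2
    · rw [if_pos h4] at k6
      refine ⟨S1, k1.trans (Set.subset_insert _ _), _, ?_, fun z hz hz' => ?_,
        hF.monoE k4 fun x _ y hy e => e.resolve_right fun k => k3 y hy (k.1 ▸ h4), k6⟩
      · rw [coe_insert]; exact Set.insert_subset_insert k2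
      rcases mem_insert.1 hz' with rfl | hz'
      · exact hu (k1 hz)
      · exact k3 z hz hz'
    · rw [if_neg h4] at k6
      refine ⟨insert u S1, Set.insert_subset_insert k1, S2, k2.trans (Set.subset_insert _ _),
        fun z hz => ?_, hF.lift hv (fun h => hu (k1 h)) k4, k6⟩
      rcases hz with rfl | hz
      · exact fun h => hu (k2 h)
      · exact k3 z hz

variable {V : Type} [Fintype V]

/-- `X` meets all directed cycles in `W` -/
def Fvs (E : V → V → Prop) (W X : Finset V) : Prop := ∀ S ⊆ W, MinOut E S 1 → ∃ z ∈ S, z ∈ X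

theorem reduce (hF : Lft F) {K K₀ x₀ : ℕ} (hK : K₀ + 1 ≤ K) (hK2 : 2 ≤ K)
    (H : ∀ (E : V → V → Prop) (W : Finset V), MinOut E W K₀ → F V E W)
    (base : ∀ (O : V → Finset V) (W X : Finset V), W.Nonempty →
      (∀ v ∈ W, O v ⊆ W ∧ (O v).card = K) → X.card ≤ x₀ → Fvs (fun x y => y ∈ O x) W X →
      (∀ v ∈ W, ∃ S ⊆ W.filter fun u => v ∈ O u, MinOut (fun x y => y ∈ O x) S 1) →
      Goal F V (fun x y => y ∈ O x) W) (W : Finset V) :
    ∀ (E : V → V → Prop) (X : Finset V), MinOut E W K → X.card ≤ x₀ → Fvs E W X →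
      Goal F V E W := by
  induction W using Finset.strongInduction with
  | H W ih =>
  intro E X hE hX hf
  obtain ⟨O, hO, -⟩ := hE.exact
  have hOW : MinOut (fun x y => y ∈ O x) W K := minOut_of_sub hE.1 fun v hv =>
    ⟨O v, (hO v hv).2.1.ge, fun y hy => ⟨(hO v hv).1 hy, hy⟩⟩
  have hf' : Fvs (fun x y => y ∈ O x) W X := fun S hS h =>
    hf S hS (h.monoE fun x hx y _ h => (hO x (hS hx)).2.2 y h)
  refine hF.goal.monoE (E := fun x y => y ∈ O x) ?_ fun x hx y _ h => (hO x hx).2.2 y h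
  have hne : ∀ v, (W.erase v).Nonempty := fun v => card_pos.1 (by
    have := hE.card_le
    have := pred_card_le_card_erase (s := W) (a := v)
    omega)
  by_cases h1 : ∃ v ∈ W, v ∈ O v
  · obtain ⟨v, hv, e⟩ := h1
    refine ⟨W.erase v, coe_subset.2 (erase_subset _ _), {v}, by simpa using hv, by simp +contextual,
      H _ _ (hOW.sub (Y := {v}) (K' := K₀) (hne v) (erase_subset v W)
        (fun x _ y hy _ => by by_cases h : y = v <;> simp [h, hy]) (by simp; omega)),
      minOut_one.2 ⟨by simp, by simpa using e⟩⟩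
  push Not at h1
  by_cases h2 : ∃ v ∈ W, ∀ u ∈ W, v ∉ O u
  · obtain ⟨v, hv, e⟩ := h2
    exact hF.goal.mono (ih _ (erase_ssubset hv) _ X (hOW.sub (Y := ∅) (hne v) (erase_subset v W)
      (fun x hx y hy hxy => Or.inl (mem_erase.2
        ⟨fun h => e x (mem_of_mem_erase hx) (h ▸ hxy), hy⟩)) (by simp)) hX
      fun S hS => hf' S (hS.trans (erase_subset _ _))) (coe_subset.2 (erase_subset _ _))
  push Not at h2
  by_cases h3 : ∀ u ∈ W, ∀ v ∈ O u, ∃ x ∈ W, u ∈ O x ∧ v ∈ O x
  · refine base O W X hE.1 (fun v hv => ⟨(hO v hv).1, (hO v hv).2.1⟩) hX hf' fun v hv => ?_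
    obtain ⟨u, hu, h⟩ := h2 v hv
    refine exists_minOut_of_in ⟨u, mem_filter.2 ⟨hu, h⟩⟩ fun w hw => ?_
    obtain ⟨x, hx, k1, k2⟩ := h3 w (mem_filter.1 hw).1 v (mem_filter.1 hw).2
    exact ⟨x, mem_filter.2 ⟨hx, k2⟩, k1⟩
  push Not at h3
  obtain ⟨u, hu, v, hv, h3⟩ := h3
  have hvu : v ≠ u := fun h => h1 u hu (h ▸ hv)
  have hvW : v ∈ W.erase u := mem_erase.2 ⟨hvu, (hO u hu).1 hv⟩
  have key := ih _ (erase_ssubset hu)
    (fun x y => y ∈ O x ∨ (y = v ∧ u ∈ O x)) (X.image fun z => if z = u then v else z)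
    (minOut_of_sub (hne u) fun x hx => by
      have hx' := mem_of_mem_erase hx
      rw [← (hO x hx').2.1]
      by_cases hux : u ∈ O x
      · refine ⟨insert v ((O x).erase u), ?_, fun y hy => ?_⟩
        · rw [card_insert_of_notMem (fun h => h3 x hx' hux (mem_of_mem_erase h)),
            card_erase_add_one hux]
        rcases mem_insert.1 hy with rfl | hy
        · exact ⟨hvW, Or.inr ⟨rfl, hux⟩⟩
        · exact ⟨mem_erase.2 ⟨ne_of_mem_erase hy, (hO x hx').1 (mem_of_mem_erase hy)⟩,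
            Or.inl (mem_of_mem_erase hy)⟩
      · exact ⟨O x, le_rfl, fun y hy =>
          ⟨mem_erase.2 ⟨fun h => hux (h ▸ hy), (hO x hx').1 hy⟩, Or.inl hy⟩⟩)
    (card_image_le.trans hX) (fun S hS h => by
      have huS : u ∉ S := fun h => by simpa using hS h
      obtain ⟨z, k1, k2⟩ := hf' _ (by
        split_ifs
        · exact insert_subset hu (hS.trans (erase_subset _ _))
        · exact hS.trans (erase_subset _ _)) (minOut_lift (E := fun x y => y ∈ O x) hv h)
      by_cases hz : z = u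
      · subst hz
        split_ifs at k1 with h4
        · exact ⟨v, h4, mem_image.2 ⟨z, k2, by simp⟩⟩
        · exact absurd k1 huS
      · refine ⟨z, ?_, mem_image.2 ⟨z, k2, by simp [hz]⟩⟩
        split_ifs at k1
        · exact (mem_insert.1 k1).resolve_left hz
        · exact k1)
  have := hF.goal.lift (E := fun x y => y ∈ O x) hv (by simp) key
  rwa [← coe_insert, insert_erase hu] at this

theorem exists_acyclic (k : ℕ) (A : Finset V) : ∀ E : V → V → Prop,
    (∀ R ⊆ A, ¬ MinOut E R k) → ∃ D : V → Finset V, (∀ x, (D x).card ≤ k) ∧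
      ∀ R ⊆ A, ¬ MinOut (fun x y => E x y ∧ y ∉ D x) R 1 := by
  induction A using Finset.strongInduction with
  | H A ih =>
  intro E h
  rcases A.eq_empty_or_nonempty with rfl | hA
  · exact ⟨fun _ => ∅, by simp, fun R hR k => k.1.ne_empty (subset_empty.1 hR)⟩
  have h1 := h A Subset.rfl
  simp only [MinOut, hA, true_and, not_forall, not_le] at h1
  obtain ⟨v, hv, h1⟩ := h1
  obtain ⟨D, k1, k2⟩ := ih _ (erase_ssubset hv) E fun R hR => h R (hR.trans (erase_subset _ _))
  refine ⟨Function.update D v (A.filter (E v)), fun x => ?_, fun R hR k3 => ?_⟩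
  · by_cases hx : x = v
    · rw [hx, Function.update_self]; exact h1.le
    · rw [Function.update_of_ne hx]; exact k1 x
  · by_cases hvR : v ∈ R
    · obtain ⟨y, hy, e, k4⟩ := (minOut_one.1 k3).2 v hvR
      rw [Function.update_self] at k4
      exact k4 (mem_filter.2 ⟨hR hy, e⟩)
    · refine k2 R (fun z hz => mem_erase.2 ⟨fun hh => hvR (hh ▸ hz), hR hz⟩)
        (k3.monoE fun x hx y _ e => ?_)
      rwa [Function.update_of_ne (fun hh : x = v => hvR (hh ▸ hx))] at e

theorem add_set (hF : Lft F) (hM : MadP F) : MadP (Goal F) := by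
  obtain ⟨K₀, H⟩ := hM
  obtain ⟨q, hq0, hq⟩ := exists_size 2 2 (2 * K₀ + 1) (K₀ + 1)
  refine ⟨q + 1 + K₀, fun V _ E W hE => ?_⟩
  have small : ∀ (W : Finset V) (E : V → V → Prop) (X : Finset V), MinOut E W (q + 1) →
      X.card ≤ q + 1 + K₀ → Fvs E W X → Goal F V E W := by
    refine reduce hF (by omega) (by omega) (H V) fun O W X hW hO hX hf hin => ?_
    have h1 : W ⊆ (X ∩ W).biUnion O := fun v hv => by
      obtain ⟨S, k1, k2⟩ := hin v hv
      obtain ⟨z, k3, k4⟩ := hf S (k1.trans (filter_subset _ _)) k2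
      obtain ⟨k5, k6⟩ := mem_filter.1 (k1 k3)
      exact mem_biUnion.2 ⟨z, mem_inter.2 ⟨k4, k5⟩, k6⟩
    have h2 := (card_le_card h1).trans (card_biUnion_le_card_mul _ _ (q + 1)
      fun z hz => (hO z (mem_inter.1 hz).2).2.le)
    have h3 : (X ∩ W).card ≤ 2 * (q + 1) := (card_le_card inter_subset_left).trans (by omega)
    obtain ⟨c, hc⟩ := exists_polychromatic (α := Bool × Fin (K₀ + 1)) W O (q := q)
      (Δ := 2 * (q + 1) ^ 2) (g := 2 * K₀ + 1) (by simp; omega) (fun i hi => (hO i hi).2)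
      (fun v => (card_filter_le _ _).trans (by nlinarith)) hq
    have key : ∀ s : Bool, MinOut (fun x y => y ∈ O x) (W.filter fun v => (c v).1 = s) (K₀ + 1) := by
      intro s
      obtain ⟨v, hv⟩ := hW
      obtain ⟨y, hy, e⟩ := hc v hv (s, 0)
      refine minOut_of_sub ⟨y, mem_filter.2 ⟨(hO v hv).1 hy, by rw [e]⟩⟩ fun u hu => ?_
      have hu' := (mem_filter.1 hu).1
      choose f hf1 hf2 using fun j : Fin (K₀ + 1) => hc u hu' (s, j)
      refine ⟨univ.image f, ?_, fun y hy => ?_⟩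
      · rw [card_image_of_injective _ fun i j hij => by
          have := (hf2 i).symm.trans (hij ▸ hf2 j)
          exact (Prod.ext_iff.1 this).2]
        simp
      · obtain ⟨j, -, rfl⟩ := mem_image.1 hy
        exact ⟨mem_filter.2 ⟨(hO u hu').1 (hf1 j), by rw [hf2]⟩, hf1 j⟩
    refine ⟨_, coe_subset.2 (filter_subset _ _), _, coe_subset.2 (filter_subset _ _),
      fun z hz hz' => ?_, H V _ _ ((key true).mono (by omega)), (key false).mono (by omega)⟩
    have := (mem_filter.1 hz).2.symm.trans (mem_filter.1 hz').2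
    simp at this
  refine reduce hF (x₀ := Fintype.card V) (by omega) (by omega) (H V)
    (fun O W _ hW hO _ _ hin => ?_) W E univ hE le_rfl
      fun S _ h => h.1.imp fun z hz => ⟨hz, mem_univ z⟩
  have hsum : ∑ v ∈ W, (W.filter fun u => v ∈ O u).card = W.card * (q + 1 + K₀) := by
    simp only [card_filter]
    rw [sum_comm, ← smul_eq_mul, ← sum_const]
    refine sum_congr rfl fun u hu => ?_
    rw [← card_filter, filter_mem_eq_inter, inter_eq_right.2 (hO u hu).1, (hO u hu).2]
  obtain ⟨v, hv, h1⟩ := exists_le_of_sum_le (f := fun v => (W.filter fun u => v ∈ O u).card)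
    (g := fun _ => q + 1 + K₀) hW (by rw [hsum, sum_const, smul_eq_mul])
  obtain ⟨S, k1, k2⟩ := hin v hv
  have hSW := k1.trans (filter_subset _ _)
  by_cases h2 : ∃ R ⊆ W \ S, MinOut (fun x y => y ∈ O x) R K₀
  · obtain ⟨R, k3, k4⟩ := h2
    exact ⟨R, coe_subset.2 (k3.trans sdiff_subset), S, coe_subset.2 hSW,
      fun z hz => (mem_sdiff.1 (k3 hz)).2, H V _ _ k4, k2⟩
  push Not at h2
  obtain ⟨D, k3, k4⟩ := exists_acyclic K₀ (W \ S) _ h2
  refine hF.goal.monoE (small W (fun x y => y ∈ O x ∧ y ∉ D x) S (minOut_of_sub hW fun u hu =>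
    ⟨O u \ D u, ?_, fun y hy => ⟨(hO u hu).1 (mem_sdiff.1 hy).1, mem_sdiff.1 hy⟩⟩)
    ((card_le_card k1).trans h1) fun R hR k5 => ?_) fun _ _ _ _ e => e.1
  · have := le_card_sdiff (D u) (O u)
    have := (hO u hu).2
    have := k3 u
    omega
  · by_contra k6
    push Not at k6
    exact k4 R (fun z hz => mem_sdiff.2 ⟨hR hz, k6 z hz⟩) k5

/-- the property together with `m` disjoint sets of minimum out-degree one -/
theorem add_sets (hF : Lft F) (hM : MadP F) (m : ℕ) : Lft (Goal^[m] F) ∧ MadP (Goal^[m] F) ∧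
    ∀ (V : Type) (E : V → V → Prop) (W : Set V), Goal^[m] F V E W → ∃ S ⊆ W, F V E S ∧
      ∃ Z : Fin m → Finset V, (∀ i, MinOut E (Z i) 1 ∧ ∀ z ∈ Z i, z ∈ W ∧ z ∉ S) ∧
        ∀ i j z, z ∈ Z i → z ∈ Z j → i = j := by
  induction m with
  | zero => exact ⟨hF, hM, fun V E W h => ⟨W, le_rfl, h, Fin.elim0, fun i => i.elim0,
      fun i => i.elim0⟩⟩
  | succ m ih =>
    rw [Function.iterate_succ_apply']
    obtain ⟨h1, h2, h3⟩ := ih
    refine ⟨h1.goal, add_set h1 h2, ?_⟩
    rintro V E W ⟨S1, k1, S2, k2, k3, k4, k5⟩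
    obtain ⟨S, r1, r2, Z, r3, r4⟩ := h3 V E S1 k4
    refine ⟨S, r1.trans k1, r2, Fin.cons S2 Z, fun i => ?_, fun i j z => ?_⟩
    · refine Fin.cases ?_ (fun i => ?_) i
      · exact ⟨k5, fun z hz => ⟨k2 hz, fun h => k3 z (r1 h) hz⟩⟩
      · exact ⟨(r3 i).1, fun z hz => ⟨k1 ((r3 i).2 z hz).1, ((r3 i).2 z hz).2⟩⟩
    · refine Fin.cases ?_ (fun i => ?_) i <;> refine Fin.cases ?_ (fun j => ?_) j <;>
        simp only [Fin.cons_zero, Fin.cons_succ] <;> intro hz hz'
      · trivial
      · exact absurd hz (k3 z ((r3 j).2 z hz').1)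
      · exact absurd hz' (k3 z ((r3 i).2 z hz).1)
      · rw [r4 i j z hz hz']

theorem add_cycles (hF : Lft F) (hM : MadP F) {ι : Type} [Fintype ι] (b : ℕ) :
    ∃ K : ℕ, ∀ (V : Type) [Fintype V] (E : V → V → Prop) (W : Finset V), MinOut E W K →
      ∃ S ⊆ (W : Set V), F V E S ∧ Fam E b (fun _ : ι => 0) (W \ S) := by
  obtain ⟨-, ⟨k, hk⟩, h0⟩ := add_sets hF hM (Fintype.card ι)
  obtain ⟨K, hK⟩ := exists_girth k b
  refine ⟨K, fun V _ E W hE => ?_⟩
  obtain ⟨E', h1, h2, h3⟩ := hK V E W hE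
  obtain ⟨S, k1, k2, Z, k3, k4⟩ := h0 V E' W (hk V E' W h2)
  let e := Fintype.equivFin ι
  refine ⟨S, k1, hF.monoE k2 fun x _ y _ => h1 x y, fun i => Z (e i),
    fun i z hz => (k3 _).2 z hz, fun i j z hz hz' => e.injective (k4 _ _ z hz hz'),
    fun i => ⟨fun _ => ?_, fun h => absurd rfl h⟩⟩
  obtain ⟨c, r1, r2⟩ := exists_cycle (k3 (e i)).1
  obtain ⟨x, l, e, r3, r4⟩ := h3 c r1
  exact ⟨c, ⟨x, l, e, r3.imp fun _ _ => h1 _ _, r4⟩, r2⟩

end Pool.Agent.P.MP_a3bdf6_co
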