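import Pool.Agent.P.MP_a3bdf6_co.Defs

namespace Pool.Agent.P.MP_a3bdf6_co

/-- `F` is out-degree maderian: for some `k`, every finite nonempty loopless digraph of minimum
out-degree at least `k` contains a subdivision of `F`. -/
def Maderian {α : Type} (F : Digraph α) : Prop :=
  ∃ k : ℕ, ∀ (V : Type) [Fintype V] [Nonempty V] (D : Digraph V),
    (∀ v, ¬ D.Adj v v) → (∀ v, k ≤ {w | D.Adj v w}.ncard) → ContainsSubdivision F D

/-- The disjoint union of two digraphs. -/
def dsum {α β : Type} (F : Digraph α) (G : Digraph β) : Digraph (α ⊕ β) where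
  Adj := Sum.LiftRel F.Adj G.Adj

/-- The disjoint union of `M` copies of `F`. -/
def copies {α : Type} (M : ℕ) (F : Digraph α) : Digraph (Fin M × α) where
  Adj a b := a.1 = b.1 ∧ F.Adj a.2 b.2

/-- Every vertex has in-degree at most one, or in-degree two and out-degree at most one. -/
def Friendly {α : Type} (F : Digraph α) : Prop :=
  ∀ v, {u | F.Adj u v}.ncard ≤ 1 ∨ ({u | F.Adj u v}.ncard = 2 ∧ {w | F.Adj v w}.ncard ≤ 1)

/-- A disjoint union of in-arborescences: out-degrees at most one and no directed cycle. -/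
def InForest {α : Type} (T : Digraph α) : Prop :=
  (∀ v, {w | T.Adj v w}.ncard ≤ 1) ∧ ∀ v, ¬ Relation.TransGen T.Adj v v

end Pool.Agent.P.MP_a3bdf6_co
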