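import Pool.Agent.P.MP_a3bdf6_co.Subdiv
import Pool.Agent.P.MP_a3bdf6_co.UBig
import Pool.Agent.P.MP_a3bdf6_co.UCyc

/-! Adding orientations of cycles to a maderian digraph. -/

namespace Pool.Agent.P.MP_a3bdf6_co

open Classical

/-- closed walks that follow `w` are found in long pieces of one type `c` with `p c` -/
def SG (p : ℕ → Prop) (w : List Bool) : Prop :=
  ∃ c : ℕ, p c ∧ ∀ b : ℕ, ∃ b0 : ℕ, ∀ b', b0 ≤ b' → ∀ (V : Type) (E : V → V → Prop) (S : Set V),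
    Piece E b' c S → CW E b w S

variable {p : ℕ → Prop}

theorem SG.rot {w w' : List Bool} (h : SG p (w ++ w')) : SG p (w' ++ w) := by
  obtain ⟨c, hc, h⟩ := h
  refine ⟨c, hc, fun b => ?_⟩
  obtain ⟨b0, h⟩ := h b
  exact ⟨b0, fun b' hb V E S hP => (h b' hb V E S hP).rot⟩

theorem SG.dup {d : Bool} {w : List Bool} (h : SG p (d :: w)) : SG p (d :: d :: w) := by
  obtain ⟨c, hc, h⟩ := h
  refine ⟨c, hc, fun b => ?_⟩
  obtain ⟨b0, h⟩ := h (2 * b + 1)
  exact ⟨b0, fun b' hb V E S hP => (h b' hb V E S hP).dup⟩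

theorem sg_single (d : Bool) : SG (· = 0) [d] := by
  refine ⟨0, rfl, fun b => ⟨b, fun b' hb V E S hP => ?_⟩⟩
  obtain ⟨c, ⟨x, l, rfl, h1, h2, h3⟩, h4⟩ := hP.1 rfl
  refine ⟨x, _, SOW.cons ⟨fun _ => h1, fun _ => h1⟩ (hb.trans h3) (SOW.nil x), ?_, ?_⟩
  · simpa using h2
  · intro z hz
    refine h4 z ?_
    simp only [add_zero, Multiset.mem_cons, Multiset.mem_coe] at hz
    rcases hz with rfl | hz
    · simp
    · simp [hz]

theorem sg_alt_false (a : ℕ) : SG (· ≠ 0) (altw false (2 * a + 2)) := by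
  refine ⟨a + 1, by omega, fun b => ⟨b, fun b' hb V E S hP => ?_⟩⟩
  obtain ⟨x, Z, h1, h2, h3, h4⟩ := hP.2 (by omega)
  refine ⟨x, _, h1.ow.mono hb, h2, fun z hz => ?_⟩
  rcases Multiset.mem_cons.1 hz with rfl | hz
  · exact h3
  · exact h4 z hz

theorem sg_alt_even (d : Bool) (a : ℕ) : SG (· ≠ 0) (altw d (2 * a + 2)) := by
  cases d with
  | false => exact sg_alt_false a
  | true =>
    have := sg_alt_false a
    rw [altw_even] at this
    exact this.rot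

theorem sg_alt (d : Bool) (k : ℕ) (hk : k ≠ 0) : SG (· ≠ 0) (altw d (k + 1)) := by
  obtain ⟨a, rfl | rfl⟩ := Nat.even_or_odd' k
  · cases a with
    | zero => exact absurd rfl hk
    | succ a =>
      rw [altw_odd]
      exact SG.rot (w := [d]) (SG.dup (sg_alt_even d a))
  · exact sg_alt_even d a

theorem exists_alt2 (p : ℕ → Prop) : ∀ (d : Bool) (w : List Bool), ∃ k,
    (k = 0 ↔ ∀ e ∈ w, e = d) ∧ ∀ t, SG p (altw d (k + 1) ++ t) → SG p (d :: w ++ t)
  | d, [] => ⟨0, by simp, fun _ h => h⟩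
  | d, e :: w => by
    obtain ⟨k, h0, hk⟩ := exists_alt2 p e w
    have key : ∀ t, SG p (d :: altw e (k + 1) ++ t) → SG p (d :: e :: w ++ t) := by
      intro t h
      have h1 : SG p ((altw e (k + 1) ++ t) ++ [d]) := SG.rot (w := [d]) h
      rw [List.append_assoc] at h1
      have h2 := hk _ h1
      rw [← List.append_assoc] at h2
      exact h2.rot
    by_cases hde : e = d
    · subst hde
      exact ⟨k, by simpa using h0, fun t h => key t (SG.dup h)⟩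
    · have : e = !d := by cases d <;> cases e <;> simp_all
      subst this
      exact ⟨k + 1, by simp, fun t h => key t h⟩

theorem sg_const {N : ℕ} (o : Fin (N + 1) → Bool) (h : ∀ x y, o x = o y) :
    SG (· = 0) (List.ofFn o) := by
  rw [List.ofFn_succ]
  obtain ⟨k, h0, hk⟩ := exists_alt2 (· = 0) (o 0) (List.ofFn fun i => o (Fin.succ i))
  obtain rfl : k = 0 := h0.2 fun e he => by
    obtain ⟨i, rfl⟩ := List.mem_ofFn.1 he
    exact h _ _
  simpa using hk [] (by simpa [altw] using sg_single (o 0))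

theorem sg_nonconst {N : ℕ} (o : Fin (N + 1) → Bool) (h : ¬ ∀ x y, o x = o y) :
    SG (· ≠ 0) (List.ofFn o) := by
  rw [List.ofFn_succ]
  obtain ⟨k, h0, hk⟩ := exists_alt2 (· ≠ 0) (o 0) (List.ofFn fun i => o (Fin.succ i))
  have hk0 : k ≠ 0 := fun hk0 => h (by
    have h1 : ∀ x, o x = o 0 := fun x => by
      refine Fin.cases rfl (fun i => ?_) x
      exact h0.1 hk0 _ (List.mem_ofFn.2 ⟨i, rfl⟩)
    intro x y
    rw [h1 x, h1 y])
  simpa using hk [] (by simpa using sg_alt (o 0) k hk0)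

theorem subIn_of_fns {T V : Type} {E : V → V → Prop} {S : Set V} (F : T → T → Prop)
    (o : T → Bool) (nx : T → T)
    (hF : ∀ u v, F u v → (o u = true ∧ v = nx u) ∨ (o v = false ∧ u = nx v))
    (φ : T → V) (A : T → List V) (h1 : ∀ t, Seg E (o t) (φ t) (φ (nx t)) (A t))
    (h2 : ∀ t, (φ t :: A t).Nodup)
    (h3 : ∀ t t', t ≠ t' → ∀ z, z ∈ φ t :: A t → z ∉ φ t' :: A t')
    (h4 : ∀ t, ∀ z ∈ φ t :: A t, z ∈ S) : SubIn F E S := by
  let e : T → T → T := fun u v => if o u = true ∧ v = nx u then u else v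
  have he : ∀ u v, F u v → (o u = true ∧ v = nx u ∧ e u v = u) ∨
      (o v = false ∧ u = nx v ∧ e u v = v) := by
    intro u v h
    by_cases hc : o u = true ∧ v = nx u
    · exact Or.inl ⟨hc.1, hc.2, if_pos hc⟩
    · exact Or.inr ⟨((hF u v h).resolve_left hc).1, ((hF u v h).resolve_left hc).2, if_neg hc⟩
  refine ⟨φ, fun u v => A (e u v), fun t t' h => ?_, fun t => h4 t _ (by simp), fun u v h => ?_,
    fun u v h => (List.nodup_cons.1 (h2 _)).2,
    fun u v h x hx => ⟨h4 _ x (List.mem_cons_of_mem _ hx), ?_⟩,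
    fun u v u' v' h h' z hz hz' => ?_⟩
  · by_contra hne
    exact h3 t t' hne (φ t) (by simp) (by simp [h])
  · rcases he u v h with ⟨a1, a2, a3⟩ | ⟨a1, a2, a3⟩
    · rw [a3, a2]; exact (h1 u).1 a1
    · rw [a3, a2]; exact (h1 v).2 a1
  · rintro t rfl
    by_cases ht : t = e u v
    · exact (List.nodup_cons.1 (h2 t)).1 (ht ▸ hx)
    · exact h3 t _ ht (φ t) (by simp) (List.mem_cons_of_mem _ hx)
  · have hee : e u v = e u' v' := by
      by_contra hne
      exact h3 _ _ hne z (List.mem_cons_of_mem _ hz) (List.mem_cons_of_mem _ hz')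
    rcases he u v h with ⟨a1, a2, a3⟩ | ⟨a1, a2, a3⟩ <;>
      rcases he u' v' h' with ⟨b1, b2, b3⟩ | ⟨b1, b2, b3⟩ <;> rw [a3, b3] at hee
    · rw [a2, b2, hee]; exact ⟨rfl, rfl⟩
    · rw [hee, b1] at a1; cases a1
    · rw [hee, b1] at a1; cases a1
    · rw [a2, b2, hee]; exact ⟨rfl, rfl⟩

/-- the relation of a disjoint union of oriented cycles -/
def CU {ι : Type} (n : ι → ℕ) (o : (i : ι) → Fin (n i + 2) → Bool)
    (a b : (i : ι) × Fin (n i + 2)) : Prop :=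
  ∃ (i : ι) (x y : Fin (n i + 2)), a = ⟨i, x⟩ ∧ b = ⟨i, y⟩ ∧
    if n i = 0 then x ≠ y else (y = x + 1 ∧ o i x = true) ∨ (x = y + 1 ∧ o i y = false)

theorem cu_subIn {ι : Type} [Fintype ι] (n : ι → ℕ) (o : (i : ι) → Fin (n i + 2) → Bool) :
    ∃ (c : ι → ℕ) (b : ℕ), (∀ i, c i = 0 ↔ (n i = 0 ∨ ∀ x y, o i x = o i y)) ∧
      ∀ (V : Type) (E : V → V → Prop) (S : Set V), Fam E b c S → SubIn (CU n o) E S := by
  let o' : (i : ι) → Fin (n i + 2) → Bool := fun i x => if n i = 0 then true else o i x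
  have hg : ∀ i, SG (fun c => c = 0 ↔ (n i = 0 ∨ ∀ x y, o i x = o i y)) (List.ofFn (o' i)) := by
    intro i
    by_cases h : n i = 0 ∨ ∀ x y, o i x = o i y
    · obtain ⟨c, h1, h2⟩ := sg_const (o' i) fun x y => by
        simp only [o']
        split_ifs with h0
        · rfl
        · exact h.resolve_left h0 x y
      exact ⟨c, iff_of_true h1 h, h2⟩
    · obtain ⟨c, h1, h2⟩ := sg_nonconst (o' i) fun k => h (Or.inr fun x y => by
        simpa only [o', if_neg (not_or.1 h).1] using k x y)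
      exact ⟨c, iff_of_false h1 h, h2⟩
  choose c hc0 hc using hg
  choose b0 hb0 using fun i => hc i 0
  refine ⟨c, Finset.univ.sup b0, hc0, fun V E S ⟨Z, hS, hZ, hP⟩ => ?_⟩
  have hW : ∀ i, CW E 0 (List.ofFn (o' i)) (Z i) := fun i =>
    hb0 i _ (Finset.le_sup (Finset.mem_univ i)) V E (Z i) (hP i)
  choose φ A h1 h2 h3 h4 using fun i => (hW i).fns
  refine subIn_of_fns _ (fun t => o' t.1 t.2) (fun t => ⟨t.1, t.2 + 1⟩) ?_
    (fun t => φ t.1 t.2) (fun t => A t.1 t.2) (fun t => h1 t.1 t.2) (fun t => h2 t.1 t.2) ?_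
    fun t z hz => hS _ (h3 t.1 t.2 z hz)
  · rintro _ _ ⟨i, x, y, rfl, rfl, h⟩
    by_cases hn : n i = 0
    · rw [if_pos hn] at h
      refine Or.inl ⟨if_pos hn, ?_⟩
      have : y = x + 1 := by
        have hx := x.2
        have hy := y.2
        have hxy : (x : ℕ) ≠ y := fun hh => h (Fin.ext hh)
        apply Fin.ext
        rw [Fin.val_add_one]
        split_ifs with hl
        · have := congrArg Fin.val hl
          rw [Fin.val_last] at this
          omega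
        · have : (x : ℕ) ≠ n i + 1 := fun hh => hl (Fin.ext hh)
          omega
      rw [this]
    · rw [if_neg hn] at h
      rcases h with ⟨rfl, h⟩ | ⟨rfl, h⟩
      · exact Or.inl ⟨(if_neg hn).trans h, rfl⟩
      · exact Or.inr ⟨(if_neg hn).trans h, rfl⟩
  · rintro ⟨i, x⟩ ⟨j, y⟩ hne z hz hz'
    have hij : i = j := hZ i j z (h3 i x z hz) (h3 j y z hz')
    subst hij
    exact h4 i x y (fun hh => hne (by rw [hh])) z hz hz'

theorem cu_iff {ι : Type} {n : ι → ℕ} {o : (i : ι) → Fin (n i + 2) → Bool} {i : ι}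
    {x y : Fin (n i + 2)} : CU n o ⟨i, x⟩ ⟨i, y⟩ ↔
      if n i = 0 then x ≠ y else (y = x + 1 ∧ o i x = true) ∨ (x = y + 1 ∧ o i y = false) := by
  refine ⟨?_, fun h => ⟨i, x, y, rfl, rfl, h⟩⟩
  rintro ⟨j, x', y', h1, h2, h⟩
  obtain rfl : i = j := congrArg Sigma.fst h1
  obtain rfl : x = x' := by simpa using h1
  obtain rfl : y = y' := by simpa using h2
  exact h

theorem cu_fr {ι : Type} (n : ι → ℕ) (o : (i : ι) → Fin (n i + 2) → Bool) : Fr (CU n o) := by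
  have key : ∀ v a b, a ≠ b → CU n o a v → CU n o b v → ∃ (i : ι) (x y : Fin (n i + 2)),
      n i ≠ 0 ∧ v = ⟨i, y⟩ ∧ y = x + 1 ∧ o i x = true ∧ o i y = false ∧
        ((a = ⟨i, x⟩ ∧ b = ⟨i, y + 1⟩) ∨ (a = ⟨i, y + 1⟩ ∧ b = ⟨i, x⟩)) := by
    rintro _ _ b hab ⟨i, x, y, rfl, rfl, h⟩ ⟨j, x', y', rfl, h1, h'⟩
    obtain rfl : i = j := congrArg Sigma.fst h1
    obtain rfl : y = y' := by simpa using h1
    have hxx : x ≠ x' := fun hh => hab (by rw [hh])
    by_cases hn : n i = 0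
    · rw [if_pos hn] at h h'
      exfalso
      have := x.2; have := y.2; have := x'.2
      have : (x : ℕ) ≠ y := fun hh => h (Fin.ext hh)
      have : (x' : ℕ) ≠ y := fun hh => h' (Fin.ext hh)
      have : (x : ℕ) ≠ x' := fun hh => hxx (Fin.ext hh)
      omega
    rw [if_neg hn] at h h'
    rcases h with ⟨k1, k2⟩ | ⟨k1, k2⟩ <;> rcases h' with ⟨k3, k4⟩ | ⟨k3, k4⟩
    · exact absurd (add_right_cancel (k1.symm.trans k3)) hxx
    · exact ⟨i, x, y, hn, rfl, k1, k2, k4, Or.inl ⟨rfl, by rw [k3]⟩⟩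
    · exact ⟨i, x', y, hn, rfl, k3, k4, k2, Or.inr ⟨by rw [k1], rfl⟩⟩
    · exact absurd (k1.trans k3.symm) hxx
  refine ⟨?_, fun v a b hab ha hb c hc => ?_, fun v a b hab ha hb z _ hz _ => ?_⟩
  · rintro ⟨i, x⟩ h
    rw [cu_iff] at h
    split_ifs at h
    · exact h rfl
    · simp at h
  · obtain ⟨i, x, y, hn, rfl, k1, k2, k3, k4⟩ := key v a b hab ha hb
    obtain ⟨j, x', y', rfl, h1, h'⟩ := hc
    obtain rfl : i = j := congrArg Sigma.fst h1
    obtain rfl : y = y' := by simpa using h1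
    rw [if_neg hn] at h'
    rcases h' with ⟨r1, -⟩ | ⟨r1, -⟩
    · obtain rfl : x = x' := add_right_cancel (k1.symm.trans r1)
      rcases k4 with ⟨rfl, -⟩ | ⟨-, rfl⟩ <;> simp
    · subst r1
      rcases k4 with ⟨-, rfl⟩ | ⟨rfl, -⟩ <;> simp
  · exfalso
    obtain ⟨i, x, y, hn, rfl, k1, k2, k3, -⟩ := key v a b hab ha hb
    obtain ⟨j, y', x', h1, rfl, h'⟩ := hz
    obtain rfl : i = j := congrArg Sigma.fst h1
    obtain rfl : y = y' := by simpa using h1
    rw [if_neg hn] at h'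
    rcases h' with ⟨-, r2⟩ | ⟨r1, r2⟩
    · rw [k3] at r2; cases r2
    · obtain rfl : x = x' := add_right_cancel (k1.symm.trans r1)
      rw [k2] at r2; cases r2

section

variable {α β : Type} {F : α → α → Prop} {G : β → β → Prop}

theorem Fr.sum (h : Fr F) (h' : Fr G) : Fr (Sum.LiftRel F G) := by
  refine ⟨?_, ?_, ?_⟩
  · rintro _ (e | e)
    · exact h.irr _ e
    · exact h'.irr _ e
  · rintro _ _ _ hab (ea | ea) (eb | eb) _ (ec | ec)
    · simpa using h.two _ _ _ (by simpa using hab) ea eb _ ec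
    · simpa using h'.two _ _ _ (by simpa using hab) ea eb _ ec
  · rintro _ _ _ hab (ea | ea) (eb | eb) _ _ (ex | ex) (ey | ey)
    · simpa using h.out _ _ _ (by simpa using hab) ea eb _ _ ex ey
    · simpa using h'.out _ _ _ (by simpa using hab) ea eb _ _ ex ey

theorem Fr.cop (h : Fr F) (M : ℕ) : Fr (Cop M F) := by
  refine ⟨fun v e => h.irr _ e.2, ?_, ?_⟩
  · rintro ⟨i, v⟩ ⟨_, a⟩ ⟨_, b⟩ hab ⟨rfl, ea⟩ ⟨rfl, eb⟩ ⟨_, c⟩ ⟨rfl, ec⟩
    simpa using h.two _ _ _ (by simpa using hab) ea eb _ ec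
  · rintro ⟨i, v⟩ ⟨_, a⟩ ⟨_, b⟩ hab ⟨rfl, ea⟩ ⟨rfl, eb⟩ ⟨_, x⟩ ⟨_, y⟩ ⟨rfl, ex⟩ ⟨rfl, ey⟩
    simpa using h.out _ _ _ (by simpa using hab) ea eb _ _ ex ey

theorem Mad.sum_empty (h : Mad F) [IsEmpty β] : Mad (Sum.LiftRel F G) :=
  h.comap (Sum.elim id isEmptyElim) (by
    rintro (a | a) (b | b) hh
    · exact congrArg _ hh
    · exact isEmptyElim b
    · exact isEmptyElim a
    · exact isEmptyElim a) (by
    rintro _ _ (e | @⟨a, -, -⟩)
    · exact e
    · exact isEmptyElim a)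

theorem Mad.add_dir (h : Mad F) {ι : Type} [Fintype ι] (n : ι → ℕ)
    (o : (i : ι) → Fin (n i + 2) → Bool) (hd : ∀ i, n i = 0 ∨ ∀ x y, o i x = o i y)
    (hF : Nonempty ι → Fr F) : Mad (Sum.LiftRel F (CU n o)) := by
  rcases isEmpty_or_nonempty ι with h0 | h0
  · exact h.sum_empty
  obtain ⟨c, b, h1, h2⟩ := cu_subIn n o
  obtain rfl : c = fun _ => 0 := funext fun i => (h1 i).2 (hd i)
  obtain ⟨K, hK⟩ := add_cycles (hF h0).lft h (ι := ι) b
  refine ⟨K, fun V _ E W hW => ?_⟩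
  obtain ⟨S, k1, k2, k3⟩ := hK V E W hW
  exact (k2.sum (h2 V E _ k3) fun z hz hz' => hz'.2 hz).mono
    (Set.union_subset k1 Set.sdiff_subset)

theorem Mad.add_cu [Fintype α] (h : Mad F) {m : ℕ} (n : Fin m → ℕ)
    (o : (i : Fin m) → Fin (n i + 2) → Bool)
    (hF : (∃ i, n i = 0 ∨ ∀ x y, o i x = o i y) → Fr F)
    (hM : (∃ i, ¬ (n i = 0 ∨ ∀ x y, o i x = o i y)) → ∀ M, Mad (Cop M F)) :
    Mad (Sum.LiftRel F (CU n o)) := by
  by_cases hall : ∀ i, n i = 0 ∨ ∀ x y, o i x = o i y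
  · exact h.add_dir n o hall fun ⟨i⟩ => hF ⟨i, hall i⟩
  have hM' := hM (not_forall.1 hall)
  let D : Fin m → Prop := fun i => n i = 0 ∨ ∀ x y, o i x = o i y
  let F' := Sum.LiftRel F (CU (fun i : {i // D i} => n i) fun i => o i)
  have h1 : ∀ M, Mad (Cop M F') := fun M => by
    refine ((hM' M).add_dir (fun i : Fin M × {i // D i} => n i.2) (fun i => o i.2)
      (fun i => i.2.2) fun ⟨i⟩ => (hF ⟨i.2, i.2.2⟩).cop M).comap
      (fun a => match a with
        | (k, .inl a) => .inl (k, a)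
        | (k, .inr ⟨i, x⟩) => .inr ⟨(k, i), x⟩) ?_ ?_
    · rintro ⟨k, a | ⟨i, x⟩⟩ ⟨k', a' | ⟨i', x'⟩⟩ hh
      · simpa using hh
      · simp at hh
      · simp at hh
      · simp only [Sum.inr.injEq, Sigma.mk.injEq, Prod.mk.injEq] at hh
        obtain ⟨⟨rfl, rfl⟩, hh⟩ := hh
        rw [eq_of_heq hh]
    · rintro ⟨k, _⟩ ⟨_, _⟩ ⟨rfl, e | ⟨i, x, y, rfl, rfl, e⟩⟩
      · exact Sum.LiftRel.inl ⟨rfl, e⟩
      · exact Sum.LiftRel.inr ⟨(k, i), x, y, rfl, rfl, e⟩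
  obtain ⟨c, b, h2, h3⟩ := cu_subIn (fun i : {i // ¬ D i} => n i) fun i => o i
  obtain ⟨K, hK⟩ := add_zigs h1 (fun i => if h : D i then 0 else c ⟨i, h⟩) b
  have h4 : Mad (Sum.LiftRel F' (CU (fun i : {i // ¬ D i} => n i) fun i => o i)) := by
    refine ⟨K, fun V _ E W hW => ?_⟩
    obtain ⟨S, k1, k2, Z, k3, k4, k5⟩ := hK V E W hW
    refine (k2.sum (h3 V E (W \ S) ⟨fun i => Z i, fun i => k3 i,
      fun i j z hz hz' => Subtype.ext (k4 i j z hz hz'), fun i => ?_⟩)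
        fun z hz hz' => hz'.2 hz).mono (Set.union_subset k1 Set.sdiff_subset)
    have k6 : c i ≠ 0 := fun hh => i.2 ((h2 i).1 hh)
    refine ⟨fun hh => absurd hh k6, fun _ => ?_⟩
    have := k5 i
    simp only [dif_neg i.2] at this
    exact this k6
  refine h4.comap (fun a => match a with
    | .inl a => .inl (.inl a)
    | .inr ⟨i, x⟩ => if h : D i then .inl (.inr ⟨⟨i, h⟩, x⟩) else .inr ⟨⟨i, h⟩, x⟩) ?_ ?_
  · rintro (a | ⟨i, x⟩) (a' | ⟨i', x'⟩) hh
    · simpa using hh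
    · by_cases h : D i' <;> simp [h] at hh
    · by_cases h : D i <;> simp [h] at hh
    · by_cases h : D i <;> by_cases h' : D i' <;>
        simp only [h, h', dif_pos, dif_neg, not_false_eq_true, Sum.inl.injEq, Sum.inr.injEq,
          Sigma.mk.injEq, Subtype.mk.injEq, reduceCtorEq] at hh
      · obtain ⟨rfl, hh⟩ := hh
        rw [eq_of_heq hh]
      · obtain ⟨rfl, hh⟩ := hh
        rw [eq_of_heq hh]
  · rintro _ _ (e | ⟨i, x, y, rfl, rfl, e⟩)
    · exact Sum.LiftRel.inl (Sum.LiftRel.inl e)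
    · by_cases h : D i
      · simp only [h, dif_pos]
        exact Sum.LiftRel.inl (Sum.LiftRel.inr ⟨⟨i, h⟩, x, y, rfl, rfl, e⟩)
      · simp only [h, dif_neg, not_false_eq_true]
        exact Sum.LiftRel.inr ⟨⟨i, h⟩, x, y, rfl, rfl, e⟩

end

end Pool.Agent.P.MP_a3bdf6_co
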