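import Pool.Agent.P.MP_a3bdf6_co.UPack
import Pool.Agent.P.MP_a3bdf6_co.UWord

/-! Conversions between the stated and the working definitions. -/

namespace Pool.Agent.P.MP_a3bdf6_co

open Classical

theorem Friendly.fr {α : Type} [Fintype α] {F : Digraph α} (h : Friendly F)
    (hl : ∀ v, ¬ F.Adj v v) : Fr F.Adj := by
  have key : ∀ v a b, a ≠ b → F.Adj a v → F.Adj b v →
      {u | F.Adj u v}.ncard = 2 ∧ {w | F.Adj v w}.ncard ≤ 1 := fun v a b hab ea eb =>
    (h v).resolve_left fun k => hab ((Set.ncard_le_one (Set.toFinite _)).1 k a ea b eb)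
  refine ⟨hl, fun v a b hab ea eb c ec => ?_, fun v a b hab ea eb x y ex ey =>
    (Set.ncard_le_one (Set.toFinite _)).1 (key v a b hab ea eb).2 x ex y ey⟩
  have k : ({a, b} : Set α) = {u | F.Adj u v} :=
    Set.eq_of_subset_of_ncard_le (by rintro _ (rfl | rfl); exacts [ea, eb])
      (by rw [(key v a b hab ea eb).1, Set.ncard_pair hab]) (Set.toFinite _)
  have : c ∈ ({a, b} : Set α) := k ▸ ec
  simpa using this

theorem InForest.fun {γ : Type} [Fintype γ] {T : Digraph γ} (h : InForest T) :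
    ∀ v x y, T.Adj v x → T.Adj v y → x = y := fun v x y ex ey =>
  (Set.ncard_le_one (Set.toFinite _)).1 (h.1 v) x ex y ey

theorem closure {α γ : Type} [Fintype α] [Fintype γ] {F : α → α → Prop} {T : γ → γ → Prop}
    {m : ℕ} (n : Fin m → ℕ) (o : (i : Fin m) → Fin (n i + 2) → Bool) (h : Mad F)
    (h1 : ∀ v x y, T v x → T v y → x = y) (h2 : ∀ v, ¬ Relation.TransGen T v v)
    (hF : (Nonempty γ ∨ ∃ i, n i = 0 ∨ ∀ x y, o i x = o i y) → Fr F)
    (hM : (∃ i, ¬ (n i = 0 ∨ ∀ x y, o i x = o i y)) → ∀ M, Mad (Cop M F)) :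
    Mad (Sum.LiftRel (Sum.LiftRel F (CU n o)) T) := by
  have k := h.add_cu n o (fun k => hF (Or.inr k)) hM
  rcases isEmpty_or_nonempty γ with h0 | h0
  · exact k.sum_empty
  · exact k.add_forest ((hF (Or.inl h0)).sum (cu_fr n o)) h1 h2

end Pool.Agent.P.MP_a3bdf6_co
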