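import Pool.Agent.P.MP_a3bdf6_co.UTree

/-! Adding an in-forest to a property that lifts along contractions. -/

namespace Pool.Agent.P.MP_a3bdf6_co

open Classical Finset

set_option linter.unusedSectionVars false

theorem forest_subIn {γ : Type} [Fintype γ] {T : γ → γ → Prop}
    (h1 : ∀ v x y, T v x → T v y → x = y) (h2 : ∀ v, ¬ Relation.TransGen T v v) :
    ∃ l k : ℕ, ∀ (V : Type) (E : V → V → Prop) (v : V) (S : Set V), IT E l k v S →
      SubIn T E S := by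
  obtain ⟨k, ρ, a, a1, a2, a3, -⟩ := exists_address h1 h2
  let e := Fintype.equivFin γ
  let b : γ → List (Fin (Fintype.card γ)) := fun u => e (ρ u) :: a u
  have b1 : ∀ u v, b u = b v → u = v := fun u v h =>
    a1 u v (e.injective (List.cons.inj h).1) (List.cons.inj h).2
  have b2 : ∀ u, (b u).length ≤ k + 1 := fun u => Nat.succ_le_succ (a2 u)
  refine ⟨Fintype.card γ, k + 1, fun V E v S h => ?_⟩
  obtain ⟨φ, Q, -, k2, k3, k4⟩ := h.data
  refine ⟨fun u => φ (b u), fun u _ => Q (b u), fun u v h => b1 u v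
    (k4 _ _ (b2 u) (b2 v) (φ (b u)) (by simp) (by simp [show φ (b u) = φ (b v) from h])),
    fun u => (k3 _ (b2 u)).2 _ (by simp), fun u v e' => ?_,
    fun u v _ => (List.nodup_cons.1 (k3 _ (b2 u)).1).2,
    fun u v _ x hx => ⟨(k3 _ (b2 u)).2 x (by simp [hx]), fun c hc => ?_⟩,
    fun u v u' v' e1 e2 x hx hx' => ?_⟩
  · obtain ⟨r1, i, r2⟩ := a3 u v e'
    have r3 : b u = b v ++ [i] := by simp [b, r1, r2]
    have r4 := b2 u
    rw [r3] at r4 ⊢
    exact k2 _ i (by simpa using r4)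
  · obtain rfl := b1 _ _ (k4 _ _ (b2 c) (b2 u) x (by simp [← hc]) (by simp [hx]))
    exact (List.nodup_cons.1 (k3 _ (b2 c)).1).1 (by rwa [← hc] at hx)
  · obtain rfl := b1 _ _ (k4 _ _ (b2 u) (b2 u') x (by simp [hx]) (by simp [hx']))
    exact ⟨rfl, h1 _ _ _ e1 e2⟩

theorem Lft.lftV {F : Pr} (hF : Lft F) (V : Type) : LftV (F V) := ⟨hF.mono, hF.monoE, hF.lift⟩

variable {V : Type} [Fintype V] {E : V → V → Prop} {l k : ℕ}

/-- a small set that contains an in-tree of depth `j` and whose vertices reach the root -/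
def Blk (E : V → V → Prop) (l j : ℕ) (r : V) (S : Finset V) : Prop :=
  r ∈ S ∧ S.card ≤ (l + 1) ^ j ∧ IT E l j r S ∧ ∀ z ∈ S, Rch E S z r

/-- a partition of `W` into blocks of depth at most `k` -/
structure Pk (E : V → V → Prop) (l k : ℕ) (W R : Finset V) (dep : V → ℕ) (blk : V → Finset V) :
    Prop where
  good : ∀ r ∈ R, dep r ≤ k ∧ blk r ⊆ W ∧ Blk E l (dep r) r (blk r)
  disj : ∀ r ∈ R, ∀ r' ∈ R, ∀ z ∈ blk r, z ∈ blk r' → r = r'
  cover : ∀ z ∈ W, ∃ r ∈ R, z ∈ blk r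

theorem exists_pack (hl : 0 < l) (W : Finset V) :
    (∃ r, ∃ S ⊆ W, Blk E l (k + 1) r S) ∨ ∃ R dep blk, Pk E l k W R dep blk ∧
      ∀ u ∈ R, dep u = 0 → (R.filter fun v => u ≠ v ∧ E v u).card ≤ (k + 1) * l := by
  suffices H : ∀ n R dep blk, R.card = n → Pk E l k W R dep blk →
      (∃ r, ∃ S ⊆ W, Blk E l (k + 1) r S) ∨ ∃ R dep blk, Pk E l k W R dep blk ∧
        ∀ u ∈ R, dep u = 0 → (R.filter fun v => u ≠ v ∧ E v u).card ≤ (k + 1) * l from
    H _ W (fun _ => 0) (fun r => {r}) rfl ⟨fun r hr => ⟨Nat.zero_le _, by simpa using hr, by simp,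
      by simp, by simp [IT], by simpa using Rch.refl (by simp)⟩, by simp +contextual,
      fun z hz => ⟨z, hz, by simp⟩⟩
  intro n
  induction n using Nat.strong_induction_on with
  | _ n ih =>
  intro R dep blk hn h
  by_cases h0 : ∀ u ∈ R, dep u = 0 → (R.filter fun v => u ≠ v ∧ E v u).card ≤ (k + 1) * l
  · exact Or.inr ⟨R, dep, blk, h, h0⟩
  push Not at h0
  obtain ⟨u, hu, hu0, h0⟩ := h0
  obtain ⟨j, hj, h1⟩ := exists_le_card_fiber_of_mul_le_card_of_maps_to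
    (s := R.filter fun v => u ≠ v ∧ E v u) (t := range (k + 1)) (f := dep) (n := l)
    (fun v hv => mem_range.2 (Nat.lt_succ_of_le (h.good v (mem_filter.1 hv).1).1))
    ⟨0, by simp⟩ (by simpa using h0.le)
  obtain ⟨Y, hY, hYc⟩ := exists_subset_card_eq h1
  have hY' : ∀ v ∈ Y, v ∈ R ∧ u ≠ v ∧ E v u ∧ dep v = j := fun v hv => by
    have := hY hv
    simp only [mem_filter] at this
    tauto
  have hbu : ∀ z ∈ blk u, z = u := fun z hz => by
    obtain ⟨-, -, k1, k2, -⟩ := h.good u hu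
    exact card_le_one.1 (by simpa [hu0] using k2) z hz u k1
  have huY : ∀ v ∈ Y, u ∉ blk v := fun v hv hh =>
    (hY' v hv).2.1 (h.disj u hu v (hY' v hv).1 u (h.good u hu).2.2.1 hh)
  set S := insert u (Y.biUnion blk) with hS
  have hSs : ∀ v ∈ Y, blk v ⊆ S := fun v hv z hz => mem_insert_of_mem (mem_biUnion.2 ⟨v, hv, hz⟩)
  have hSW : S ⊆ W := insert_subset ((h.good u hu).2.1 (h.good u hu).2.2.1)
    (biUnion_subset.2 fun v hv => (h.good v (hY' v hv).1).2.1)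
  have hB : Blk E l (j + 1) u S := by
    let e := (Y.equivFinOfCardEq hYc).symm
    refine ⟨mem_insert_self _ _, ?_, ⟨u, {u}, fun i => e i, fun i => blk (e i), Rch.refl rfl,
      by simp [hS], fun i => ?_, fun i i' z hz hz' => ?_⟩, fun z hz => ?_⟩
    · have k1 := card_biUnion_le_card_mul Y blk ((l + 1) ^ j) fun v hv =>
        (hY' v hv).2.2.2 ▸ (h.good v (hY' v hv).1).2.2.2.1
      have k2 := card_insert_le u (Y.biUnion blk)
      have k3 : 1 ≤ (l + 1) ^ j := Nat.one_le_pow _ _ (by omega)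
      rw [pow_succ, hS]
      rw [hYc] at k1
      nlinarith
    · obtain ⟨k1, -, k2, k3⟩ := hY' _ (e i).2
      refine ⟨coe_subset.2 (hSs _ (e i).2), k3 ▸ (h.good _ k1).2.2.2.2.1, k2, ?_⟩
      rintro z hz rfl
      exact huY _ (e i).2 hz
    · exact e.injective (Subtype.ext (h.disj _ (hY' _ (e i).2).1 _ (hY' _ (e i').2).1 z hz hz'))
    · rcases mem_insert.1 hz with rfl | hz
      · exact Rch.refl (by simp [hS])
      · obtain ⟨v, hv, hz⟩ := mem_biUnion.1 hz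
        exact (((h.good v (hY' v hv).1).2.2.2.2.2 z hz).mono (coe_subset.2 (hSs v hv))).tail
          (hY' v hv).2.2.1 (by simp [hS])
  by_cases hjk : j = k
  · exact Or.inl ⟨u, S, hSW, hjk ▸ hB⟩
  have huY' : u ∉ Y := fun hh => (hY' u hh).2.1 rfl
  have hSm : ∀ z ∈ S, ∀ r ∈ R \ Y, z ∈ blk r → r = u := fun z hz r hr hzr => by
    rcases mem_insert.1 hz with rfl | hz
    · exact h.disj r (mem_sdiff.1 hr).1 z hu z hzr (h.good z hu).2.2.1
    · obtain ⟨v, hv, hz⟩ := mem_biUnion.1 hz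
      exact absurd (h.disj r (mem_sdiff.1 hr).1 v (hY' v hv).1 z hzr hz ▸ hv) (mem_sdiff.1 hr).2
  refine ih (R \ Y).card ?_ (R \ Y) (Function.update dep u (j + 1)) (Function.update blk u S) rfl
    ⟨fun r hr => ?_, fun r hr r' hr' z hz hz' => ?_, fun z hz => ?_⟩
  · have := card_sdiff_add_card_eq_card (s := Y) (t := R) fun v hv => (hY' v hv).1
    omega
  · by_cases hru : r = u
    · subst hru
      simp only [Function.update_self]
      exact ⟨by simp at hj; omega, hSW, hB⟩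
    · simp only [Function.update_of_ne hru]
      exact h.good r (mem_sdiff.1 hr).1
  · by_cases hru : r = u <;> by_cases hru' : r' = u
    · rw [hru, hru']
    · rw [hru, Function.update_self] at hz
      rw [Function.update_of_ne hru'] at hz'
      exact absurd (hSm z hz r' hr' hz') hru'
    · rw [hru', Function.update_self] at hz'
      rw [Function.update_of_ne hru] at hz
      exact absurd (hSm z hz' r hr hz) hru
    · rw [Function.update_of_ne hru] at hz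
      rw [Function.update_of_ne hru'] at hz'
      exact h.disj r (mem_sdiff.1 hr).1 r' (mem_sdiff.1 hr').1 z hz hz'
  · obtain ⟨r, hr, hzr⟩ := h.cover z hz
    by_cases h2 : r ∈ Y ∨ r = u
    · refine ⟨u, mem_sdiff.2 ⟨hu, huY'⟩, ?_⟩
      rw [Function.update_self]
      rcases h2 with h2 | rfl
      · exact hSs r h2 hzr
      · rw [hbu z hzr]; exact mem_insert_self _ _
    · rw [not_or] at h2
      exact ⟨r, mem_sdiff.2 ⟨hr, h2.1⟩, by rwa [Function.update_of_ne h2.2]⟩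

theorem exists_children {A : Finset V} {t d : ℕ} (O : V → Finset V) (hd : 0 < d) (ht : 0 < t)
    (h1 : ∀ v ∈ A, t * d ≤ (O v).card) (h2 : ∀ u, (A.filter fun v => u ∈ O v).card ≤ d) :
    ∃ ch : V → Fin t → V, (∀ v ∈ A, ∀ i, ch v i ∈ O v) ∧
      ∀ v ∈ A, ∀ v' ∈ A, ∀ i i', ch v i = ch v' i' → v = v' ∧ i = i' := by
  obtain ⟨f, hf1, hf2⟩ := (all_card_le_biUnion_card_iff_exists_injective
    fun a : A × Fin t => O a.1).1 fun s => by
      have := card_mul_le_card_mul (fun (a : A × Fin t) (u : V) => u ∈ O a.1) (s := s)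
        (t := s.biUnion fun a => O a.1) (m := t * d) (n := t * d) (fun a ha => by
          refine (h1 a.1 a.1.2).trans (card_le_card fun u hu => ?_)
          exact (mem_bipartiteAbove _).2 ⟨mem_biUnion.2 ⟨a, ha, hu⟩, hu⟩) (fun u _ => by
          refine le_trans (card_le_card_of_injOn (t := (A.filter fun v => u ∈ O v) ×ˢ univ)
            (fun a => ((a.1 : V), a.2)) (fun a ha => ?_) fun a _ b _ hab => ?_) ?_
          · exact mem_coe.2 (mem_product.2 ⟨mem_filter.2 ⟨a.1.2,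
              ((mem_bipartiteBelow _).1 ha).2⟩, mem_univ _⟩)
          · simp only [Prod.mk.injEq] at hab
            exact Prod.ext (Subtype.ext hab.1) hab.2
          · rw [card_product, card_univ, Fintype.card_fin, mul_comm]
            exact Nat.mul_le_mul_left _ (h2 u))
      exact Nat.le_of_mul_le_mul_right this (Nat.mul_pos ht hd)
  refine ⟨fun v i => if h : v ∈ A then f (⟨v, h⟩, i) else v, fun v hv i => ?_,
    fun v hv v' hv' i i' hh => ?_⟩
  · simp only [hv, dif_pos]; exact hf2 _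
  · simp only [hv, hv', dif_pos] at hh
    simpa using hf1 hh

theorem descend {A U : Finset V} {t : ℕ} {ch : V → Fin (t + 1) → V}
    (h1 : ∀ v ∈ A, ∀ i, ch v i ∈ U ∧ E v (ch v i))
    (h2 : ∀ v ∈ A, ∀ v' ∈ A, ∀ i i', ch v i = ch v' i' → v = v' ∧ i = i') :
    ∃ (p : V → Fin (t + 1) → Set V) (e : V → Fin (t + 1) → V),
      (∀ r ∈ A \ U, ∀ i, ch r i ∈ p r i ∧ e r i ∉ A ∧ e r i ∈ U ∧
        ∀ z ∈ p r i, z ∈ U ∧ Rch E (p r i) z (e r i)) ∧
      ∀ r ∈ A \ U, ∀ r' ∈ A \ U, ∀ i i' z, z ∈ p r i → z ∈ p r' i' → r = r' ∧ i = i' := by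
  let N : V → V → Prop := fun a b => a ∈ A ∧ a ∈ U ∧ b = ch a 0
  let p : V → Fin (t + 1) → Set V := fun r i => {z | Relation.ReflTransGen N (ch r i) z}
  have pU : ∀ r ∈ A, ∀ i, ∀ z ∈ p r i, z ∈ U := fun r hr i z hz => by
    rcases Relation.ReflTransGen.cases_tail hz with rfl | ⟨a, -, k1, -, rfl⟩
    · exact (h1 r hr i).1
    · exact (h1 a k1 0).1
  have he : ∀ r ∈ A \ U, ∀ i, ∃ e ∈ p r i, e ∉ A := fun r hr i => by
    by_contra hcon
    push Not at hcon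
    obtain ⟨hrA, hrU⟩ := mem_sdiff.1 hr
    have k1 : Set.MapsTo (fun a => ch a 0) (p r i) (p r i) := fun a ha =>
      Relation.ReflTransGen.tail ha ⟨hcon a ha, pU r hrA i a ha, rfl⟩
    obtain ⟨a, ha, k2⟩ := (((Set.toFinite _).injOn_iff_bijOn_of_mapsTo k1).1 fun a ha b hb hab =>
      (h2 a (hcon a ha) b (hcon b hb) 0 0 hab).1).surjOn (Relation.ReflTransGen.refl)
    exact hrU ((h2 a (hcon a ha) r hrA 0 i k2).1 ▸ pU r hrA i a ha)
  choose! e he1 he2 using he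
  refine ⟨p, e, fun r hr i => ⟨Relation.ReflTransGen.refl, he2 r hr i,
    pU r (mem_sdiff.1 hr).1 i _ (he1 r hr i), fun z hz => ⟨pU r (mem_sdiff.1 hr).1 i z hz, ?_⟩⟩,
    fun r hr r' hr' i i' z hz hz' => ?_⟩
  · have k1 : Relation.ReflTransGen N z (e r i) := by
      rcases Relation.ReflTransGen.total_of_right_unique
        (fun _ _ _ k k' => k.2.2.trans k'.2.2.symm) hz (he1 r hr i) with k | k
      · exact k
      · rcases k.cases_head with k | ⟨c, k, -⟩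
        · rw [k]
        · exact absurd k.1 (he2 r hr i)
    induction k1 using Relation.ReflTransGen.head_induction_on with
    | refl => exact Rch.refl hz
    | @head a b k _ ih =>
      have hb : b ∈ p r i := Relation.ReflTransGen.tail hz k
      exact ((Rch.refl hz).tail (k.2.2 ▸ (h1 a k.1 0).2) hb).trans (ih hb)
  · obtain ⟨hrA, hrU⟩ := mem_sdiff.1 hr
    obtain ⟨hrA', hrU'⟩ := mem_sdiff.1 hr'
    induction hz with
    | refl =>
      rcases Relation.ReflTransGen.cases_tail hz' with k | ⟨a, -, k1, k2, k3⟩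
      · exact h2 r hrA r' hrA' i i' k
      · exact absurd ((h2 r hrA a k1 i 0 k3).1 ▸ k2) hrU
    | @tail a b _ k ih =>
      rcases Relation.ReflTransGen.cases_tail hz' with k' | ⟨a', k0, k1, k2, k3⟩
      · exact absurd ((h2 r' hrA' a k.1 i' 0 (k'.symm.trans k.2.2)).1 ▸ k.2.1) hrU'
      · exact ih ((h2 a k.1 a' k1 0 0 (k.2.2.symm.trans k3)).1 ▸ k0)

/-- private paths between blocks -/
structure Rt (E EH : V → V → Prop) (R : Finset V) (blk : V → Finset V) (pth : V → V → Set V) :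
    Prop where
  disj : ∀ r ∈ R, ∀ r' ∈ R, ∀ z ∈ blk r, z ∈ blk r' → r = r'
  root : ∀ r ∈ R, r ∈ blk r ∧ ∀ z ∈ blk r, Rch E (blk r) z r
  arc : ∀ r ∈ R, ∀ r', EH r r' → ∃ z, (z ∈ blk r' ∨ z ∈ pth r r') ∧ E r z
  path : ∀ r ∈ R, ∀ r', ∀ z ∈ pth r r', (∀ s ∈ R, z ∉ blk s) ∧
    ∃ y, ∃ x ∈ blk r', Rch E (pth r r') z y ∧ E y x
  priv : ∀ r ∈ R, ∀ s ∈ R, ∀ r' s' z, z ∈ pth r r' → z ∈ pth s s' → r = s ∧ r' = s'

theorem exists_routes {W R : Finset V} {dep : V → ℕ} {blk : V → Finset V} {t : ℕ} (hl : 0 < l)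
    (h : Pk E l k W R dep blk)
    (hin : ∀ u ∈ R, dep u = 0 → (R.filter fun v => u ≠ v ∧ E v u).card ≤ (k + 1) * l)
    (hW : MinOut E W ((t + 2) * (l + 1) ^ k + (t + 2) * ((k + 1) * l) + 1)) :
    ∃ EH pth, MinOut EH (R.filter fun r => dep r ≠ 0) t ∧
      Rt E EH (R.filter fun r => dep r ≠ 0) blk pth ∧
        ∀ r ∈ R.filter fun r => dep r ≠ 0, ∀ r', ∀ z ∈ pth r r', z ∈ W := by
  set R1 := R.filter fun r => dep r ≠ 0 with hR1
  set U := R.filter fun r => dep r = 0 with hU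
  let Dst : V → Finset V := fun v => R1.filter fun r' => ∃ x ∈ blk r', E v x
  set A := R.filter fun v => (Dst v).card < t + 2 with hA
  have hRW : ∀ r ∈ R, r ∈ W := fun r hr => (h.good r hr).2.1 (h.good r hr).2.2.1
  obtain ⟨ch, c1, c2⟩ := exists_children (A := A) (t := t + 2) (d := (k + 1) * l)
    (fun v => U.filter fun u => u ≠ v ∧ E v u) (by positivity) (by omega) (fun v hv => by
      obtain ⟨k1, k2⟩ := mem_filter.1 hv
      have k3 : W.filter (E v) ⊆ insert v ((U.filter fun u => u ≠ v ∧ E v u) ∪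
          (Dst v).biUnion blk) := by
        intro y hy
        obtain ⟨r1, r2⟩ := mem_filter.1 hy
        obtain ⟨r, r3, r4⟩ := h.cover y r1
        by_cases r5 : y = v
        · simp [r5]
        refine mem_insert_of_mem ?_
        by_cases r6 : dep r = 0
        · obtain ⟨-, -, r7, r8, -⟩ := h.good r r3
          obtain rfl := card_le_one.1 (by simpa [r6] using r8) y r4 r r7
          exact mem_union_left _ (mem_filter.2 ⟨mem_filter.2 ⟨r3, r6⟩, r5, r2⟩)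
        · exact mem_union_right _ (mem_biUnion.2
            ⟨r, mem_filter.2 ⟨mem_filter.2 ⟨r3, r6⟩, y, r4, r2⟩, r4⟩)
      have k4 := (hW.2 v (hRW v k1)).trans ((card_le_card k3).trans (card_insert_le _ _))
      have k5 := card_union_le (U.filter fun u => u ≠ v ∧ E v u) ((Dst v).biUnion blk)
      have k6 := (card_biUnion_le_card_mul (Dst v) blk ((l + 1) ^ k) fun r hr => by
        obtain ⟨r1, -, -, r2, -⟩ := h.good r (mem_filter.1 (mem_filter.1 hr).1).1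
        exact r2.trans (Nat.pow_le_pow_right (by omega) r1)).trans
          (Nat.mul_le_mul_right _ k2.le)
      omega) (fun u => by
      by_cases hu : u ∈ U
      · refine le_trans (card_le_card fun v hv => ?_)
          (hin u (mem_filter.1 hu).1 (mem_filter.1 hu).2)
        obtain ⟨k1, k2⟩ := mem_filter.1 hv
        exact mem_filter.2 ⟨(mem_filter.1 k1).1, (mem_filter.1 k2).2⟩
      · rw [filter_eq_empty_iff.2 fun v _ k => hu (mem_filter.1 k).1]
        simp)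
  have c1' : ∀ v ∈ A, ∀ i, ch v i ∈ U ∧ E v (ch v i) := fun v hv i =>
    ⟨(mem_filter.1 (c1 v hv i)).1, (mem_filter.1 (c1 v hv i)).2.2⟩
  have hne : R1.Nonempty := by
    by_contra h0
    rw [not_nonempty_iff_eq_empty] at h0
    have k1 : ∀ v ∈ R, v ∈ A := fun v hv => mem_filter.2 ⟨hv, by simp [Dst, h0]⟩
    have k2 := card_le_card_of_injOn (s := R ×ˢ (univ : Finset (Fin (t + 2)))) (t := R)
      (fun a => ch a.1 a.2)
      (fun a ha => (mem_filter.1 (c1' _ (k1 _ (mem_product.1 ha).1) _).1).1)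
      fun a ha b hb hab => Prod.ext_iff.2
        (c2 _ (k1 _ (mem_product.1 ha).1) _ (k1 _ (mem_product.1 hb).1) _ _ hab)
    obtain ⟨z, hz⟩ := hW.1
    obtain ⟨r, hr, -⟩ := h.cover z hz
    have k3 : 0 < R.card := card_pos.2 ⟨r, hr⟩
    rw [card_product, card_univ, Fintype.card_fin] at k2
    nlinarith
  obtain ⟨p, e, p1, p2⟩ := descend c1' c2
  have hd : ∀ r ∈ A \ U, ∃ dest : Fin (t + 2) → V, Function.Injective dest ∧
      ∀ i, dest i ∈ Dst (e r i) := fun r hr =>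
    (all_card_le_biUnion_card_iff_exists_injective fun i => Dst (e r i)).1 fun s => by
      rcases s.eq_empty_or_nonempty with rfl | ⟨i, hi⟩
      · simp
      obtain ⟨-, k1, k2, -⟩ := p1 r hr i
      have k3 : ¬ (Dst (e r i)).card < t + 2 := fun k => k1 (mem_filter.2 ⟨(mem_filter.1 k2).1, k⟩)
      have k4 := card_le_card (subset_biUnion_of_mem (fun i => Dst (e r i)) hi)
      have k5 := card_le_univ s
      rw [Fintype.card_fin] at k5
      omega
  choose! dest d1 d2 using hd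
  have hAU : ∀ r ∈ R1, r ∈ A → r ∈ A \ U := fun r hr hr' =>
    mem_sdiff.2 ⟨hr', fun k => (mem_filter.1 hr).2 (mem_filter.1 k).2⟩
  refine ⟨fun r r' => (∃ x ∈ blk r', E r x) ∨ (r ∈ A ∧ ∃ i, dest r i = r'),
    fun r r' => {z | r ∈ A ∧ ∃ i, dest r i = r' ∧ z ∈ p r i}, minOut_of_sub hne fun r hr => ?_,
    ⟨fun r hr r' hr' => h.disj r (mem_filter.1 hr).1 r' (mem_filter.1 hr').1, fun r hr => ?_,
      ?_, ?_, ?_⟩, ?_⟩
  · by_cases hr' : r ∈ A
    · refine ⟨univ.image (dest r), ?_, fun y hy => ?_⟩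
      · rw [card_image_of_injective _ (d1 r (hAU r hr hr'))]; simp
      · obtain ⟨i, -, rfl⟩ := mem_image.1 hy
        exact ⟨(mem_filter.1 (d2 r (hAU r hr hr') i)).1, Or.inr ⟨hr', i, rfl⟩⟩
    · refine ⟨Dst r, ?_, fun y hy => ⟨(mem_filter.1 hy).1, Or.inl (mem_filter.1 hy).2⟩⟩
      have : ¬ (Dst r).card < t + 2 := fun k => hr' (mem_filter.2 ⟨(mem_filter.1 hr).1, k⟩)
      omega
  · obtain ⟨-, -, k1, -, -, k2⟩ := h.good r (mem_filter.1 hr).1
    exact ⟨k1, k2⟩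
  · rintro r hr r' (⟨x, k1, k2⟩ | ⟨k1, i, k2⟩)
    · exact ⟨x, Or.inl k1, k2⟩
    · exact ⟨ch r i, Or.inr ⟨k1, i, k2, (p1 r (hAU r hr k1) i).1⟩, (c1' r k1 i).2⟩
  · rintro r hr _ z ⟨k1, i, rfl, k2⟩
    obtain ⟨k3, k4⟩ := (p1 r (hAU r hr k1) i).2.2.2 z k2
    obtain ⟨x, k5, k6⟩ := (mem_filter.1 (d2 r (hAU r hr k1) i)).2
    refine ⟨fun s hs k7 => ?_, e r i, x, k5, k4.mono fun w hw => ⟨k1, i, rfl, hw⟩, k6⟩
    obtain ⟨k8, k9⟩ := mem_filter.1 k3
    obtain rfl := h.disj s (mem_filter.1 hs).1 z k8 z k7 (h.good z k8).2.2.1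
    exact (mem_filter.1 hs).2 k9
  · rintro r hr s hs _ _ z ⟨k1, i, rfl, k2⟩ ⟨k3, i', rfl, k4⟩
    obtain ⟨rfl, rfl⟩ := p2 r (hAU r hr k1) s (hAU s hs k3) i i' z k2 k4
    exact ⟨rfl, rfl⟩
  · rintro r hr _ z ⟨k1, i, rfl, k2⟩
    exact hRW z (mem_filter.1 ((p1 r (hAU r hr k1) i).2.2.2 z k2).1).1

namespace Rt

variable {EH : V → V → Prop} {R : Finset V} {blk : V → Finset V} {pth : V → V → Set V}

theorem entry (h : Rt E EH R blk pth) {r r' : V} (hr : r ∈ R) (e : EH r r') :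
    ∃ x ∈ blk r', ∃ y, Rch E (insert r (pth r r')) r y ∧ E y x := by
  obtain ⟨z, k1 | k1, k2⟩ := h.arc r hr r' e
  · exact ⟨z, k1, r, Rch.refl (Set.mem_insert _ _), k2⟩
  · obtain ⟨-, y, x, k3, k4, k5⟩ := h.path r hr r' z k1
    exact ⟨x, k3, y, ((Rch.refl (Set.mem_insert _ _)).tail k2
      (Set.mem_insert_of_mem _ k1)).trans (k4.mono (Set.subset_insert _ _)), k5⟩

/-- the vertices used by the lift of a tree -/
def LS (blk : V → Finset V) (pth : V → V → Set V) (S : Set V) (v : V) : Set V :=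
  {z | ∃ r ∈ S, z ∈ blk r ∨ (r ≠ v ∧ ∃ r', z ∈ pth r r')}

theorem walk (h : Rt E EH R blk pth) {N : Set V} (hN : N ⊆ R) {x v : V} (hr : Rch EH N x v) :
    Rch E (LS blk pth N v) x v := by
  obtain ⟨m, k1, k2, k3⟩ := hr.path
  induction k1 with
  | single a => exact Rch.refl ⟨a, k3 a (by simp), Or.inl (h.root a (hN (k3 a (by simp)))).1⟩
  | @cons a b c m e k1 ih =>
    have ha : a ∈ N := k3 a (by simp)
    have hb : b ∈ N := k3 b (by simp [k1.head_mem])
    have hac : a ≠ c := fun hh => (List.nodup_cons.1 k2).1 (hh ▸ k1.last_mem)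
    obtain ⟨x, r1, y, r2, r3⟩ := h.entry (hN ha) e
    have hbl : (blk b : Set V) ⊆ LS blk pth N c := fun z hz => ⟨b, hb, Or.inl hz⟩
    refine (((r2.mono ?_).tail r3 (hbl r1)).trans (((h.root b (hN hb)).2 x r1).mono hbl)).trans
      (ih ⟨m, k1, fun z hz => k3 z (by simp [hz])⟩ (List.nodup_cons.1 k2).2
        fun z hz => k3 z (by simp [hz]))
    rintro z (rfl | hz)
    · exact ⟨z, ha, Or.inl (h.root z (hN ha)).1⟩
    · exact ⟨a, ha, Or.inr ⟨hac, b, hz⟩⟩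

theorem own (h : Rt E EH R blk pth) {r s z : V} (hr : r ∈ R) (hs : s ∈ R)
    (h1 : z ∈ blk r ∨ ∃ r', z ∈ pth r r') (h2 : z ∈ blk s ∨ ∃ r', z ∈ pth s r') : r = s := by
  rcases h1 with h1 | ⟨a, h1⟩ <;> rcases h2 with h2 | ⟨b, h2⟩
  · exact h.disj r hr s hs z h1 h2
  · exact absurd h1 ((h.path s hs b z h2).1 r hr)
  · exact absurd h2 ((h.path r hr a z h1).1 s hs)
  · exact (h.priv r hr s hs a b z h1 h2).1

theorem tree (h : Rt E EH R blk pth) {b : ℕ}
    (hb : ∀ r ∈ R, (blk r).card ≤ b ∧ IT E l 1 r (blk r)) : ∀ {j : ℕ} {v : V} {S : Set V},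
    S ⊆ R → IT EH (b * l) j v S → IT E l (j + 1) v (LS blk pth S v)
  | 0, v, S, hS, hv => (hb v (hS hv)).2.mono fun z hz => ⟨v, hv, Or.inl hz⟩
  | j + 1, v, S, hS, ⟨x, N, y, D, h1, h2, h3, h4⟩ => by
    have hD : ∀ i, D i ⊆ R := fun i => (h3 i).1.trans hS
    have hy : ∀ i, y i ∈ D i := fun i => (h3 i).2.1.mem
    have hx : x ∈ R := hS (h2 h1.left)
    choose en k1 y' k2 k3 using fun i => h.entry (hD i (hy i)) (h3 i).2.2.1
    obtain ⟨x0, k4, k5⟩ := exists_le_card_fiber_of_mul_le_card_of_maps_to (s := univ)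
      (t := blk x) (f := en) (n := l) (fun i _ => k1 i) ⟨x, (h.root x hx).1⟩ (by
        rw [card_univ, Fintype.card_fin]; exact Nat.mul_le_mul_right _ (hb x hx).1)
    obtain ⟨Y, k6, k7⟩ := exists_subset_card_eq k5
    let g : Fin l → Fin (b * l) := fun i => (Y.equivFinOfCardEq k7).symm i
    have hg : ∀ i, en (g i) = x0 := fun i =>
      (mem_filter.1 (k6 ((Y.equivFinOfCardEq k7).symm i).2)).2
    have hown : ∀ i, ∀ z ∈ LS blk pth (D i) (y i) ∪ insert (y i) (pth (y i) x),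
        ∃ r ∈ D i, z ∈ blk r ∨ ∃ r', z ∈ pth r r' := by
      rintro i z (⟨r, r1, r2⟩ | rfl | hz)
      · exact ⟨r, r1, r2.imp id fun k => k.2⟩
      · exact ⟨_, hy i, Or.inl (h.root _ (hD i (hy i))).1⟩
      · exact ⟨_, hy i, Or.inr ⟨x, hz⟩⟩
    have hbl : (blk x : Set V) ⊆ LS blk pth N v := fun z hz => ⟨x, h1.left, Or.inl hz⟩
    refine ⟨x0, LS blk pth N v, fun i => y' (g i),
      fun i => LS blk pth (D (g i)) (y (g i)) ∪ insert (y (g i)) (pth (y (g i)) x),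
      (((h.root x hx).2 x0 k4).mono hbl).trans (h.walk (h2.trans hS) h1),
      fun z ⟨r, r1, r2⟩ => ⟨r, h2 r1, r2⟩,
      fun i => ⟨fun z hz => ?_, (h.tree hb (hD _) (h3 _).2.1).ext (k2 _) ?_, hg i ▸ k3 _, ?_⟩,
      fun i i' z hz hz' => ?_⟩
    · obtain ⟨r, r1, r2⟩ := hown _ z hz
      exact ⟨r, (h3 _).1 r1, r2.imp id fun k =>
        ⟨fun hh => (h3 _).2.2.2 r r1 (hh ▸ h1.right), k⟩⟩
    · rintro z (rfl | hz) ⟨r, r1, r2⟩
      · rfl
      · rcases r2 with r2 | ⟨r2, r', r3⟩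
        · exact absurd r2 ((h.path _ (hD _ (hy _)) x z hz).1 r (hD _ r1))
        · exact absurd (h.priv r (hD _ r1) _ (hD _ (hy _)) _ _ z r3 hz).1 r2
    · rintro z hz ⟨s, r3, r4⟩
      obtain ⟨r, r1, r2⟩ := hown _ z hz
      obtain rfl := h.own (hD _ r1) (hS (h2 r3)) r2 (r4.imp id fun k => k.2)
      exact (h3 _).2.2.2 r r1 r3
    · obtain ⟨r, r1, r2⟩ := hown _ z hz
      obtain ⟨s, r3, r4⟩ := hown _ z hz'
      obtain rfl := h.own (hD _ r1) (hD _ r3) r2 r4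
      exact (Y.equivFinOfCardEq k7).symm.injective (Subtype.ext (h4 _ _ r r1 r3))

theorem prop (h : Rt E EH R blk pth) {F : Pr} (hF : Lft F) {S : Set V} (hS : S ⊆ R)
    (h0 : F V EH S) : F V E {z | ∃ r ∈ S, z ∈ blk r ∨ ∃ r', z ∈ pth r r'} := by
  set S' := univ.filter (· ∈ S) with hS'
  have hm : ∀ r, r ∈ S' ↔ r ∈ S := by simp [hS']
  let Reg : V → Finset V := fun r' => univ.filter fun z => z ∈ blk r' ∨ ∃ r ∈ S, z ∈ pth r r'
  have hR : ∀ r' z, z ∈ Reg r' ↔ z ∈ blk r' ∨ ∃ r ∈ S, z ∈ pth r r' := by simp [Reg]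
  refine hF.mono ((hF.lftV V).region S' _ E Reg rfl (fun r hr => ?_) (fun r hr s hs z hz hz' => ?_)
    (hF.monoE (hF.mono h0 fun z hz => (hm z).2 hz) fun x hx y _ e => ?_)) ?_
  · obtain ⟨k1, k2⟩ := h.root r (hS ((hm r).1 hr))
    have k3 : ∀ z ∈ blk r, Rch E (Reg r) z r := fun z hz =>
      (k2 z hz).mono fun w hw => (hR r w).2 (Or.inl hw)
    refine ⟨(hR _ _).2 (Or.inl k1), fun z hz => ?_⟩
    rcases (hR _ _).1 hz with hz | ⟨s, hs, hz⟩
    · exact k3 z hz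
    · obtain ⟨-, y, x, r1, r2, r3⟩ := h.path s (hS hs) r z hz
      exact ((r2.mono fun w hw => (hR r w).2 (Or.inr ⟨s, hs, hw⟩)).tail r3
        ((hR r x).2 (Or.inl r1))).trans (k3 x r1)
  · have hr' := hS ((hm r).1 hr)
    have hs' := hS ((hm s).1 hs)
    rcases (hR _ _).1 hz with hz | ⟨a, ha, hz⟩ <;> rcases (hR _ _).1 hz' with hz' | ⟨b, hb, hz'⟩
    · exact h.disj r hr' s hs' z hz hz'
    · exact absurd hz ((h.path b (hS hb) s z hz').1 r hr')
    · exact absurd hz' ((h.path a (hS ha) r z hz).1 s hs')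
    · exact (h.priv a (hS ha) b (hS hb) r s z hz hz').2
  · obtain ⟨z, k1, k2⟩ := h.arc x (hS ((hm x).1 hx)) y e
    exact ⟨z, (hR _ _).2 (k1.imp id fun k => ⟨x, (hm x).1 hx, k⟩), k2⟩
  · intro z hz
    obtain ⟨r, hr, hz⟩ := mem_biUnion.1 hz
    rcases (hR _ _).1 hz with hz | ⟨s, hs, hz⟩
    · exact ⟨r, (hm r).1 hr, Or.inl hz⟩
    · exact ⟨s, hs, Or.inr ⟨r, hz⟩⟩

end Rt

theorem add_tree {F : Pr} (hF : Lft F) (hM : MadP F) (k : ℕ) : ∀ l : ℕ, ∃ K : ℕ,
    ∀ (V : Type) [Fintype V] (E : V → V → Prop) (W : Finset V), MinOut E W K →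
      ∃ S1 ⊆ (W : Set V), ∃ S2 ⊆ (W : Set V), (∀ z ∈ S1, z ∉ S2) ∧ F V E S1 ∧
        ∃ v, IT E l k v S2 := by
  obtain ⟨K1, h1⟩ := hM
  have del : ∀ (n j l : ℕ) (V : Type) [Fintype V] (E : V → V → Prop) (W : Finset V),
      MinOut E W (K1 + n + 1) → ∀ S ⊆ W, S.card ≤ n → ∀ v, IT E l j v S →
      ∃ S1 ⊆ (W : Set V), ∃ S2 ⊆ (W : Set V), (∀ z ∈ S1, z ∉ S2) ∧ F V E S1 ∧
        ∃ v, IT E l j v S2 := by
    intro n j l V _ E W hW S k1 k2 v k3
    refine ⟨(W \ S : Finset V), coe_subset.2 sdiff_subset, S, coe_subset.2 k1,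
      fun z hz => (mem_sdiff.1 hz).2, h1 V E _ (hW.sub (Y := S) (card_pos.1 ?_) sdiff_subset
        (fun x _ y hy _ => by by_cases h : y ∈ S <;> simp [h, hy]) (by omega)), v, k3⟩
    have := hW.card_le
    have := le_card_sdiff S W
    omega
  induction k with
  | zero =>
    refine fun l => ⟨K1 + 1 + 1, fun V _ E W hW => ?_⟩
    obtain ⟨v, hv⟩ := hW.1
    exact del 1 0 l V E W hW {v} (by simpa using hv) (by simp) v (by simp [IT])
  | succ k ih =>
    intro l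
    rcases Nat.eq_zero_or_pos l with rfl | hl
    · refine ⟨K1 + 1 + 1, fun V _ E W hW => ?_⟩
      obtain ⟨v, hv⟩ := hW.1
      exact del 1 _ 0 V E W hW {v} (by simpa using hv) (by simp) v ⟨v, {v}, Fin.elim0, Fin.elim0,
        Rch.refl rfl, by simp, fun i => i.elim0, fun i => i.elim0⟩
    obtain ⟨t, ht⟩ := ih ((l + 1) ^ k * l)
    refine ⟨K1 + (l + 1) ^ (k + 1) + 1 + ((t + 2) * (l + 1) ^ k + (t + 2) * ((k + 1) * l) + 1),
      fun V _ E W hW => ?_⟩
    rcases exists_pack (E := E) (k := k) hl W with ⟨r, S, k1, k2⟩ | ⟨R, dep, blk, k1, k2⟩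
    · exact del _ _ l V E W (hW.mono (by omega)) S k1 k2.2.1 r k2.2.2.1
    obtain ⟨EH, pth, r1, r2, r3⟩ := exists_routes (t := t) hl k1 k2 (hW.mono (by omega))
    obtain ⟨S1, a1, S2, a2, a3, a4, v, a5⟩ := ht V EH _ r1
    have hsub : ∀ S : Set V, S ⊆ (R.filter fun r => dep r ≠ 0 : Finset V) →
        {z | ∃ r ∈ S, z ∈ blk r ∨ ∃ r', z ∈ pth r r'} ⊆ (W : Set V) := by
      rintro S hS z ⟨r, hr, hz | ⟨r', hz⟩⟩
      · exact (k1.good r (mem_filter.1 (hS hr)).1).2.1 hz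
      · exact r3 r (hS hr) r' z hz
    refine ⟨_, hsub S1 a1, _, hsub S2 a2, ?_, r2.prop hF a1 a4, v,
      (r2.tree (fun r hr => ?_) a2 a5).mono fun z ⟨r, b1, b2⟩ => ⟨r, b1, b2.imp id fun k => k.2⟩⟩
    · rintro z ⟨r, b1, b2⟩ ⟨s, b3, b4⟩
      obtain rfl := r2.own (a1 b1) (a2 b3) b2 b4
      exact a3 r b1 b3
    · obtain ⟨b1, b2⟩ := mem_filter.1 hr
      obtain ⟨b3, -, -, b4, b5, -⟩ := k1.good r b1
      exact ⟨b4.trans (Nat.pow_le_pow_right (by omega) b3), b5.le (by omega)⟩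

theorem Mad.add_forest {α γ : Type} [Fintype γ] {F : α → α → Prop} {T : γ → γ → Prop}
    (h : Mad F) (hF : Fr F) (h1 : ∀ v x y, T v x → T v y → x = y)
    (h2 : ∀ v, ¬ Relation.TransGen T v v) : Mad (Sum.LiftRel F T) := by
  obtain ⟨l, k, h3⟩ := forest_subIn h1 h2
  obtain ⟨K, hK⟩ := add_tree hF.lft h k l
  refine ⟨K, fun V _ E W hW => ?_⟩
  obtain ⟨S1, a1, S2, a2, a3, a4, v, a5⟩ := hK V E W hW
  exact (a4.sum (h3 V E v S2 a5) a3).mono (Set.union_subset a1 a2)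

end Pool.Agent.P.MP_a3bdf6_co
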