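import Pool.Agent.P.MP_a3bdf6_co.UCyc

/-! Subdivided in-trees, and lifting along contractions of in-trees. -/

namespace Pool.Agent.P.MP_a3bdf6_co

open Classical Finset

set_option linter.unusedSectionVars false

section it

variable {V : Type*} {E E' : V → V → Prop} {l : ℕ}

/-- `S` contains a subdivided complete `l`-ary in-tree of depth `j` and a path from its root
to `v` -/
def IT (E : V → V → Prop) (l : ℕ) : ℕ → V → Set V → Prop
  | 0, v, S => v ∈ S
  | j + 1, v, S => ∃ (x : V) (N : Set V) (y : Fin l → V) (D : Fin l → Set V),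
      Rch E N x v ∧ N ⊆ S ∧ (∀ i, D i ⊆ S ∧ IT E l j (y i) (D i) ∧ E (y i) x ∧ ∀ z ∈ D i, z ∉ N) ∧
        ∀ i i' z, z ∈ D i → z ∈ D i' → i = i'

theorem IT.mem : ∀ {j : ℕ} {v : V} {S : Set V}, IT E l j v S → v ∈ S
  | 0, _, _, h => h
  | _ + 1, _, _, ⟨_, _, _, _, h1, h2, _⟩ => h2 h1.right

theorem IT.mono : ∀ {j : ℕ} {v : V} {S S' : Set V}, IT E l j v S → S ⊆ S' → IT E l j v S'
  | 0, _, _, _, h, hS => hS h
  | _ + 1, _, _, _, ⟨x, N, y, D, h1, h2, h3, h4⟩, hS =>
    ⟨x, N, y, D, h1, h2.trans hS, fun i => ⟨(h3 i).1.trans hS, (h3 i).2⟩, h4⟩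

theorem IT.pred : ∀ {j : ℕ} {v : V} {S : Set V}, IT E l (j + 1) v S → IT E l j v S
  | 0, _, _, h => h.mem
  | _ + 1, _, _, ⟨x, N, y, D, h1, h2, h3, h4⟩ =>
    ⟨x, N, y, D, h1, h2, fun i => ⟨(h3 i).1, (h3 i).2.1.pred, (h3 i).2.2⟩, h4⟩

theorem IT.le {j j' : ℕ} {v : V} {S : Set V} (h : IT E l j v S) (hj : j' ≤ j) : IT E l j' v S := by
  induction hj with
  | refl => exact h
  | step _ ih => exact ih h.pred

theorem IT.ext : ∀ {j : ℕ} {v v' : V} {S N : Set V}, IT E l j v S → Rch E N v v' →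
    (∀ z ∈ N, z ∈ S → z = v) → IT E l j v' (S ∪ N)
  | 0, _, _, _, _, _, h, _ => Or.inr h.right
  | _ + 1, _, _, _, N', ⟨x, N, y, D, h1, h2, h3, h4⟩, h, hN =>
    ⟨x, N ∪ N', y, D, (h1.mono Set.subset_union_left).trans (h.mono Set.subset_union_right),
      Set.union_subset_union_left _ h2, fun i => ⟨(h3 i).1.trans Set.subset_union_left,
        (h3 i).2.1, (h3 i).2.2.1, fun z hz hz' => hz'.elim ((h3 i).2.2.2 z hz) fun k =>
          (h3 i).2.2.2 z hz (hN z k ((h3 i).1 hz) ▸ h1.right)⟩, h4⟩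

theorem IT.data : ∀ {j : ℕ} {v : V} {S : Set V}, IT E l j v S →
    ∃ (φ : List (Fin l) → V) (Q : List (Fin l) → List V), Wk E (φ []) v (φ [] :: Q []) ∧
      (∀ w i, w.length < j → (φ (w ++ [i]) :: Q (w ++ [i]) ++ [φ w]).IsChain E) ∧
      (∀ w, w.length ≤ j → (φ w :: Q w).Nodup ∧ ∀ z ∈ φ w :: Q w, z ∈ S) ∧
      ∀ w w', w.length ≤ j → w'.length ≤ j → ∀ z ∈ φ w :: Q w, z ∈ φ w' :: Q w' → w = w'
  | 0, v, S, h => ⟨fun _ => v, fun _ => [], Wk.single v, by simp, by simpa [IT] using h,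
      by simp +contextual⟩
  | j + 1, v, S, ⟨x, N, y, D, h1, h2, h3, h4⟩ => by
    choose φ Q k1 k2 k3 k4 using fun i => (h3 i).2.1.data
    obtain ⟨m, r1, r2, r3⟩ := h1.path
    obtain ⟨m, rfl⟩ := r1.eq_cons
    refine ⟨fun w => match w with | [] => x | i :: w => φ i w,
      fun w => match w with | [] => m | i :: w => Q i w, r1, ?_, ?_, ?_⟩
    · rintro (_ | ⟨i', w⟩) i hw
      · exact ((k1 i).concat (h3 i).2.2.1).chain
      · exact k2 i' w i (by simpa using hw)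
    · rintro (_ | ⟨i, w⟩) hw
      · exact ⟨r2, fun z hz => h2 (r3 z hz)⟩
      · exact ⟨(k3 i w (by simpa using hw)).1,
          fun z hz => (h3 i).1 ((k3 i w (by simpa using hw)).2 z hz)⟩
    · rintro (_ | ⟨i, w⟩) (_ | ⟨i', w'⟩) hw hw' z hz hz'
      · rfl
      · exact absurd (r3 z hz) ((h3 i').2.2.2 z ((k3 i' w' (by simpa using hw')).2 z hz'))
      · exact absurd (r3 z hz') ((h3 i).2.2.2 z ((k3 i w (by simpa using hw)).2 z hz))
      · obtain rfl := h4 i i' z ((k3 i w (by simpa using hw)).2 z hz)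
          ((k3 i' w' (by simpa using hw')).2 z hz')
        rw [k4 i w w' (by simpa using hw) (by simpa using hw') z hz hz']

theorem exists_address {γ : Type} [Fintype γ] {T : γ → γ → Prop}
    (h1 : ∀ v x y, T v x → T v y → x = y) (h2 : ∀ v, ¬ Relation.TransGen T v v) :
    ∃ (k : ℕ) (ρ : γ → γ) (a : γ → List (Fin (Fintype.card γ))),
      (∀ u v, ρ u = ρ v → a u = a v → u = v) ∧ (∀ u, (a u).length ≤ k) ∧
      (∀ u v, T u v → ρ u = ρ v ∧ ∃ i, a u = a v ++ [i]) ∧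
      ∀ u, (∀ v, ¬ T u v) → ρ u = u ∧ a u = [] := by
  have wf : WellFounded fun v u => T u v := by
    have : Std.Irrefl (Relation.TransGen fun v u => T u v) :=
      ⟨fun v h => h2 v (Relation.transGen_swap.1 h)⟩
    exact Subrelation.wf (r := Relation.TransGen fun v u => T u v)
      (fun h => Relation.TransGen.single h) (Finite.wellFounded_of_trans_of_irrefl _)
  let e := Fintype.equivFin γ
  let a : γ → γ × List (Fin (Fintype.card γ)) := wf.fix fun u f =>
    if h : ∃ v, T u v then ((f h.choose h.choose_spec).1, (f h.choose h.choose_spec).2 ++ [e u])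
    else (u, [])
  have ha : ∀ u, a u = if h : ∃ v, T u v then ((a h.choose).1, (a h.choose).2 ++ [e u])
      else (u, []) := fun u => wf.fix_eq _ u
  refine ⟨univ.sup fun u => (a u).2.length, fun u => (a u).1, fun u => (a u).2,
    fun u v k1 k2 => ?_, fun u => le_sup (f := fun u => (a u).2.length) (mem_univ u),
    fun u v h => ?_, fun u h => ?_⟩
  · dsimp only at k1 k2
    rw [ha u, ha v] at k1 k2
    split_ifs at k1 k2
    · exact e.injective (by simpa using (List.append_inj' k2 rfl).2)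
    · simp at k2
    · simp at k2
    · exact k1
  · dsimp only
    rw [ha u, dif_pos ⟨v, h⟩, h1 u _ v (Exists.choose_spec (⟨v, h⟩ : ∃ v, T u v)) h]
    exact ⟨rfl, e u, rfl⟩
  · dsimp only
    rw [ha u, dif_neg (not_exists.2 h)]
    exact ⟨rfl, rfl⟩

end it

theorem exists_peel {V : Type*} {E : V → V → Prop} {A : Finset V} {r : V} (hr : r ∈ A)
    (h : ∀ z ∈ A, Rch E A z r) (hA : 1 < A.card) : ∃ u ∈ A, u ≠ r ∧ (∃ v ∈ A.erase u, E u v) ∧
      ∀ z ∈ A.erase u, Rch E (A.erase u : Finset V) z r := by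
  obtain ⟨B, hB, hmax⟩ := exists_max_image (A.powerset.filter fun B => r ∈ B ∧ B ≠ A ∧
    ∀ z ∈ B, Rch E B z r) card ⟨{r}, mem_filter.2 ⟨by simpa using hr, by simp,
      fun hh => by simp [← hh] at hA, by simpa using Rch.refl (by simp)⟩⟩
  simp only [mem_filter, mem_powerset] at hB hmax
  obtain ⟨h1, h2, h3, h4⟩ := hB
  obtain ⟨z, hz, hzB⟩ := exists_of_ssubset (ssubset_of_subset_of_ne h1 h3)
  obtain ⟨m, k1, k2⟩ := h z hz
  have : ∃ u ∈ m, u ∉ B ∧ ∃ v ∈ B, E u v := by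
    clear k2 hz hr h h4 hmax
    induction k1 with
    | single => exact absurd h2 hzB
    | @cons a b c m e _ ih =>
      by_cases hb : b ∈ B
      · exact ⟨a, by simp, hzB, b, hb, e⟩
      · obtain ⟨u, r1, r2⟩ := ih h2 hb
        exact ⟨u, by simp [r1], r2⟩
  obtain ⟨u, r1, r2, v, r3, r4⟩ := this
  have hu : u ∈ A := k2 u r1
  have hBA : insert u B = A := by
    by_contra hne
    have := hmax (insert u B) ⟨insert_subset hu h1, mem_insert_of_mem h2, hne, fun w hw => by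
      have hm : ∀ w ∈ B, Rch E (insert u B : Finset V) w r := fun w hw =>
        (h4 w hw).mono (coe_subset.2 (subset_insert _ _))
      rcases mem_insert.1 hw with rfl | hw
      · exact ((Rch.refl (by simp)).tail r4 (by simp [r3])).trans (hm v r3)
      · exact hm w hw⟩
    rw [card_insert_of_notMem r2] at this
    omega
  have hE : A.erase u = B := by rw [← hBA, erase_insert r2]
  exact ⟨u, hu, fun hh => r2 (hh ▸ h2), ⟨v, hE ▸ r3, r4⟩, hE ▸ h4⟩

/-- the lifting properties on one vertex type -/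
structure LftV {V : Type*} (F : (V → V → Prop) → Set V → Prop) : Prop where
  mono : ∀ {E : V → V → Prop} {S S' : Set V}, F E S → S ⊆ S' → F E S'
  monoE : ∀ {E E' : V → V → Prop} {S : Set V}, F E S →
    (∀ x ∈ S, ∀ y ∈ S, E x y → E' x y) → F E' S
  lift : ∀ {E : V → V → Prop} {S : Set V} {u v : V}, E u v → u ∉ S →
    F (fun x y => E x y ∨ (y = v ∧ E x u)) S → F E (insert u S)

theorem Fr.lftV {α V : Type*} {F : α → α → Prop} (h : Fr F) (ψ : α → V) :
    LftV fun E S => ∃ φ P, SubD F E S φ P ∧ ∀ c, (∀ a b, F a c → F b c → a = b) → φ c = ψ c := by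
  refine ⟨?_, ?_, ?_⟩
  · rintro E S S' ⟨φ, P, h, k⟩ hS
    exact ⟨φ, P, ⟨h.inj, fun u => hS (h.mem u), h.chain, h.nodup,
      fun u v e x hx => ⟨hS (h.inner u v e x hx).1, (h.inner u v e x hx).2⟩, h.disj⟩, k⟩
  · rintro E E' S ⟨φ, P, h, k⟩ hE
    exact ⟨φ, P, ⟨h.inj, h.mem, fun u v e => ((Wk.of_chain' (h.chain u v e)).mono fun x hx y hy =>
      hE x (h.mem_full e x hx) y (h.mem_full e y hy)).chain, h.nodup, h.inner, h.disj⟩, k⟩
  · rintro E S u v h1 h2 ⟨φ, P, h3, k⟩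
    obtain ⟨φ', P', h4, k'⟩ := h3.lift h h1 h2
    exact ⟨φ', P', h4, fun c hc => (k' c hc).trans (k c hc)⟩

theorem LftV.region {V : Type} {F : (V → V → Prop) → Set V → Prop} (hF : LftV F) (S : Finset V)
    (n : ℕ) :
    ∀ (E : V → V → Prop) (Reg : V → Finset V), ∑ r ∈ S, (Reg r).card = n →
      (∀ r ∈ S, r ∈ Reg r ∧ ∀ z ∈ Reg r, Rch E (Reg r) z r) →
      (∀ r ∈ S, ∀ r' ∈ S, ∀ z ∈ Reg r, z ∈ Reg r' → r = r') →
      F (fun x y => ∃ z ∈ Reg y, E x z) S → F E (S.biUnion Reg) := by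
  induction n using Nat.strong_induction_on with
  | _ n ih =>
  intro E Reg hn h1 h2 h
  by_cases h0 : ∀ r ∈ S, (Reg r).card ≤ 1
  · refine hF.mono (hF.monoE h ?_) fun z hz => mem_coe.2 (mem_biUnion.2 ⟨z, hz, (h1 z hz).1⟩)
    rintro x _ y hy ⟨z, hz, e⟩
    rwa [card_le_one.1 (h0 y hy) z hz y (h1 y hy).1] at e
  push Not at h0
  obtain ⟨r, hr, h0⟩ := h0
  obtain ⟨u, k1, k2, ⟨v, k3, k4⟩, k5⟩ := exists_peel (h1 r hr).1 (h1 r hr).2 h0
  have hu : ∀ r' ∈ S, r' ≠ r → u ∉ Reg r' := fun r' hr' hne hh => hne (h2 r' hr' r hr u hh k1)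
  have key := ih _ ?_ (fun x y => E x y ∨ (y = v ∧ E x u)) (fun r' => (Reg r').erase u) rfl ?_
    (fun a ha b hb z hz hz' => h2 a ha b hb z (mem_of_mem_erase hz) (mem_of_mem_erase hz'))
    (hF.monoE h ?_)
  · refine hF.mono (hF.lift k4 (by simp) key) ?_
    rintro z (rfl | hz)
    · exact mem_coe.2 (mem_biUnion.2 ⟨r, hr, k1⟩)
    · obtain ⟨a, ha, hz⟩ := mem_biUnion.1 hz
      exact mem_coe.2 (mem_biUnion.2 ⟨a, ha, mem_of_mem_erase hz⟩)
  · rw [← hn]
    exact sum_lt_sum (fun a _ => card_erase_le) ⟨r, hr, card_erase_lt_of_mem k1⟩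
  · intro a ha
    by_cases har : a = r
    · subst har
      exact ⟨mem_erase.2 ⟨k2.symm, (h1 a ha).1⟩,
        fun z hz => (k5 z hz).monoE fun _ _ _ _ e => Or.inl e⟩
    · simp only [erase_eq_of_notMem (hu a ha har)]
      exact ⟨(h1 a ha).1, fun z hz => ((h1 a ha).2 z hz).monoE fun _ _ _ _ e => Or.inl e⟩
  · rintro x _ y hy ⟨z, hz, e⟩
    by_cases hzu : z = u
    · subst hzu
      obtain rfl : y = r := h2 y hy r hr z hz k1
      exact ⟨v, k3, Or.inr ⟨rfl, e⟩⟩
    · exact ⟨z, mem_erase.2 ⟨hzu, hz⟩, Or.inl e⟩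

section used

variable {α V : Type*} {F : α → α → Prop} {E : V → V → Prop} {S : Set V} {φ : α → V}
  {P : α → α → List V}

/-- the arcs used by a subdivision -/
def Us (F : α → α → Prop) (φ : α → V) (P : α → α → List V) (x y : V) : Prop :=
  ∃ u v, F u v ∧ [x, y] <:+: φ u :: P u v ++ [φ v]

theorem SubD.us (h : SubD F E S φ P) : SubD F (Us F φ P) S φ P :=
  ⟨h.inj, h.mem, fun u v e => (List.isChain_isInfix _).imp fun _ _ r => ⟨u, v, e, r⟩, h.nodup,
    h.inner, h.disj⟩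

theorem SubD.us_le (h : SubD F E S φ P) {x y : V} (e : Us F φ P x y) : E x y := by
  obtain ⟨u, v, e, s, t, k⟩ := e
  have := h.chain u v e
  rw [← k] at this
  exact List.isChain_pair.1 this.left_of_append.right_of_append

theorem SubD.us_branch (h : SubD F E S φ P) {x : V} {a : α} (e : Us F φ P x (φ a)) :
    ∃ u, F u a ∧ (φ u :: P u a).getLast? = some x := by
  obtain ⟨u, v, e, s, t, k⟩ := e
  rcases List.eq_nil_or_concat t with rfl | ⟨t, w, rfl⟩
  · have k' : (s ++ [x]) ++ [φ a] = (φ u :: P u v) ++ [φ v] := by simpa using k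
    obtain ⟨k1, k2⟩ := List.append_inj' k' rfl
    obtain rfl : a = v := h.inj (by simpa using k2)
    exact ⟨u, e, by rw [← k1]; simp⟩
  · have k' : (s ++ [x, φ a] ++ t) ++ [w] = (φ u :: P u v) ++ [φ v] := by simpa using k
    have k1 := (List.append_inj' k' rfl).1
    have k2 : φ a ∈ P u v := by
      have := congrArg List.tail k1
      rw [List.tail_cons] at this
      rw [← this]
      cases s <;> simp
    exact absurd rfl ((h.inner u v e _ k2).2 a)

end used

end Pool.Agent.P.MP_a3bdf6_co
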