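import Pool.Agent.P.MP_a3bdf6_co.Zig

/-! The token game on an ordered web with four rows. -/

namespace Pool.Agent.P.MP_a3bdf6_co

open Classical

variable {V : Type*}

structure Web (E : V → V → Prop) (S : Set V) (κ : ℕ) where
  ρ : Fin 4 → List V
  φ : Fin 4 → V → ℕ
  θ : V → ℕ
  g : ℕ → ℕ
  γ : Fin 4 → ℕ → V
  Γ : Fin 4 → Fin 4 → Prop
  seg : ∀ i, ∀ x ∈ ρ i, ∀ y ∈ ρ i, φ i x ≤ φ i y →
    ∃ m, Wk E x y m ∧ m.Nodup ∧ ∀ z, z ∈ m ↔ (z ∈ ρ i ∧ φ i x ≤ φ i z ∧ φ i z ≤ φ i y)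
  mono : ∀ i, ∀ x ∈ ρ i, ∀ y ∈ ρ i, φ i x ≤ φ i y → θ x ≤ θ y
  inj : ∀ i, ∀ x ∈ ρ i, ∀ y ∈ ρ i, φ i x = φ i y → x = y
  disj : ∀ i k z, z ∈ ρ i → z ∈ ρ k → i = k
  γ_mem : ∀ i, ∀ t < κ, γ i t ∈ ρ i ∧ θ (γ i t) = g t
  g_mono : ∀ s t, s < t → t < κ → g s < g t
  hS : ∀ i, ∀ z ∈ ρ i, ∀ s < κ, ∀ t < κ, g s ≤ θ z → θ z ≤ g t → z ∈ S
  link : ∀ t < κ, ∀ u v, Γ u v → ∃ p ∈ ρ u, ∃ q ∈ ρ v, ∃ m, Wk E p q m ∧ m.Nodup ∧
    (∀ z ∈ m, θ z = g t ∧ z ∈ S) ∧ ∀ z ∈ m, ∀ w, z ∈ ρ w → z = p ∨ z = q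
  conn : ∀ α : Fin 4 → Prop, (∃ i, α i) → (∃ i, ¬ α i) → ∃ i k, α i ∧ ¬ α k ∧ (Γ i k ∨ Γ k i)
  link2 : ∀ t < κ, ∀ u v, u ≠ v → ∃ p q m, ((p ∈ ρ u ∧ q ∈ ρ v) ∨ (p ∈ ρ v ∧ q ∈ ρ u)) ∧
    Wk E p q m ∧ m.Nodup ∧ (∀ z ∈ m, θ z = g t ∧ z ∈ S) ∧
    ∀ z ∈ m, (z ∈ ρ u ∨ z ∈ ρ v) → z = p ∨ z = q

theorem le_length_of_inj {m : List V} {n : ℕ} (f : ℕ → V) (h : ∀ t < n, f t ∈ m)
    (hf : ∀ s < n, ∀ t < n, f s = f t → s = t) : n ≤ m.length := by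
  have : (Finset.range n).card ≤ m.toFinset.card :=
    Finset.card_le_card_of_injOn f (fun t ht => by simpa using h t (by simpa using ht))
      (fun s hs t ht => hf s (by simpa using hs) t (by simpa using ht))
  simpa using this.trans m.toFinset_card_le

namespace Web

variable {E : V → V → Prop} {S : Set V} {κ b : ℕ} (w : Web E S κ)

theorem lt {i : Fin 4} {x y : V} (hx : x ∈ w.ρ i) (hy : y ∈ w.ρ i) (h : w.θ x < w.θ y) :
    w.φ i x < w.φ i y := by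
  by_contra hc
  have := w.mono i y hy x hx (by omega)
  omega

theorem g_le {s t : ℕ} (h : s ≤ t) (ht : t < κ) : w.g s ≤ w.g t := by
  rcases h.eq_or_lt with rfl | h
  · exact le_rfl
  · exact (w.g_mono s t h ht).le

def Lnk (t : ℕ) (u v : Fin 4) (F : Set V) : Prop :=
  ∃ p ∈ w.ρ u, ∃ q ∈ w.ρ v, ∃ m, Wk E p q m ∧ m.Nodup ∧
    (∀ z ∈ m, w.θ z = w.g t ∧ z ∈ S ∧ z ∉ F) ∧ ∀ z ∈ m, (z ∈ w.ρ u ∨ z ∈ w.ρ v) → z = p ∨ z = q

def Old (x y : Fin 4) (t : ℕ) (z : V) : Prop :=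
  w.θ z < w.g t ∨ (z ∈ w.ρ x ∧ w.φ x z ≤ w.φ x (w.γ x t)) ∨ (z ∈ w.ρ y ∧ w.φ y z ≤ w.φ y (w.γ y t))

theorem Old.symm {x y : Fin 4} {t : ℕ} {z : V} (h : w.Old x y t z) : w.Old y x t z := by
  unfold Old at *; tauto

theorem lnk_of_Γ {t : ℕ} (ht : t < κ) {x y u v : Fin 4} (h : w.Γ u v) (hxu : x ≠ u) (hxv : x ≠ v)
    (hyu : y ≠ u) (hyv : y ≠ v) : w.Lnk t u v {z | z ∈ w.ρ x ∨ z ∈ w.ρ y} := by
  obtain ⟨p, hp, q, hq, m, h1, h2, h3, h4⟩ := w.link t ht u v h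
  refine ⟨p, hp, q, hq, m, h1, h2, fun z hz => ⟨(h3 z hz).1, (h3 z hz).2, ?_⟩, ?_⟩
  · rintro (h5 | h5)
    · rcases h4 z hz _ h5 with rfl | rfl
      · exact hxu (w.disj _ _ _ h5 hp)
      · exact hxv (w.disj _ _ _ h5 hq)
    · rcases h4 z hz _ h5 with rfl | rfl
      · exact hyu (w.disj _ _ _ h5 hp)
      · exact hyv (w.disj _ _ _ h5 hq)
  · rintro z hz (h5 | h5) <;> exact h4 z hz _ h5

theorem lnk2 {t : ℕ} (ht : t < κ) {u v : Fin 4} (h : u ≠ v) :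
    w.Lnk t u v ∅ ∨ w.Lnk t v u ∅ := by
  obtain ⟨p, q, m, h0, h1, h2, h3, h4⟩ := w.link2 t ht u v h
  rcases h0 with h0 | h0
  · exact Or.inl ⟨p, h0.1, q, h0.2, m, h1, h2, fun z hz => ⟨(h3 z hz).1, (h3 z hz).2, id⟩, h4⟩
  · exact Or.inr ⟨p, h0.1, q, h0.2, m, h1, h2, fun z hz => ⟨(h3 z hz).1, (h3 z hz).2, id⟩,
      fun z hz h => h4 z hz h.symm⟩

theorem birth {t : ℕ} {u v : Fin 4} {F : Set V} (huv : u ≠ v) (h : w.Lnk (t + 1) u v F)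
    (hu : ∀ z ∈ w.ρ u, z ∉ F) (hv : ∀ z ∈ w.ρ v, z ∉ F) (ht : t + b + 3 < κ) :
    St E b 1 (w.γ u (t + b + 3)) (w.γ v (t + b + 3))
      {z | z ∈ S ∧ z ∉ F ∧ w.g t < w.θ z ∧ w.Old u v (t + b + 3) z} := by
  obtain ⟨p, hp, q, hq, m, h1, h2, h3, h4⟩ := h
  have g1 := w.g_mono t (t + 1) (by omega) (by omega)
  have g2 := w.g_mono (t + 1) (t + b + 3) (by omega) (by omega)
  have hθp := (h3 p h1.head_mem).1
  have hθq := (h3 q h1.last_mem).1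
  obtain ⟨cu, cu'⟩ := w.γ_mem u _ ht
  obtain ⟨cv, cv'⟩ := w.γ_mem v _ ht
  obtain ⟨m1, a1, a2, a3⟩ := w.seg u p hp _ cu (w.lt hp cu (by omega)).le
  obtain ⟨m2, b1, b2, b3⟩ := w.seg v q hq _ cv (w.lt hq cv (by omega)).le
  obtain ⟨m3, rfl⟩ := b1.eq_cons
  have long : ∀ (i : Fin 4) (r : V) (l : List V), r ∈ w.ρ i → w.θ r = w.g (t + 1) →
      (∀ z, (z ∈ w.ρ i ∧ w.φ i r < w.φ i z ∧ w.φ i z ≤ w.φ i (w.γ i (t + b + 3))) → z ∈ l) →
      b + 2 ≤ l.length := by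
    intro i r l hr hr' hl
    refine le_length_of_inj (fun s => w.γ i (t + 2 + s)) ?_ ?_
    · intro s hs
      obtain ⟨c1, c2⟩ := w.γ_mem i (t + 2 + s) (by omega)
      obtain ⟨c3, c4⟩ := w.γ_mem i _ ht
      have g3 := w.g_mono (t + 1) (t + 2 + s) (by omega) (by omega)
      refine hl _ ⟨c1, w.lt hr c1 (by omega), ?_⟩
      rcases Nat.lt_or_ge (t + 2 + s) (t + b + 3) with h5 | h5
      · have := w.g_mono _ _ h5 ht
        exact (w.lt c1 c3 (by omega)).le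
      · have : t + 2 + s = t + b + 3 := by omega
        rw [this]
    · intro s hs s' hs' hss
      have c2 := (w.γ_mem i (t + 2 + s) (by omega)).2
      have c4 := (w.γ_mem i (t + 2 + s') (by omega)).2
      rw [hss] at c2
      by_contra hne
      rcases Nat.lt_or_gt_of_ne hne with h5 | h5
      · have := w.g_mono (t + 2 + s) (t + 2 + s') (by omega) (by omega); omega
      · have := w.g_mono (t + 2 + s') (t + 2 + s) (by omega) (by omega); omega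
  have hpv : p ∉ w.ρ v := fun hh => huv (w.disj _ _ _ hp hh)
  have hqu : q ∉ w.ρ u := fun hh => huv (w.disj _ _ _ hh hq)
  rw [List.nodup_cons] at b2
  refine (St.lam a1 (h1.append b1) a2 ?_ ?_ ?_ ?_).mono ?_
  · refine List.nodup_append.2 ⟨h2, b2.2, ?_⟩
    rintro z hz z' hz' rfl
    have := ((b3 z).1 (by simp [hz'])).1
    rcases h4 z hz (Or.inr this) with rfl | rfl
    · exact hpv this
    · exact b2.1 hz'
  · intro z hz hz'
    have hzu := ((a3 z).1 hz).1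
    rcases List.mem_append.1 hz' with hz' | hz'
    · rcases h4 z hz' (Or.inl hzu) with rfl | rfl
      · rfl
      · exact absurd hzu hqu
    · exact absurd (w.disj _ _ _ hzu ((b3 z).1 (by simp [hz'])).1) huv
  · exact long u p m1 hp hθp fun z hz => (a3 z).2 ⟨hz.1, hz.2.1.le, hz.2.2⟩
  · refine long v q _ hq hθq fun z hz => ?_
    have := (b3 z).2 ⟨hz.1, hz.2.1.le, hz.2.2⟩
    rcases List.mem_cons.1 this with rfl | h5
    · exact absurd hz.2.1 (lt_irrefl _)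
    · simp [h5]
  · have key : ∀ (i : Fin 4) (r z : V), r ∈ w.ρ i → w.θ r = w.g (t + 1) → z ∈ w.ρ i →
        w.φ i r ≤ w.φ i z → w.φ i z ≤ w.φ i (w.γ i (t + b + 3)) → z ∈ S ∧ w.g t < w.θ z := by
      intro i r z hr hr' hz h5 h6
      obtain ⟨c3, c4⟩ := w.γ_mem i _ ht
      have := w.mono i r hr z hz h5
      have := w.mono i z hz _ c3 h6
      exact ⟨w.hS i z hz t (by omega) _ ht (by omega) (by omega), by omega⟩
    rintro z (hz | hz)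
    · obtain ⟨h5, h6, h7⟩ := (a3 z).1 hz
      obtain ⟨h8, h9⟩ := key u p z hp hθp h5 h6 h7
      exact ⟨h8, hu z h5, h9, Or.inr (Or.inl ⟨h5, h7⟩)⟩
    · rcases List.mem_append.1 hz with hz | hz
      · obtain ⟨h5, h6, h7⟩ := h3 z hz
        exact ⟨h6, h7, by omega, Or.inl (by omega)⟩
      · obtain ⟨h5, h6, h7⟩ := (b3 z).1 (List.mem_cons_of_mem _ hz)
        obtain ⟨h8, h9⟩ := key v q z hq hθq h5 h6 h7
        exact ⟨h8, hv z h5, h9, Or.inr (Or.inr ⟨h5, h7⟩)⟩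

theorem rch_row {i : Fin 4} {x y : V} (hx : x ∈ w.ρ i) (hy : y ∈ w.ρ i) (h : w.φ i x ≤ w.φ i y) :
    Rch E {z | z ∈ w.ρ i ∧ w.φ i x ≤ w.φ i z ∧ w.φ i z ≤ w.φ i y} x y := by
  obtain ⟨m, h1, -, h3⟩ := w.seg i x hx y hy h
  exact ⟨m, h1, fun z hz => (h3 z).1 hz⟩

theorem ext_row {j t t' : ℕ} {x : Fin 4} {y : V} {T : Set V} (h : St E b j (w.γ x t) y T)
    (ht : t < t') (ht' : t' < κ) (hT : ∀ z ∈ T, z ∈ w.ρ x → w.φ x z ≤ w.φ x (w.γ x t)) :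
    St E b j (w.γ x t') y (T ∪ {z | z ∈ S ∧ z ∈ w.ρ x ∧ w.φ x z ≤ w.φ x (w.γ x t')}) := by
  obtain ⟨c1, c2⟩ := w.γ_mem x t (by omega)
  obtain ⟨c3, c4⟩ := w.γ_mem x t' ht'
  have g1 := w.g_mono t t' ht ht'
  refine (h.ext (w.rch_row c1 c3 (w.lt c1 c3 (by omega)).le) ?_).mono ?_
  · rintro z ⟨h1, h2, -⟩ hz
    exact w.inj x z h1 _ c1 (le_antisymm (hT z hz h1) h2)
  · rintro z (hz | ⟨h1, h2, h3⟩)
    · exact Or.inl hz
    · have := w.mono x _ c1 z h1 h2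
      have := w.mono x z h1 _ c3 h3
      exact Or.inr ⟨w.hS x z h1 t (by omega) t' ht' (by omega) (by omega), h1, h3⟩

def VN (t : ℕ) (y u : Fin 4) (F : Set V) : Set V :=
  {z | z ∈ S ∧ w.θ z ≤ w.g (t + 1) ∧ ((z ∈ w.ρ y ∧ w.φ y (w.γ y t) ≤ w.φ y z) ∨
    (z ∈ w.ρ u ∧ w.φ u (w.γ u t) ≤ w.φ u z) ∨
    (z ∉ w.ρ y ∧ z ∉ w.ρ u ∧ z ∉ F ∧ w.θ z = w.g (t + 1)))}

theorem vc_of_lnk {t : ℕ} {y u : Fin 4} {F : Set V} (h : w.Lnk (t + 1) y u F) (ht : t + 1 < κ) :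
    Vc E (w.VN t y u F) (w.γ y t) (w.γ u t) := by
  obtain ⟨p, hp, q, hq, m, h1, -, h3, h4⟩ := h
  have g1 := w.g_mono t (t + 1) (by omega) (by omega)
  have hθp := (h3 p h1.head_mem).1
  have hθq := (h3 q h1.last_mem).1
  obtain ⟨cy, cy'⟩ := w.γ_mem y t (by omega)
  obtain ⟨cu, cu'⟩ := w.γ_mem u t (by omega)
  have l1 := w.lt cy hp (by omega)
  have l2 := w.lt cu hq (by omega)
  refine ⟨q, ((w.rch_row cy hp l1.le).mono ?_).trans (h1.rch.mono ?_),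
    (w.rch_row cu hq l2.le).mono ?_⟩
  · rintro z ⟨k1, k2, k3⟩
    have := w.mono y _ cy z k1 k2
    have := w.mono y z k1 _ hp k3
    exact ⟨w.hS y z k1 t (by omega) _ ht (by omega) (by omega), by omega, Or.inl ⟨k1, k2⟩⟩
  · intro z hz
    obtain ⟨k1, k2, k3⟩ := h3 z hz
    refine ⟨k2, k1.le, ?_⟩
    by_cases k4 : z ∈ w.ρ y
    · exact Or.inl ⟨k4, (w.lt cy k4 (by omega)).le⟩
    by_cases k5 : z ∈ w.ρ u
    · exact Or.inr (Or.inl ⟨k5, (w.lt cu k5 (by omega)).le⟩)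
    · exact Or.inr (Or.inr ⟨k4, k5, k3, k1⟩)
  · rintro z ⟨k1, k2, k3⟩
    have := w.mono u _ cu z k1 k2
    have := w.mono u z k1 _ hq k3
    exact ⟨w.hS u z k1 t (by omega) _ ht (by omega) (by omega), by omega,
      Or.inr (Or.inl ⟨k1, k2⟩)⟩

theorem vc_of_lnk' {t : ℕ} {y u : Fin 4} {F : Set V}
    (h : w.Lnk (t + 1) y u F ∨ w.Lnk (t + 1) u y F) (ht : t + 1 < κ) :
    Vc E (w.VN t y u F) (w.γ y t) (w.γ u t) := by
  rcases h with h | h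
  · exact w.vc_of_lnk h ht
  · refine (w.vc_of_lnk h ht).symm.mono ?_
    rintro z ⟨h1, h2, h3⟩
    exact ⟨h1, h2, by tauto⟩

theorem old_row {x y : Fin 4} (hxy : x ≠ y) {t : ℕ} (ht : t < κ) {z : V} (h : w.Old x y t z)
    (hz : z ∈ w.ρ x) : w.φ x z ≤ w.φ x (w.γ x t) := by
  obtain ⟨c1, c2⟩ := w.γ_mem x t ht
  rcases h with h | h | h
  · exact (w.lt hz c1 (by omega)).le
  · exact h.2
  · exact absurd (w.disj _ _ _ hz h.1) hxy

theorem old_θ {x y : Fin 4} {t : ℕ} (ht : t < κ) {z : V} (h : w.Old x y t z) : w.θ z ≤ w.g t := by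
  obtain ⟨c1, c2⟩ := w.γ_mem x t ht
  obtain ⟨c3, c4⟩ := w.γ_mem y t ht
  rcases h with h | h | h
  · omega
  · have := w.mono x z h.1 _ c1 h.2; omega
  · have := w.mono y z h.1 _ c3 h.2; omega

def T1 (x y : Fin 4) (t t' : ℕ) : Set V :=
  {z | z ∈ S ∧ w.Old x y t' z ∧ (w.θ z ≤ w.g t ∨ z ∈ w.ρ x ∨ z ∈ w.ρ y)}

def T2 (x y u v : Fin 4) (t t' : ℕ) : Set V :=
  {z | z ∈ S ∧ z ∉ {z | z ∈ w.ρ x ∨ z ∈ w.ρ y} ∧ w.g t < w.θ z ∧ w.Old u v t' z}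

theorem merge_step {j t t' : ℕ} {x y u v : Fin 4} (hxy : x ≠ y) (hxu : x ≠ u) (hxv : x ≠ v)
    (hyu : y ≠ u) (hyv : y ≠ v) (huv : u ≠ v) (htt : t < t') (ht : t' + 2 < κ)
    (h1 : St E b j (w.γ x t') (w.γ y t') (w.T1 x y t t'))
    (h2 : St E b 1 (w.γ u t') (w.γ v t') (w.T2 x y u v t t')) (hΓ : w.Γ y u ∨ w.Γ u y) :
    St E b (j + 1) (w.γ x (t' + 2)) (w.γ v (t' + 2)) {z | z ∈ S ∧ w.Old x v (t' + 2) z} := by
  have hl : w.Lnk (t' + 1) y u {z | z ∈ w.ρ x ∨ z ∈ w.ρ v} ∨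
      w.Lnk (t' + 1) u y {z | z ∈ w.ρ x ∨ z ∈ w.ρ v} := by
    rcases hΓ with h | h
    · exact Or.inl (w.lnk_of_Γ (by omega) h hxy hxu hyv.symm huv.symm)
    · exact Or.inr (w.lnk_of_Γ (by omega) h hxu hxy huv.symm hyv.symm)
  have g0 := w.g_mono t t' htt (by omega)
  have g1 := w.g_mono t' (t' + 1) (by omega) (by omega)
  have g2 := w.g_mono (t' + 1) (t' + 2) (by omega) (by omega)
  obtain ⟨cy, cy'⟩ := w.γ_mem y t' (by omega)
  obtain ⟨cu, cu'⟩ := w.γ_mem u t' (by omega)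
  obtain ⟨cx, cx'⟩ := w.γ_mem x t' (by omega)
  obtain ⟨cv, cv'⟩ := w.γ_mem v t' (by omega)
  have h3 := h1.merge h2 ?_ (w.vc_of_lnk' hl (by omega)) ?_ ?_
  · have h4 := w.ext_row (t' := t' + 2) h3 (by omega) ht ?_
    · have h5 := w.ext_row (t' := t' + 2) h4.symm (by omega) ht ?_
      · refine h5.symm.mono ?_
        rintro z ((((hz | hz) | hz) | hz) | hz)
        · have := w.old_θ (by omega) hz.2.1
          exact ⟨hz.1, Or.inl (by omega)⟩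
        · have := w.old_θ (by omega) hz.2.2.2
          exact ⟨hz.1, Or.inl (by omega)⟩
        · have := hz.2.1
          exact ⟨hz.1, Or.inl (by omega)⟩
        · exact ⟨hz.1, Or.inr (Or.inl hz.2)⟩
        · exact ⟨hz.1, Or.inr (Or.inr hz.2)⟩
      · rintro z (((hz | hz) | hz) | hz) hzv
        · rcases hz.2.2 with h | h | h
          · exact (w.lt hzv cv (by omega)).le
          · exact absurd (w.disj _ _ _ h hzv) hxv
          · exact absurd (w.disj _ _ _ h hzv) hyv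
        · exact w.old_row huv.symm (by omega) hz.2.2.2.symm hzv
        · rcases hz.2.2 with h | h | h
          · exact absurd (w.disj _ _ _ h.1 hzv) hyv
          · exact absurd (w.disj _ _ _ h.1 hzv) huv
          · exact absurd (Or.inr hzv) h.2.2.1
        · exact absurd (w.disj _ _ _ hz.2.1 hzv) hxv
    · rintro z ((hz | hz) | hz) hzx
      · exact w.old_row hxy (by omega) hz.2.1 hzx
      · exact absurd (Or.inl hzx) hz.2.1
      · rcases hz.2.2 with h | h | h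
        · exact absurd (w.disj _ _ _ hzx h.1) hxy
        · exact absurd (w.disj _ _ _ hzx h.1) hxu
        · exact absurd (Or.inl hzx) h.2.2.1
  · rintro z ⟨-, -, h | h | h⟩ ⟨-, k1, k2, -⟩
    · omega
    · exact k1 (Or.inl h)
    · exact k1 (Or.inr h)
  · rintro z ⟨-, -, h | h | h⟩ ⟨-, k1, k2⟩
    · exact w.inj y z h.1 _ cy (le_antisymm (w.old_row hxy.symm (by omega) k1.symm h.1) h.2)
    · have := w.mono u _ cu z h.1 h.2
      rcases k2 with k2 | k2 | k2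
      · omega
      · exact absurd (w.disj _ _ _ k2 h.1) hxu
      · exact absurd (w.disj _ _ _ k2 h.1) hyu
    · have := w.old_θ (by omega) k1
      omega
  · rintro z ⟨-, -, h | h | h⟩ ⟨-, k1, k2, k3⟩
    · exact absurd (Or.inr h.1) k1
    · exact w.inj u z h.1 _ cu (le_antisymm (w.old_row huv (by omega) k3 h.1) h.2)
    · have := w.old_θ (by omega) k3
      omega

def Inv (b j t : ℕ) : Prop :=
  ∃ x y u v : Fin 4, x ≠ y ∧ x ≠ u ∧ x ≠ v ∧ y ≠ u ∧ y ≠ v ∧ u ≠ v ∧ (w.Γ u v ∨ w.Γ v u) ∧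
    St E b j (w.γ x t) (w.γ y t) {z | z ∈ S ∧ w.Old x y t z}

theorem round {j t : ℕ} (h : w.Inv b j t) (ht : t + b + 5 < κ) : w.Inv b (j + 1) (t + b + 5) := by
  obtain ⟨x, y, u, v, hxy, hxu, hxv, hyu, hyv, huv, hΓ, h⟩ := h
  have g0 := w.g_mono t (t + b + 3) (by omega) (by omega)
  have h1 : St E b j (w.γ x (t + b + 3)) (w.γ y (t + b + 3)) (w.T1 x y t (t + b + 3)) := by
    have k1 := w.ext_row (t' := t + b + 3) h (by omega) (by omega)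
      fun z hz hzx => w.old_row hxy (by omega) hz.2 hzx
    have k2 := w.ext_row (t' := t + b + 3) k1.symm (by omega) (by omega) (by
      rintro z (hz | hz) hzy
      · exact w.old_row hxy.symm (by omega) hz.2.symm hzy
      · exact absurd (w.disj _ _ _ hz.2.1 hzy) hxy)
    refine k2.symm.mono ?_
    rintro z ((hz | hz) | hz)
    · have := w.old_θ (by omega) hz.2
      exact ⟨hz.1, Or.inl (by omega), Or.inl this⟩
    · exact ⟨hz.1, Or.inr (Or.inl hz.2), Or.inr (Or.inl hz.2.1)⟩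
    · exact ⟨hz.1, Or.inr (Or.inr hz.2), Or.inr (Or.inr hz.2.1)⟩
  have hu : ∀ z ∈ w.ρ u, z ∉ {z | z ∈ w.ρ x ∨ z ∈ w.ρ y} := by
    rintro z hz (h | h)
    · exact hxu (w.disj _ _ _ h hz)
    · exact hyu (w.disj _ _ _ h hz)
  have hv : ∀ z ∈ w.ρ v, z ∉ {z | z ∈ w.ρ x ∨ z ∈ w.ρ y} := by
    rintro z hz (h | h)
    · exact hxv (w.disj _ _ _ h hz)
    · exact hyv (w.disj _ _ _ h hz)
  have h2 : St E b 1 (w.γ u (t + b + 3)) (w.γ v (t + b + 3)) (w.T2 x y u v t (t + b + 3)) := by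
    rcases hΓ with hΓ | hΓ
    · exact w.birth huv (w.lnk_of_Γ (by omega) hΓ hxu hxv hyu hyv) hu hv (by omega)
    · refine (w.birth huv.symm (w.lnk_of_Γ (by omega) hΓ hxv hxu hyv hyu) hv hu
        (by omega)).symm.mono ?_
      rintro z ⟨k1, k2, k3, k4⟩
      exact ⟨k1, k2, k3, k4.symm⟩
  have h1' : St E b j (w.γ y (t + b + 3)) (w.γ x (t + b + 3)) (w.T1 y x t (t + b + 3)) := by
    refine h1.symm.mono ?_
    rintro z ⟨k1, k2, k3⟩
    exact ⟨k1, k2.symm, by tauto⟩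
  have s1 : ∀ {x y u v : Fin 4}, w.T2 x y u v t (t + b + 3) ⊆ w.T2 y x u v t (t + b + 3) := by
    rintro x y u v z ⟨k1, k2, k3, k4⟩
    exact ⟨k1, fun h => k2 h.symm, k3, k4⟩
  have s2 : ∀ {x y u v : Fin 4}, w.T2 x y u v t (t + b + 3) ⊆ w.T2 x y v u t (t + b + 3) := by
    rintro x y u v z ⟨k1, k2, k3, k4⟩
    exact ⟨k1, k2, k3, k4.symm⟩
  obtain ⟨i, k, hi, hk, hik⟩ := w.conn (fun i => i = x ∨ i = y) ⟨x, Or.inl rfl⟩
    ⟨u, by rintro (h | h); exacts [hxu h.symm, hyu h.symm]⟩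
  have hk' : k = u ∨ k = v := by omega
  rcases hi with rfl | rfl <;> rcases hk' with rfl | rfl
  · exact ⟨y, v, i, k, hyv, hxy.symm, hyu, hxv.symm, huv.symm, hxu, hik,
      w.merge_step hxy.symm hyu hyv hxu hxv huv (by omega) (by omega) h1' (h2.mono s1) hik⟩
  · exact ⟨y, u, i, k, hyu, hxy.symm, hyv, hxu.symm, huv, hxv, hik,
      w.merge_step hxy.symm hyv hyu hxv hxu huv.symm (by omega) (by omega) h1'
        ((h2.symm.mono s1).mono s2) hik⟩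
  · exact ⟨x, v, i, k, hxv, hxy, hxu, hyv.symm, huv.symm, hyu, hik,
      w.merge_step hxy hxu hxv hyu hyv huv (by omega) (by omega) h1 h2 hik⟩
  · exact ⟨x, u, i, k, hxu, hxy, hxv, hyu.symm, huv, hyv, hik,
      w.merge_step hxy hxv hxu hyv hyu huv.symm (by omega) (by omega) h1 (h2.symm.mono s2) hik⟩

theorem start (ht : b + 3 < κ) : w.Inv b 1 (b + 3) := by
  obtain ⟨u, v, hu, hv, hΓ⟩ := w.conn (· = 0) ⟨0, rfl⟩ ⟨1, by decide⟩
  have huv : u ≠ v := by rintro rfl; exact hv hu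
  obtain ⟨x, y, h1, h2, h3, h4, h5⟩ : ∃ x y : Fin 4, x ≠ y ∧ x ≠ u ∧ x ≠ v ∧ y ≠ u ∧ y ≠ v := by
    clear hΓ hu hv; revert u v; decide
  refine ⟨x, y, u, v, h1, h2, h3, h4, h5, huv, hΓ, ?_⟩
  rcases w.lnk2 (t := 0 + 1) (by omega) h1 with h | h
  · have := w.birth (b := b) h1 h (fun _ _ => id) (fun _ _ => id) (by omega)
    rw [Nat.zero_add] at this
    exact this.mono fun z hz => ⟨hz.1, hz.2.2.2⟩
  · have := w.birth (b := b) h1.symm h (fun _ _ => id) (fun _ _ => id) (by omega)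
    rw [Nat.zero_add] at this
    exact this.symm.mono fun z hz => ⟨hz.1, hz.2.2.2.symm⟩

theorem finish {j t : ℕ} (h : w.Inv b j t) (ht : t + 1 < κ) : ZigIn E b j S := by
  obtain ⟨x, y, u, v, hxy, -, -, -, -, -, -, h⟩ := h
  have g0 := w.g_mono t (t + 1) (by omega) (by omega)
  obtain ⟨cy, cy'⟩ := w.γ_mem y t (by omega)
  obtain ⟨cx, cx'⟩ := w.γ_mem x t (by omega)
  refine (h.close (w.vc_of_lnk' (w.lnk2 ht hxy) ht) ?_).mono ?_
  · rintro z ⟨-, -, k | k | k⟩ ⟨-, k1⟩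
    · exact Or.inl (w.inj x z k.1 _ cx (le_antisymm (w.old_row hxy (by omega) k1 k.1) k.2))
    · exact Or.inr (w.inj y z k.1 _ cy
        (le_antisymm (w.old_row hxy.symm (by omega) k1.symm k.1) k.2))
    · have := w.old_θ (by omega) k1
      omega
  · rintro z (hz | hz) <;> exact hz.1

include w in
theorem zig {a : ℕ} (ha : a ≠ 0) (hκ : a * (b + 5) < κ) : ZigIn E b a S := by
  have key : ∀ j, (j + 1) * (b + 5) < κ → w.Inv b (j + 1) (j * (b + 5) + (b + 3)) := by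
    intro j
    induction j with
    | zero => intro h; simpa using w.start (by omega)
    | succ j ih =>
      intro h
      have := w.round (ih (by nlinarith)) (by nlinarith)
      convert this using 1; ring
  obtain ⟨j, rfl⟩ : ∃ j, a = j + 1 := ⟨a - 1, by omega⟩
  exact w.finish (key j hκ) (by nlinarith)

end Web

end Pool.Agent.P.MP_a3bdf6_co
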